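import Pool.Agent.P.MP_c9188c_gt.Gen2
import Pool.Agent.P.MP_6e1b89_gt.Defs

/-!
Codes of points, sets of points, sequences and measures.
-/

open Set Filter Pool.Agent.Lib.Helper87 Pool.Agent.P.MP_6e1b89_gt

namespace Pool.Agent.P.MP_c9188c_gt

theorem mem_cSet {α : Type} {c : α → ZFSet.{0}} {S : Set α} {z : ZFSet} :
    z ∈ cSet c S ↔ ∃ x ∈ S, c x = z := by
  simp [cSet]

theorem mem_cSet_iff {α : Type} {c : α → ZFSet.{0}} {K S : Set α} (hc : InjOn c K) (hS : S ⊆ K)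
    {x : α} (hx : x ∈ K) : c x ∈ cSet c S ↔ x ∈ S := by
  rw [mem_cSet]
  exact ⟨fun ⟨y, hy, e⟩ => hc (hS hy) hx e ▸ hy, fun h => ⟨x, h, rfl⟩⟩

theorem cSet_injOn {α : Type} {c : α → ZFSet.{0}} {K : Set α} (hc : InjOn c K) :
    InjOn (cSet c) (𝒫 K) := fun S hS S' hS' h => by
  ext x
  exact ⟨fun hx => (mem_cSet_iff hc hS' (hS hx)).1 (h ▸ mem_cSet.2 ⟨x, hx, rfl⟩),
    fun hx => (mem_cSet_iff hc hS (hS' hx)).1 (h ▸ mem_cSet.2 ⟨x, hx, rfl⟩)⟩

theorem mem_cFun {α β : Type} {c : α → ZFSet.{0}} {e : β → ZFSet.{0}} {S : Set α} {f : α → β}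
    {z : ZFSet} : z ∈ cFun c e S f ↔ ∃ x ∈ S, (c x).pair (e (f x)) = z := mem_cSet

theorem cNat_inj : Function.Injective cNat := CodedInj.inj (T := ℕ)

/-- function application -/
noncomputable def app (f a : ZFSet.{0}) : ZFSet.{0} :=
  ZFSet.sep (fun z => ∃ y ∈ f.sUnion.sUnion, a.pair y ∈ f ∧ z ∈ y) f.sUnion.sUnion.sUnion

theorem app_cFun {α β : Type} {c : α → ZFSet.{0}} {S : Set α} (hc : InjOn c S)
    {e : β → ZFSet.{0}} {f : α → β} {x : α} (hx : x ∈ S) :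
    app (cFun c e S f) (c x) = e (f x) := by
  have h1 : (c x).pair (e (f x)) ∈ cFun c e S f := mem_cFun.2 ⟨x, hx, rfl⟩
  have h2 : e (f x) ∈ (cFun c e S f).sUnion.sUnion :=
    ZFSet.mem_sUnion.2 ⟨{c x, e (f x)}, ZFSet.mem_sUnion.2 ⟨_, h1, by simp [ZFSet.pair]⟩, by simp⟩
  ext z
  rw [app, ZFSet.mem_sep]
  constructor
  · rintro ⟨-, y, -, h3, h4⟩
    obtain ⟨x', h5, e⟩ := mem_cFun.1 h3
    rw [ZFSet.pair_inj] at e
    rwa [← hc h5 hx e.1, e.2]
  · exact fun hz => ⟨ZFSet.mem_sUnion.2 ⟨_, h2, hz⟩, _, h2, h1, hz⟩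

/-- codes of rational numbers -/
noncomputable def cRat (q : ℚ) : ZFSet.{0} :=
  ZFSet.pair (cNat q.num.toNat) (ZFSet.pair (cNat (-q.num).toNat) (cNat q.den))

theorem cRat_mem {q : ℚ} {r : ℝ} : cRat q ∈ cReal r ↔ (q : ℝ) < r :=
  mem_cSet_iff (K := univ) (c := cRat) (fun q _ r _ e => by
    simp only [cRat, ZFSet.pair_inj, cNat_inj.eq_iff] at e
    exact Rat.ext (by omega) e.2.2) (subset_univ _) trivial

open Classical in
/-- decoding of real numbers -/
noncomputable def rdec (z : ZFSet.{0}) : ℝ :=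
  (⨆ q : ℚ, if cRat q ∈ z then ((q : ℝ) : EReal) else ⊥).toReal

theorem rdec_cReal (r : ℝ) : rdec (cReal r) = r := by
  classical
  have : (⨆ q : ℚ, if cRat q ∈ cReal r then ((q : ℝ) : EReal) else ⊥) = r := by
    refine le_antisymm (iSup_le fun q => ?_) (le_of_forall_lt fun c hc => ?_)
    · split_ifs with h
      exacts [EReal.coe_le_coe_iff.2 (cRat_mem.1 h).le, bot_le]
    · obtain ⟨q, h1, h2⟩ := EReal.lt_iff_exists_rat_btwn.1 hc
      refine h1.trans_le (le_iSup_of_le q ?_)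
      rw [if_pos (cRat_mem.2 (EReal.coe_lt_coe_iff.1 h2))]
  rw [rdec]
  exact (congrArg EReal.toReal this).trans (EReal.toReal_coe r)

section named
variable {P : Type} [Preorder P] {Y f a : World P → ZFSet.{0}}

theorem named_bex (hY : Named Y) {Φ : ZFSet.{0} → World P → Prop}
    (hΦ : ∀ y, Named y → Measurable fun w => Φ (y w) w) :
    Measurable fun w => ∃ x ∈ Y w, Φ x w := by
  obtain ⟨J, x, Ψ, h1, h2, h3⟩ := hY.exists_index
  refine (measurable_ex_in fun j => (h2 j).and (hΦ _ (h1 j))).congr_ev (h3.mono fun w hw => ?_)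
  constructor
  · rintro ⟨z, a1, a2⟩
    obtain ⟨j, b1, b2, rfl⟩ := (hw z).1 a1
    exact ⟨j, b1, b2, a2⟩
  · exact fun ⟨j, b1, b2, a2⟩ => ⟨_, (hw _).2 ⟨j, b1, b2, rfl⟩, a2⟩

theorem named_sep (hY : Named Y) {Φ : ZFSet.{0} → World P → Prop}
    (hΦ : ∀ y, Named y → Measurable fun w => Φ (y w) w) :
    Named fun w => ZFSet.sep (fun x => Φ x w) (Y w) := by
  obtain ⟨J, x, Ψ, h1, h2, h3⟩ := hY.exists_index
  refine named_of_mem_iff h1 (fun j => (h2 j).and (hΦ _ (h1 j))) (h3.mono fun w hw z => ?_)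
  rw [ZFSet.mem_sep, hw]
  constructor
  · rintro ⟨⟨j, b1, b2, rfl⟩, a2⟩
    exact ⟨j, b1, ⟨b2, a2⟩, rfl⟩
  · rintro ⟨j, b1, ⟨b2, a2⟩, rfl⟩
    exact ⟨⟨j, b1, b2, rfl⟩, a2⟩

theorem named_sUnion (hY : Named Y) : Named fun w => (Y w).sUnion := by
  obtain ⟨J, x, Ψ, h1, h2, h3⟩ := hY.exists_index
  choose J' u Θ a1 a2 a3 using fun j => (h1 j).exists_index
  refine named_of_mem_iff (I := Σ j, J' j) (x := fun k => u k.1 k.2) (fun k => a1 _ _)
    (Φ := fun k w => Ψ k.1 w ∧ Θ k.1 k.2 w) (fun k => (h2 _).and (a2 _ _)) ?_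
  filter_upwards [h3, ev_all a3, ev_in_sigma J'] with w b1 b2 b3 z
  rw [ZFSet.mem_sUnion]
  constructor
  · rintro ⟨y, c1, c2⟩
    obtain ⟨j, d1, d2, rfl⟩ := (b1 y).1 c1
    obtain ⟨k, d3, d4, rfl⟩ := (b2 j d1 z).1 c2
    exact ⟨⟨j, k⟩, (b3 _).2 ⟨d1, d3⟩, ⟨d2, d4⟩, rfl⟩
  · rintro ⟨⟨j, k⟩, c1, ⟨c2, c3⟩, rfl⟩
    have := (b3 _).1 c1
    exact ⟨_, (b1 _).2 ⟨j, this.1, c2, rfl⟩, (b2 j this.1 _).2 ⟨k, this.2, c3, rfl⟩⟩

theorem named_app (hf : Named f) (ha : Named a) : Named fun w => app (f w) (a w) :=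
  named_sep (named_sUnion (named_sUnion (named_sUnion hf)))
    (Φ := fun z w => ∃ y ∈ (f w).sUnion.sUnion, (a w).pair y ∈ f w ∧ z ∈ y) fun _ hz =>
    named_bex (named_sUnion (named_sUnion hf))
      (Φ := fun y w => (a w).pair y ∈ f w ∧ _ ∈ y) fun _ hy =>
      ((ha.pair hy).measurable_mem hf).and (hz.measurable_mem hy)

theorem named_cNat (n : ℕ) : Named fun _ : World P => cNat n := named_nat n

theorem meas_rdec (hY : Named Y) : Measurable fun w => rdec (Y w) := by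
  classical
  refine measurable_ereal_toReal.comp (Measurable.iSup fun q => Measurable.ite ?_
    measurable_const measurable_const)
  exact measurableSet_setOfPred.2 (Named.measurable_mem (x := fun _ => cRat q)
    ((named_cNat _).pair ((named_cNat _).pair (named_cNat _))) hY)

theorem named_cSet {J α : Type} {c : World P → α → ZFSet.{0}} {g : J → World P → α}
    (hg : ∀ j, Named fun w => c w (g j w)) {Φ : J → World P → Prop} (hΦ : ∀ j, Measurable (Φ j))
    {S : World P → Set α}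
    (hS : ∀ᶠ w in gen P, ∀ x, x ∈ S w ↔ ∃ j, w.In j ∧ Φ j w ∧ g j w = x) :
    Named fun w => cSet (c w) (S w) := by
  refine named_of_mem_iff hg hΦ (hS.mono fun w hw z => ?_)
  simp only [mem_cSet, hw]
  constructor
  · rintro ⟨_, ⟨j, a1, a2, rfl⟩, rfl⟩
    exact ⟨j, a1, a2, rfl⟩
  · rintro ⟨j, a1, a2, rfl⟩
    exact ⟨_, ⟨j, a1, a2, rfl⟩, rfl⟩

theorem named_cSeq {β : Type} {e : World P → β → ZFSet.{0}} {s : World P → ℕ → β}
    (hs : ∀ n, Named fun w => e w (s w n)) : Named fun w => cFun cNat (e w) univ (s w) :=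
  named_cSet (c := fun w n => (cNat n).pair (e w (s w n))) (g := fun n _ => n)
    (fun n => (named_cNat n).pair (hs n)) (Φ := fun _ _ => True) (fun _ => measurable_const)
    ((ev_ctype ℕ).mono fun w h x => by simp [h])

end named

variable {I : Type} [LinearOrder I] [WellFoundedLT I] {π : Par I} {θ : I}

/-- codes of labels -/
noncomputable def lc (w : World (At π θ)) : ℕ ⊕ I → ZFSet.{0}
  | .inl m => (cNat 0).pair (cNat m)
  | .inr γ => (cNat 1).pair (w.ord γ)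

/-- codes of points -/
noncomputable def pc (w : World (At π θ)) (x : Pt I) : ZFSet.{0} :=
  cSet (lc w) {l | w.In l ∧ x l = true}

/-- the space -/
def KK (w : World (At π θ)) : Set (Pt I) := {x | Con π θ (dat w) x ∧ pc w x ∈ w.M}

/-- labels in the countable set -/
def Nice (w : World (At π θ)) : Prop :=
  (∀ m, w.In (.inl m : ℕ ⊕ I)) ∧ ∀ γ, w.In (.inr γ : ℕ ⊕ I) ↔ w.In γ

theorem ev_nice : ∀ᶠ w in gen (At π θ), Nice w := by
  filter_upwards [ev_in_sum ℕ I, ev_ctype ℕ] with w h1 h2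
  exact ⟨fun m => (h1.1 m).2 (h2 m), h1.2⟩

theorem Nice.lc_inj {w : World (At π θ)} (h : Nice w) : InjOn (lc w) {l | w.In l} := by
  rintro (m | a) h1 (m' | b) h2 e <;> simp only [lc, ZFSet.pair_inj, cNat_inj.eq_iff] at e
  · rw [e.2]
  · omega
  · omega
  · rw [(w.ord_inj ((h.2 a).1 h1) ((h.2 b).1 h2)).1 e.2]

theorem Nice.norm {w : World (At π θ)} (h : Nice w) {x : Pt I} (hx : Con π θ (dat w) x)
    {l : ℕ ⊕ I} (hl : x l = true) : w.In l := by
  rcases l with m | γ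
  exacts [h.1 m, (h.2 γ).2 (hx.act γ hl).mem]

theorem Nice.pc_inj {w : World (At π θ)} (h : Nice w) : InjOn (pc w) (KK w) := by
  intro x hx y hy e
  have := cSet_injOn h.lc_inj (fun _ h => h.1) (fun _ h => h.1) e
  funext l
  rw [Bool.eq_iff_iff]
  exact ⟨fun a => (this.subset ⟨h.norm hx.1 a, a⟩).2, fun a => (this.superset ⟨h.norm hy.1 a, a⟩).2⟩

theorem named_lc (l : ℕ ⊕ I) : Named fun w : World (At π θ) => lc w l := by
  rcases l with m | γ
  exacts [(named_cNat 0).pair (named_cNat m), (named_cNat 1).pair (named_ord γ)]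

/-- named points -/
def NP (x : World (At π θ) → Pt I) : Prop :=
  (∀ l, Measurable fun w => x w l) ∧ ∀ᶠ w in gen (At π θ), ∀ l, x w l = true → w.In l

theorem NP.named {x : World (At π θ) → Pt I} (h : NP x) : Named fun w => pc w (x w) :=
  named_cSet (g := fun l _ => l) named_lc (Φ := fun l w => x w l = true)
    (fun l => (h.1 l).eq_const _) (Eventually.of_forall fun w l => by simp)

theorem meas_decide {W : Type*} [MeasurableSpace W] {Φ : W → Prop} [DecidablePred Φ]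
    (h : Measurable Φ) : Measurable fun w => decide (Φ w) := by
  refine measurable_to_bool ?_
  have : (fun w => decide (Φ w)) ⁻¹' {true} = {w | Φ w} := by ext; simp
  exact this ▸ measurableSet_setOfPred.2 h

theorem meas_in {T : Type} (a : T) : Measurable fun w : World (At π θ) => w.In a := me_in a _

open Classical in
/-- values of names of points -/
noncomputable def val (w : World (At π θ)) (c : ℕ ⊕ I → Set (At π θ)) : Pt I :=
  fun l => decide (w.In l ∧ w.Hit (c l))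

theorem np_val (c : ℕ ⊕ I → Set (At π θ)) : NP fun w => val w c := by
  classical
  exact ⟨fun l => meas_decide ((meas_in l).and (measurable_hit _)),
    Eventually.of_forall fun w l h => (of_decide_eq_true h).1⟩

theorem ev_exists_val : ∀ᶠ w in gen (At π θ), ∀ x ∈ KK w, ∃ c, w.In c ∧ val w c = x := by
  classical
  have : ∀ᶠ w in gen (At π θ), ∀ z ∈ w.M, ∃ c : ℕ ⊕ I → Set (At π θ), w.In c ∧
      ∀ l, w.In l → (w.Hit (c l) ↔ lc w l ∈ z) := ev_all_named fun z hz => by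
    filter_upwards [ev_const fun l => {p | Sem p fun w => lc w l ∈ z w},
      ev_all fun l => ev_hit_sem ((named_lc l).measurable_mem hz)] with w h1 h2 using ⟨_, h1, h2⟩
  filter_upwards [this, ev_nice] with w h1 h2 x hx
  obtain ⟨c, a1, a2⟩ := h1 _ hx.2
  refine ⟨c, a1, funext fun l => ?_⟩
  rw [Bool.eq_iff_iff, val, decide_eq_true_eq]
  exact ⟨fun h => ((mem_cSet_iff h2.lc_inj (fun _ h => h.1) h.1).1 ((a2 l h.1).1 h.2)).2,
    fun h => ⟨h2.norm hx.1 h, (a2 l (h2.norm hx.1 h)).2 (mem_cSet.2 ⟨l, ⟨h2.norm hx.1 h, h⟩, rfl⟩)⟩⟩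

theorem ev_allK {Φ : Pt I → World (At π θ) → Prop}
    (h : ∀ x, NP x → ∀ᶠ w in gen (At π θ), Φ (x w) w) :
    ∀ᶠ w in gen (At π θ), ∀ x ∈ KK w, Φ x w := by
  filter_upwards [ev_exists_val, ev_all fun c => h _ (np_val c)] with w h1 h2 x hx
  obtain ⟨c, a1, rfl⟩ := h1 x hx
  exact h2 c a1

theorem NP.meas_T {x : World (At π θ) → Pt I} (h : NP x) (ζ : I) (l : ℕ ⊕ I) :
    Measurable fun w => T π (dat w) ζ l (!x w l) := by
  have : Measurable fun w => ∃ i, x w l = i ∧ T π (dat w) ζ l (!i) :=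
    Measurable.exists fun i => ((h.1 l).eq_const i).and (me_T π _ _ _ _)
  simpa only [exists_eq_left'] using this

theorem NP.meas_con {x : World (At π θ) → Pt I} (h : NP x) :
    Measurable fun w => Con π θ (dat w) (x w) := by
  refine ((measurable_all_in fun γ => ((h.1 (.inr γ)).eq_const true).imp (me_act π θ γ _)).and
    ((Measurable.forall fun m => Measurable.forall fun m' => ((h.1 (.inl m)).eq_const true).imp
      (((h.1 (.inl m')).eq_const true).imp (measurable_const (a := m = m')))).and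
    (measurable_all_in fun ζ => (me_act π θ ζ _).imp (Measurable.forall fun j =>
      (measurable_first (fun n y => me_ent ζ n y _) (fun e => h.meas_T ζ (lab π ζ e)) j).imp
        ((h.1 (.inr ζ)).eq_const j))))).congr_ev ((ev_nice.and h.2).mono fun w hw => ?_)
  exact ⟨fun a => ⟨fun γ _ => a.act γ, a.one, fun ζ _ => a.fst ζ⟩,
    fun a => ⟨fun γ b => a.1 γ ((hw.1.2 γ).1 (hw.2 _ b)) b, a.2.1, fun ζ b => a.2.2 ζ b.mem b⟩⟩

/-- named sets of points -/
def NS (A : World (At π θ) → Set (Pt I)) : Prop :=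
  (∀ w, A w ⊆ KK w) ∧ ∀ x, NP x → Measurable fun w => x w ∈ A w

theorem ns_K : NS (KK : World (At π θ) → Set (Pt I)) :=
  ⟨fun _ => Subset.rfl, fun _ hx => hx.meas_con.congr_ev
    (hx.named.ev_mem.mono fun _ h => and_iff_left h)⟩

theorem ns_sep {Φ : Pt I → World (At π θ) → Prop}
    (h : ∀ x, NP x → Measurable fun w => Φ (x w) w) : NS fun w => {x ∈ KK w | Φ x w} :=
  ⟨fun _ => sep_subset _ _, fun x hx => (ns_K.2 x hx).and (h x hx)⟩

theorem meas_exK {Φ : Pt I → World (At π θ) → Prop}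
    (h : ∀ x, NP x → Measurable fun w => Φ (x w) w) :
    Measurable fun w => ∃ x ∈ KK w, Φ x w := by
  refine (measurable_ex_in fun c => (ns_K.2 _ (np_val c)).and (h _ (np_val c))).congr_ev
    (ev_exists_val.mono fun w hw => ⟨fun ⟨x, a1, a2⟩ => ?_, fun ⟨_, _, a⟩ => ⟨_, a⟩⟩)
  obtain ⟨c, b1, rfl⟩ := hw x a1
  exact ⟨c, b1, a1, a2⟩

theorem meas_allK {Φ : Pt I → World (At π θ) → Prop}
    (h : ∀ x, NP x → Measurable fun w => Φ (x w) w) :
    Measurable fun w => ∀ x ∈ KK w, Φ x w := by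
  have := (meas_exK (Φ := fun x w => ¬ Φ x w) fun x hx => (h x hx).not).not
  simpa using this

section ns
variable {A B : World (At π θ) → Set (Pt I)}

theorem NS.named (h : NS A) : Named fun w => cSet (pc w) (A w) :=
  named_cSet (g := fun c w => val w c) (fun c => (np_val c).named)
    (Φ := fun c w => val w c ∈ A w) (fun c => h.2 _ (np_val c))
    (ev_exists_val.mono fun w hw x => ⟨fun hx => by
      obtain ⟨c, a1, rfl⟩ := hw x (h.1 w hx)
      exact ⟨c, a1, hx, rfl⟩, fun ⟨_, _, a, e⟩ => e ▸ a⟩)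

theorem NS.ev_mem (h : NS A) : ∀ᶠ w in gen (At π θ), cSet (pc w) (A w) ∈ w.M := h.named.ev_mem

theorem NS.inter (h : NS A) (h' : NS B) : NS fun w => A w ∩ B w :=
  ⟨fun w => inter_subset_left.trans (h.1 w), fun x hx => (h.2 x hx).and (h'.2 x hx)⟩

theorem NS.union (h : NS A) (h' : NS B) : NS fun w => A w ∪ B w :=
  ⟨fun w => union_subset (h.1 w) (h'.1 w), fun x hx => (h.2 x hx).or (h'.2 x hx)⟩

theorem NS.diff (h : NS A) (h' : NS B) : NS fun w => A w \ B w :=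
  ⟨fun w => sdiff_subset.trans (h.1 w), fun x hx => (h.2 x hx).and (h'.2 x hx).not⟩

theorem ns_empty : NS fun _ : World (At π θ) => (∅ : Set (Pt I)) :=
  ⟨fun _ => empty_subset _, fun _ _ => measurable_const⟩

theorem ns_iUnion {s : World (At π θ) → ℕ → Set (Pt I)} (h : ∀ n, NS fun w => s w n) :
    NS fun w => ⋃ n, s w n :=
  ⟨fun w => iUnion_subset fun n => (h n).1 w, fun x hx => by
    simpa only [mem_iUnion] using Measurable.exists fun n => (h n).2 x hx⟩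

theorem NS.meas_subset (h : NS A) (h' : NS B) : Measurable fun w => A w ⊆ B w :=
  (meas_allK (Φ := fun x w => x ∈ A w → x ∈ B w)
    fun x hx => (h.2 x hx).imp (h'.2 x hx)).congr_ev (Eventually.of_forall fun w =>
      ⟨fun a _ _ b => a b, fun a _ b => a _ (h.1 w b) b⟩)

end ns

theorem ns_dec {z : World (At π θ) → ZFSet.{0}} (hz : Named z) :
    NS fun w => {x ∈ KK w | pc w x ∈ z w} :=
  ns_sep (Φ := fun x w => pc w x ∈ z w) fun _ hx => hx.named.measurable_mem hz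

theorem Nice.dec {w : World (At π θ)} (h : Nice w) {A : Set (Pt I)} (hA : A ⊆ KK w) :
    {x ∈ KK w | pc w x ∈ cSet (pc w) A} = A := by
  ext x
  exact ⟨fun a => (mem_cSet_iff h.pc_inj hA a.1).1 a.2, fun a => ⟨hA a, mem_cSet.2 ⟨x, a, rfl⟩⟩⟩

theorem ev_all_set {Φ : Set (Pt I) → World (At π θ) → Prop}
    (h : ∀ A, NS A → ∀ᶠ w in gen (At π θ), Φ (A w) w) :
    ∀ᶠ w in gen (At π θ), ∀ A ⊆ KK w, cSet (pc w) A ∈ w.M → Φ A w := by
  filter_upwards [ev_nice, ev_all_named (Φ := fun z w => Φ {x ∈ KK w | pc w x ∈ z} w)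
    fun z hz => h _ (ns_dec hz)] with w h1 h2 A a1 a2
  exact h1.dec a1 ▸ h2 _ a2

theorem named_seq {s : World (At π θ) → ℕ → Set (Pt I)} (h : ∀ n, NS fun w => s w n) :
    ∀ᶠ w in gen (At π θ), cFun cNat (cSet (pc w)) univ (s w) ∈ w.M :=
  (named_cSeq (e := fun w => cSet (pc w)) fun n => (h n).named).ev_mem

theorem ev_all_seq {Φ : (ℕ → Set (Pt I)) → World (At π θ) → Prop}
    (h : ∀ s : World (At π θ) → ℕ → Set (Pt I), (∀ n, NS fun w => s w n) →
      ∀ᶠ w in gen (At π θ), Φ (s w) w) :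
    ∀ᶠ w in gen (At π θ), ∀ s : ℕ → Set (Pt I), (∀ n, s n ⊆ KK w) →
      cFun cNat (cSet (pc w)) univ s ∈ w.M → Φ s w := by
  filter_upwards [ev_nice, ev_all_named
    (Φ := fun z w => Φ (fun n => {x ∈ KK w | pc w x ∈ app z (cNat n)}) w)
    fun z hz => h _ fun n => ns_dec (named_app hz (named_cNat n))] with w h1 h2 s a1 a2
  have := h2 _ a2
  simp only [app_cFun cNat_inj.injOn (mem_univ _), h1.dec (a1 _)] at this
  exact this

/-- names of sets of points -/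
abbrev TN (π : Par I) (θ : I) : Type := (ℕ ⊕ I → Set (At π θ)) → Set (At π θ)

/-- values of names of sets of points -/
def val2 (w : World (At π θ)) (δ : TN π θ) : Set (Pt I) :=
  {x ∈ KK w | ∃ c, w.In c ∧ w.Hit (δ c) ∧ val w c = x}

theorem NP.meas_eq {x y : World (At π θ) → Pt I} (hx : NP x) (hy : NP y) :
    Measurable fun w => x w = y w := by
  refine (measurable_all_in fun l => (hx.1 l).eq (hy.1 l)).congr_ev ((hx.2.and hy.2).mono
    fun w hw => ⟨fun h _ _ => h ▸ rfl, fun h => funext fun l => ?_⟩)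
  by_cases hl : w.In l
  · exact h l hl
  · rw [Bool.eq_false_iff.2 fun e => hl (hw.1 l e), Bool.eq_false_iff.2 fun e => hl (hw.2 l e)]

theorem ns_val2 (δ : TN π θ) : NS fun w => val2 w δ :=
  ns_sep (Φ := fun x w => ∃ c, w.In c ∧ w.Hit (δ c) ∧ val w c = x) fun _ hx =>
    measurable_ex_in fun c => (measurable_hit _).and ((np_val c).meas_eq hx)

theorem ev_exists_val2 : ∀ᶠ w in gen (At π θ), ∀ A ⊆ KK w, cSet (pc w) A ∈ w.M →
    ∃ δ, w.In δ ∧ val2 w δ = A := ev_all_set fun A hA => by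
  filter_upwards [ev_exists_val, ev_const (T := TN π θ) fun c => {p | Sem p fun w => val w c ∈ A w},
    ev_all fun c => ev_hit_sem (hA.2 _ (np_val c))] with w h1 h2 h3
  refine ⟨_, h2, Subset.antisymm ?_ fun x hx => ?_⟩
  · rintro x ⟨-, c, a1, a2, rfl⟩
    exact (h3 c a1).1 a2
  · obtain ⟨c, a1, rfl⟩ := h1 x (hA.1 w hx)
    exact ⟨hA.1 w hx, c, a1, (h3 c a1).2 hx, rfl⟩

theorem ev_val2_mem : ∀ᶠ w in gen (At π θ), ∀ δ, w.In δ → cSet (pc w) (val2 w δ) ∈ w.M :=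
  ev_all fun δ => (ns_val2 δ).ev_mem

/-- choice -/
theorem exists_choice {J : Type} {Φ : J → World (At π θ) → Prop} (h : ∀ j, Measurable (Φ j)) :
    ∃ Ψ : J → World (At π θ) → Prop, (∀ j, Measurable (Ψ j)) ∧ (∀ j w, Ψ j w → Φ j w) ∧
      (∀ w, (∃ j, w.In j ∧ Φ j w) → ∃ j, w.In j ∧ Ψ j w) ∧
      ∀ w j j', w.In j → w.In j' → Ψ j w → Ψ j' w → j = j' := by
  refine ⟨fun j w => Φ j w ∧ ∀ j', w.In j' → WellOrderingRel j' j → ¬ Φ j' w,
    fun j => (h j).and (measurable_all_in fun j' => measurable_const.imp (h j').not),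
    fun _ _ h => h.1, fun w hw => ?_, fun w j j' a1 a2 a3 a4 => ?_⟩
  · obtain ⟨j, a1, a2⟩ := (IsWellFounded.wf (r := WellOrderingRel)).has_min
      {j | w.In j ∧ Φ j w} hw
    exact ⟨j, a1.1, a1.2, fun j' b1 b2 b3 => a2 j' ⟨b1, b3⟩ b2⟩
  · rcases trichotomous_of WellOrderingRel j j' with h | h | h
    exacts [absurd a3.1 (a4.2 j a1 h), h, absurd a4.1 (a3.2 j' a2 h)]

theorem exists_choice_set {J : Type} {Φ : J → World (At π θ) → Prop} (h : ∀ j, Measurable (Φ j)) :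
    ∃ sel : (J → World (At π θ) → Set (Pt I)) → World (At π θ) → Set (Pt I),
      (∀ A, (∀ j, NS (A j)) → NS (sel A)) ∧ ∀ w, ((∃ j, w.In j ∧ Φ j w) →
        ∃ j, w.In j ∧ Φ j w ∧ ∀ A, sel A w = A j w) ∧
        ((¬ ∃ j, w.In j ∧ Φ j w) → ∀ A, sel A w = ∅) := by
  obtain ⟨Ψ, h1, h2, h3, h4⟩ := exists_choice h
  refine ⟨fun A w => {x | ∃ j, w.In j ∧ Ψ j w ∧ x ∈ A j w}, fun A hA =>
    ⟨fun w x ⟨j, _, _, a⟩ => (hA j).1 w a, fun x hx =>
      measurable_ex_in fun j => (h1 j).and ((hA j).2 x hx)⟩, fun w => ⟨fun hw => ?_, fun hw A =>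
      eq_empty_of_forall_notMem fun x ⟨j, a1, a2, _⟩ => hw ⟨j, a1, h2 j w a2⟩⟩⟩
  obtain ⟨j, a1, a2⟩ := h3 w hw
  exact ⟨j, a1, h2 j w a2, fun A => Subset.antisymm
    (fun x ⟨j', b1, b2, b3⟩ => h4 w j' j b1 a1 b2 a2 ▸ b3) fun x hx => ⟨j, a1, a2, hx⟩⟩

/-- named measures -/
def NM (μ : World (At π θ) → Set (Pt I) → ℝ) : Prop :=
  ∀ A, NS A → Measurable fun w => μ w (A w)

end Pool.Agent.P.MP_c9188c_gt
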