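import Pool.Agent.P.MP_c9188c_gt.Defs

/-!
Versions of the topological notions for a subset of a type.
-/

open Set Filter Pool.Agent.P.MP_6e1b89_gt

namespace Pool.Agent.P.MP_c9188c_gt

variable (M : Set ZFSet.{0}) {X : Type} (c : X → ZFSet.{0}) (K : Set X) (𝒯 : Set (Set X))

/-- Hausdorff topologies on `K` -/
def HausK : Prop :=
  K ∈ 𝒯 ∧ (∀ U ∈ 𝒯, ∀ V ∈ 𝒯, U ∩ V ∈ 𝒯) ∧
    (∀ 𝒰 ⊆ 𝒯, cSet (cSet c) 𝒰 ∈ M → ⋃₀ 𝒰 ∈ 𝒯) ∧
    ∀ x ∈ K, ∀ y ∈ K, x ≠ y → ∃ U ∈ 𝒯, ∃ V ∈ 𝒯, x ∈ U ∧ y ∈ V ∧ Disjoint U V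

/-- Borel subsets of `K` -/
def BorK : Set (Set X) :=
  {B | B ⊆ K ∧ ∀ 𝒜 ⊆ 𝒫 K, cSet (cSet c) 𝒜 ∈ M → 𝒯 ⊆ 𝒜 → (∀ A ∈ 𝒜, K \ A ∈ 𝒜) →
    (∀ s : ℕ → Set X, cFun cNat (cSet c) univ s ∈ M → (∀ n, s n ∈ 𝒜) → ⋃ n, s n ∈ 𝒜) →
    B ∈ 𝒜}

/-- measures on `K` -/
def MeasK (μ : Set X → ℝ) : Prop :=
  cFun (cSet c) cReal (BorK M c K 𝒯) μ ∈ M ∧ (∀ B ∈ BorK M c K 𝒯, 0 ≤ μ B) ∧
    ∀ s : ℕ → Set X, cFun cNat (cSet c) univ s ∈ M → (∀ n, s n ∈ BorK M c K 𝒯) →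
      Pairwise (fun m n => Disjoint (s m) (s n)) → HasSum (fun n => μ (s n)) (μ (⋃ n, s n))

/-- `K` is Radon -/
def RadK : Prop :=
  ∀ μ : Set X → ℝ, MeasK M c K 𝒯 μ → ∀ B ∈ BorK M c K 𝒯, ∀ r < μ B,
    ∃ C ∈ BorK M c K 𝒯, C ⊆ B ∧ CompactIn M c 𝒯 C ∧ r < μ C

/-- `K` is sequential -/
def SeqK : Prop :=
  ∀ A ⊆ K, cSet c A ∈ M →
    (∀ s : ℕ → X, cFun cNat c univ s ∈ M → (∀ n, s n ∈ A) →
      ∀ x ∈ K, (∀ U ∈ 𝒯, x ∈ U → ∀ᶠ n in atTop, s n ∈ U) → x ∈ A) → K \ A ∈ 𝒯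

variable {M c K 𝒯}

theorem cSet_image {α β : Type} (e : β → ZFSet.{0}) (f : α → β) (S : Set α) :
    cSet e (f '' S) = cSet (fun a => e (f a)) S := by
  ext z
  simp [cSet]

theorem cSet_congr {α : Type} {e e' : α → ZFSet.{0}} {S : Set α} (h : ∀ a ∈ S, e a = e' a) :
    cSet e S = cSet e' S := by
  ext z
  simp only [cSet, ZFSet.mem_range, Subtype.exists]
  exact exists_congr fun a => exists_congr fun ha => by rw [h a ha]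

theorem transfer (hc : InjOn c K) (h0 : 𝒯 ⊆ 𝒫 K) (h1 : cSet c K ∈ M) (h2 : cSet (cSet c) 𝒯 ∈ M)
    (h3 : HausK M c K 𝒯) (h4 : CompactIn M c 𝒯 K) (h5 : RadK M c K 𝒯) (h6 : ¬ SeqK M c K 𝒯) :
    ∃ (Y : Type) (e : Y → ZFSet.{0}) (𝒮 : Set (Set Y)), Function.Injective e ∧
      cSet e univ ∈ M ∧ cSet (cSet e) 𝒮 ∈ M ∧ HausdorffIn M e 𝒮 ∧ CompactIn M e 𝒮 univ ∧
      RadonIn M e 𝒮 ∧ ¬ SequentialIn M e 𝒮 := by
  let im : Set K → Set X := fun U => Subtype.val '' U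
  let e : K → ZFSet := fun x => c x
  have inj : Function.Injective im := Subtype.val_injective.image_injective
  have sub : ∀ U, im U ⊆ K := fun U => Subtype.coe_image_subset K U
  have sur : ∀ A ⊆ K, im (Subtype.val ⁻¹' A) = A := fun A hA => by
    simpa [im] using hA
  have c1 : ∀ U, cSet e U = cSet c (im U) := fun U => (cSet_image c _ U).symm
  have c2 : ∀ 𝒰, cSet (cSet e) 𝒰 = cSet (cSet c) (im '' 𝒰) := fun 𝒰 => by
    rw [cSet_image]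
    exact cSet_congr fun a _ => c1 a
  have c3 : ∀ 𝒜 ⊆ 𝒫 K, im '' (im ⁻¹' 𝒜) = 𝒜 := fun 𝒜 h =>
    image_preimage_eq_of_subset fun A hA => ⟨_, sur A (h hA)⟩
  have c4 : ∀ s : ℕ → Set K, cFun cNat (cSet e) univ s =
      cFun cNat (cSet c) univ fun n => im (s n) := fun s => cSet_congr fun n _ => by rw [c1]
  have c5 : ∀ U, im Uᶜ = K \ im U := fun U => by
    simp only [im]
    rw [compl_eq_univ_sdiff, image_sdiff Subtype.val_injective, Subtype.coe_image_univ]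
  have c6 : ∀ s : ℕ → Set K, im (⋃ n, s n) = ⋃ n, im (s n) := fun s => image_iUnion
  have c7 : ∀ s : ℕ → Set X, (∀ n, s n ⊆ K) → ∃ t : ℕ → Set K, s = fun n => im (t n) :=
    fun s h => ⟨fun n => Subtype.val ⁻¹' s n, funext fun n => (sur _ (h n)).symm⟩
  have c8 : ∀ U V, im U ⊆ im V ↔ U ⊆ V := fun U V => image_subset_image_iff Subtype.val_injective
  have c9 : ∀ 𝒰 : Set (Set K), im (⋃₀ 𝒰) = ⋃₀ (im '' 𝒰) := fun 𝒰 => by
    rw [sUnion_image]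
    simp only [im, sUnion_eq_biUnion, image_iUnion]
  have bor : ∀ B, B ∈ BorelIn M e (im ⁻¹' 𝒯) ↔ im B ∈ BorK M c K 𝒯 := fun B => by
    constructor
    · refine fun h => ⟨sub B, fun 𝒜 a1 a2 a3 a4 a5 => h (im ⁻¹' 𝒜) (by rwa [c2, c3 _ a1])
        (preimage_mono a3) (fun A hA => ?_) fun s b1 b2 => ?_⟩
      · rw [mem_preimage, c5]
        exact a4 _ hA
      · rw [mem_preimage, c6]
        exact a5 _ (c4 s ▸ b1) b2
    · intro h 𝒜 a2 a3 a4 a5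
      refine (inj.mem_set_image).1 (h.2 (im '' 𝒜) ?_ (c2 𝒜 ▸ a2) ?_ ?_ fun s b1 b2 => ?_)
      · rintro _ ⟨U, -, rfl⟩
        exact sub U
      · rw [← c3 𝒯 h0]
        exact image_mono a3
      · rintro _ ⟨U, hU, rfl⟩
        exact ⟨_, a4 U hU, c5 U⟩
      · choose t b3 b4 using b2
        obtain rfl : s = fun n => im (t n) := funext fun n => (b4 n).symm
        exact ⟨_, a5 t (c4 t ▸ b1) b3, c6 t⟩
  have cpt : ∀ C, CompactIn M c 𝒯 (im C) → CompactIn M e (im ⁻¹' 𝒯) C := fun C h 𝒰 a1 a2 a3 => by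
    obtain ⟨𝒱, b1, b2, b3⟩ := h (im '' 𝒰) (image_subset_iff.2 a1) (c2 𝒰 ▸ a2)
      (c9 𝒰 ▸ (c8 _ _).2 a3)
    obtain ⟨𝒱, b4, rfl⟩ := subset_image_iff.1 b1
    exact ⟨𝒱, b4, b2.of_finite_image inj.injOn, (c8 _ _).1 (c9 𝒱 ▸ b3)⟩
  have top : im univ = K := Subtype.coe_image_univ K
  refine ⟨K, e, im ⁻¹' 𝒯, fun x y h => Subtype.ext (hc x.2 y.2 h), by rwa [c1, top],
    by rwa [c2, c3 _ h0], ⟨by rw [mem_preimage, top]; exact h3.1, fun U hU V hV => ?_,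
      fun 𝒰 a1 a2 => ?_, fun x y h => ?_⟩, cpt _ (by rwa [top]), fun μ hμ B hB r hr => ?_,
    fun h => h6 fun A a1 a2 a3 => ?_⟩
  · rw [mem_preimage]
    simp only [im]
    rw [image_inter Subtype.val_injective]
    exact h3.2.1 _ hU _ hV
  · rw [mem_preimage, c9]
    exact h3.2.2.1 _ (image_subset_iff.2 a1) (c2 𝒰 ▸ a2)
  · obtain ⟨U, a1, V, a2, a3, a4, a5⟩ := h3.2.2.2 x x.2 y y.2 (Subtype.coe_ne_coe.2 h)
    exact ⟨Subtype.val ⁻¹' U, by rwa [mem_preimage, sur U (h0 a1)], Subtype.val ⁻¹' V,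
      by rwa [mem_preimage, sur V (h0 a2)], a3, a4, a5.preimage _⟩
  · have pre : ∀ U : Set K, Subtype.val ⁻¹' (im U) = U := fun U =>
      preimage_image_eq U Subtype.val_injective
    have hB' : BorK M c K 𝒯 = im '' BorelIn M e (im ⁻¹' 𝒯) := by
      rw [← c3 (BorK M c K 𝒯) fun B h => h.1]
      congr 1
      ext B
      exact (bor B).symm
    obtain ⟨C, a1, a2, a3, a4⟩ := h5 (fun A => μ (Subtype.val ⁻¹' A)) ⟨by
        rw [hB', cFun, cSet_image]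
        simp only [pre, ← c1]
        exact hμ.1, fun A hA => hμ.2.1 _ ((bor _).2 (by rwa [sur A hA.1])), fun s b1 b2 b3 => by
        obtain ⟨t, rfl⟩ := c7 s fun n => (b2 n).1
        simp only [← c6, pre]
        exact hμ.2.2 t (c4 t ▸ b1) (fun n => (bor _).2 (b2 n)) fun m n h =>
          (disjoint_image_iff Subtype.val_injective).1 (b3 h)⟩ _ ((bor B).1 hB) r
      (by simpa only [pre] using hr)
    refine ⟨Subtype.val ⁻¹' C, (bor _).2 (by rwa [sur C a1.1]), (c8 _ _).1 (by rwa [sur C a1.1]),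
      cpt _ (by rwa [sur C a1.1]), a4⟩
  · have := h (Subtype.val ⁻¹' A) (by rwa [c1, sur A a1]) fun s b1 b2 x b3 =>
      a3 (fun n => s n) b1 b2 x x.2 fun U b4 b5 =>
        b3 (Subtype.val ⁻¹' U) (by rwa [mem_preimage, sur U (h0 b4)]) b5
    rwa [mem_preimage, c5, sur A a1] at this

end Pool.Agent.P.MP_c9188c_gt
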