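import Pool.Agent.P.MP_c9188c_gt.Order

/-!
Determined conditions, amalgamation and the countable chain condition.
-/

open Set Filter Pool.Agent.Lib.Helper87

namespace Pool.Agent.P.MP_c9188c_gt

variable {I : Type} [LinearOrder I] [WellFoundedLT I] {π : Par I}

variable (π) in
/-- `p` decides `Ψ` at stage `ξ` -/
def Dec (ξ : I) (p : Cond I) (Ψ : Dat I → Prop) : Prop := F π ξ p Ψ ∨ F π ξ p fun d => ¬ Ψ d

theorem Dec.mono {ξ : I} {p q : Cond I} {Ψ : Dat I → Prop} (h : Dec π ξ p Ψ)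
    (hq : LeB π ξ q p) : Dec π ξ q Ψ := h.imp (·.mono hq) (·.mono hq)

theorem exists_dec {α : Type} {s : Set α} (hs : s.Finite) {Ψ : α → Dat I → Prop}
    (h : ∀ a, Me (Ψ a)) (ξ : I) (p : Cond I) : ∃ q, LeB π ξ q p ∧ ∀ a ∈ s, Dec π ξ q (Ψ a) := by
  induction s, hs using Set.Finite.induction_on with
  | empty => exact ⟨p, LeB.refl _ _, by simp⟩
  | @insert a s _ _ ih =>
    obtain ⟨q, h1, h2⟩ := ih
    obtain ⟨r, h3, h4⟩ := (h a).decides (π := π) ξ q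
    refine ⟨r, h3.trans h1, fun b hb => ?_⟩
    rcases hb with rfl | hb
    exacts [h4, (h2 b hb).mono h3]

variable (π) in
/-- determined conditions -/
def Det (θ : I) (p : Cond I) : Prop :=
  ∀ ξ < θ, (∀ x ∈ (p ξ).H, ∀ i, Dec π ξ p fun d => Br π d ξ x.1 i) ∧
    ∀ x ∈ (p ξ).l, ∀ i, Dec π ξ p fun d => T π d ξ (lab π ξ x.1) i

theorem exists_det (θ : I) (p : Cond I) : ∃ q, LeB π θ q p ∧ Det π θ q := by
  induction θ using WellFoundedLT.induction generalizing p with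
  | ind θ ih =>
  rcases (p.support.filter (· < θ)).eq_empty_or_nonempty with h | h
  · refine ⟨p, LeB.refl _ _, fun ξ hξ => ?_⟩
    have : p ξ = 0 := by
      by_contra hc
      exact Finset.eq_empty_iff_forall_notMem.1 h ξ (by simp [hc, hξ])
    simp [this]
  · obtain ⟨η, h1, h2⟩ := Finset.exists_max_image _ id h
    have hη : η < θ := (Finset.mem_filter.1 h1).2
    obtain ⟨q1, a1, a2⟩ := exists_dec (π := π)
      (((p η).H.finite_toSet).prod (toFinite (univ : Set Bool)))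
      (Ψ := fun x d => Br π d η x.1.1 x.2) (fun _ => me_br π _ _ _) η p
    obtain ⟨q2, a3, a4⟩ := exists_dec (π := π)
      ((List.finite_toSet (p η).l).prod (toFinite (univ : Set Bool)))
      (Ψ := fun x d => T π d η (lab π η x.1.1) x.2) (fun _ => me_T π _ _ _) η q1
    obtain ⟨q, a5, a6⟩ := ih η hη q2
    refine ⟨gl η q p, gl_le (a5.trans (a3.trans a1)) θ, fun ξ hξ => ?_⟩
    rcases lt_trichotomy ξ η with h3 | rfl | h3
    · rw [gl_lt _ _ h3]
      have := (gl_leB (π := π) η q p).mono h3.le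
      exact ⟨fun x hx i => ((a6 ξ h3).1 x hx i).mono this,
        fun x hx i => ((a6 ξ h3).2 x hx i).mono this⟩
    · rw [gl_ge _ _ le_rfl]
      have := (gl_leB (π := π) ξ q p).trans a5
      exact ⟨fun x hx i => (a2 (x, i) ⟨hx, trivial⟩).mono (this.trans a3),
        fun x hx i => (a4 (x, i) ⟨hx, trivial⟩).mono this⟩
    · have : p ξ = 0 := by
        by_contra hc
        exact absurd (h2 ξ (by simp [hc, hξ])) (not_le.2 h3)
      rw [gl_ge _ _ h3.le]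
      simp [this]

/-- the basic induction -/
theorem notU {d : Dat I} {a : ℕ ⊕ I} {V : I → Bool → Prop}
    (h : ∀ y i, V y i → ¬ U π d a (.inr y) i ∨ (a ≠ .inr y ∧
      (∀ n x x', ent d y n x → ent d y n x' → x = x') ∧
      ∃ l : List Ent, (∀ n x, l[n]? = some x → ent d y n x) ∧
        ((∃ i', T π d y a i') → ∃ x ∈ l, lab π y x.1 = a) ∧
        ∀ x ∈ l, x.2 = i ∨ (∃ m, x.1 = .inl m ∧ a ≠ .inl m) ∨
          ∃ e, x.1 = .inr e ∧ ∀ i', T π d y (.inr (π.X y e)) i' → V (π.X y e) i'))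
    (y : I) (i : Bool) (hV : V y i) : ¬ U π d a (.inr y) i := by
  induction y using WellFoundedLT.induction generalizing i with
  | ind y ih =>
  rcases h y i hV with h1 | ⟨h1, hf, l, h2, h3, h4⟩
  · exact h1
  intro hU
  obtain ⟨⟨i', h5⟩, h6⟩ := ((U_inr π d).1 hU).resolve_left h1
  obtain ⟨x, h7, h8⟩ := h3 ⟨i', h5⟩
  have := First.of_list (hit := fun e => Hit π d a y (lab π y e)) (j := i) hf h2
    ⟨x, h7, by rw [h8]; exact ⟨i', h5, U_self _ _ _ _⟩⟩ fun x hx ⟨i3, b1, b2⟩ => by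
      rcases h4 x hx with h9 | ⟨m, c1, c2⟩ | ⟨e, c1, c2⟩
      · exact h9
      · rw [c1] at b2
        exact absurd ((U_inl π d).1 b2) c2
      · rw [c1] at b1 b2
        exact absurd b2 (ih _ b1.lt i3 (c2 i3 b1))
  have := this.unique hf ((sd_iff π d).1 h6)
  simp at this

variable (π) in
/-- the labels mentioned in a condition -/
def Lab (p : Cond I) : Set I :=
  {y | ∃ ξ, (∃ e j, (Sum.inr e, j) ∈ (p ξ).l ∧ π.X ξ e = y) ∨ ∃ m, (y, m) ∈ (p ξ).H}

omit [LinearOrder I] [WellFoundedLT I] in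
theorem finite_lab (p : Cond I) : (Lab π p).Finite := by
  refine (p.support.finite_toSet.biUnion fun ξ _ =>
    ((List.finite_toSet (p ξ).l).image fun x => Sum.elim (fun _ => ξ) (π.X ξ) x.1).union
      ((p ξ).H.finite_toSet.image Prod.fst)).subset ?_
  rintro y ⟨ξ, ⟨e, j, h1, rfl⟩ | ⟨m, h1⟩⟩
  · refine mem_biUnion (x := ξ) ?_ (Or.inl ⟨_, h1, rfl⟩)
    simp only [Finset.mem_coe, Finsupp.mem_support_iff]
    intro h
    simp [h] at h1
  · refine mem_biUnion (x := ξ) ?_ (Or.inr ⟨_, h1, rfl⟩)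
    simp only [Finset.mem_coe, Finsupp.mem_support_iff]
    intro h
    simp [h] at h1

open Classical in
variable (π) in
/-- the reduction of a condition -/
noncomputable def red (N : Set I) (p : Cond I) : Cond I :=
  Finsupp.onFinset p.support (fun ξ => if ξ ∈ N then ⟨(p ξ).l, (p ξ).f.filter (·.1 ∈ N),
    ((finite_lab (π := π) p).toFinset.filter (· ∈ N)) ×ˢ (p ξ).H.image Prod.snd⟩ else 0)
    fun ξ h => by
      rw [Finsupp.mem_support_iff]
      intro h0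
      refine h ?_
      split_ifs
      · ext1 <;> simp [h0]
      · rfl

omit [LinearOrder I] [WellFoundedLT I] in
theorem red_not {N : Set I} {ξ : I} (p : Cond I) (h : ξ ∉ N) : red π N p ξ = 0 := by
  simp [red, h]

omit [LinearOrder I] [WellFoundedLT I] in
theorem red_l {N : Set I} {ξ : I} (p : Cond I) (h : ξ ∈ N) : (red π N p ξ).l = (p ξ).l := by
  simp [red, h]

omit [LinearOrder I] [WellFoundedLT I] in
theorem mem_red_f {N : Set I} {ξ : I} {p : Cond I} (h : ξ ∈ N) {x : I × ℕ} :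
    x ∈ (red π N p ξ).f ↔ x ∈ (p ξ).f ∧ x.1 ∈ N := by
  simp [red, h]

omit [LinearOrder I] [WellFoundedLT I] in
theorem mem_red_H {N : Set I} {ξ : I} {p : Cond I} (h : ξ ∈ N) {x : I × ℕ} :
    x ∈ (red π N p ξ).H ↔ (x.1 ∈ Lab π p ∧ x.1 ∈ N) ∧ ∃ γ, (γ, x.2) ∈ (p ξ).H := by
  simp [red, h]

/-- all ordinals used by `q` are in `N` -/
def Inside (N : Set I) (q : Cond I) : Prop :=
  (∀ ξ, ξ ∉ N → q ξ = 0) ∧ (∀ ξ, ∀ x ∈ (q ξ).f, x.1 ∈ N) ∧ ∀ ξ, ∀ x ∈ (q ξ).H, x.1 ∈ N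

omit [LinearOrder I] [WellFoundedLT I] in
theorem inside_red (N : Set I) (p : Cond I) : Inside N (red π N p) := by
  refine ⟨fun ξ h => red_not p h, fun ξ x hx => ?_, fun ξ x hx => ?_⟩ <;> by_cases h : ξ ∈ N
  · exact ((mem_red_f h).1 hx).2
  · simp [red_not p h] at hx
  · exact ((mem_red_H h).1 hx).1.2
  · simp [red_not p h] at hx

theorem F.br_of_T {ξ y : I} {e : ℕ} {i i' : Bool} {p : Cond I}
    (h1 : F π ξ p fun d => Br π d ξ y i) (h2 : F π ξ p fun d => T π d y (.inr (π.X y e)) i') :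
    F π ξ p fun d => Br π d ξ (π.X y e) i' :=
  Sem.imp (Sem.and h1 h2) ((ev_const y).mono fun _ hy h =>
    ⟨h.1.1, h.1.1.2.1 y hy i h.1.2 e i' h.2.2⟩)

/-- amalgamation -/
theorem amal {θ : I} {N : Set I} {p q : Cond I} (n1 : ∀ γ ∈ N, ∀ e, π.X γ e ∈ N)
    (n2 : ∀ ξ ∈ N, ξ < θ → ∀ ξ' ∈ N, ξ' < θ → ∀ γ, (F π ξ p fun d => Br π d ξ γ false) →
      (F π ξ' p fun d => Br π d ξ' γ true) → γ ∈ N)
    (hp : Det π θ p) (hq : LeB π θ q (red π N p)) (hN : Inside N q) {Γ : Set I} (hΓ : Γ.Finite)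
    (hΓ' : Lab π p ⊆ Γ) (pre : I → List Ent) (hpre : ∀ γ, ∀ x ∈ pre γ, ∃ m, x.1 = .inl m) :
    ∃ s, LeB π θ s q ∧ LeB π θ s p ∧ ∀ γ ∈ Γ, γ ∉ N → (p γ).l ++ pre γ <+: (s γ).l := by
  classical
  let sd : I → Bool := fun γ => decide (∃ ξ ∈ N, ξ < θ ∧ F π ξ p fun d => Br π d ξ γ true)
  have hsd : ∀ γ, γ ∉ N → ∀ ξ ∈ N, ξ < θ → ∀ i, (F π ξ p fun d => Br π d ξ γ i) → sd γ = i := by
    intro γ h1 ξ h2 h3 i h4
    cases i
    · exact decide_eq_false fun ⟨ξ', a1, a2, a3⟩ => h1 (n2 ξ h2 h3 ξ' a1 a2 γ h4 a3)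
    · exact decide_eq_true ⟨ξ, h2, h3, h4⟩
  have hnew : {α | ∃ ξ m, (α, m) ∈ (q ξ).f}.Finite := by
    refine (q.support.finite_toSet.biUnion fun ξ _ =>
      (q ξ).f.finite_toSet.image Prod.fst).subset ?_
    rintro α ⟨ξ, m, h⟩
    refine mem_biUnion (x := ξ) ?_ ⟨_, h, rfl⟩
    simp only [Finset.mem_coe, Finsupp.mem_support_iff]
    intro h0
    simp [h0] at h
  obtain ⟨K, hK⟩ : ∃ K, ∀ γ ∈ Γ, ∀ α ξ m, (α, m) ∈ (q ξ).f → α ∈ range (π.X γ) →
      ∃ e < K, π.X γ e = α := by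
    obtain ⟨K, hK⟩ := ((hΓ.prod hnew).image fun x => Function.invFun (π.X x.1) x.2).bddAbove
    exact ⟨K + 1, fun γ h1 α ξ m h2 h3 => ⟨_, Nat.lt_succ_of_le
      (hK ⟨(γ, α), ⟨h1, ξ, m, h2⟩, rfl⟩), Function.invFun_eq h3⟩⟩
  let g : I → Co I := fun ξ =>
    if ξ ∈ N then ⟨(q ξ).l, (q ξ).f ∪ (p ξ).f, (q ξ).H ∪ (p ξ).H⟩
    else if ξ ∈ Γ then ⟨(p ξ).l ++ pre ξ ++ (List.range K).map fun e => (.inr e, sd ξ),
      (p ξ).f, (p ξ).H⟩ else p ξ
  let s : Cond I := Finsupp.onFinset (q.support ∪ p.support ∪ hΓ.toFinset) g fun ξ h => by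
    by_contra hc
    simp only [Finset.mem_union, Finsupp.mem_support_iff, Finite.mem_toFinset, not_or,
      not_not] at hc
    refine h ?_
    simp only [g, hc.1.1, hc.1.2, hc.2, if_false]
    split_ifs
    · ext1 <;> simp
    · rfl
  have s1 : ∀ ξ ∈ N, s ξ = ⟨(q ξ).l, (q ξ).f ∪ (p ξ).f, (q ξ).H ∪ (p ξ).H⟩ :=
    fun ξ h => by simp [s, g, h]
  have s2 : ∀ ξ, ξ ∉ N → ξ ∈ Γ → s ξ = ⟨(p ξ).l ++ pre ξ ++
      (List.range K).map fun e => (.inr e, sd ξ), (p ξ).f, (p ξ).H⟩ :=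
    fun ξ h h' => by simp [s, g, h, h']
  have s3 : ∀ ξ, ξ ∉ N → ξ ∉ Γ → s ξ = p ξ := fun ξ h h' => by simp [s, g, h, h']
  have key : ∀ ξ < θ, LeAt π ξ s q ∧ LeAt π ξ s p := by
    intro ξ
    induction ξ using WellFoundedLT.induction with
    | ind ξ ih =>
    intro hξ
    have hsq : LeB π ξ s q := fun i hi => (ih i hi (hi.trans hξ)).1
    have hsp : LeB π ξ s p := fun i hi => (ih i hi (hi.trans hξ)).2
    by_cases hN' : ξ ∈ N
    swap
    · refine ⟨LeAt.of_zero (hN.1 ξ hN'), ?_⟩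
      by_cases hG : ξ ∈ Γ
      · refine LeAt.of_f ?_ ?_ ?_ <;> rw [s2 ξ hN' hG]
        rw [List.append_assoc]
        exact List.prefix_append _ _
      · exact LeAt.of_eq (s3 ξ hN' hG)
    have hst := (hq ξ hξ).step
    constructor
    · rw [leAt_iff, s1 ξ hN']
      refine ⟨List.prefix_rfl, Finset.subset_union_left, Finset.subset_union_left,
        fun α m a1 a2 γ a3 => F.of_all fun d i i' _ _ hU => ?_⟩
      have b1 : α ∉ N := fun h =>
        a2 (hst.f ((mem_red_f hN').2 ⟨(Finset.mem_union.1 a1).resolve_left a2, h⟩))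
      have b2 : γ ∈ N := hN.2.2 ξ _ a3
      rcases (U_inr π d).1 hU with h | ⟨⟨_, ⟨e, h⟩, -⟩, -⟩
      · exact b1 (Sum.inr.inj h ▸ b2)
      · exact b1 (h ▸ n1 γ b2 e)
    rw [leAt_iff, s1 ξ hN']
    refine ⟨red_l p hN' ▸ hst.l, Finset.subset_union_right, Finset.subset_union_right,
      fun α m a1 a2 γ a3 => ?_⟩
    have b1 : (α, m) ∈ (q ξ).f := (Finset.mem_union.1 a1).resolve_right a2
    have b2 : α ∈ N := hN.2.1 ξ _ b1
    have b3 : (α, m) ∉ (red π N p ξ).f := fun h => a2 ((mem_red_f hN').1 h).1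
    filter_upwards [ev_generic, ev_countable_set (finite_lab (π := π) p).countable,
      ev_all fun y => ev_F ξ fun d => Prom π d ξ α y,
      ev_all fun y => ev_call fun i => ev_F ξ fun d => Br π d ξ y i,
      ev_call fun i => ev_F ξ fun d => ¬ Br π d ξ γ i,
      ev_all fun y => ev_call fun e => ev_call fun i =>
        ev_F ξ fun d => ¬ T π d y (.inr (π.X y e)) i] with w hw c1 c2 c3 c4 c5 hs i i' d1 d2
    have hwq : q ∈ (dat w).H := mem_dat_of_le hs hsq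
    have hwp : p ∈ (dat w).H := mem_dat_of_le hs hsp
    refine notU (V := fun y i => y ∈ Lab π p ∧ F π ξ p fun d => Br π d ξ y i) ?_ γ i
      ⟨⟨ξ, Or.inr ⟨m, a3⟩⟩, ((hp ξ hξ).1 _ a3 i).resolve_right fun h => c4 i p hwp h d2⟩
    rintro y i ⟨e1, e2⟩
    have e3 := c3 y (c1 y e1) i p hwp e2
    by_cases hy : y ∈ N
    · exact Or.inl (c2 y (c1 y e1) q hwq
        (hst.pr α m b1 b3 y ((mem_red_H hN').2 ⟨⟨e1, hy⟩, γ, a3⟩)) i i' d1 e3)
    have hyξ : y < ξ := e3.2.1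
    refine Or.inr ⟨fun h => hy (Sum.inr.inj h ▸ b2), ent_unique hw hyξ, (s y).l,
      ent_of_mem hs List.prefix_rfl, fun ⟨_, h⟩ => ?_, fun x hx => ?_⟩
    · obtain ⟨e, f1, f2⟩ := hK y (hΓ' e1) α ξ m b1 h.1
      refine ⟨(.inr e, sd y), ?_, by simp [f2]⟩
      rw [s2 y hy (hΓ' e1)]
      simp [f1]
    · rw [s2 y hy (hΓ' e1)] at hx
      simp only [List.mem_append, List.mem_map] at hx
      rcases hx with (hx | hx) | ⟨e, -, rfl⟩
      · obtain ⟨m' | e, j⟩ := x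
        · exact Or.inr (Or.inl ⟨m', rfl, by simp⟩)
        · refine Or.inr (Or.inr ⟨e, rfl, fun i3 h => ⟨⟨y, Or.inl ⟨e, j, hx, rfl⟩⟩, ?_⟩⟩)
          rcases (hp y (hyξ.trans hξ)).2 _ hx i3 with h1 | h1
          · exact e2.br_of_T (h1.up (loc_T π _ _ _) hyξ.le)
          · exact absurd h (c5 y (c1 y e1) e i3 p hwp (h1.up (loc_T π _ _ _).not hyξ.le))
      · obtain ⟨m', h⟩ := hpre y x hx
        exact Or.inr (Or.inl ⟨m', h, by simp⟩)
      · exact Or.inl (hsd y hy ξ hN' hξ i e2)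
  refine ⟨s, fun i hi => (key i hi).1, fun i hi => (key i hi).2, fun γ h1 h2 => ?_⟩
  rw [s2 γ h2 h1]
  exact List.prefix_append _ _

omit [WellFoundedLT I] in
/-- two branches split at most once -/
theorem split_lt {d : Dat I} {ξ ξ' γ γ' : I} (h1 : d.In γ) (h2 : d.In γ') (h : γ < γ')
    (a1 : Br π d ξ γ false) (a2 : Br π d ξ' γ true) (a3 : Br π d ξ γ' false)
    (a4 : Br π d ξ' γ' true) : False := by
  obtain ⟨⟨e, rfl⟩, b1⟩ := a2.1.2.2 γ h1 γ' h2 _ _ a2.2 a4.2 h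
  exact a1.1.1 _ h1 _ a1.2 (a1.1.2.1 γ' h2 _ a3.2 e true b1)

theorem countable_split {θ ξ ξ' : I} (hc : CCC (At π θ)) (h1 : ξ ≤ θ) (h2 : ξ' ≤ θ) :
    {γ | ∃ p, (F π ξ p fun d => Br π d ξ γ false) ∧
      F π ξ' p fun d => Br π d ξ' γ true}.Countable := by
  obtain ⟨S, hS, h⟩ := hc.cover
    (Φ := fun γ w => Br π (dat w) ξ γ false ∧ Br π (dat w) ξ' γ true)
    fun γ => ((me_br π _ _ _).and (me_br π _ _ _)) _
  refine hS.mono ?_
  rintro γ ⟨p, a1, a2⟩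
  obtain ⟨w, -, b1, b2, b3⟩ := (Sem.and (a1.up (loc_br π _ _ _) h1)
    (a2.up (loc_br π _ _ _) h2)).exists (h.and (ev_const γ))
  refine b2 γ b3 b1 fun γ' c1 c2 => ?_
  rcases lt_trichotomy γ' γ with h | h | h
  · exact (split_lt (d := dat w) c1 b3 h c2.1 c2.2 b1.1 b1.2).elim
  · exact h
  · exact (split_lt (d := dat w) b3 c1 h b1.1 b1.2 c2.1 c2.2).elim

theorem ev_in_finset {P : Type} [Preorder P] (T : Type) :
    ∀ᶠ w in gen P, ∀ s : Finset T, (∀ i ∈ s, w.In i) → w.In s :=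
  ev_all_finset fun s => ev_const s

variable (π) in
/-- the properties of a countable set of ordinals used in amalgamations -/
structure GoodN (θ : I) (w : World Unit) : Prop where
  cnt : {i : I | w.In i}.Countable
  n1 : ∀ γ ∈ {i : I | w.In i}, ∀ e, π.X γ e ∈ {i : I | w.In i}
  n2 : ∀ p : Cond I, ∀ ξ ∈ {i : I | w.In i}, ξ < θ → ∀ ξ' ∈ {i : I | w.In i}, ξ' < θ → ∀ γ,
    (F π ξ p fun d => Br π d ξ γ false) → (F π ξ' p fun d => Br π d ξ' γ true) →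
      γ ∈ {i : I | w.In i}
  ins : ∀ q : Cond I, w.In q ↔ Inside {i : I | w.In i} q

theorem ev_goodN {θ : I} (hc : ∀ η < θ, CCC (At π η)) : ∀ᶠ w in gen Unit, GoodN π θ w := by
  classical
  filter_upwards [ev_of_club club_countable,
    ev_all fun γ : I => ev_call fun e => ev_const (π.X γ e),
    ev_all fun ξ : I => ev_all fun ξ' : I => ev_dimp fun h : ξ < θ => ev_dimp fun h' : ξ' < θ =>
      ev_countable_set (countable_split (hc _ (max_lt h h')) (le_max_left _ _) (le_max_right _ _)),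
    ev_all fun q : Cond I => ev_countable_set q.support.countable_toSet,
    ev_all fun q : Cond I => ev_all fun ξ => ev_countable_set
      (((q ξ).f.finite_toSet.union (q ξ).H.finite_toSet).image Prod.fst).countable,
    ev_all_finset (Φ := fun (S : Finset (I × Co I)) (w : World Unit) =>
      ∀ q : Cond I, q.graph = S → w.In q) fun S => by
        by_cases h : ∃ q : Cond I, q.graph = S
        · obtain ⟨q, rfl⟩ := h
          exact (ev_const q).mono fun w hw q' e => Finsupp.graph_injective _ _ e ▸ hw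
        · exact Eventually.of_forall fun w q e => absurd ⟨q, e⟩ h,
    ev_in_prod I (Co I), ev_in_prod I ℕ, ev_ctype ℕ, ev_in_finset (I × ℕ),
    ev_call fun l : List Ent => ev_fun₂ fun f H : Finset (I × ℕ) => (⟨l, f, H⟩ : Co I)]
    with w h1 h2 h3 h4 h5 h6 h7 h8 h9 h10 h11
  refine ⟨countable_emb_mem h1, h2, fun p ξ a1 a2 ξ' a3 a4 γ a5 a6 =>
    h3 ξ a1 ξ' a3 a2 a4 γ ⟨p, a5, a6⟩, fun q => ⟨fun hq => ?_, fun hq => ?_⟩⟩
  · have a1 : ∀ ξ, ξ ∉ {i : I | w.In i} → q ξ = 0 := fun ξ hξ => by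
      by_contra hc
      exact hξ (h4 q hq ξ (by simpa using hc))
    refine ⟨a1, fun ξ x hx => ?_, fun ξ x hx => ?_⟩ <;> by_cases hξ : ξ ∈ {i : I | w.In i}
    · exact h5 q hq ξ hξ _ ⟨x, Or.inl hx, rfl⟩
    · simp [a1 ξ hξ] at hx
    · exact h5 q hq ξ hξ _ ⟨x, Or.inr hx, rfl⟩
    · simp [a1 ξ hξ] at hx
  · refine h6 _ (fun x hx => ?_) q rfl
    obtain ⟨ξ, c⟩ := x
    obtain ⟨rfl, a1⟩ := Finsupp.mk_mem_graph_iff.1 hx
    refine (h7 _).2 ⟨by_contra fun h => a1 (hq.1 ξ h), ?_⟩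
    exact h11 (q ξ).l _ (h10 _ fun x hx => (h8 x).2 ⟨hq.2.1 ξ x hx, h9 _⟩) _
      (h10 _ fun x hx => (h8 x).2 ⟨hq.2.2 ξ x hx, h9 _⟩)

/-- amalgamation over a good set -/
theorem GoodN.amal {θ : I} {w : World Unit} (hw : GoodN π θ w) {p q : Cond I} (hp : Det π θ p)
    (hq : LeB π θ q (red π {i : I | w.In i} p)) (hN : w.In q) :
    ∃ s, LeB π θ s q ∧ LeB π θ s p :=
  let ⟨s, h1, h2, _⟩ := MP_c9188c_gt.amal hw.n1 (hw.n2 p) hp hq ((hw.ins q).1 hN) (finite_lab p)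
    Subset.rfl (fun _ => []) (by simp)
  ⟨s, h1, h2⟩

variable (π) in
/-- the countable chain condition -/
theorem ccc (θ : I) : CCC (At π θ) := by
  induction θ using WellFoundedLT.induction with
  | ind θ ih =>
  intro S hS
  obtain ⟨w, h1, h2, h3, h4⟩ := ((ev_goodN ih).and ((ev_all fun r : Cond I =>
    ev_skolem fun x : Cond I × Cond I => x.2 ∈ S ∧ LeB π θ x.1 r ∧ LeB π θ x.1 x.2).and
    ((ev_in_prod (Cond I) (Cond I)).and (ev_of_club club_countable)))).exists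
  refine (countable_emb_mem (T := Cond I) h4).mono fun p0 hp0 => ?_
  obtain ⟨p, a1, a2⟩ := exists_det (π := π) θ p0
  have hr := (h1.ins _).2 (inside_red (π := π) {i : I | w.In i} p)
  obtain ⟨s, a3, a4⟩ := h1.amal a2 (LeB.refl _ _) hr
  obtain ⟨x, b1, b2, b3, b4⟩ := h2 _ hr ⟨(s, p0), hp0, a3, a4.trans a1⟩
  obtain ⟨t, c1, c2⟩ := h1.amal a2 b3 ((h3 x).1 b1).1
  by_cases h : x.2 = p0
  · exact h ▸ ((h3 x).1 b1).2
  · exact absurd ⟨t, le_iff.2 (c1.trans b4), le_iff.2 (c2.trans a1)⟩ (hS b2 hp0 h)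

end Pool.Agent.P.MP_c9188c_gt
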