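import Pool.Agent.P.MP_c9188c_gt.Gen

/-!
Existence of the book-keeping.
-/

open Set Function Cardinal

namespace Pool.Agent.P.MP_c9188c_gt

theorem mk_cond_le {I : Type} {κ : Cardinal.{0}} (hκ : ℵ₀ ≤ κ) (hI : #I ≤ κ) : #(Cond I) ≤ κ := by
  have fs : ∀ α : Type, #α ≤ κ → #(Finset α) ≤ κ := fun α h => by
    rcases finite_or_infinite α with h' | h'
    · exact mk_le_aleph0.trans hκ
    · rwa [mk_finset_of_infinite]
  have pr : ∀ α β : Type, #α ≤ κ → #β ≤ κ → #(α × β) ≤ κ := fun α β h h' => by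
    simpa using (mul_le_mul' h h').trans (mul_eq_self hκ).le
  have h1 := fs _ (pr I ℕ hI (mk_le_aleph0.trans hκ))
  have h2 : #(Co I) ≤ κ := (mk_le_of_injective (f := fun c : Co I => (c.l, c.f, c.H))
    fun a b h => by
      simp only [Prod.mk.injEq] at h
      exact Co.ext h.1 h.2.1 h.2.2).trans (pr _ _ (mk_le_aleph0.trans hκ) (pr _ _ h1 h1))
  classical
  exact (mk_le_of_injective (Finsupp.graph_injective I (Co I))).trans (fs _ (pr _ _ hI h2))

theorem exists_book : ∃ (I : Type) (_ : LinearOrder I) (_ : WellFoundedLT I) (π : Par I) (θ : I),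
    Book π θ := by
  let κ : Cardinal.{0} := 2 ^ ℵ₁
  have h1 : ℵ₁ < κ := cantor _
  have h0 : ℵ₀ ≤ κ := (aleph0_lt_aleph_one.trans h1).le
  have hp : κ ^ (ℵ₁ : Cardinal.{0}) = κ := by
    rw [← power_mul, mul_eq_self aleph0_lt_aleph_one.le]
  have pr : ∀ α β : Type, #α ≤ κ → #β ≤ κ → #(α × β) ≤ κ := fun α β h h' => by
    simpa using (mul_le_mul' h h').trans (mul_eq_self h0).le
  let J := κ.ord.ToType
  have hJ : #J = κ := by simp [J]
  have hI : #(WithTop J) ≤ κ := by
    change #(Option J) ≤ κ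
    rw [mk_option, hJ, add_one_eq h0]
  have hne : Nonempty J := mk_ne_zero_iff.1 (by rw [hJ]; exact (aleph0_pos.trans_le h0).ne')
  have hbd : ∀ S : Set J, #S ≤ ℵ₁ → ∃ e, ∀ s ∈ S, s < e := fun S hS => by
    refine not_isCofinal_iff.1 fun h => ?_
    have := Order.cof_le h
    rw [Ordinal.cof_toType] at this
    exact absurd (this.trans hS) (lt_cof_ord_power aleph0_lt_aleph_one.le one_lt_two).not_ge
  let Nm := (ℕ → WithTop J) × {A : Set (WithTop J × Bool × Cond (WithTop J)) // #A ≤ ℵ₁}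
  have hN : #(Nm × J) ≤ #J := by
    rw [hJ]
    refine pr _ _ (pr _ _ ?_ ?_) hJ.le
    · rw [← power_def, mk_nat, ← hp]
      exact (power_le_power_right hI).trans
        (power_le_power_left (aleph0_pos.trans_le h0).ne' aleph0_lt_aleph_one.le)
    · rw [← hp]
      exact (mk_bounded_set_le _ _).trans (power_le_power_right (max_le
        (pr _ _ hI (pr _ _ (mk_le_aleph0.trans h0) (mk_cond_le h0 hI))) h0))
  obtain ⟨e⟩ := (Cardinal.le_def _ _).1 hN
  have : Nonempty Nm := ⟨fun _ => ⊤, ∅, by simp⟩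
  let g : WithTop J → Nm := fun i => WithTop.recTopCoe (Classical.arbitrary _)
    (fun j => (invFun e j).1) i
  refine ⟨WithTop J, inferInstance, inferInstance, ⟨fun i => (g i).1, fun i => (g i).2.1⟩, ⊤,
    fun S hS => ?_, fun X0 A0 hA ξ hξ => ?_⟩
  · obtain ⟨a, ha⟩ := hbd ((↑) ⁻¹' S) ((mk_preimage_of_injective _ _ WithTop.coe_injective).trans hS)
    refine ⟨a, WithTop.coe_lt_top a, fun y hy h => ?_⟩
    lift y to J using h.ne
    exact WithTop.coe_lt_coe.2 (ha y hy)
  · lift ξ to J using hξ.ne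
    have : ∃ j, ξ ≤ e ((X0, ⟨A0, hA⟩), j) := by
      by_contra hc
      push Not at hc
      have h2 : #J ≤ #(Iio ξ) := mk_le_of_injective
        (f := fun j => (⟨e ((X0, ⟨A0, hA⟩), j), hc j⟩ : Iio ξ))
        fun a b h => (Prod.ext_iff.1 (e.injective (Subtype.ext_iff.1 h))).2
      exact absurd h2 (mk_Iio_lt ξ (by simp [J])).not_ge
    obtain ⟨j, hj⟩ := this
    have h3 : g (e ((X0, ⟨A0, hA⟩), j) : J) = (X0, ⟨A0, hA⟩) := by
      simp only [g, WithTop.recTopCoe_coe, leftInverse_invFun e.injective _]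
    exact ⟨_, WithTop.coe_le_coe.2 hj, WithTop.coe_lt_top _, by simp only [h3], by simp only [h3]⟩

end Pool.Agent.P.MP_c9188c_gt
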