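import Mathlib

/-!
Measures which are countably additive along a distinguished class of sequences.
-/

open Set Filter Topology

namespace Pool.Agent.P.MP_c9188c_gt

variable {X : Type}

/-- a sequence with two entries -/
def two (A B : Set X) : ℕ → Set X := fun n => if n = 0 then A else if n = 1 then B else ∅

/-- an algebra of sets with a class of admissible sequences -/
structure Alg (K : Set X) (𝓑 : Set (Set X)) (Q : (ℕ → Set X) → Prop) : Prop where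
  sub : ∀ A ∈ 𝓑, A ⊆ K
  top : K ∈ 𝓑
  compl : ∀ A ∈ 𝓑, K \ A ∈ 𝓑
  iUnion : ∀ s, Q s → (∀ n, s n ∈ 𝓑) → ⋃ n, s n ∈ 𝓑
  two : ∀ A ∈ 𝓑, ∀ B ∈ 𝓑, Q (two A B)
  disj : ∀ s, Q s → (∀ n, s n ∈ 𝓑) → Q (disjointed s)
  shift : ∀ s, Q s → (∀ n, s n ∈ 𝓑) → ∀ n, Q fun k => s (k + n)
  inter : ∀ s, Q s → (∀ n, s n ∈ 𝓑) → ∀ A ∈ 𝓑, Q fun n => s n ∩ A

/-- a measure on such an algebra -/
structure MS (K : Set X) (𝓑 : Set (Set X)) (Q : (ℕ → Set X) → Prop) (μ : Set X → ℝ) : Prop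
    extends Alg K 𝓑 Q where
  nonneg : ∀ A ∈ 𝓑, 0 ≤ μ A
  add : ∀ s, Q s → (∀ n, s n ∈ 𝓑) → Pairwise (fun m n => Disjoint (s m) (s n)) →
    HasSum (fun n => μ (s n)) (μ (⋃ n, s n))

variable {K : Set X} {𝓑 : Set (Set X)} {Q : (ℕ → Set X) → Prop} {μ : Set X → ℝ} {A B : Set X}
  {s : ℕ → Set X}

theorem iUnion_two (A B : Set X) : ⋃ n, two A B n = A ∪ B := by
  ext x
  simp only [mem_iUnion, two, mem_union]
  constructor
  · rintro ⟨n, h⟩
    split_ifs at h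
    exacts [Or.inl h, Or.inr h, h.elim]
  · rintro (h | h)
    exacts [⟨0, by simpa⟩, ⟨1, by simpa⟩]

namespace Alg
variable (h : Alg K 𝓑 Q)
include h

theorem empty : ∅ ∈ 𝓑 := by simpa using h.compl K h.top

theorem two_mem (hA : A ∈ 𝓑) (hB : B ∈ 𝓑) (n : ℕ) : MP_c9188c_gt.two A B n ∈ 𝓑 := by
  unfold MP_c9188c_gt.two
  split_ifs
  exacts [hA, hB, h.empty]

theorem union (hA : A ∈ 𝓑) (hB : B ∈ 𝓑) : A ∪ B ∈ 𝓑 :=
  iUnion_two A B ▸ h.iUnion _ (h.two A hA B hB) (h.two_mem hA hB)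

theorem diff (hA : A ∈ 𝓑) (hB : B ∈ 𝓑) : A \ B ∈ 𝓑 := by
  have : A \ B = K \ (K \ A ∪ B) := by
    ext x
    have := @h.sub A hA x
    simp only [Set.mem_sdiff, mem_union]
    tauto
  exact this ▸ h.compl _ (h.union (h.compl A hA) hB)

theorem inter' (hA : A ∈ 𝓑) (hB : B ∈ 𝓑) : A ∩ B ∈ 𝓑 := by
  simpa using h.diff hA (h.diff hA hB)

theorem biUnion {ι : Type*} (S : Finset ι) {E : ι → Set X} (hE : ∀ i ∈ S, E i ∈ 𝓑) :
    ⋃ i ∈ S, E i ∈ 𝓑 := by
  classical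
  induction S using Finset.induction_on with
  | empty => simpa using h.empty
  | insert a S _ ih =>
    rw [Finset.set_biUnion_insert]
    exact h.union (hE a (Finset.mem_insert_self _ _))
      (ih fun i hi => hE i (Finset.mem_insert_of_mem hi))

theorem disjointed_mem (hs : ∀ n, s n ∈ 𝓑) (n : ℕ) : disjointed s n ∈ 𝓑 :=
  disjointedRec (p := (· ∈ 𝓑)) (fun _ i ht => h.diff ht (hs i)) (hs n)

end Alg

namespace MS
variable (h : MS K 𝓑 Q μ)
include h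

theorem zero : μ ∅ = 0 := by
  have := h.add _ (h.two ∅ h.empty ∅ h.empty) (h.two_mem h.empty h.empty)
    fun m n _ => by simp [MP_c9188c_gt.two]
  have h2 := this.summable.tendsto_atTop_zero
  simp only [MP_c9188c_gt.two, ite_self] at h2
  exact tendsto_const_nhds_iff.1 h2

theorem add2 (hA : A ∈ 𝓑) (hB : B ∈ 𝓑) (hd : Disjoint A B) : μ (A ∪ B) = μ A + μ B := by
  have := h.add _ (h.two A hA B hB) (h.two_mem hA hB) fun m n hmn => by
    simp only [MP_c9188c_gt.two]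
    split_ifs <;> first | omega | simp [hd, hd.symm]
  rw [iUnion_two] at this
  refine this.unique ?_
  have h2 := hasSum_sum_of_ne_finset_zero (f := fun n => μ (MP_c9188c_gt.two A B n))
    (s := {0, 1}) (L := SummationFilter.unconditional ℕ) fun n hn => by
      simp only [Finset.mem_insert, Finset.mem_singleton, not_or] at hn
      simp [MP_c9188c_gt.two, hn.1, hn.2, h.zero]
  simpa [MP_c9188c_gt.two] using h2

theorem split (hA : A ∈ 𝓑) (hB : B ∈ 𝓑) : μ A = μ (A ∩ B) + μ (A \ B) := by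
  rw [← h.add2 (h.inter' hA hB) (h.diff hA hB) (disjoint_sdiff_right.mono_left inter_subset_right),
    inter_union_sdiff]

theorem mono (hA : A ∈ 𝓑) (hB : B ∈ 𝓑) (hs : A ⊆ B) : μ A ≤ μ B := by
  rw [h.split hB hA, inter_eq_self_of_subset_right hs]
  exact le_add_of_nonneg_right (h.nonneg _ (h.diff hB hA))

theorem union_le (hA : A ∈ 𝓑) (hB : B ∈ 𝓑) : μ (A ∪ B) ≤ μ A + μ B := by
  rw [← union_sdiff_self, h.add2 hA (h.diff hB hA) disjoint_sdiff_right]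
  exact add_le_add_right (h.mono (h.diff hB hA) hB sdiff_subset) _

theorem le_of_cover {C : Set X} (hC : C ∈ 𝓑) (hA : A ∈ 𝓑) (hB : B ∈ 𝓑) (hs : C ⊆ A ∪ B) :
    μ C ≤ μ A + μ B := (h.mono hC (h.union hA hB) hs).trans (h.union_le hA hB)

theorem null (hA : A ∈ 𝓑) (hB : B ∈ 𝓑) (hs : A ⊆ B) (h0 : μ B = 0) : μ A = 0 :=
  le_antisymm (h0 ▸ h.mono hA hB hs) (h.nonneg A hA)

theorem hasSum_disj (hQ : Q s) (hs : ∀ n, s n ∈ 𝓑) :
    HasSum (fun n => μ (disjointed s n)) (μ (⋃ n, s n)) :=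
  iUnion_disjointed (f := s) ▸ h.add _ (h.disj s hQ hs) (h.disjointed_mem hs) (disjoint_disjointed s)

theorem iUnion_le (hQ : Q s) (hs : ∀ n, s n ∈ 𝓑) {a : ℕ → ℝ} {S : ℝ} (ha : ∀ n, μ (s n) ≤ a n)
    (hS : HasSum a S) : μ (⋃ n, s n) ≤ S :=
  hasSum_le (fun n => (h.mono (h.disjointed_mem hs n) (hs n) (disjointed_subset s n)).trans (ha n))
    (h.hasSum_disj hQ hs) hS

theorem iUnion_null (hQ : Q s) (hs : ∀ n, s n ∈ 𝓑) (h0 : ∀ n, μ (s n) = 0) : μ (⋃ n, s n) = 0 :=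
  le_antisymm (h.iUnion_le hQ hs (fun n => (h0 n).le) hasSum_zero) (h.nonneg _ (h.iUnion s hQ hs))

theorem sum_eq {ι : Type*} (S : Finset ι) {E : ι → Set X} (hE : ∀ i ∈ S, E i ∈ 𝓑)
    (hd : (S : Set ι).Pairwise fun i j => Disjoint (E i) (E j)) :
    μ (⋃ i ∈ S, E i) = ∑ i ∈ S, μ (E i) := by
  classical
  induction S using Finset.induction_on with
  | empty => simpa using h.zero
  | insert a S ha ih =>
    have h1 : ∀ i ∈ S, E i ∈ 𝓑 := fun i hi => hE i (Finset.mem_insert_of_mem hi)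
    rw [Finset.set_biUnion_insert, Finset.sum_insert ha,
      h.add2 (hE a (Finset.mem_insert_self _ _)) (h.biUnion S h1),
      ih h1 (hd.mono (by simp))]
    simp only [disjoint_iUnion_right]
    exact fun i hi => hd (by simp) (by simp [hi]) fun e => ha (e ▸ hi)

/-- continuity from below -/
theorem cont (hQ : Q s) (hs : ∀ n, s n ∈ 𝓑) {δ : ℝ} (hδ : 0 < δ) :
    ∃ n, μ ((⋃ n, s n) \ ⋃ k ∈ Finset.range n, s k) < δ := by
  obtain ⟨n, hn⟩ := ((h.hasSum_disj hQ hs).tendsto_sum_nat.eventually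
    (lt_mem_nhds (sub_lt_self _ hδ))).exists
  rw [← h.sum_eq _ (fun i _ => h.disjointed_mem hs i)
    fun i _ j _ hij => disjoint_disjointed s hij] at hn
  have h1 := h.iUnion s hQ hs
  have h2 := h.biUnion (Finset.range n) fun i _ => hs i
  have h3 := h.biUnion (Finset.range n) fun i _ => h.disjointed_mem hs i
  have h4 := h.split h1 h2
  have h5 := h.mono h3 (h.inter' h1 h2) (subset_inter
    (iUnion₂_subset fun i _ => (disjointed_subset s i).trans (subset_iUnion s i))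
    (iUnion₂_mono fun i _ => disjointed_subset s i))
  exact ⟨n, by linarith⟩

theorem card_le {ι : Type*} (S : Finset ι) {E : ι → Set X} (hE : ∀ i ∈ S, E i ∈ 𝓑)
    (hd : (S : Set ι).Pairwise fun i j => Disjoint (E i) (E j)) {ε : ℝ}
    (hε : ∀ i ∈ S, ε ≤ μ (E i)) : S.card * ε ≤ μ K := by
  have h1 := h.mono (h.biUnion S hE) h.top (h.sub _ (h.biUnion S hE))
  rw [h.sum_eq S hE hd] at h1
  exact le_trans (by simpa using Finset.card_nsmul_le_sum S _ ε hε) h1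

theorem exists_card_le {ε : ℝ} (hε : 0 < ε) : ∃ n : ℕ, ∀ (ι : Type) (S : Finset ι) (E : ι → Set X),
    (∀ i ∈ S, E i ∈ 𝓑) → ((S : Set ι).Pairwise fun i j => Disjoint (E i) (E j)) →
    (∀ i ∈ S, ε ≤ μ (E i)) → S.card ≤ n := by
  obtain ⟨n, hn⟩ := exists_nat_ge (μ K / ε)
  refine ⟨n, fun ι S E h1 h2 h3 => ?_⟩
  exact_mod_cast ((le_div_iff₀ hε).2 (h.card_le S h1 h2 h3)).trans hn

theorem finite {ι : Type} {S : Set ι} {E : ι → Set X} (hE : ∀ i ∈ S, E i ∈ 𝓑)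
    (hd : S.Pairwise fun i j => Disjoint (E i) (E j)) {ε : ℝ} (hε : 0 < ε)
    (hε' : ∀ i ∈ S, ε ≤ μ (E i)) : S.Finite := by
  obtain ⟨n, hn⟩ := h.exists_card_le hε
  by_contra hS
  obtain ⟨T, h1, h2⟩ := Set.Infinite.exists_subset_card_eq hS (n + 1)
  have := hn ι T E (fun i hi => hE i (h1 hi)) (hd.mono h1) fun i hi => hε' i (h1 hi)
  omega

theorem restrict {W : Set X} (hW : W ∈ 𝓑) : MS K 𝓑 Q fun A => μ (A ∩ W) where
  toAlg := h.toAlg
  nonneg A hA := h.nonneg _ (h.inter' hA hW)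
  add s h1 h2 h3 := by
    rw [iUnion_inter]
    exact h.add _ (h.inter s h1 h2 W hW) (fun n => h.inter' (h2 n) hW)
      fun m n hmn => (h3 hmn).mono inter_subset_left inter_subset_left

theorem null_of_cover (hA : A ∈ 𝓑) (hQ : Q s) (hs : ∀ n, s n ∈ 𝓑) (hc : A ⊆ ⋃ n, s n)
    (h0 : ∀ n, μ (s n ∩ A) = 0) : μ A = 0 := by
  have := (h.restrict hA).iUnion_null hQ hs h0
  rwa [inter_eq_self_of_subset_right hc] at this

theorem congr {ν : Set X → ℝ} (he : ∀ A ∈ 𝓑, ν A = μ A) : MS K 𝓑 Q ν where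
  toAlg := h.toAlg
  nonneg A hA := he A hA ▸ h.nonneg A hA
  add s h1 h2 h3 := by
    rw [he _ (h.iUnion s h1 h2), funext fun n => he _ (h2 n)]
    exact h.add s h1 h2 h3

/-- tails of a sequence with geometrically decreasing measure -/
theorem tail_le (hQ : Q s) (hs : ∀ n, s n ∈ 𝓑) (h0 : ∀ n, μ (s n) ≤ (1 / 2) ^ n) (n : ℕ) :
    μ (⋃ k, s (k + n)) ≤ 2 * (1 / 2) ^ n := by
  refine h.iUnion_le (h.shift s hQ hs n) (fun k => hs _) (a := fun k => (1 / 2) ^ k * (1 / 2) ^ n)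
    (fun k => (h0 _).trans_eq (pow_add _ _ _)) (hasSum_geometric_two.mul_right _)

end MS

end Pool.Agent.P.MP_c9188c_gt
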