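import Pool.Agent.P.MP_c9188c_gt.Tree
import Pool.Agent.P.MP_c9188c_gt.Meas

/-!
The set of cones of positive measure is small.
-/

open Set Filter Pool.Agent.Lib.Helper87

namespace Pool.Agent.P.MP_c9188c_gt

variable {I : Type} [LinearOrder I] [WellFoundedLT I] (π : Par I) (θ : I) (d : Dat I)
  (K : Set (Pt I))

/-- cones -/
def Cone (γ : I) : Set (Pt I) := {x ∈ K | Ext π d x γ}

/-- half cones -/
def Half (γ : I) (i : Bool) : Set (Pt I) := {x ∈ K | Ext π d x γ ∧ x (.inr γ) = i}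

/-- points at infinity -/
def KInf : Set (Pt I) := {x ∈ K | Inf x}

/-- isolated points -/
def NatS (m : ℕ) : Set (Pt I) := {x ∈ K | x (.inl m) = true}

/-- basic neighbourhoods -/
def Nb (x : Pt I) (F : Finset (ℕ ⊕ I)) : Set (Pt I) := {x' ∈ K | ∀ l ∈ F, x' l = x l}

/-- open sets -/
def Opn (V : Set (Pt I)) : Prop := ∀ x ∈ V, ∃ F, Nb K x F ⊆ V

/-- exits from the node at `γ` -/
def Exit (γ : I) (e : ℕ) : Set (Pt I) :=
  {x ∈ K | ∃ i, T π d γ (.inr (π.X γ e)) i ∧ Ext π d x (π.X γ e) ∧ x (.inr (π.X γ e)) = !i}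

/-- the points extending the branch at `ξ` -/
def Db (ξ : I) : Set (Pt I) :=
  {x ∈ K | Inf x ∧ ∀ y, d.In y → ∀ i, raw π d ξ y i → x (.inr y) = i}

/-- unions of exits from the branch at `ξ` -/
def Ex (ξ y : I) (n m : ℕ) : Set (Pt I) :=
  {x ∈ K | ∃ a, d.In a ∧ ∃ i, raw π d ξ a i ∧ col d ξ a m ∧
    (∃ e j, ent d a n (.inr e, j) ∧ π.X a e = y) ∧ Ext π d x a ∧ x (.inr a) = !i}

/-- small sets of ordinals -/
def Sm (Z : Set I) : Prop := ∃ Y : Set I, d.In Y ∧ Y.Countable ∧ Z ⊆ Y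

/-- chains -/
def Chain (Φ : I → Bool → Prop) : Prop :=
  (∀ y, d.In y → ∀ i, Φ y i → y < θ) ∧
    ∀ γ, d.In γ → ∀ γ', d.In γ' → ∀ i i', Φ γ i → Φ γ' i' → γ < γ' → γ ∈ range (π.X γ')

/-- the facts about the space which do not involve the measure -/
structure Base (𝓑 : Set (Set (Pt I))) (Q : (ℕ → Set (Pt I)) → Prop) (Cd : Set (Pt I) → Prop) :
    Prop where
  t0 : T0 θ d
  con : ∀ x ∈ K, Con π θ d x
  sm_empty : Sm d ∅
  sm_union : ∀ Z Z', Sm d Z → Sm d Z' → Sm d (Z ∪ Z')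
  sm_X : ∀ γ, d.In γ → Sm d (insert γ (range (π.X γ)))
  t1 : ∀ x ∈ K, Inf x → ¬ Sm d {γ | Bx π θ d x γ}
  col1 : ∀ ξ, d.In ξ → ξ < θ → ∀ a, d.In a → ∃ m, col d ξ a m
  col2 : ∀ ξ, d.In ξ → ξ < θ → ∀ γ, d.In γ → ∀ m,
    {a | d.In a ∧ col d ξ a m ∧ ¬ Prom π d ξ a γ}.Finite
  closed : ∀ C ⊆ K, Cd C → Opn K (K \ C) → C ∈ 𝓑
  cd_cone : ∀ γ, d.In γ → Cd (Cone π d K γ)
  cd_half : ∀ γ, d.In γ → ∀ i, Cd (Half π d K γ i)
  cd_inf : Cd (KInf K)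
  cd_nat : ∀ m, Cd (NatS K m)
  cd_nb : ∀ x ∈ K, ∀ F, Cd (Nb K x F)
  cd_db : ∀ ξ, d.In ξ → Cd (Db π d K ξ)
  cd_ex : ∀ ξ, d.In ξ → ∀ y, d.In y → ∀ n m, Cd (Ex π d K ξ y n m ∪ Db π d K ξ)
  q_nat : Q (NatS K)
  q_exit : ∀ γ, d.In γ → Q (Exit π d K γ)
  q_ex : ∀ ξ, d.In ξ → ∀ y, d.In y → Q fun k => Ex π d K ξ y k.unpair.1 k.unpair.2

variable (ν : Set (Pt I) → ℝ)

/-- large cones above `γ0` -/
def BB (γ0 : I) (k : ℕ) (γ : I) : Prop :=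
  Act π θ d γ ∧ 1 / ((k : ℝ) + 1) < ν (Cone π d K γ) ∧ (γ = γ0 ∨ ∃ i, T π d γ (.inr γ0) i)

/-- the union of their nodes -/
def PhiB (γ0 : I) (k : ℕ) (y : I) (i : Bool) : Prop :=
  ∃ γ, d.In γ ∧ BB π θ d K ν γ0 k γ ∧ T π d γ (.inr y) i

/-- facts about the measure used for uncountable branches -/
structure NuA : Prop where
  t2 : ∀ γ0, d.In γ0 → ∀ k, ∃ ξ, d.In ξ ∧ ξ < θ ∧ (Chain π θ d (PhiB π θ d K ν γ0 k) →
    ∀ y, d.In y → ∀ i, raw π d ξ y i ↔ PhiB π θ d K ν γ0 k y i)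
  su : ∀ ξ, d.In ξ → (∀ n m (k : ℕ), {y | d.In y ∧ 1 / ((k : ℝ) + 1) < ν (Ex π d K ξ y n m)}.Finite) →
    Sm d {y | d.In y ∧ ∃ n m, 0 < ν (Ex π d K ξ y n m)}

variable {π θ d K ν} {𝓑 : Set (Set (Pt I))} {Q : (ℕ → Set (Pt I)) → Prop}
  {Cd : Set (Pt I) → Prop}

omit [LinearOrder I] [WellFoundedLT I] in
theorem Sm.mono {Z Z' : Set I} (h : Sm d Z) (h' : Z' ⊆ Z) : Sm d Z' :=
  let ⟨Y, a, b, c⟩ := h; ⟨Y, a, b, h'.trans c⟩

omit [LinearOrder I] [WellFoundedLT I] in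
theorem opn_compl {C : Set (Pt I)} (h : ∀ x ∈ K, x ∉ C → ∃ l, ∀ x' ∈ C, x' l ≠ x l) :
    Opn K (K \ C) := fun x hx =>
  let ⟨l, hl⟩ := h x hx.1 hx.2
  ⟨{l}, fun x' h' => ⟨h'.1, fun h2 => hl x' h2 (h'.2 l (by simp))⟩⟩

namespace Base
variable (hB : Base π θ d K 𝓑 Q Cd)
include hB

theorem b_cone {γ : I} (h : d.In γ) : Cone π d K γ ∈ 𝓑 :=
  hB.closed _ (sep_subset _ _) (hB.cd_cone γ h) (opn_compl fun x h1 h2 => by
    simp only [Cone, mem_ofPred_eq, h1, true_and, Ext, not_forall] at h2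
    obtain ⟨l, i, a1, a2⟩ := h2
    exact ⟨l, fun x' h' e => a2 (e ▸ h'.2 l i a1)⟩)

theorem b_half {γ : I} (h : d.In γ) (i : Bool) : Half π d K γ i ∈ 𝓑 :=
  hB.closed _ (sep_subset _ _) (hB.cd_half γ h i) (opn_compl fun x h1 h2 => by
    simp only [Half, mem_ofPred_eq, h1, true_and, Ext, not_and_or, not_forall] at h2
    rcases h2 with ⟨l, i, a1, a2⟩ | h2
    · exact ⟨l, fun x' h' e => a2 (e ▸ h'.2.1 l i a1)⟩
    · exact ⟨_, fun x' h' e => h2 (e ▸ h'.2.2)⟩)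

theorem b_inf : KInf K ∈ 𝓑 :=
  hB.closed _ (sep_subset _ _) hB.cd_inf (opn_compl fun x h1 h2 => by
    simp only [KInf, mem_ofPred_eq, h1, true_and, Inf, not_forall] at h2
    obtain ⟨m, a1⟩ := h2
    exact ⟨_, fun x' h' e => a1 (e ▸ h'.2 m)⟩)

theorem b_nat (m : ℕ) : NatS K m ∈ 𝓑 :=
  hB.closed _ (sep_subset _ _) (hB.cd_nat m) (opn_compl fun x h1 h2 =>
    ⟨.inl m, fun x' h' e => h2 ⟨h1, e ▸ h'.2⟩⟩)

theorem b_nb {x : Pt I} (h : x ∈ K) (F : Finset (ℕ ⊕ I)) : Nb K x F ∈ 𝓑 :=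
  hB.closed _ (sep_subset _ _) (hB.cd_nb x h F) (opn_compl fun x h1 h2 => by
    simp only [Nb, mem_ofPred_eq, h1, true_and, not_forall] at h2
    obtain ⟨l, a1, a2⟩ := h2
    exact ⟨l, fun x' h' e => a2 (e ▸ h'.2 l a1)⟩)

theorem b_db {ξ : I} (h : d.In ξ) : Db π d K ξ ∈ 𝓑 :=
  hB.closed _ (sep_subset _ _) (hB.cd_db ξ h) (opn_compl fun x h1 h2 => by
    simp only [Db, mem_ofPred_eq, h1, true_and, Inf, not_and_or, not_forall] at h2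
    rcases h2 with ⟨m, a1⟩ | ⟨y, a1, i, a2, a3⟩
    · exact ⟨_, fun x' h' e => a1 (e ▸ h'.2.1 m)⟩
    · exact ⟨_, fun x' h' e => a3 (e ▸ h'.2.2 y a1 i a2)⟩)

theorem sm_biUnion {α : Type*} (S : Finset α) {Z : α → Set I} (h : ∀ a ∈ S, Sm d (Z a)) :
    Sm d (⋃ a ∈ S, Z a) := by
  classical
  induction S using Finset.induction_on with
  | empty => simpa using hB.sm_empty
  | insert a S _ ih =>
    rw [Finset.set_biUnion_insert]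
    exact hB.sm_union _ _ (h a (Finset.mem_insert_self _ _))
      (ih fun i hi => h i (Finset.mem_insert_of_mem hi))

/-- sets with essentially one point are null -/
theorem thin (hν : MS K 𝓑 Q ν) {Z : Set (Pt I)} (hZ : Z ∈ 𝓑) (hZ0 : ν Z = 0)
    (hnb : ∀ x ∈ K, x ∉ Z → ∃ F, ν (Nb K x F) = 0) {A : Set (Pt I)} (hA : A ∈ 𝓑)
    (h : ∀ x ∈ A, ∀ x' ∈ A, (∀ m, x' (.inl m) = x (.inl m)) ∧
      ∀ γ, Bx π θ d x γ → x' (.inr γ) = x (.inr γ)) : ν A = 0 := by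
  by_cases h1 : A ⊆ Z
  · exact hν.null hA hZ h1 hZ0
  obtain ⟨x, a1, a2⟩ := not_subset.1 h1
  have a3 := hν.sub A hA a1
  obtain ⟨F, a4⟩ := hnb x a3 a2
  obtain ⟨F', a5, a6⟩ := nbhd hB.t0 (hB.con x a3) F
  refine hν.null hA (hB.b_nb a3 F) (fun x' h' => ⟨hν.sub A hA h',
    a6 x' (hB.con x' (hν.sub A hA h')) ?_⟩) a4
  rintro (m | γ) hl
  exacts [(h x a1 x' h').1 m, (h x a1 x' h').2 γ (a5 γ hl)]

/-- no uncountable branch consists of large cones -/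
theorem caseA (hν : MS K 𝓑 Q ν) (hN : NuA π θ d K ν) {Z : Set (Pt I)} (hZ : Z ∈ 𝓑)
    (hZ0 : ν Z = 0) (hnb : ∀ x ∈ K, x ∉ Z → ∃ F, ν (Nb K x F) = 0) {ξ : I} (h1 : d.In ξ)
    (h2 : ξ < θ) (hG : Good π d ξ) (hact : ∀ y, d.In y → ∀ i, raw π d ξ y i → Act π θ d y)
    (hpos : ∀ y, d.In y → ∀ i, raw π d ξ y i → 0 < ν (Half π d K y i)) :
    Sm d {y | d.In y ∧ ∃ i, raw π d ξ y i} := by
  classical
  by_contra hns
  have func : ∀ {y i i'}, d.In y → raw π d ξ y i → raw π d ξ y i' → i = i' := by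
    intro y i i' a1 a2 a3
    by_contra hc
    exact hG.1 y a1 i a2 (Bool.eq_not_of_ne (Ne.symm hc) ▸ a3)
  have clo : ∀ {γ i y i'}, d.In γ → raw π d ξ γ i → T π d γ (.inr y) i' →
      d.In y ∧ raw π d ξ y i' := by
    intro γ i y i' a1 a2 a3
    refine ⟨((hact γ a1 i a2).of_T a3).mem, ?_⟩
    obtain ⟨⟨e, rfl⟩, a4⟩ := a3
    exact hG.2.1 γ a1 i a2 e i' a4
  have chn : ∀ {γ i γ' i'}, d.In γ → raw π d ξ γ i → d.In γ' → raw π d ξ γ' i' → γ < γ' →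
      T π d γ' (.inr γ) i := fun a1 a2 a3 a4 a5 => hG.2.2 _ a1 _ a3 _ _ a2 a4 a5
  have hD := hB.b_db h1
  have hD0 : ν (Db π d K ξ) = 0 := by
    refine hB.thin hν hZ hZ0 hnb hD fun x hx x' hx' =>
      ⟨fun m => (hx'.2.1 m).trans (hx.2.1 m).symm, fun γ hγ => ?_⟩
    obtain ⟨y, ⟨a1, i, a2⟩, a3⟩ := not_subset.1 fun h => hns ((hB.sm_X γ hγ.1.mem).mono h)
    have a4 : Bx π θ d x y := ⟨hact y a1 i a2, by
      rintro (m | y') i' h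
      · exact (hx.2.1 m).trans h.symm
      · exact hx.2.2 _ (clo a1 a2 h).1 _ (clo a1 a2 h).2⟩
    rcases lt_trichotomy y γ with h | h | h
    · exact absurd (Or.inr (a4.T_of_lt hγ h).1) a3
    · exact absurd (Or.inl h) a3
    · have := clo a1 a2 (hγ.T_of_lt a4 h)
      exact hx'.2.2 _ this.1 _ this.2
  have hdisj : ∀ y n m, Disjoint (Ex π d K ξ y n m) (Db π d K ξ) := by
    intro y n m
    rw [Set.disjoint_left]
    rintro x ⟨-, a, a1, i, a2, -, -, -, a3⟩ hx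
    simp [hx.2.2 a a1 i a2] at a3
  have hE : ∀ y, d.In y → ∀ n m, Ex π d K ξ y n m ∈ 𝓑 := by
    intro y hy n m
    rw [← (hdisj y n m).sup_sdiff_cancel_right]
    refine hν.diff (hB.closed _ (union_subset (sep_subset _ _) (sep_subset _ _))
      (hB.cd_ex ξ h1 y hy n m) fun x hx => ?_) hD
    by_cases hinf : Inf x
    swap
    · simp only [Inf, not_forall] at hinf
      obtain ⟨m0, a1⟩ := hinf
      refine ⟨{.inl m0}, fun x' h' => ⟨h'.1, fun h3 => a1 ?_⟩⟩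
      rw [← h'.2 _ (Finset.mem_singleton_self _)]
      rcases h3 with ⟨-, a, -, i, -, -, -, h3, -⟩ | h3
      exacts [h3.inf m0, h3.2.1 m0]
    have : ∃ a0, d.In a0 ∧ ∃ i0, raw π d ξ a0 i0 ∧ x (.inr a0) ≠ i0 := by
      by_contra hc
      push Not at hc
      exact hx.2 (Or.inr ⟨hx.1, hinf, hc⟩)
    obtain ⟨a0, a1, i0, a2, a3⟩ := this
    have key : ∀ a, ∃ l, ∀ i, d.In a → raw π d ξ a i → col d ξ a m →
        (∃ e j, ent d a n (.inr e, j) ∧ π.X a e = y) → ∀ x' : Pt I, x' l = x l → Ext π d x' a →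
          x' (.inr a) ≠ !i := by
      intro a
      by_cases h3 : Ext π d x a
      · exact ⟨.inr a, fun i b1 b2 b3 b4 x' b5 _ b6 =>
          hx.2 (Or.inl ⟨hx.1, a, b1, i, b2, b3, b4, h3, b5 ▸ b6⟩)⟩
      · simp only [Ext, not_forall] at h3
        obtain ⟨l, i, b1, b2⟩ := h3
        exact ⟨l, fun _ _ _ _ _ x' b5 b6 _ => b2 (b5 ▸ b6 l i b1)⟩
    choose lf hlf using key
    refine ⟨insert (.inr a0) ((hB.col2 ξ h1 h2 a0 a1 m).toFinset.image lf), fun x' h' =>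
      ⟨h'.1, fun h3 => ?_⟩⟩
    have b0 : x' (.inr a0) = !i0 :=
      (h'.2 _ (Finset.mem_insert_self _ _)).trans (Bool.eq_not_of_ne a3)
    rcases h3 with ⟨-, a, b1, i, b2, b3, b4, b5, b6⟩ | h3
    · refine hlf a i b1 b2 b3 b4 x' (h'.2 _ (Finset.mem_insert_of_mem
        (Finset.mem_image_of_mem _ ?_))) b5 b6
      rw [Finite.mem_toFinset]
      refine ⟨b1, b3, fun hp => hp i0 i ⟨hG, b2⟩ ⟨hG, a2⟩ ?_⟩
      rcases lt_trichotomy a a0 with h | rfl | h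
      · have b7 := chn b1 b2 a1 a2 h
        refine (U_inr π d).2 (Or.inr ⟨⟨i, b7⟩, ?_⟩)
        rw [← b0]
        exact (side hB.t0 (hB.con x' h'.1) (hact a0 a1 i0 a2) b7 b6
          fun γ e => Sum.inr.inj e ▸ b5).2
      · exact U_self _ _ _ _
      · simp [b5 _ _ (chn a1 a2 b1 b2 h)] at b0
    · simp [h3.2.2 a0 a1 i0 a2] at b0
  refine hns ((hN.su ξ h1 fun n m k => hν.finite (E := fun y => Ex π d K ξ y n m)
    (fun y hy => hE y hy.1 n m) ?_ (Nat.one_div_pos_of_nat (n := k)) fun y hy => hy.2.le).mono ?_)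
  · intro y _ y' _ hne
    rw [Set.disjoint_left]
    rintro x ⟨-, a, a1, i, a2, -, ⟨e, j, a3, rfl⟩, a4, a5⟩
      ⟨-, a', b1, i', b2, -, ⟨e', j', b3, rfl⟩, b4, b5⟩
    rcases lt_trichotomy a a' with h | rfl | h
    · simp [b4 _ _ (chn a1 a2 b1 b2 h)] at a5
    · have := hB.t0.fn a (hact a a1 i a2).lt n _ _ a3 b3
      simp only [Prod.mk.injEq, Sum.inr.injEq] at this
      exact hne (this.1 ▸ rfl)
    · simp [a4 _ _ (chn b1 b2 a1 a2 h)] at b5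
  · rintro y ⟨a1, i, a2⟩
    refine ⟨a1, ?_⟩
    by_contra hc
    push Not at hc
    have b1 := hν.iUnion _ (hB.q_ex ξ h1 y a1) fun k => hE y a1 _ _
    have b2 := hν.iUnion_null (hB.q_ex ξ h1 y a1) (fun k => hE y a1 _ _)
      fun k => le_antisymm (hc _ _) (hν.nonneg _ (hE y a1 _ _))
    have b3 := hν.le_of_cover (hB.b_half a1 i) hD b1 fun x hx => by
      by_contra hcon
      simp only [mem_union, mem_iUnion, not_or, not_exists] at hcon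
      have : {a | d.In a ∧ ∃ i0, raw π d ξ a i0 ∧ x (.inr a) ≠ i0}.Nonempty := by
        by_contra hc
        refine hcon.1 ⟨hx.1, hx.2.1.inf, fun a c1 i0 c2 => by_contra fun c3 => hc ⟨a, c1, i0, c2, c3⟩⟩
      obtain ⟨a, ⟨c1, i0, c2, c3⟩, c4⟩ := wellFounded_lt.has_min _ this
      have c5 : y < a := by
        rcases lt_trichotomy a y with h | rfl | h
        · exact absurd (hx.2.1 _ _ (chn c1 c2 a1 a2 h)) c3
        · exact absurd (hx.2.2.trans (func c1 a2 c2)) c3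
        · exact h
      obtain ⟨e, c6⟩ := (chn a1 a2 c1 c2 c5).1
      obtain ⟨n, j, c7⟩ := hB.t0.onto a c1 (hact a c1 i0 c2).lt (.inr e)
      obtain ⟨m, c8⟩ := hB.col1 ξ h1 h2 a c1
      refine hcon.2 (Nat.pair n m) ⟨hx.1, a, c1, i0, c2, by simpa using c8,
        ⟨e, j, by simpa using c7, c6⟩, ?_, Bool.eq_not_of_ne c3⟩
      rintro (m' | y') i' h
      · exact (hx.2.1.inf m').trans h.symm
      · exact by_contra fun c9 => c4 y' ⟨(clo c1 c2 h).1, i', (clo c1 c2 h).2, c9⟩ h.lt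
    have := hpos y a1 i a2
    linarith

theorem small_BB (hν : MS K 𝓑 Q ν) (hN : NuA π θ d K ν) {Z : Set (Pt I)} (hZ : Z ∈ 𝓑)
    (hZ0 : ν Z = 0) (hnb : ∀ x ∈ K, x ∉ Z → ∃ F, ν (Nb K x F) = 0) {γ0 : I} (h0 : d.In γ0) {k : ℕ}
    (hc : ∀ γ γ', BB π θ d K ν γ0 k γ → BB π θ d K ν γ0 k γ' →
      ∃ x, Bx π θ d x γ ∧ Bx π θ d x γ') : Sm d {γ | BB π θ d K ν γ0 k γ} := by
  obtain ⟨ξ, h1, h2, h3⟩ := hN.t2 γ0 h0 k
  have chn : ∀ {y i y' i'}, PhiB π θ d K ν γ0 k y i → PhiB π θ d K ν γ0 k y' i' →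
      (y < y' → T π d y' (.inr y) i) ∧ (y = y' → i = i') := by
    rintro y i y' i' ⟨γ, -, a1, a2⟩ ⟨γ', -, a3, a4⟩
    obtain ⟨x, a5, a6⟩ := hc γ γ' a1 a3
    refine ⟨fun h => a5.2 _ _ a2 ▸ (a5.of_T a2).T_of_lt (a6.of_T a4) h, ?_⟩
    rintro rfl
    exact (a5.2 _ _ a2).symm.trans (a6.2 _ _ a4)
  have hact : ∀ {y i}, PhiB π θ d K ν γ0 k y i → Act π θ d y :=
    fun ⟨_, _, a1, a2⟩ => a1.1.of_T a2
  have h4 := h3 ⟨fun y _ i h => (hact h).lt, fun γ _ γ' _ i i' a1 a2 a3 => ((chn a1 a2).1 a3).1⟩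
  have h5 := hB.caseA hν hN hZ hZ0 hnb h1 h2 ⟨fun y a1 i a2 a3 => by
      simpa using (chn ((h4 y a1 _).1 a2) ((h4 y a1 _).1 a3)).2 rfl,
    fun γ a1 i a2 e i' a3 => by
      obtain ⟨γ', b1, b2, b3⟩ := (h4 γ a1 _).1 a2
      have b4 := b2.1.sub b3 (l := .inr _) ⟨⟨e, rfl⟩, a3⟩
      exact (h4 _ (b2.1.of_T b4).mem _).2 ⟨γ', b1, b2, b4⟩,
    fun γ a1 γ' a2 i i' a3 a4 => (chn ((h4 γ a1 _).1 a3) ((h4 γ' a2 _).1 a4)).1⟩
    (fun y a1 i a2 => hact ((h4 y a1 _).1 a2)) fun y a1 i a2 => by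
      obtain ⟨γ, b1, b2, b3⟩ := (h4 y a1 _).1 a2
      exact (Nat.one_div_pos_of_nat.trans b2.2.1).trans_le (hν.mono (hB.b_cone b1)
        (hB.b_half a1 i) fun x hx => ⟨hx.1, (Bx.of_T ⟨b2.1, hx.2⟩ b3).2, hx.2 _ _ b3⟩)
  by_cases h6 : ∃ γ, BB π θ d K ν γ0 k γ ∧ ∀ γ', BB π θ d K ν γ0 k γ' → γ' ≤ γ
  · obtain ⟨γ, a1, a2⟩ := h6
    refine (hB.sm_X γ a1.1.mem).mono fun γ' h => ?_
    obtain ⟨x, a5, a6⟩ := hc γ' γ h a1
    rcases (a2 γ' h).lt_or_eq with h7 | h7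
    exacts [Or.inr (a5.T_of_lt a6 h7).1, Or.inl h7]
  · push Not at h6
    refine h5.mono fun γ h => ?_
    obtain ⟨γ', a1, a2⟩ := h6 γ h
    obtain ⟨x, a5, a6⟩ := hc γ γ' h a1
    exact ⟨h.1.mem, _, (h4 γ h.1.mem _).2 ⟨γ', a1.1.mem, a1, a5.T_of_lt a6 a2⟩⟩

/-- there are few large cones -/
theorem small_pos (hν : MS K 𝓑 Q ν) (hN : NuA π θ d K ν) {Z : Set (Pt I)} (hZ : Z ∈ 𝓑)
    (hZ0 : ν Z = 0) (hnb : ∀ x ∈ K, x ∉ Z → ∃ F, ν (Nb K x F) = 0) (k : ℕ) :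
    Sm d {γ | Act π θ d γ ∧ 1 / ((k : ℝ) + 1) < ν (Cone π d K γ)} := by
  classical
  obtain ⟨n, hn⟩ := hν.exists_card_le (Nat.one_div_pos_of_nat (n := k))
  let Gd : Set (Finset I) := {S | (∀ γ ∈ S, Act π θ d γ ∧ 1 / ((k : ℝ) + 1) < ν (Cone π d K γ)) ∧
    (S : Set I).Pairwise fun γ γ' => Disjoint (Cone π d K γ) (Cone π d K γ')}
  obtain ⟨S, hS, hmin⟩ := (measure fun S : Finset I => n - S.card).wf.has_min Gd ⟨∅, by simp [Gd]⟩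
  have hmax : ∀ S' ∈ Gd, S'.card ≠ S.card + 1 := fun S' h e => hmin S' h (by
    have := hn I S' _ (fun γ hγ => hB.b_cone (h.1 γ hγ).1.mem) h.2 fun γ hγ => (h.1 γ hγ).2.le
    change n - S'.card < n - S.card
    omega)
  have hne : ∀ γ, 1 / ((k : ℝ) + 1) < ν (Cone π d K γ) →
      ¬ Disjoint (Cone π d K γ) (Cone π d K γ) := fun γ h h' => by
    rw [disjoint_self.1 h', bot_eq_empty, hν.zero] at h
    exact absurd Nat.one_div_pos_of_nat h.not_gt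
  have hins : ∀ S' ∈ Gd, ∀ γ, Act π θ d γ → 1 / ((k : ℝ) + 1) < ν (Cone π d K γ) →
      (∀ γ' ∈ S', Disjoint (Cone π d K γ) (Cone π d K γ')) →
      insert γ S' ∈ Gd ∧ (insert γ S').card = S'.card + 1 := fun S' h γ a1 a2 a3 =>
    ⟨⟨by simpa using ⟨⟨a1, by simpa using a2⟩, by simpa using h.1⟩, by
      rw [Finset.coe_insert]
      exact h.2.insert fun γ' h' _ => ⟨a3 γ' h', (a3 γ' h').symm⟩⟩,
      Finset.card_insert_of_notMem fun h' => hne γ a2 (a3 γ h')⟩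
  refine (hB.sm_biUnion S (Z := fun γ0 => insert γ0 (range (π.X γ0)) ∪ {γ | BB π θ d K ν γ0 k γ})
    fun γ0 h0 => hB.sm_union _ _ (hB.sm_X γ0 (hS.1 γ0 h0).1.mem)
      (hB.small_BB hν hN hZ hZ0 hnb (hS.1 γ0 h0).1.mem fun γ γ' a1 a2 => ?_)).mono ?_
  · by_contra hc
    have hsub : ∀ γ, BB π θ d K ν γ0 k γ → ∀ γ' ∈ S.erase γ0,
        Disjoint (Cone π d K γ) (Cone π d K γ') := fun γ h γ' h' => by
      refine (hS.2 h0 (Finset.mem_of_mem_erase h') (Finset.ne_of_mem_erase h').symm).mono_left ?_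
      rcases h.2.2 with rfl | ⟨i, h3⟩
      exacts [le_rfl, fun x hx => ⟨hx.1, (Bx.of_T ⟨h.1, hx.2⟩ h3).2⟩]
    obtain ⟨b1, b2⟩ := hins (S.erase γ0) ⟨fun γ h => hS.1 γ (Finset.mem_of_mem_erase h),
      hS.2.mono (by simp)⟩ γ' a2.1 a2.2.1 (hsub γ' a2)
    obtain ⟨b3, b4⟩ := hins _ b1 γ a1.1 a1.2.1 fun γ'' h => by
      rcases Finset.mem_insert.1 h with rfl | h
      · exact Set.disjoint_left.2 fun x c1 c2 => hc ⟨x, ⟨a1.1, c1.2⟩, a2.1, c2.2⟩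
      · exact hsub γ a1 γ'' h
    exact hmax _ b3 (by rw [b4, b2, Finset.card_erase_add_one h0])
  · rintro γ ⟨a1, a2⟩
    have : ∃ γ0 ∈ S, ¬ Disjoint (Cone π d K γ) (Cone π d K γ0) := by
      by_contra hc
      push Not at hc
      exact hmax _ (hins S hS γ a1 a2 hc).1 (hins S hS γ a1 a2 hc).2
    obtain ⟨γ0, b1, b2⟩ := this
    obtain ⟨x, b3, b4⟩ := not_disjoint_iff.1 b2
    refine mem_biUnion b1 ?_
    rcases lt_trichotomy γ γ0 with h | h | h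
    · exact Or.inl (Or.inr (Bx.T_of_lt ⟨a1, b3.2⟩ ⟨(hS.1 γ0 b1).1, b4.2⟩ h).1)
    · exact Or.inl (Or.inl h)
    · exact Or.inr ⟨a1, a2, Or.inr ⟨_, Bx.T_of_lt ⟨(hS.1 γ0 b1).1, b4.2⟩ ⟨a1, b3.2⟩ h⟩⟩

end Base

end Pool.Agent.P.MP_c9188c_gt
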