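import Pool.Agent.P.MP_c9188c_gt.CoreA

/-!
A measure all of whose points have null neighbourhoods vanishes.
-/

open Set Filter Pool.Agent.Lib.Helper87

namespace Pool.Agent.P.MP_c9188c_gt

variable {I : Type} [LinearOrder I] [WellFoundedLT I] (π : Par I) (θ : I) (d : Dat I)
  (K : Set (Pt I))

/-- the exit number `e` from the node at `ζ` is not separated at the labels in `F` -/
def Free (en : ℕ → I × Bool) (R : ℕ → Prop) (ζ : I) (F : Finset (ℕ ⊕ I)) (e : ℕ) : Prop :=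
  T π d ζ (.inr (en e).1) (!(en e).2) ∧ R e ∧ ∀ l ∈ F, ¬ Hit π d (.inr (en e).1) ζ l

/-- splitting at new labels -/
def G1 (en : ℕ → I × Bool) (R : ℕ → Prop) (ξ0 : I) : Prop :=
  ∀ ζ, d.In ζ → ζ < θ → ξ0 ≤ ζ → (∀ F, ∃ e, Free π d en R ζ F e) →
    ∀ j F, ∃ e, Free π d en R ζ F e ∧ Sd π d (.inr (en e).1) ζ j

/-- guessing at old labels -/
def G2 (en : ℕ → I × Bool) (R : ℕ → ℕ → Prop) (ξ0 : I) (G : ℕ → ℕ → Prop) : Prop :=
  ∀ γ, d.In γ → γ < ξ0 → (∀ k, ∃ e, T π d γ (.inr (en e).1) (en e).2 ∧ R k e) →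
    ∀ n, ∃ k, n ≤ k ∧ ∃ e, G k e ∧ T π d γ (.inr (en e).1) (en e).2 ∧ R k e

variable (ν : Set (Pt I) → ℝ)

/-- null half cones -/
def N2 (en : ℕ → I × Bool) (e : ℕ) : Set (Pt I) :=
  {x ∈ K | ν (Half π d K (en e).1 (en e).2) = 0 ∧ x ∈ Half π d K (en e).1 (en e).2}

/-- guessed half cones -/
def N3 (en : ℕ → I × Bool) (G : ℕ → ℕ → Prop) (k : ℕ) : Set (Pt I) :=
  {x ∈ K | ∃ e, G k e ∧ ν (Half π d K (en e).1 (en e).2) < (1 / 2) ^ k ∧
    x ∈ Half π d K (en e).1 (en e).2}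

/-- facts about the measure used for countable trees -/
def NuB (Q : (ℕ → Set (Pt I)) → Prop) : Prop :=
  ∃ (en : ℕ → I × Bool) (ξ0 : I) (G : ℕ → ℕ → Prop),
    ((∀ k : ℕ, Sm d {γ | Act π θ d γ ∧ 1 / ((k : ℝ) + 1) < ν (Cone π d K γ)}) →
      ∀ γ, Act π θ d γ → 0 < ν (Cone π d K γ) → ∀ i, (γ, i) ∈ range en) ∧
    Sm d (range fun e => (en e).1) ∧ (∀ e, d.In (en e).1) ∧
    G1 π θ d en (fun e => 0 < ν (Half π d K (en e).1 (en e).2)) ξ0 ∧
    G2 π d en (fun k e => ν (Half π d K (en e).1 (en e).2) < (1 / 2) ^ k) ξ0 G ∧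
    (∀ k e e', G k e → G k e' → e = e') ∧ Q (N2 π d K ν en) ∧ Q (N3 π d K ν en G)

variable {π θ d K ν} {𝓑 : Set (Set (Pt I))} {Q : (ℕ → Set (Pt I)) → Prop}
  {Cd : Set (Pt I) → Prop}

/-- propagation along a branch -/
theorem free_step (h0 : T0 θ d) {en : ℕ → I × Bool} {R : ℕ → Prop} {ξ0 : I}
    (hG : G1 π θ d en R ξ0) {x : Pt I} {γ : I} (h1 : Bx π θ d x γ) (h2 : ξ0 ≤ γ)
    (h3 : ∀ F, ∃ e, Free π d en R γ F e) {ζ : I} (h4 : Bx π θ d x ζ) (h5 : γ ≤ ζ) :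
    ∀ F, ∃ e, Free π d en R ζ F e := by
  classical
  induction ζ using WellFoundedLT.induction with
  | ind ζ ih =>
  intro F
  have key : ∀ y, Bx π θ d x y → y ≤ ζ → ∀ e, Free π d en R y F e →
      (∀ y' i, .inr y' ∈ F → T π d ζ (.inr y') i → y ≤ y' → ¬ U π d (.inr (en e).1) (.inr y') i) →
      Free π d en R ζ F e := by
    intro y a1 a2 e a3 a4
    refine ⟨a1.sub h4 a2 a3.1, a3.2.1, ?_⟩
    rintro (m | y') hl ⟨i, b1, b2⟩
    · exact a3.2.2 _ hl ⟨i, b1, b2⟩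
    · rcases lt_or_ge y' y with h | h
      · exact a3.2.2 _ hl ⟨i, h4.2 _ _ b1 ▸ (h4.of_T b1).T_of_lt a1 h, b2⟩
      · exact a4 y' i hl b1 h b2
  have hfin : {y | Sum.inr y ∈ F ∧ (∃ i, T π d ζ (.inr y) i) ∧ γ ≤ y}.Finite :=
    (F.finite_toSet.preimage Sum.inr_injective.injOn).subset fun y h => h.1
  rcases eq_empty_or_nonempty {y | Sum.inr y ∈ F ∧ (∃ i, T π d ζ (.inr y) i) ∧ γ ≤ y} with h | h
  · obtain ⟨e, he⟩ := h3 F
    exact ⟨e, key γ h1 h5 e he fun y' i a1 a2 a3 =>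
      absurd ⟨a1, ⟨i, a2⟩, a3⟩ (eq_empty_iff_forall_notMem.1 h y')⟩
  · obtain ⟨y, ⟨-, ⟨i0, a2⟩, a3⟩, a4⟩ := Set.exists_max_image _ id hfin h
    have a5 := h4.of_T a2
    obtain ⟨e, b1, b2⟩ := hG y a5.1.mem a5.1.lt (h2.trans a3) (ih y a2.lt a5 a3) i0 F
    refine ⟨e, key y a5 a2.lt.le e b1 fun y' i c1 c2 c3 c4 => ?_⟩
    obtain rfl : y' = y := le_antisymm (a4 y' ⟨c1, ⟨i, c2⟩, a3.trans c3⟩) c3
    obtain rfl : i = i0 := h4.1.func c2 a2
    rcases (U_inr π d).1 c4 with c5 | c5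
    · exact absurd (Sum.inr.inj c5) b1.1.lt.ne
    · simpa using h0.sd_unique a5.1.lt b2 c5.2

namespace Base
variable (hB : Base π θ d K 𝓑 Q Cd)
include hB

theorem b_exit (hν : MS K 𝓑 Q ν) {γ : I} (h : Act π θ d γ) (e : ℕ) : Exit π d K γ e ∈ 𝓑 := by
  by_cases h1 : ∃ i, T π d γ (.inr (π.X γ e)) i
  · obtain ⟨i, h1⟩ := h1
    have : Exit π d K γ e = Half π d K (π.X γ e) (!i) := by
      ext x
      exact and_congr_right fun _ => ⟨fun ⟨i', a1, a2⟩ => h.func a1 h1 ▸ a2, fun a => ⟨i, h1, a⟩⟩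
    exact this ▸ hB.b_half (h.of_T h1).mem _
  · have : Exit π d K γ e = ∅ := eq_empty_of_forall_notMem fun x ⟨_, i, a, _⟩ => h1 ⟨i, a⟩
    exact this ▸ hν.empty

omit hB in
theorem exit_cover {γ : I} (h : Act π θ d γ) {x : Pt I} (h1 : x ∈ KInf K) (h2 : ¬ Ext π d x γ) :
    ∃ e, x ∈ Exit π d K γ e := by
  have : {y | ∃ i, T π d γ (.inr y) i ∧ x (.inr y) ≠ i}.Nonempty := by
    simp only [Ext, not_forall] at h2
    obtain ⟨m | y, i, a1, a2⟩ := h2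
    · exact absurd ((h1.2 m).trans a1.symm) a2
    · exact ⟨y, i, a1, a2⟩
  obtain ⟨y, ⟨i, a1, a2⟩, a3⟩ := wellFounded_lt.has_min _ this
  obtain ⟨e, rfl⟩ := a1.1
  refine ⟨e, h1.1, i, a1, ?_, Bool.eq_not_of_ne a2⟩
  rintro (m | y') i' b1
  · exact (h1.2 m).trans b1.symm
  · exact by_contra fun b2 => a3 y' ⟨i', h.sub a1 b1, b2⟩ b1.lt

omit hB in
theorem exit_lt {γ y : I} {i : Bool} (h : Act π θ d γ) (h1 : T π d γ (.inr y) i) {x : Pt I}
    {e : ℕ} (h2 : x ∈ Exit π d K γ e) (h3 : x ∈ Half π d K y i) : y < π.X γ e := by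
  obtain ⟨-, i', a1, a2, a3⟩ := h2
  rcases lt_trichotomy y (π.X γ e) with h4 | rfl | h4
  · exact h4
  · simp [h3.2.2, h.func h1 a1] at a3
  · simp [h3.2.1 _ _ (h.chain h1 a1 h4)] at a3

/-- below a null cone there are small half cones -/
theorem small_half (hν : MS K 𝓑 Q ν) {γ : I} (h : Act π θ d γ) (h0 : ν (Cone π d K γ) = 0)
    (h1 : 0 < ν (KInf K)) {δ : ℝ} (hδ : 0 < δ) :
    ∃ y i, T π d γ (.inr y) i ∧ ν (Half π d K y i) < δ := by
  classical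
  obtain ⟨n, hn⟩ := hν.cont (hB.q_exit γ h.mem) (hB.b_exit hν h) (lt_min hδ h1)
  have a1 := hν.diff (hν.iUnion _ (hB.q_exit γ h.mem) (hB.b_exit hν h))
    (hν.biUnion (Finset.range n) fun e _ => hB.b_exit hν h e)
  have key : ∀ A ∈ 𝓑, A ⊆ KInf K → (∀ x ∈ A, ∀ e < n, x ∉ Exit π d K γ e) →
      ν A < min δ (ν (KInf K)) := fun A b1 b2 b3 => by
    have := hν.le_of_cover b1 (hB.b_cone h.mem) a1 fun x hx => by
      by_cases b4 : Ext π d x γ
      · exact Or.inl ⟨(b2 hx).1, b4⟩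
      · refine Or.inr ⟨mem_iUnion.2 (exit_cover h (b2 hx) b4), ?_⟩
        simpa using b3 x hx
    linarith
  rcases ((Finset.range n).filter fun e => ∃ i, T π d γ (.inr (π.X γ e)) i).eq_empty_or_nonempty
    with h2 | h2
  · refine absurd (key _ hB.b_inf Subset.rfl fun x _ e he ⟨_, i, b1, _⟩ => ?_) (by simp)
    exact Finset.eq_empty_iff_forall_notMem.1 h2 e (Finset.mem_filter.2 ⟨Finset.mem_range.2 he, i, b1⟩)
  · obtain ⟨e, b1, b2⟩ := Finset.exists_max_image _ (π.X γ) h2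
    obtain ⟨i, b3⟩ := (Finset.mem_filter.1 b1).2
    refine ⟨_, i, b3, (key _ (hB.b_half (h.of_T b3).mem i) (fun x hx => ⟨hx.1, hx.2.1.inf⟩)
      fun x hx e' he' b4 => ?_).trans_le (min_le_left _ _)⟩
    obtain ⟨i', b5, -⟩ := b4.2
    exact absurd (exit_lt h b3 b4 hx)
      (b2 e' (Finset.mem_filter.2 ⟨Finset.mem_range.2 he', i', b5⟩)).not_gt

/-- the main lemma -/
theorem core (hν : MS K 𝓑 Q ν) (hN : NuA π θ d K ν) (hN' : NuB π θ d K ν Q) {Z : Set (Pt I)}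
    (hZ : Z ∈ 𝓑) (hZ0 : ν Z = 0) (hnb : ∀ x ∈ K, x ∉ Z → ∃ F, ν (Nb K x F) = 0) : ν K = 0 := by
  classical
  obtain ⟨en, ξ0, G, h1, h2, h3, h4, h5, h6, h7, h8⟩ := hN'
  have h1 := h1 (hB.small_pos hν hN hZ hZ0 hnb)
  have a1 := hν.iUnion _ hB.q_nat hB.b_nat
  have a2 : ν (⋃ m, NatS K m) = 0 := hν.iUnion_null hB.q_nat hB.b_nat fun m =>
    hB.thin hν hZ hZ0 hnb (hB.b_nat m) fun x hx x' hx' => ⟨fun m' => by
      by_cases h : m' = m
      · rw [h, hx.2, hx'.2]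
      · rw [Bool.eq_false_iff.2 fun e => h ((hB.con x hx.1).one _ _ e hx.2),
          Bool.eq_false_iff.2 fun e => h ((hB.con x' hx'.1).one _ _ e hx'.2)],
      fun γ hγ => by simpa [hγ.2.inf m] using hx.2⟩
  suffices h : ν (KInf K) = 0 by
    have := hν.le_of_cover hν.top a1 hB.b_inf fun x hx => by
      by_cases h : Inf x
      · exact Or.inr ⟨hx, h⟩
      · simp only [Inf, not_forall, Bool.not_eq_false] at h
        exact Or.inl (mem_iUnion.2 (h.imp fun m h => ⟨hx, h⟩))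
    exact le_antisymm (by linarith) (hν.nonneg _ hν.top)
  by_contra hpos
  have hpos := lt_of_le_of_ne (hν.nonneg _ hB.b_inf) (Ne.symm hpos)
  have bh : ∀ e, Half π d K (en e).1 (en e).2 ∈ 𝓑 := fun e => hB.b_half (h3 e) _
  have b2 : ∀ e, N2 π d K ν en e ∈ 𝓑 ∧ ν (N2 π d K ν en e) = 0 := fun e => by
    by_cases h : ν (Half π d K (en e).1 (en e).2) = 0
    · have : N2 π d K ν en e = Half π d K (en e).1 (en e).2 :=
        Subset.antisymm (fun x hx => hx.2.2) fun x hx => ⟨hx.1, h, hx⟩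
      exact this ▸ ⟨bh e, h⟩
    · have : N2 π d K ν en e = ∅ := eq_empty_of_forall_notMem fun x hx => h hx.2.1
      exact this ▸ ⟨hν.empty, hν.zero⟩
  have b3 : ∀ k, N3 π d K ν en G k ∈ 𝓑 ∧ ν (N3 π d K ν en G k) ≤ (1 / 2) ^ k := fun k => by
    by_cases h : ∃ e, G k e ∧ ν (Half π d K (en e).1 (en e).2) < (1 / 2) ^ k
    · obtain ⟨e, c1, c2⟩ := h
      have : N3 π d K ν en G k = Half π d K (en e).1 (en e).2 :=
        Subset.antisymm (fun x ⟨_, e', c3, _, c4⟩ => h6 k e' e c3 c1 ▸ c4)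
          fun x hx => ⟨hx.1, e, c1, c2, hx⟩
      exact this ▸ ⟨bh e, c2.le⟩
    · have : N3 π d K ν en G k = ∅ :=
        eq_empty_of_forall_notMem fun x ⟨_, e, c1, c2, _⟩ => h ⟨e, c1, c2⟩
      rw [this, hν.zero]
      exact ⟨hν.empty, by positivity⟩
  have b4 := hν.iUnion _ h7 fun e => (b2 e).1
  have b5 := hν.iUnion_null h7 (fun e => (b2 e).1) fun e => (b2 e).2
  have main : ∀ x ∈ KInf K, x ∉ Z → x ∉ ⋃ e, N2 π d K ν en e →
      ∀ n, x ∈ ⋃ k, N3 π d K ν en G (k + n) := by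
    intro x hx c1 c2 n
    have : {γ | Bx π θ d x γ ∧ ν (Cone π d K γ) = 0}.Nonempty := by
      obtain ⟨γ, d1, d2⟩ := not_subset.1 fun h => hB.t1 x hx.1 hx.2 (h2.mono h)
      refine ⟨γ, d1, by_contra fun d3 => d2 ?_⟩
      obtain ⟨e, he⟩ := h1 γ d1.1
        (lt_of_le_of_ne (hν.nonneg _ (hB.b_cone d1.1.mem)) (Ne.symm d3)) true
      exact ⟨e, by simp [he]⟩
    obtain ⟨γ, ⟨d1, d2⟩, d3⟩ := wellFounded_lt.has_min _ this
    have d4 : ∀ y i, T π d γ (.inr y) i → ∀ i', (y, i') ∈ range en := fun y i h =>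
      h1 y (d1.1.of_T h) (lt_of_le_of_ne (hν.nonneg _ (hB.b_cone (d1.1.of_T h).mem))
        fun e => d3 y ⟨d1.of_T h, e.symm⟩ h.lt)
    have d5 : ∀ y i, T π d γ (.inr y) i → ν (Half π d K y i) ≠ 0 := fun y i h e0 => by
      obtain ⟨e, he⟩ := d4 y i h i
      refine c2 (mem_iUnion.2 ⟨e, hx.1, ?_⟩)
      rw [he]
      exact ⟨e0, hx.1, (d1.of_T h).2, d1.2 _ _ h⟩
    rcases lt_or_ge γ ξ0 with hlt | hge
    · obtain ⟨k, e1, e, e2, e3, e4⟩ := h5 γ d1.1.mem hlt (fun k => by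
        obtain ⟨y, i, f1, f2⟩ := hB.small_half hν d1.1 d2 hpos (δ := (1 / 2) ^ k) (by positivity)
        obtain ⟨e, he⟩ := d4 y i f1 i
        exact ⟨e, by simpa only [he] using ⟨f1, f2⟩⟩) n
      refine mem_iUnion.2 ⟨k - n, ?_⟩
      rw [Nat.sub_add_cancel e1]
      exact ⟨hx.1, e, e2, e4, hx.1, (d1.of_T e3).2, d1.2 _ _ e3⟩
    exfalso
    have base : ∀ F, ∃ e, Free π d en (fun e => 0 < ν (Half π d K (en e).1 (en e).2)) γ F e := by
      intro F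
      obtain ⟨y0, i0, f1, -⟩ := hB.small_half hν d1.1 d2 hpos one_pos
      obtain ⟨y, ⟨-, i, f2⟩, f3⟩ := Set.exists_max_image
        {y | (y = y0 ∨ Sum.inr y ∈ F) ∧ ∃ i, T π d γ (.inr y) i} id
        (((F.finite_toSet.preimage Sum.inr_injective.injOn).insert y0).subset fun y h => h.1)
        ⟨y0, Or.inl rfl, i0, f1⟩
      have f4 := hB.b_half (d1.1.of_T f2).mem i
      have f5 := hν.diff f4 (hB.b_cone d1.1.mem)
      have f6 : ν (Half π d K y i \ Cone π d K γ) ≠ 0 := fun h => by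
        have := hν.le_of_cover f4 (hB.b_cone d1.1.mem) f5 (fun z hz => (em _).imp id fun h => ⟨hz, h⟩)
        exact d5 y i f2 (le_antisymm (by linarith) (hν.nonneg _ f4))
      obtain ⟨e, f7⟩ := not_forall.1 fun h => f6 (hν.null_of_cover f5 (hB.q_exit γ d1.1.mem)
        (hB.b_exit hν d1.1) (fun x' h' => mem_iUnion.2 (exit_cover d1.1 ⟨h'.1.1, h'.1.2.1.inf⟩
          fun h2 => h'.2 ⟨h'.1.1, h2⟩)) h)
      obtain ⟨x', g1, g2⟩ : (Exit π d K γ e ∩ (Half π d K y i \ Cone π d K γ)).Nonempty :=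
        nonempty_iff_ne_empty.2 fun h => f7 (h ▸ hν.zero)
      have g3 := exit_lt d1.1 f2 g1 g2.1
      obtain ⟨-, i', g4, -⟩ := g1
      obtain ⟨e', g5⟩ := d4 _ i' g4 (!i')
      refine ⟨e', by simpa only [g5, Bool.not_not] using g4, ?_, ?_⟩
      · simp only [g5]
        refine lt_of_le_of_ne (hν.nonneg _ (hB.b_half (d1.1.of_T g4).mem _)) fun h => f7 ?_
        refine hν.null (hν.inter' (hB.b_exit hν d1.1 e) f5) (hB.b_half (d1.1.of_T g4).mem _)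
          ?_ h.symm
        rintro x'' ⟨⟨g6, i2, g7, g8⟩, -⟩
        exact ⟨g6, d1.1.func g7 g4 ▸ g8⟩
      · simp only [g5]
        rintro (m | y') g6 ⟨i2, g7, g8⟩
        · simp at g8
        · exact absurd (g8.le.trans (f3 y' ⟨Or.inr g6, i2, g7⟩)) g3.not_ge
    obtain ⟨F0, f1⟩ := hnb x hx.1 c1
    obtain ⟨F, f2, f3⟩ := nbhd hB.t0 (hB.con x hx.1) F0
    obtain ⟨y, f4, f5⟩ := Set.exists_max_image {y | y = γ ∨ Sum.inr y ∈ F} id
      ((F.finite_toSet.preimage Sum.inr_injective.injOn).insert γ) ⟨γ, Or.inl rfl⟩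
    have f6 : Bx π θ d x y := f4.elim (fun h => h ▸ d1) (f2 y)
    obtain ⟨ζ, f7, f8⟩ := not_subset.1 fun h => hB.t1 x hx.1 hx.2 ((hB.sm_X y f6.1.mem).mono h)
    have f9 : y < ζ := by
      rcases lt_trichotomy ζ y with h | h | h
      · exact absurd (Or.inr (Bx.T_of_lt f7 f6 h).1) f8
      · exact absurd (Or.inl h) f8
      · exact h
    obtain ⟨e, g1, g2, g3⟩ := free_step hB.t0 h4 d1 hge base f7
      ((f5 γ (Or.inl rfl)).trans f9.le) F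
    refine absurd (hν.null (bh e) (hB.b_nb hx.1 F0) (fun x' h' =>
      ⟨h'.1, f3 x' (hB.con x' h'.1) fun l hl => ?_⟩) f1) g2.ne'
    have g4 : T π d ζ l (x l) := by
      rcases l with m | y'
      · exact hx.2 m
      · exact (f2 y' hl).T_of_lt f7 ((f5 y' (Or.inr hl)).trans_lt f9)
    have g5 := (side hB.t0 (hB.con x' h'.1) f7.1 g1 (by simpa using h'.2.2)
      fun γ e => Sum.inr.inj e ▸ h'.2.1).1 l _ g4
    exact by_contra fun g6 => g3 l hl ⟨_, g4, g5.1 (Bool.eq_not_of_ne g6)⟩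
  obtain ⟨n, hn⟩ := exists_pow_lt_of_lt_one (half_pos hpos) (by norm_num : (1 / 2 : ℝ) < 1)
  have c1 := hν.iUnion _ (hν.shift _ h8 (fun k => (b3 k).1) n) fun k => (b3 _).1
  have c2 := hν.tail_le h8 (fun k => (b3 k).1) (fun k => (b3 k).2) n
  have c3 := hν.le_of_cover hB.b_inf (hν.union hZ b4) c1 fun x hx => by
    by_cases h : x ∈ Z ∪ ⋃ e, N2 π d K ν en e
    · exact Or.inl h
    · exact Or.inr (main x hx (fun h' => h (Or.inl h')) (fun h' => h (Or.inr h')) n)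
  have c4 := hν.union_le hZ b4
  linarith

end Base

end Pool.Agent.P.MP_c9188c_gt
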