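import Pool.Agent.Lib.Helper87.Codes

/-!
Conditions, and the objects which are read off from a set of conditions.
-/

open Set Filter Pool.Agent.Lib.Helper87

namespace Pool.Agent.P.MP_c9188c_gt

universe v

/-- entries of the Cohen lists -/
abbrev Ent : Type := (ℕ ⊕ ℕ) × Bool

/-- a coordinate of a condition -/
@[ext] structure Co (I : Type) : Type where
  l : List Ent
  f : Finset (I × ℕ)
  H : Finset (I × ℕ)

instance (I : Type) : Zero (Co I) := ⟨⟨[], ∅, ∅⟩⟩

@[simp] theorem Co.zero_l {I : Type} : (0 : Co I).l = [] := rfl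
@[simp] theorem Co.zero_f {I : Type} : (0 : Co I).f = ∅ := rfl
@[simp] theorem Co.zero_H {I : Type} : (0 : Co I).H = ∅ := rfl

/-- conditions -/
abbrev Cond (I : Type) : Type := I →₀ Co I

/-- the book-keeping -/
structure Par (I : Type) : Type where
  X : I → ℕ → I
  A : I → Set (I × Bool × Cond I)

/-- a countable set together with a set of conditions -/
structure Dat (I : Type) : Type 2 where
  N : Set Univ
  H : Set (Cond I)

/-- membership in the countable set -/
def Dat.In {I : Type} (d : Dat I) {T : Type v} [Small.{1} T] (a : T) : Prop := emb a ∈ d.N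

/-- the first entry which is hit has side `j` -/
def First (ent : ℕ → Ent → Prop) (hit : ℕ ⊕ ℕ → Prop) (j : Bool) : Prop :=
  ∃ n e, ent n (e, j) ∧ hit e ∧ ∀ k, k < n → ∀ e' j', ent k (e', j') → ¬ hit e'

section first
variable {ent : ℕ → Ent → Prop} {hit hit' : ℕ ⊕ ℕ → Prop} {j j' : Bool}

theorem First.congr (h : ∀ e, hit e ↔ hit' e) : First ent hit j ↔ First ent hit' j := by
  rw [show hit = hit' from funext fun e => propext (h e)]

theorem First.unique (hf : ∀ n x y, ent n x → ent n y → x = y) (h : First ent hit j)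
    (h' : First ent hit j') : j = j' := by
  obtain ⟨n, e, a1, a2, a3⟩ := h
  obtain ⟨m, e', b1, b2, b3⟩ := h'
  rcases lt_trichotomy n m with h | rfl | h
  · exact absurd a2 (b3 n h e j a1)
  · exact (Prod.ext_iff.1 (hf n _ _ a1 b1)).2
  · exact absurd b2 (a3 m h e' j' b1)

theorem First.exists {n : ℕ} {e : ℕ ⊕ ℕ} (h1 : ent n (e, j)) (h2 : hit e) :
    ∃ k ≤ n, ∃ e' j', ent k (e', j') ∧ hit e' ∧ First ent hit j' := by
  classical
  have hex : ∃ n, ∃ e j, ent n (e, j) ∧ hit e := ⟨n, e, j, h1, h2⟩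
  obtain ⟨e', j', a1, a2⟩ := Nat.find_spec hex
  exact ⟨Nat.find hex, Nat.find_min' hex ⟨e, j, h1, h2⟩, e', j', a1, a2, Nat.find hex, e', a1, a2,
    fun k hk e2 j2 b1 b2 => Nat.find_min hex hk ⟨e2, j2, b1, b2⟩⟩

/-- if all hits in an initial list have side `j`, and there is one, then the side is `j` -/
theorem First.of_list (hf : ∀ n x y, ent n x → ent n y → x = y) {l : List Ent}
    (hl : ∀ n x, l[n]? = some x → ent n x) (h1 : ∃ x ∈ l, hit x.1)
    (h2 : ∀ x ∈ l, hit x.1 → x.2 = j) : First ent hit j := by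
  obtain ⟨x, hx, h1⟩ := h1
  obtain ⟨n, hn⟩ := List.mem_iff_getElem?.1 hx
  obtain ⟨k, hk, e', j', a1, a2, a3⟩ := First.exists (j := x.2) (hl n x hn) h1
  have hlt : k < l.length := lt_of_le_of_lt hk (List.getElem?_eq_some_iff.1 hn).1
  have := hf k _ _ a1 (hl k l[k] (List.getElem?_eq_getElem hlt))
  have h3 := h2 l[k] (List.getElem_mem hlt) (by rw [← this]; exact a2)
  rw [← this] at h3
  exact h3 ▸ a3

theorem measurable_first {W : Type*} [MeasurableSpace W] {ent : ℕ → Ent → W → Prop}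
    {hit : ℕ ⊕ ℕ → W → Prop} (h1 : ∀ n x, Measurable (ent n x)) (h2 : ∀ e, Measurable (hit e))
    (j : Bool) : Measurable fun w => First (fun n x => ent n x w) (fun e => hit e w) j :=
  Measurable.exists fun _ => Measurable.exists fun _ => (h1 _ _).and ((h2 _).and
    (Measurable.forall fun k => measurable_const.imp (Measurable.forall fun e' =>
      Measurable.forall fun j' => (h1 k (e', j')).imp (h2 e').not)))

end first

variable {I : Type} [LinearOrder I]

/-- restriction -/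
noncomputable def cut (ζ : I) (p : Cond I) : Cond I := p.filter (· < ζ)

theorem cut_lt {ζ j : I} (p : Cond I) (h : j < ζ) : cut ζ p j = p j := by
  simp [cut, h]

theorem cut_ge {ζ j : I} (p : Cond I) (h : ζ ≤ j) : cut ζ p j = 0 := by
  simp [cut, h.not_gt]

theorem cut_cut {ζ ξ : I} (h : ζ ≤ ξ) (p : Cond I) : cut ξ (cut ζ p) = cut ζ p := by
  ext1 j
  by_cases hj : j < ξ
  · exact cut_lt _ hj
  · rw [cut_ge _ (not_lt.1 hj), cut_ge _ (h.trans (not_lt.1 hj))]

theorem cut_single {ζ ξ : I} (h : ζ < ξ) (c : Co I) :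
    cut ξ (Finsupp.single ζ c) = Finsupp.single ζ c := by
  ext1 j
  by_cases hj : j < ξ
  · exact cut_lt _ hj
  · rw [cut_ge _ (not_lt.1 hj), Finsupp.single_eq_of_ne (h.trans_le (not_lt.1 hj)).ne']

/-- restriction of data -/
def Dat.cut (d : Dat I) (ξ : I) : Dat I := ⟨d.N, {p | MP_c9188c_gt.cut ξ p ∈ d.H}⟩

variable (π : Par I) (d : Dat I)

/-- the value of the name at `ζ` -/
def raw (ζ y : I) (i : Bool) : Prop := y < ζ ∧ ∃ a, (y, i, a) ∈ π.A ζ ∧ cut ζ a ∈ d.H

/-- the node of the tree at `ζ` -/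
def T (ζ : I) : ℕ ⊕ I → Bool → Prop
  | .inl _, i => i = false
  | .inr y, i => y ∈ range (π.X ζ) ∧ raw π d ζ y i

/-- the labels listed at `ζ` -/
def lab (ζ : I) : ℕ ⊕ ℕ → ℕ ⊕ I := Sum.map id (π.X ζ)

/-- entries of the generic list at `ζ` -/
def ent (ζ : I) (n : ℕ) (x : Ent) : Prop :=
  ∃ l : List Ent, Finsupp.single ζ (⟨l, ∅, ∅⟩ : Co I) ∈ d.H ∧ l[n]? = some x

/-- the generic colouring at `ζ` -/
def col (ζ a : I) (m : ℕ) : Prop := Finsupp.single ζ (⟨[], {(a, m)}, ∅⟩ : Co I) ∈ d.H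

@[simp] theorem T_inl {ζ : I} {m : ℕ} {i : Bool} : T π d ζ (.inl m) i ↔ i = false := Iff.rfl

theorem T_inr {ζ y : I} {i : Bool} :
    T π d ζ (.inr y) i ↔ y ∈ range (π.X ζ) ∧ raw π d ζ y i := Iff.rfl

omit [LinearOrder I] in
@[simp] theorem lab_inl {ζ : I} {m : ℕ} : lab π ζ (.inl m) = .inl m := rfl

omit [LinearOrder I] in
@[simp] theorem lab_inr {ζ : I} {e : ℕ} : lab π ζ (.inr e) = .inr (π.X ζ e) := rfl

variable {π d} in
theorem T.lt {ζ y : I} {i : Bool} (h : T π d ζ (.inr y) i) : y < ζ := h.2.1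

variable {π d} in
theorem T.exists_lab {ζ : I} {l : ℕ ⊕ I} {i : Bool} (h : T π d ζ l i) : ∃ e, lab π ζ e = l := by
  rcases l with m | y
  · exact ⟨.inl m, rfl⟩
  · obtain ⟨e, rfl⟩ := h.1
    exact ⟨.inr e, rfl⟩

/-- the name at `ξ` is a branch -/
def Good (ξ : I) : Prop :=
  (∀ y, d.In y → ∀ i, raw π d ξ y i → ¬ raw π d ξ y (!i)) ∧
  (∀ γ, d.In γ → ∀ i, raw π d ξ γ i → ∀ e i', raw π d γ (π.X γ e) i' → raw π d ξ (π.X γ e) i') ∧
  ∀ γ, d.In γ → ∀ γ', d.In γ' → ∀ i i', raw π d ξ γ i → raw π d ξ γ' i' → γ < γ' →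
    T π d γ' (.inr γ) i

/-- the branch at `ξ` -/
def Br (ξ y : I) (i : Bool) : Prop := Good π d ξ ∧ raw π d ξ y i

variable [WellFoundedLT I]

/-- the side of `a` at a label -/
def Sd (a : ℕ ⊕ I) : I → Bool → Prop :=
  wellFounded_lt.fix fun ζ IH j => First (ent d ζ) (fun e => ∃ i, T π d ζ (lab π ζ e) i ∧
    (a = lab π ζ e ∨ ∃ γ, ∃ h : γ < ζ, lab π ζ e = .inr γ ∧ (∃ i', T π d γ a i') ∧ IH γ h (!i))) j

/-- `a` is on the other side than `i` at `l` -/
def U (a l : ℕ ⊕ I) (i : Bool) : Prop :=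
  a = l ∨ ∃ γ, l = .inr γ ∧ (∃ i', T π d γ a i') ∧ Sd π d a γ (!i)

/-- `a` is separated at `l` from the node at `ζ` -/
def Hit (a : ℕ ⊕ I) (ζ : I) (l : ℕ ⊕ I) : Prop := ∃ i, T π d ζ l i ∧ U π d a l i

theorem sd_iff {a : ℕ ⊕ I} {ζ : I} {j : Bool} :
    Sd π d a ζ j ↔ First (ent d ζ) (fun e => Hit π d a ζ (lab π ζ e)) j := by
  unfold Sd
  rw [WellFounded.fix_eq]
  refine First.congr fun e => exists_congr fun i => and_congr_right fun h => or_congr_right ?_
  constructor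
  · rintro ⟨γ, -, h1, h2, h3⟩
    exact ⟨γ, h1, h2, h3⟩
  · rintro ⟨γ, h1, h2, h3⟩
    exact ⟨γ, T.lt (h1 ▸ h), h1, h2, h3⟩

@[simp] theorem U_inl {a : ℕ ⊕ I} {m : ℕ} {i : Bool} : U π d a (.inl m) i ↔ a = .inl m := by
  simp [U]

theorem U_inr {a : ℕ ⊕ I} {γ : I} {i : Bool} :
    U π d a (.inr γ) i ↔ a = .inr γ ∨ (∃ i', T π d γ a i') ∧ Sd π d a γ (!i) := by
  simp [U]

theorem U_self (a : ℕ ⊕ I) (i : Bool) : U π d a a i := Or.inl rfl

/-- the promise -/
def Prom (ξ α γ : I) : Prop :=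
  ∀ i i', Br π d ξ α i' → Br π d ξ γ i → ¬ U π d (.inr α) (.inr γ) i

/-- properties which depend only on the conditions below `ξ` -/
def Loc (ξ : I) (Ψ : Dat I → Prop) : Prop := ∀ d, Ψ (d.cut ξ) ↔ Ψ d

section loc
variable {ξ ζ : I}
omit [WellFoundedLT I]

theorem Loc.mono {Ψ : Dat I → Prop} (h : Loc ζ Ψ) (hz : ζ ≤ ξ) : Loc ξ Ψ := fun d => by
  have : (d.cut ξ).cut ζ = d.cut ζ := by simp [Dat.cut, cut_cut hz]
  rw [← h d, ← h (d.cut ξ), this]

theorem Loc.not {Ψ : Dat I → Prop} (h : Loc ζ Ψ) : Loc ζ fun d => ¬ Ψ d :=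
  fun d => not_congr (h d)

@[simp] theorem in_cut {T : Type v} [Small.{1} T] (a : T) : (d.cut ξ).In a ↔ d.In a := Iff.rfl

theorem mem_cut (h : ζ ≤ ξ) (a : Cond I) : cut ζ a ∈ (d.cut ξ).H ↔ cut ζ a ∈ d.H := by
  simp [Dat.cut, cut_cut h]

theorem raw_cut (h : ζ ≤ ξ) (y : I) (i : Bool) : raw π (d.cut ξ) ζ y i ↔ raw π d ζ y i := by
  simp only [raw, mem_cut d h]

theorem T_cut (h : ζ ≤ ξ) (l : ℕ ⊕ I) (i : Bool) : T π (d.cut ξ) ζ l i ↔ T π d ζ l i := by
  rcases l with m | y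
  · rfl
  · simp only [T_inr, raw_cut π d h]

theorem ent_cut (h : ζ < ξ) : ent (d.cut ξ) ζ = ent d ζ := by
  ext n x
  simp [ent, Dat.cut, cut_single h]

theorem good_cut (h : ζ ≤ ξ) : Good π (d.cut ξ) ζ ↔ Good π d ζ := by
  simp only [Good, in_cut, raw_cut π d h]
  refine and_congr_right fun _ => and_congr ?_ ?_
  · refine forall₄_congr fun γ _ i hr => ?_
    simp only [raw_cut π d (hr.1.le.trans h)]
  · refine forall₄_congr fun γ _ γ' _ => forall₄_congr fun i i' _ hr => ?_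
    simp only [T_cut π d (hr.1.le.trans h)]

theorem br_cut (h : ζ ≤ ξ) (y : I) (i : Bool) : Br π (d.cut ξ) ζ y i ↔ Br π d ζ y i := by
  simp only [Br, good_cut π d h, raw_cut π d h]

end loc

theorem sd_cut {ξ ζ : I} (h : ζ < ξ) (a : ℕ ⊕ I) (j : Bool) :
    Sd π (d.cut ξ) a ζ j ↔ Sd π d a ζ j := by
  induction ζ using WellFoundedLT.induction generalizing j with
  | ind ζ ih =>
  rw [sd_iff, sd_iff, ent_cut d h]
  refine First.congr fun e => exists_congr fun i => ?_
  rw [T_cut π d h.le]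
  refine and_congr_right fun ht => or_congr_right (exists_congr fun γ => and_congr_right fun e1 => ?_)
  have h1 : γ < ζ := T.lt (e1 ▸ ht)
  simp only [T_cut π d (h1.trans h).le, ih γ h1 (h1.trans h)]

theorem U_cut {ξ γ : I} (h : γ < ξ) (a : ℕ ⊕ I) (i : Bool) :
    U π (d.cut ξ) a (.inr γ) i ↔ U π d a (.inr γ) i := by
  simp only [U_inr, T_cut π d h.le, sd_cut π d h]

theorem hit_cut {ξ ζ : I} (h : ζ ≤ ξ) (a l : ℕ ⊕ I) :
    Hit π (d.cut ξ) a ζ l ↔ Hit π d a ζ l := by
  refine exists_congr fun i => ?_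
  rw [T_cut π d h]
  refine and_congr_right fun ht => ?_
  rcases l with m | γ
  · simp
  · exact U_cut π d (ht.lt.trans_le h) a i

theorem loc_prom (ξ α γ : I) : Loc ξ fun d => Prom π d ξ α γ := fun d => by
  simp only [Prom, br_cut π d le_rfl]
  refine forall₄_congr fun i i' _ h => ?_
  rw [U_cut π d h.2.1]

omit [WellFoundedLT I] in
theorem loc_br (ξ y : I) (i : Bool) : Loc ξ fun d => Br π d ξ y i := fun d => br_cut π d le_rfl y i

omit [WellFoundedLT I] in
theorem loc_T (ξ : I) (l : ℕ ⊕ I) (i : Bool) : Loc ξ fun d => T π d ξ l i :=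
  fun d => T_cut π d le_rfl l i

/-- the preorder generated by a relation -/
def Syn (_L : Cond I → Cond I → Prop) : Type := Cond I

instance (L : Cond I → Cond I → Prop) : Preorder (Syn L) where
  le := Relation.ReflTransGen L
  le_refl _ := .refl
  le_trans _ _ _ := .trans

instance (L : Cond I → Cond I → Prop) : Nonempty (Syn L) := ⟨(0 : Cond I)⟩

/-- the data of a world -/
def dat {L : Cond I → Cond I → Prop} (w : World (Syn L)) : Dat I :=
  ⟨w.N, {p | w.Has (p : Syn L)}⟩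

/-- measurable in all worlds -/
def Me (Ψ : Dat I → Prop) : Prop :=
  ∀ L : Cond I → Cond I → Prop, Measurable fun w : World (Syn L) => Ψ (dat w)

section me
omit [LinearOrder I] [WellFoundedLT I]
variable {Ψ Θ : Dat I → Prop}

theorem dat_in {L : Cond I → Cond I → Prop} (w : World (Syn L)) {T : Type v} [Small.{1} T]
    (a : T) : (dat w).In a ↔ w.In a := Iff.rfl

theorem Me.const (A : Prop) : Me fun _ : Dat I => A := fun _ => measurable_const
theorem Me.and (h : Me Ψ) (h' : Me Θ) : Me fun d => Ψ d ∧ Θ d := fun L => (h L).and (h' L)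
theorem Me.or (h : Me Ψ) (h' : Me Θ) : Me fun d => Ψ d ∨ Θ d := fun L => (h L).or (h' L)
theorem Me.imp (h : Me Ψ) (h' : Me Θ) : Me fun d => Ψ d → Θ d := fun L => (h L).imp (h' L)
theorem Me.iff (h : Me Ψ) (h' : Me Θ) : Me fun d => Ψ d ↔ Θ d := fun L => (h L).iff (h' L)
theorem Me.not (h : Me Ψ) : Me fun d => ¬ Ψ d := fun L => (h L).not

theorem Me.all {T : Sort*} [Countable T] {Ψ : T → Dat I → Prop} (h : ∀ a, Me (Ψ a)) :
    Me fun d => ∀ a, Ψ a d := fun L => Measurable.forall fun a => h a L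

theorem Me.ex {T : Sort*} [Countable T] {Ψ : T → Dat I → Prop} (h : ∀ a, Me (Ψ a)) :
    Me fun d => ∃ a, Ψ a d := fun L => Measurable.exists fun a => h a L

theorem Me.all_in {T : Type v} [Small.{1} T] {Ψ : T → Dat I → Prop} (h : ∀ a, Me (Ψ a)) :
    Me fun d => ∀ a, d.In a → Ψ a d := fun L => measurable_all_in fun a => h a L

theorem Me.ex_in {T : Type v} [Small.{1} T] {Ψ : T → Dat I → Prop} (h : ∀ a, Me (Ψ a)) :
    Me fun d => ∃ a, d.In a ∧ Ψ a d := fun L => measurable_ex_in fun a => h a L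

theorem me_in {T : Type v} [Small.{1} T] (a : T) : Me fun d : Dat I => d.In a := fun _ =>
  (measurable_const (a := True)).congr_ev ((ev_const a).mono fun _ h => iff_true_intro h)

theorem me_mem (p : Cond I) : Me fun d => p ∈ d.H := fun L => measurable_has (P := Syn L) p

/-- some member of a ground model set of conditions is in the generic filter -/
theorem me_meets (B : Set (Cond I)) : Me fun d => ∃ a ∈ B, a ∈ d.H := fun L =>
  (measurable_hit (P := Syn L) B).congr_ev (Eventually.of_forall fun _ =>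
    ⟨fun ⟨a, h1, q, h2, h3⟩ => ⟨q, h2, a, h1, h3⟩, fun ⟨q, h2, a, h1, h3⟩ => ⟨a, h1, q, h2, h3⟩⟩)

end me

section
omit [WellFoundedLT I]

theorem me_raw (ζ y : I) (i : Bool) : Me fun d => raw π d ζ y i := by
  have := (Me.const (y < ζ)).and (me_meets (cut ζ '' {a | (y, i, a) ∈ π.A ζ}))
  simpa [raw] using this

theorem me_T (ζ : I) (l : ℕ ⊕ I) (i : Bool) : Me fun d => T π d ζ l i := by
  rcases l with m | y
  · exact Me.const _
  · exact (Me.const _).and (me_raw π ζ y i)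

omit [LinearOrder I] in
theorem me_ent (ζ : I) (n : ℕ) (x : Ent) : Me fun d => ent d ζ n x :=
  Me.ex fun _ => (me_mem _).and (Me.const _)

omit [LinearOrder I] in
theorem me_col (ζ a : I) (m : ℕ) : Me fun d => col d ζ a m := me_mem _

theorem me_good (ξ : I) : Me fun d => Good π d ξ :=
  (Me.all_in fun _ => Me.all fun _ => (me_raw π _ _ _).imp (me_raw π _ _ _).not).and
    ((Me.all_in fun _ => Me.all fun _ => (me_raw π _ _ _).imp (Me.all fun _ => Me.all fun _ =>
      (me_raw π _ _ _).imp (me_raw π _ _ _))).and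
    (Me.all_in fun _ => Me.all_in fun _ => Me.all fun _ => Me.all fun _ => (me_raw π _ _ _).imp
      ((me_raw π _ _ _).imp ((Me.const _).imp (me_T π _ _ _)))))

theorem me_br (ξ y : I) (i : Bool) : Me fun d => Br π d ξ y i :=
  (me_good π ξ).and (me_raw π ξ y i)

end

theorem me_sd (a : ℕ ⊕ I) (ζ : I) (j : Bool) : Me fun d => Sd π d a ζ j := by
  induction ζ using WellFoundedLT.induction generalizing j with
  | ind ζ ih =>
  simp only [sd_iff]
  refine fun L => measurable_first (fun n x => me_ent ζ n x L) (fun e => ?_) j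
  refine (Me.ex (Ψ := fun i d => T π d ζ (lab π ζ e) i ∧ U π d a (lab π ζ e) i) fun i => ?_) L
  rcases lab π ζ e with m | γ
  · simp only [U_inl]
    exact (me_T π _ _ _).and (Me.const _)
  · by_cases h : γ < ζ
    · simp only [U_inr]
      exact (me_T π _ _ _).and ((Me.const _).or ((Me.ex fun _ => me_T π _ _ _).and (ih γ h _)))
    · have : ∀ d, (T π d ζ (.inr γ) i ∧ U π d a (.inr γ) i) ↔ False :=
        fun d => iff_false_intro fun h' => h h'.1.lt
      simp only [this]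
      exact Me.const _

theorem me_U (a l : ℕ ⊕ I) (i : Bool) : Me fun d => U π d a l i := by
  rcases l with m | γ
  · simp only [U_inl]
    exact Me.const _
  · simp only [U_inr]
    exact (Me.const _).or ((Me.ex fun _ => me_T π _ _ _).and (me_sd π _ _ _))

theorem me_hit (a : ℕ ⊕ I) (ζ : I) (l : ℕ ⊕ I) : Me fun d => Hit π d a ζ l :=
  Me.ex fun _ => (me_T π _ _ _).and (me_U π _ _ _)

theorem me_prom (ξ α γ : I) : Me fun d => Prom π d ξ α γ :=
  Me.all fun _ => Me.all fun _ => (me_br π _ _ _).imp ((me_br π _ _ _).imp (me_U π _ _ _).not)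

end Pool.Agent.P.MP_c9188c_gt
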