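import Pool.Agent.Lib.Helper87.ModelDefs
import Pool.Agent.P.MP_6e1b89_gt.Defs

namespace Pool.Agent.P.MP_c9188c_gt

open Pool.Agent.P.MP_6e1b89_gt

variable (M : Set ZFSet.{0}) {X : Type} (c : X → ZFSet.{0}) (𝒯 : Set (Set X))

/-- `𝒯` is a Hausdorff topology on `X` in the sense of `M` -/
def HausdorffIn : Prop :=
  Set.univ ∈ 𝒯 ∧ (∀ U ∈ 𝒯, ∀ V ∈ 𝒯, U ∩ V ∈ 𝒯) ∧
    (∀ 𝒰 ⊆ 𝒯, cSet (cSet c) 𝒰 ∈ M → ⋃₀ 𝒰 ∈ 𝒯) ∧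
    ∀ x y : X, x ≠ y → ∃ U ∈ 𝒯, ∃ V ∈ 𝒯, x ∈ U ∧ y ∈ V ∧ Disjoint U V

/-- every open cover of `C` lying in `M` has a finite subcover -/
def CompactIn (C : Set X) : Prop :=
  ∀ 𝒰 ⊆ 𝒯, cSet (cSet c) 𝒰 ∈ M → C ⊆ ⋃₀ 𝒰 → ∃ 𝒱 ⊆ 𝒰, 𝒱.Finite ∧ C ⊆ ⋃₀ 𝒱

/-- the Borel sets of `M`: the members of every sigma-algebra of `M` containing the open sets -/
def BorelIn : Set (Set X) :=
  {B | ∀ 𝒜 : Set (Set X), cSet (cSet c) 𝒜 ∈ M → 𝒯 ⊆ 𝒜 → (∀ A ∈ 𝒜, Aᶜ ∈ 𝒜) →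
    (∀ s : ℕ → Set X, cFun cNat (cSet c) Set.univ s ∈ M → (∀ n, s n ∈ 𝒜) → ⋃ n, s n ∈ 𝒜) →
    B ∈ 𝒜}

/-- `μ` is a finite Borel measure of `M` -/
def MeasureIn (μ : Set X → ℝ) : Prop :=
  cFun (cSet c) cReal (BorelIn M c 𝒯) μ ∈ M ∧ (∀ B ∈ BorelIn M c 𝒯, 0 ≤ μ B) ∧
    ∀ s : ℕ → Set X, cFun cNat (cSet c) Set.univ s ∈ M → (∀ n, s n ∈ BorelIn M c 𝒯) →
      Pairwise (fun m n => Disjoint (s m) (s n)) → HasSum (fun n => μ (s n)) (μ (⋃ n, s n))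

/-- every finite Borel measure of `M` is inner regular with respect to the compact sets -/
def RadonIn : Prop :=
  ∀ μ : Set X → ℝ, MeasureIn M c 𝒯 μ → ∀ B ∈ BorelIn M c 𝒯, ∀ r < μ B,
    ∃ C ∈ BorelIn M c 𝒯, C ⊆ B ∧ CompactIn M c 𝒯 C ∧ r < μ C

/-- every sequentially closed set of `M` is closed -/
def SequentialIn : Prop :=
  ∀ A : Set X, cSet c A ∈ M →
    (∀ s : ℕ → X, cFun cNat c Set.univ s ∈ M → (∀ n, s n ∈ A) →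
      ∀ x, (∀ U ∈ 𝒯, x ∈ U → ∀ᶠ n in Filter.atTop, s n ∈ U) → x ∈ A) → Aᶜ ∈ 𝒯

end Pool.Agent.P.MP_c9188c_gt
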