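import Pool.Agent.P.MP_c9188c_gt.Amal
import Pool.Agent.P.MP_c9188c_gt.CoreB

/-!
Genericity arguments.
-/

open Set Filter Cardinal Pool.Agent.Lib.Helper87

namespace Pool.Agent.P.MP_c9188c_gt

variable {I : Type} [LinearOrder I] [WellFoundedLT I] {π : Par I} {θ : I}

variable (π θ) in
/-- the properties of the book-keeping -/
structure Book : Prop where
  bdd : ∀ S : Set I, #S ≤ ℵ₁ → ∃ ξ < θ, ∀ y ∈ S, y < θ → y < ξ
  book : ∀ (X0 : ℕ → I) (A0 : Set (I × Bool × Cond I)), #A0 ≤ ℵ₁ → ∀ ξ < θ,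
    ∃ ζ, ξ ≤ ζ ∧ ζ < θ ∧ π.X ζ = X0 ∧ π.A ζ = A0

theorem ev_dense_dat (D : Cond I → Prop) (hD : ∀ q, ∃ r, LeB π θ r q ∧ D r) :
    ∀ᶠ w in gen (At π θ), ∃ r : Cond I, r ∈ (dat w).H ∧ D r :=
  (ev_dense0 (P := At π θ) D fun q => let ⟨r, a, b⟩ := hD q; ⟨r, le_iff.2 a, b⟩).mono
    fun _ ⟨r, a, b⟩ => ⟨r, mem_dat_of_mem a, b⟩

theorem ev_t0 : ∀ᶠ w in gen (At π θ), T0 θ (dat w) := by
  filter_upwards [ev_generic, ev_all fun ζ : I => ev_call fun e : ℕ ⊕ ℕ =>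
    ev_dense_dat (π := π) (θ := θ) (fun q => (e, false) ∈ (q ζ).l) fun q => by
      obtain ⟨r, a1, -, a2⟩ := exists_ext (LeB.refl (π := π) ζ q) θ [(e, false)]
      exact ⟨r, a1, by simp [a2]⟩] with w hw h
  refine ⟨fun ζ hz => ent_unique hw hz, fun ζ h1 _ e => ?_⟩
  obtain ⟨r, a1, a2⟩ := h ζ h1 e
  obtain ⟨n, hn⟩ := List.mem_iff_getElem?.1 a2
  exact ⟨n, false, ent_of_mem a1 List.prefix_rfl n _ hn⟩

theorem exists_predense (B : Set (At π θ)) (hB : ∀ p q, q ≤ p → p ∈ B → q ∈ B) :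
    ∃ C ⊆ B, C.Countable ∧ ∀ᶠ w in gen (At π θ), ∀ p ∈ w.G, p ∈ B → ∃ a ∈ C, w.In a ∧ w.Has a := by
  obtain ⟨C, h1, h2, -, h3⟩ := (ccc π θ).exists_antichain B
  refine ⟨C, h1, h2, ?_⟩
  filter_upwards [ev_dense fun r : At π θ => ∃ a ∈ C, r ≤ a, ev_countable_set h2]
    with w hw hw' p a1 a2
  obtain ⟨r, b1, -, a, b2, b3⟩ := hw p a1 fun q hq => by
    obtain ⟨a, c1, r, c2, c3⟩ := h3 q (hB p q hq a2)
    exact ⟨r, c2, a, c1, c3⟩
  exact ⟨a, b2, hw' a b2, r, b1, b3⟩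

theorem exists_cover {Φ : World (At π θ) → Prop} (h : Measurable Φ) :
    ∃ C : Set (Cond I), C.Countable ∧ ∀ᶠ w in gen (At π θ), Φ w ↔ ∃ a ∈ C, a ∈ (dat w).H := by
  obtain ⟨C, h1, h2, h3⟩ := exists_predense {p | Sem p Φ} fun p q h h' => h'.mono h
  refine ⟨C, h2, ?_⟩
  filter_upwards [h3, ev_forced h, ev_sem Φ] with w a1 a2 a3
  refine ⟨fun b => ?_, fun ⟨a, b1, b2⟩ => a3 a b2 (h1 b1)⟩
  obtain ⟨p, b1, b2⟩ := a2 b
  obtain ⟨a, b3, -, b4⟩ := a1 p b1 b2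
  exact ⟨a, b3, b4⟩

theorem mk_biUnion_le_aleph_one {α β : Type} {Y : Set α} (hY : #Y ≤ ℵ₁) {s : α → Set β}
    (hs : ∀ a, (s a).Countable) : #(⋃ a ∈ Y, s a) ≤ ℵ₁ := by
  refine (mk_biUnion_le s Y).trans ?_
  calc _ ≤ ℵ₁ * ℵ₁ := mul_le_mul' hY (ciSup_le' fun a : Y =>
        (le_aleph0_iff_set_countable.2 (hs a)).trans aleph0_lt_aleph_one.le)
    _ = ℵ₁ := mul_eq_self aleph0_lt_aleph_one.le

theorem Book.exists_supp (hb : Book π θ) {C : Set (Cond I)} (hC : #C ≤ ℵ₁) :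
    ∃ ξ < θ, ∀ a ∈ C, ∀ ζ, ξ ≤ ζ → ∀ w : World (At π θ), cut ζ a ∈ (dat w).H ↔ a ∈ (dat w).H := by
  obtain ⟨ξ, h1, h2⟩ := hb.bdd _ (mk_biUnion_le_aleph_one hC fun a => a.support.countable_toSet)
  refine ⟨ξ, h1, fun a ha ζ hz w => ⟨fun h => mem_dat_of_le h (LeB.of_eq fun i hi => ?_),
    fun h => mem_dat_of_le h (leB_cut _ _ _)⟩⟩
  by_cases h3 : i < ζ
  · exact cut_lt _ h3
  · rw [cut_ge _ (not_lt.1 h3)]
    by_contra h4
    exact h3 ((h2 i (mem_biUnion ha (by simpa using Ne.symm h4)) hi).trans_le hz)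

/-- countably many properties are local from some stage on -/
theorem Book.exists_loc (hb : Book π θ) {J : Type} [Countable J] {Φ : J → World (At π θ) → Prop}
    (h : ∀ j, Measurable (Φ j)) : ∃ ξ < θ, ∀ ζ, ξ ≤ ζ → ∃ Ψ : J → Dat I → Prop,
      (∀ j, Me (Ψ j)) ∧ (∀ j, Loc ζ (Ψ j)) ∧ ∀ᶠ w in gen (At π θ), ∀ j, Φ j w ↔ Ψ j (dat w) := by
  choose C h1 h2 using fun j => exists_cover (h j)
  obtain ⟨ξ, h3, h4⟩ := hb.exists_supp ((le_aleph0_iff_set_countable.2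
    (countable_iUnion h1)).trans aleph0_lt_aleph_one.le)
  refine ⟨ξ, h3, fun ζ hz => ⟨fun j d => ∃ a ∈ cut ζ '' C j, a ∈ d.H, fun j => me_meets _,
    fun j d => by simp [mem_cut d le_rfl], ?_⟩⟩
  filter_upwards [ev_call h2] with w hw j
  rw [hw j]
  simp only [mem_image, exists_exists_and_eq_and]
  exact exists_congr fun a => and_congr_right fun ha =>
    (h4 a (mem_iUnion.2 ⟨j, ha⟩) ζ hz w).symm

/-- capturing names -/
theorem Book.capture (hb : Book π θ) {Φ : I → Bool → World (At π θ) → Prop}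
    (h : ∀ y i, Measurable (Φ y i)) {Y : Set I} (hY : #Y ≤ ℵ₁) (X0 : ℕ → I) :
    ∃ ζ < θ, π.X ζ = X0 ∧ ∀ᶠ w in gen (At π θ), ∀ y, w.In y → ∀ i,
      raw π (dat w) ζ y i ↔ y ∈ Y ∧ y < θ ∧ Φ y i w := by
  choose C h1 h2 using fun y i => exists_cover (h y i)
  obtain ⟨ξ, h3, h4⟩ := hb.exists_supp
    (mk_biUnion_le_aleph_one hY fun y => countable_iUnion (h1 y))
  obtain ⟨ξ', h5, h6⟩ := hb.bdd Y hY
  obtain ⟨ζ, a1, a2, a3, a4⟩ := hb.book X0 (⋃ y ∈ Y, ⋃ i, (fun a => (y, i, a)) '' C y i)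
    (mk_biUnion_le_aleph_one hY fun y => countable_iUnion fun i => (h1 y i).image _) _
    (max_lt h3 h5)
  refine ⟨ζ, a2, a3, ?_⟩
  filter_upwards [ev_all fun y => ev_call (h2 y)] with w hw y hy i
  have key : ∀ a, (y, i, a) ∈ π.A ζ ↔ y ∈ Y ∧ a ∈ C y i := fun a => by
    rw [a4]
    simp only [mem_iUnion, mem_image, Prod.mk.injEq]
    constructor
    · rintro ⟨_, b1, _, _, b2, rfl, rfl, rfl⟩
      exact ⟨b1, b2⟩
    · exact fun ⟨b1, b2⟩ => ⟨y, b1, i, a, b2, rfl, rfl, rfl⟩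
  have k2 : ∀ a, y ∈ Y → a ∈ C y i → (cut ζ a ∈ (dat w).H ↔ a ∈ (dat w).H) := fun a b1 b2 =>
    h4 a (mem_biUnion b1 (mem_iUnion.2 ⟨i, b2⟩)) ζ ((le_max_left _ _).trans a1) w
  rw [hw y hy i]
  constructor
  · rintro ⟨b1, a, b2, b3⟩
    obtain ⟨b4, b5⟩ := (key a).1 b2
    exact ⟨b4, b1.trans a2, a, b5, (k2 a b4 b5).1 b3⟩
  · rintro ⟨b1, b2, a, b3, b4⟩
    exact ⟨(h6 y b1 b2).trans_le ((le_max_right _ _).trans a1), a, (key a).2 ⟨b1, b3⟩,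
      (k2 a b1 b3).2 b4⟩

section meas
variable {L : Cond I → Cond I → Prop} {x : World (Syn L) → Pt I}

omit [WellFoundedLT I] in
theorem ext_iff' {d : Dat I} {x : Pt I} {γ : I} :
    Ext π d x γ ↔ ∀ e i, T π d γ (lab π γ e) i → x (lab π γ e) = i :=
  ⟨fun h _ _ => h _ _, fun h l i hl => by
    obtain ⟨e, rfl⟩ := hl.exists_lab
    exact h e i hl⟩

omit [WellFoundedLT I] in
theorem meas_ext (hx : ∀ l, Measurable fun w => x w l) (γ : I) :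
    Measurable fun w => Ext π (dat w) (x w) γ := by
  simp only [ext_iff']
  exact Measurable.forall fun _ => Measurable.forall fun _ =>
    (me_T π _ _ _ L).imp ((hx _).eq_const _)

theorem meas_bx (hx : ∀ l, Measurable fun w => x w l) (γ : I) :
    Measurable fun w => Bx π θ (dat w) (x w) γ := (me_act π θ γ L).and (meas_ext hx γ)

omit [LinearOrder I] [WellFoundedLT I] in
theorem meas_inf (hx : ∀ l, Measurable fun w => x w l) : Measurable fun w => Inf (x w) :=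
  Measurable.forall fun _ => (hx _).eq_const _

end meas

/-- branches of points at infinity are uncountable -/
theorem Book.t1 (hb : Book π θ) {x : World (At π θ) → Pt I} (hx : ∀ l, Measurable fun w => x w l)
    {Y : Set I} (hY : Y.Countable) :
    ∀ᶠ w in gen (At π θ), Inf (x w) → ¬ {γ | Bx π θ (dat w) (x w) γ} ⊆ Y := by
  obtain ⟨X0, hX⟩ := (hY.insert θ).exists_eq_range (insert_nonempty _ _)
  obtain ⟨ζ, h1, h2, h3⟩ := hb.capture
    (Φ := fun y i w => Bx π θ (dat w) (x w) y ∧ x w (.inr y) = i)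
    (fun y i => (meas_bx hx y).and ((hx _).eq_const _))
    ((le_aleph0_iff_set_countable.2 hY).trans aleph0_lt_aleph_one.le) X0
  filter_upwards [h3, ev_const ζ, ev_call fun e => ev_const (X0 e)] with w a1 a2 a3 a4 a5
  have key : ∀ y i, T π (dat w) ζ (.inr y) i ↔ Bx π θ (dat w) (x w) y ∧ x w (.inr y) = i := by
    intro y i
    rw [T_inr, h2]
    constructor
    · rintro ⟨⟨e, rfl⟩, b1⟩
      exact ((a1 _ (a3 e) i).1 b1).2.2
    · exact fun b => ⟨hX ▸ Or.inr (a5 b.1), (a1 y b.1.1.mem i).2 ⟨a5 b.1, b.1.1.lt, b⟩⟩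
  have hB : Bx π θ (dat w) (x w) ζ := by
    refine ⟨(act_iff π θ _).2 ⟨a2, h1, fun y i b1 b2 => ?_, fun y i b1 => ((key y i).1 b1).1.1,
      fun y _ b1 => ⟨fun ⟨i, b2⟩ y' i' b3 => ?_, fun b2 => ⟨_, (key y _).2 ⟨⟨b1, ?_⟩, rfl⟩⟩⟩⟩, ?_⟩
    · simpa [((key y i).1 b1).2] using ((key y _).1 b2).2
    · exact (key _ _).2 ⟨((key y i).1 b2).1.of_T b3, ((key y i).1 b2).1.2 _ _ b3⟩
    · rintro (m | y') i b3
      exacts [(a4 m).trans b3.symm, ((key _ _).1 (b2 y' i b3)).2]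
    · rintro (m | y') i b3
      exacts [(a4 m).trans b3.symm, ((key _ _).1 b3).2]
  exact lt_irrefl _ ((key ζ _).2 ⟨hB, rfl⟩).lt

/-- small sets are covered uniformly -/
theorem sm_cover {Φ : I → World (At π θ) → Prop} (h : ∀ y, Measurable (Φ y)) :
    ∃ Y : Set I, Y.Countable ∧ ∀ᶠ w in gen (At π θ),
      Sm (dat w) {y | w.In y ∧ Φ y w} → ∀ y, w.In y → Φ y w → y ∈ Y := by
  have hm : ∀ Y : Set I, Measurable fun w : World (At π θ) => ∀ y, w.In y → Φ y w → y ∈ Y :=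
    fun Y => measurable_all_in fun y => (h y).imp measurable_const
  obtain ⟨C, h1, h2, h3⟩ := exists_predense
    {p : At π θ | ∃ Y : Set I, Y.Countable ∧ Sem p fun w => ∀ y, w.In y → Φ y w → y ∈ Y}
    fun p q h ⟨Y, a, b⟩ => ⟨Y, a, b.mono h⟩
  have h1' : ∀ p ∈ C, ∃ Y : Set I, Y.Countable ∧
    Sem p fun w => ∀ y, w.In y → Φ y w → y ∈ Y := h1
  choose! Y h4 h5 using h1'
  refine ⟨⋃ p ∈ C, Y p, h2.biUnion h4, ?_⟩
  filter_upwards [h3, ev_all fun Y => ev_forced (hm Y),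
    ev_all fun p => ev_sem fun w => ∀ y, w.In y → Φ y w → y ∈ Y p]
    with w a1 a2 a3 ⟨Y', b1, b2, b3⟩ y b4 b5
  obtain ⟨p, c1, c2⟩ := a2 Y' b1 fun y c1 c2 => b3 ⟨c1, c2⟩
  obtain ⟨a, c3, c4, c5⟩ := a1 p c1 ⟨Y', b2, c2⟩
  exact mem_biUnion c3 (a3 a c4 a c5 (h5 a c3) y b4 b5)

theorem exists_closure {α : Type} (Γ : Set α → Set α) (hΓ : ∀ Z, Z.Countable → (Γ Z).Countable) :
    ∃ Y : Set α, #Y ≤ ℵ₁ ∧ ∀ Z0 ⊆ Y, Z0.Countable →
      ∃ Z, Z.Countable ∧ Z0 ⊆ Z ∧ Z ⊆ Y ∧ Γ Z ⊆ Y := by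
  let W := (ℵ₁ : Cardinal.{0}).ord.ToType
  have hW : ∀ a : W, (Iio a).Countable := fun a => by
    rw [← le_aleph0_iff_set_countable, ← Order.lt_succ_iff, succ_aleph0]
    exact mk_Iio_toType_ord_lt a
  let S : W → Set α := wellFounded_lt.fix fun a IH =>
    (⋃ b : Iio a, IH b b.2) ∪ Γ (⋃ b : Iio a, IH b b.2)
  have hS : ∀ a, S a = (⋃ b : Iio a, S b) ∪ Γ (⋃ b : Iio a, S b) := fun a =>
    WellFounded.fix_eq _ _ _
  have hc : ∀ a, (S a).Countable := fun a => by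
    induction a using WellFoundedLT.induction with
    | ind a ih =>
    have := (hW a).to_subtype
    have h1 : (⋃ b : Iio a, S b).Countable := countable_iUnion fun b => ih b b.2
    rw [hS]
    exact h1.union (hΓ _ h1)
  refine ⟨⋃ a ∈ Set.univ, S a, mk_biUnion_le_aleph_one (by simp [W]) hc, fun Z0 h1 h2 => ?_⟩
  have h3 : ∀ z ∈ Z0, ∃ a, z ∈ S a := fun z hz => by simpa using h1 hz
  have : Nonempty W := by
    rw [← mk_ne_zero_iff]
    simp [W, (aleph_pos 1).ne']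
  choose! f hf using h3
  have h4 : ∃ a : W, ∀ z ∈ Z0, f z < a := by
    by_contra hcon
    push Not at hcon
    have : (Set.univ : Set W).Countable := (h2.biUnion fun z _ => (hW (f z)).insert (f z)).mono
      fun a _ => let ⟨z, b1, b2⟩ := hcon a; mem_biUnion b1 (b2.eq_or_lt)
    rw [← le_aleph0_iff_set_countable] at this
    simp [W] at this
  obtain ⟨a, ha⟩ := h4
  have := (hW a).to_subtype
  refine ⟨⋃ b : Iio a, S b, countable_iUnion fun b => hc b,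
    fun z hz => mem_iUnion.2 ⟨⟨f z, ha z hz⟩, hf z hz⟩,
    iUnion_subset fun b => subset_biUnion_of_mem (u := S) (mem_univ b.1),
    Subset.trans ?_ (subset_biUnion_of_mem (u := S) (mem_univ a))⟩
  rw [hS a]
  exact subset_union_right

/-- chains are captured -/
theorem Book.t2 (hb : Book π θ) {Φ : I → Bool → World (At π θ) → Prop}
    (h : ∀ y i, Measurable (Φ y i)) : ∃ ξ < θ, ∀ᶠ w in gen (At π θ),
      Chain π θ (dat w) (fun y i => Φ y i w) → ∀ y, w.In y → ∀ i, raw π (dat w) ξ y i ↔ Φ y i w := by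
  choose Γ h1 h2 using fun Z : Set I => (ccc π θ).cover
    (Φ := fun y w => (y ∉ Z ∧ ∃ i, Φ y i w) ∧ ∀ y', w.In y' → y' < y → y' ∉ Z → ¬ ∃ i, Φ y' i w)
    fun y => (measurable_const.and (Measurable.exists (h y))).and (measurable_all_in fun y' =>
      measurable_const.imp (measurable_const.imp (Measurable.exists (h y')).not))
  obtain ⟨Y, h3, h4⟩ := exists_closure Γ fun Z _ => h1 Z
  choose Z h5 h6 h7 h8 using fun γ => h4 (range (π.X γ) ∩ Y) inter_subset_right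
    ((countable_range _).mono inter_subset_left)
  obtain ⟨ξ, a1, -, a2⟩ := hb.capture h h3 fun _ => θ
  refine ⟨ξ, a1, ?_⟩
  filter_upwards [a2, ev_all fun γ => h2 (Z γ)] with w b1 b2 hc γ b3 i
  rw [b1 γ b3]
  refine ⟨fun b => b.2.2, fun b => ⟨by_contra fun b4 => ?_, hc.1 γ b3 i b, b⟩⟩
  obtain ⟨y, ⟨c1, c2, i', c3⟩, c4⟩ := wellFounded_lt.has_min
    {y | w.In y ∧ y ∉ Z γ ∧ ∃ i, Φ y i w} ⟨γ, b3, fun h => b4 (h7 γ h), i, b⟩
  have c5 := h8 γ (b2 γ b3 y c1 ⟨⟨c2, i', c3⟩, fun y' d1 d2 d3 d4 => c4 y' ⟨d1, d3, d4⟩ d2⟩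
    fun y' d1 d2 => le_antisymm (not_lt.1 fun d3 => d2.2 y c1 d3 c2 ⟨i', c3⟩)
      (not_lt.1 (c4 y' ⟨d1, d2.1⟩)))
  rcases lt_trichotomy y γ with d | rfl | d
  · exact c2 (h6 γ ⟨hc.2 y c1 γ b3 i' i c3 b d, c5⟩)
  · exact b4 c5
  · exact c4 γ ⟨b3, fun h => b4 (h7 γ h), i, b⟩ d

theorem leB_update {p : Cond I} {ξ : I} {c : Co I} (h : Step π ξ (LeB π ξ) (p.update ξ c) c (p ξ)) :
    LeB π θ (p.update ξ c) p := fun i _ => by
  by_cases hi : i = ξ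
  · subst hi
    rw [leAt_iff, Finsupp.update_apply, if_pos rfl]
    exact h
  · exact LeAt.of_eq (by rw [Finsupp.update_apply, if_neg hi])

theorem ev_col1 (ξ a : I) : ∀ᶠ w in gen (At π θ), ∃ m, col (dat w) ξ a m := by
  classical
  filter_upwards [ev_dense_dat (π := π) (θ := θ) (fun q => ∃ m, (a, m) ∈ (q ξ).f) fun q => by
    obtain ⟨m, hm⟩ := Infinite.exists_notMem_finset ((q ξ).H.image Prod.snd)
    refine ⟨q.update ξ ⟨(q ξ).l, insert (a, m) (q ξ).f, (q ξ).H⟩, leB_update ⟨List.prefix_rfl,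
      Finset.subset_insert _ _, Finset.Subset.rfl, fun α m' b1 b2 γ b3 => ?_⟩, m, by simp⟩
    obtain ⟨-, rfl⟩ := Prod.ext_iff.1 ((Finset.mem_insert.1 b1).resolve_right b2)
    exact absurd (Finset.mem_image_of_mem _ b3) hm] with w ⟨q, h1, m, h2⟩
  exact ⟨m, mem_dat_of_le h1 (leB_single (by simp) (by simpa using h2) rfl)⟩

theorem ev_col2 {ξ : I} (hξ : ξ < θ) (γ : I) (m : ℕ) : ∀ᶠ w in gen (At π θ),
    {a | (dat w).In a ∧ col (dat w) ξ a m ∧ ¬ Prom π (dat w) ξ a γ}.Finite := by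
  classical
  filter_upwards [ev_generic, ev_all fun a => ev_F θ fun d => Prom π d ξ a γ,
    ev_dense_dat (π := π) (θ := θ) (fun q => (γ, m) ∈ (q ξ).H) fun q =>
    ⟨q.update ξ ⟨(q ξ).l, (q ξ).f, insert (γ, m) (q ξ).H⟩, leB_update ⟨List.prefix_rfl,
      Finset.Subset.rfl, Finset.subset_insert _ _, fun α m' b1 b2 => absurd b1 b2⟩, by simp⟩]
    with w hw h0 ⟨p, h1, h2⟩
  refine ((p ξ).f.finite_toSet.image Prod.fst).subset fun a ⟨a1, a2, a3⟩ => ⟨(a, m), ?_, rfl⟩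
  obtain ⟨q, b1, b2, b3⟩ := dir_dat hw h1 a2
  by_contra hc
  exact a3 (h0 a a1 q (mem_dat_of_mem b1) (F.up ((b2 ξ hξ).step.pr a m
    (by simpa using (b3.single hξ).2.1) hc γ h2) (loc_prom π _ _ _) hξ.le))

end Pool.Agent.P.MP_c9188c_gt
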