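import Pool.Agent.P.MP_c9188c_gt.Gen

/-!
Genericity arguments at the Cohen lists.
-/

open Set Filter Cardinal Pool.Agent.Lib.Helper87

namespace Pool.Agent.P.MP_c9188c_gt

variable {I : Type} [LinearOrder I] [WellFoundedLT I] {π : Par I} {θ : I}

theorem me_free {en : ℕ → I × Bool} {Ψ : ℕ → Dat I → Prop} (h : ∀ e, Me (Ψ e)) (ζ : I)
    (F : Finset (ℕ ⊕ I)) (e : ℕ) : Me fun d => Free π d en (fun e => Ψ e d) ζ F e := by
  have : Me fun d => ∀ l : F, ¬ Hit π d (.inr (en e).1) ζ l := Me.all fun _ => (me_hit π _ _ _).not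
  simp only [Subtype.forall] at this
  exact (me_T π _ _ _).and ((h e).and this)

theorem loc_free {en : ℕ → I × Bool} {Ψ : ℕ → Dat I → Prop} {ζ : I} (h : ∀ e, Loc ζ (Ψ e))
    (F : Finset (ℕ ⊕ I)) (e : ℕ) : Loc ζ fun d => Free π d en (fun e => Ψ e d) ζ F e := fun d => by
  simp only [Free, T_cut π d le_rfl, hit_cut π d le_rfl, h e d]

theorem Book.g1 (hb : Book π θ) (en : ℕ → I × Bool) {R : ℕ → World (At π θ) → Prop}
    (h : ∀ e, Measurable (R e)) :
    ∃ ξ0 < θ, ∀ᶠ w in gen (At π θ), G1 π θ (dat w) en (fun e => R e w) ξ0 := by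
  classical
  obtain ⟨ξ0, h1, h2⟩ := hb.exists_loc h
  refine ⟨ξ0, h1, ev_all fun ζ => ev_imp fun hz => ev_imp fun hz' => ?_⟩
  obtain ⟨Ψ, h3, h4, h5⟩ := h2 ζ hz'
  have key : ∀ (j : Bool) (F0 : Finset (ℕ ⊕ ℕ)), ∀ᶠ w in gen (At π θ),
      (∀ F1 : Finset (ℕ ⊕ ℕ), ∃ e, Free π (dat w) en (fun e => Ψ e (dat w)) ζ
        (F1.image (lab π ζ)) e) → ∃ e, Free π (dat w) en (fun e => Ψ e (dat w)) ζ
        (F0.image (lab π ζ)) e ∧ Sd π (dat w) (.inr (en e).1) ζ j := by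
    intro j F0
    refine ev_of_dense fun p => ?_
    obtain ⟨q0, a1, a2 | a2⟩ := (Me.all fun F1 : Finset (ℕ ⊕ ℕ) => Me.ex fun e =>
      me_free (π := π) (en := en) h3 ζ (F1.image (lab π ζ)) e).decides (π := π) θ p
    swap
    · exact ⟨q0, le_iff.2 a1, Sem.imp' a2 fun w b1 b2 => absurd b2 b1⟩
    obtain ⟨q1, a3, e, a4⟩ := Sem.ex (fun e => me_free (π := π) (en := en) h3 ζ
      ((F0 ∪ ((q0 ζ).l.map Prod.fst).toFinset).image (lab π ζ)) e _) (Sem.imp' a2 fun w b => b _)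
    obtain ⟨w0, -, ⟨⟨⟨e0, a5⟩, -⟩, -⟩, -⟩ := a4.exists (Eventually.of_forall fun _ => trivial)
    obtain ⟨r, b1, b2, b3⟩ := exists_ext ((le_iff.1 a3).mono hz.le) θ [(.inr e0, j)]
    have b4 := ((F.down (π := π) (θ := θ) (q := q1) (Ψ := fun d => Free π d en (fun e => Ψ e d) ζ _ e)
      a4 (me_free h3 _ _ _) (loc_free h4 _ _) hz.le).mono b2).up
      (loc_free h4 _ _) hz.le
    refine ⟨r, le_iff.2 (b1.trans a1), ?_⟩
    filter_upwards [b4, ev_generic] with w c1 hw c2 _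
    obtain ⟨c3, c4, c5⟩ := c1 c2
    refine ⟨e, ⟨c3, c4, fun l hl => c5 l (Finset.image_subset_image Finset.subset_union_left hl)⟩,
      (sd_iff π _).2 (First.of_list (ent_unique hw hz) (ent_of_mem c2 List.prefix_rfl)
        ⟨(.inr e0, j), by simp [b3], ?_⟩ fun x hx c6 => ?_)⟩
    · rw [lab_inr, a5]
      exact ⟨_, c3, U_self _ _ _ _⟩
    · rw [b3, List.mem_append, List.mem_singleton] at hx
      rcases hx with hx | rfl
      · exact absurd c6 (c5 _ (Finset.mem_image_of_mem _ (Finset.mem_union_right _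
          (List.mem_toFinset.2 (List.mem_map_of_mem hx)))))
      · rfl
  filter_upwards [h5, ev_call fun j => ev_call (key j)] with w a1 a2 a3 j F
  simp only [a1] at a3 ⊢
  obtain ⟨e, b1, b2⟩ := a2 j (F.image (Function.invFun (lab π ζ))) fun F1 => a3 _
  refine ⟨e, ⟨b1.1, b1.2.1, fun l hl ⟨i, b3, b4⟩ => b1.2.2 l ?_ ⟨i, b3, b4⟩⟩, b2⟩
  exact Finset.mem_image.2 ⟨_, Finset.mem_image_of_mem _ hl, Function.invFun_eq b3.exists_lab⟩

theorem Book.g2 (hb : Book π θ) (en : ℕ → I × Bool) {R : ℕ → ℕ → World (At π θ) → Prop}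
    (h : ∀ k e, Measurable (R k e)) {ξ0 : I} (h0 : ξ0 < θ) :
    ∃ ζ < θ, ∀ᶠ w in gen (At π θ), G2 π (dat w) en (fun k e => R k e w) ξ0
      fun k e => ∃ j, ent (dat w) ζ k (.inl e, j) := by
  obtain ⟨ξ1, h1, h2⟩ := hb.exists_loc (Φ := fun x : ℕ × ℕ => R x.1 x.2) fun x => h _ _
  obtain ⟨Ψ, h3, h4, h5⟩ := h2 _ (le_max_left ξ1 ξ0)
  have hz := max_lt h1 h0
  set ζ := max ξ1 ξ0 with hζ
  refine ⟨ζ, hz, ev_all fun γ => ev_imp fun hγ => ?_⟩
  have m1 : ∀ k e, Me fun d => T π d γ (.inr (en e).1) (en e).2 ∧ Ψ (k, e) d :=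
    fun k e => (me_T π _ _ _).and (h3 _)
  have m2 : ∀ k e, Loc ζ fun d => T π d γ (.inr (en e).1) (en e).2 ∧ Ψ (k, e) d :=
    fun k e d => and_congr (T_cut π d (hγ.le.trans (le_max_right ξ1 ξ0)) _ _) (h4 _ d)
  have key : ∀ n, ∀ᶠ w in gen (At π θ),
      (∀ k, ∃ e, T π (dat w) γ (.inr (en e).1) (en e).2 ∧ Ψ (k, e) (dat w)) →
      ∃ k, n ≤ k ∧ ∃ e, (∃ j, ent (dat w) ζ k (.inl e, j)) ∧
        T π (dat w) γ (.inr (en e).1) (en e).2 ∧ Ψ (k, e) (dat w) := by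
    intro n
    refine ev_of_dense fun p => ?_
    obtain ⟨q0, a1, a2 | a2⟩ := (Me.all fun k => Me.ex fun e => m1 k e).decides (π := π) θ p
    swap
    · exact ⟨q0, le_iff.2 a1, Sem.imp' a2 fun w b1 b2 => absurd b2 b1⟩
    obtain ⟨q1, a3, e, a4⟩ := Sem.ex (fun e => m1 ((q0 ζ).l.length + n) e _)
      (Sem.imp' a2 fun w b => b _)
    obtain ⟨r, b1, b2, b3⟩ := exists_ext ((le_iff.1 a3).mono hz.le) θ
      (List.replicate (n + 1) (.inl e, false))
    have b4 := ((F.down (π := π) (θ := θ) (q := q1)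
      (Ψ := fun d => T π d γ (.inr (en e).1) (en e).2 ∧ Ψ (_, e) d) a4 (m1 _ _) (m2 _ _) hz.le).mono b2).up (m2 _ _) hz.le
    refine ⟨r, le_iff.2 (b1.trans a1), ?_⟩
    filter_upwards [b4] with w c1 c2 _
    refine ⟨_, Nat.le_add_left _ _, e, ⟨false, ent_of_mem c2 List.prefix_rfl _ _ ?_⟩, c1 c2⟩
    rw [b3, List.getElem?_append_right (Nat.le_add_right _ _)]
    simp
  filter_upwards [h5, ev_call key] with w a1 a2 a3 n
  have a4 : ∀ k e, R k e w ↔ Ψ (k, e) (dat w) := fun k e => a1 (k, e)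
  simp only [a4] at a3 ⊢
  exact a2 n a3

omit [LinearOrder I] [WellFoundedLT I] in
theorem exists_nat_bound (p : Cond I) : ∃ k, ∀ ξ m j, (Sum.inl m, j) ∈ (p ξ).l → m ≤ k := by
  obtain ⟨k, hk⟩ := (p.support.finite_toSet.biUnion fun ξ _ =>
    (List.finite_toSet (p ξ).l).image fun x => Sum.elim id id x.1).bddAbove
  refine ⟨k, fun ξ m j h => hk (mem_biUnion (x := ξ) ?_ ⟨_, h, rfl⟩)⟩
  simp only [Finset.mem_coe, Finsupp.mem_support_iff]
  intro h0
  simp [h0] at h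

/-- no infinite set of isolated points converges -/
theorem Book.split (hb : Book π θ) {x : World (At π θ) → Pt I}
    (hx : ∀ l, Measurable fun w => x w l) {A : ℕ → World (At π θ) → Prop}
    (hA : ∀ m, Measurable (A m)) :
    ∀ᶠ w in gen (At π θ), Inf (x w) → (∀ k, ∃ m, k < m ∧ A m w) →
      ∃ β, w.In β ∧ Bx π θ (dat w) (x w) β ∧
        ∀ k, ∃ m, k < m ∧ A m w ∧ ∃ j, x w (.inr β) = j ∧ Sd π (dat w) (.inl m) β (!j) := by
  classical
  let S : ℕ → I → World (At π θ) → Prop := fun m β w =>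
    ∃ j, x w (.inr β) = j ∧ Sd π (dat w) (.inl m) β (!j)
  have hS : ∀ m β, Measurable (S m β) := fun m β =>
    Measurable.exists fun j => ((hx _).eq_const j).and (me_sd π _ _ _ _)
  refine ev_of_not_sem ((meas_inf hx).imp ((Measurable.forall fun k => Measurable.exists fun m =>
    measurable_const.and (hA m)).imp (measurable_ex_in fun β => (meas_bx hx β).and
      (Measurable.forall fun k => Measurable.exists fun m =>
        measurable_const.and ((hA m).and (hS m β)))))) fun p hp => ?_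
  have hp : Sem p fun w => Inf (x w) ∧ (∀ k, ∃ m, k < m ∧ A m w) ∧
      ∀ β, w.In β → Bx π θ (dat w) (x w) β → ∃ k, ∀ m, k < m → A m w → ¬ S m β w :=
    hp.imp' fun w h => by
      push Not at h
      exact ⟨h.1, h.2.1, fun β a b => let ⟨k, hk⟩ := h.2.2 β a b
        ⟨k, fun m c d ⟨j, e, f⟩ => hk m c d j e f⟩⟩
  have sk : ∀ (r : Cond I) (F : Finset I) (k : ℕ), LeB π θ r p → ∃ z : Cond I × ℕ,
      LeB π θ z.1 r ∧ k < z.2 ∧ Sem (P := At π θ) z.1 fun w =>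
        A z.2 w ∧ ∀ y : F, Bx π θ (dat w) (x w) y → ¬ S z.2 y w := by
    intro r F k hr
    obtain ⟨q, a1, m, a2⟩ := Sem.ex (P := At π θ) (p := r)
      (Φ := fun m w => k < m ∧ A m w ∧ ∀ y : F, Bx π θ (dat w) (x w) y → ¬ S m y w)
      (fun m => measurable_const.and ((hA m).and (Measurable.forall fun y =>
        (meas_bx hx _).imp (hS _ _).not))) ((hp.mono (le_iff.2 hr)).imp' fun w h => by
          choose! f hf using fun (y : F) (b : Bx π θ (dat w) (x w) y) => h.2.2 y b.1.mem b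
          obtain ⟨m, b1, b2⟩ := h.2.1 (max k (Finset.univ.sup f))
          exact ⟨m, (le_max_left _ _).trans_lt b1, b2, fun y b => hf y b m
            (((Finset.le_sup (Finset.mem_univ y)).trans (le_max_right _ _)).trans_lt b1) b2⟩)
    obtain ⟨w, -, a3, -⟩ := a2.exists (Eventually.of_forall fun _ => trivial)
    exact ⟨(q, m), le_iff.1 a1, a3.1, a2.imp' fun w h => h.2⟩
  obtain ⟨w0, g1, g2, g3, g4, g5⟩ := ((ev_goodN (π := π) (θ := θ) fun η _ => ccc π η).and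
    ((ev_all fun r : Cond I => ev_skolem fun q : Cond I => LeB π θ q r ∧ LeB π θ q p).and
    ((ev_all fun r : Cond I => ev_all fun F : Finset I => ev_call fun k : ℕ =>
      ev_skolem fun z : Cond I × ℕ => LeB π θ z.1 r ∧ k < z.2 ∧ Sem (P := At π θ) z.1 fun w =>
        A z.2 w ∧ ∀ y : F, Bx π θ (dat w) (x w) y → ¬ S z.2 y w).and
    ((ev_in_prod (Cond I) ℕ).and (ev_in_finset I))))).exists
  set N : Set I := {i | w0.In i} with hN
  have m1 : ∀ β (z : Bool × ℕ), Measurable fun w => β ∉ N ∧ Bx π θ (dat w) (x w) β ∧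
      x w (.inr β) = z.1 ∧ ∀ m, z.2 < m → A m w → ¬ S m β w := fun β z =>
    measurable_const.and ((meas_bx hx β).and (((hx _).eq_const _).and
      (Measurable.forall fun m => measurable_const.imp ((hA m).imp (hS m β).not))))
  obtain ⟨p0, a1, β, a2⟩ := Sem.ex_in (fun β => Measurable.exists (m1 β))
    (hp.imp ((hb.t1 hx g1.cnt).mono fun w h1 h2 => by
      obtain ⟨β, b1, b2⟩ := not_subset.1 (h1 h2.1)
      obtain ⟨k, hk⟩ := h2.2.2 β b1.1.mem b1
      exact ⟨β, b1.1.mem, (_, k), b2, b1, rfl, hk⟩))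
  obtain ⟨p1, a3, ⟨i, k0⟩, a4⟩ := Sem.ex (m1 β) a2
  obtain ⟨p', a5, a6⟩ := exists_det (π := π) θ p1
  have a7 := a4.mono (le_iff.2 a5)
  obtain ⟨k1, a8⟩ := exists_nat_bound p'
  have hr := (g1.ins _).2 (inside_red (π := π) N p')
  obtain ⟨s0, a9, a10⟩ := g1.amal a6 (LeB.refl _ _) hr
  obtain ⟨r', b1, b2, b3⟩ := g2 _ hr ⟨s0, a9, a10.trans (a5.trans (le_iff.1 (a3.trans a1)))⟩
  obtain ⟨⟨q, m⟩, b4, b5, b6, b7⟩ := g3 r' b1 ((finite_lab (π := π) p').toFinset.filter (· ∈ N))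
    (g5 _ fun y hy => (Finset.mem_filter.1 hy).2) (max k0 k1) (sk _ _ _ b3)
  let σ : I → Bool := fun γ =>
    if γ = β then !i else decide (F π θ p' fun d => T π d β (.inr γ) true)
  obtain ⟨s, c1, c2, c3⟩ := amal g1.n1 (g1.n2 p') a6 (b5.trans b2) ((g1.ins q).1 ((g4 _).1 b4).1)
    ((finite_lab p').insert β) (subset_insert _ _) (fun γ => [(.inl m, σ γ)]) (by simp)
  have hβ : F π θ p' fun d => Act π θ d β := a7.imp' fun w h => h.2.1.1
  obtain ⟨w, d0, ⟨⟨d1, d2, d3, d4⟩, d5, d6⟩, hw, d7, d8, d9⟩ := Sem.exists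
    ((a7.mono (le_iff.2 c2)).and (b7.mono (le_iff.2 c1)))
    (ev_generic.and ((ev_countable_set ((finite_lab (π := π) p').insert β).countable).and
      ((ev_all fun y => ev_call fun i => ev_F θ fun d => T π d β (.inr y) i).and
      (ev_all fun y => ev_call fun e => ev_call fun i =>
        ev_F θ fun d => ¬ T π d y (.inr (π.X y e)) i))))
  have hs : s ∈ (dat w).H := mem_dat_of_mem d0
  have hp' : p' ∈ (dat w).H := mem_dat_of_le hs c2
  have hm : ∀ y m' j, (Sum.inl m', j) ∈ (p' y).l → (Sum.inl m : ℕ ⊕ I) ≠ .inl m' :=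
    fun y m' j h e => absurd (Sum.inl.inj e ▸ a8 y m' j h)
      ((le_max_right _ _).trans_lt b6).not_ge
  have dec : ∀ y ∈ insert β (Lab π p'), y < θ → ∀ e j, (Sum.inr e, j) ∈ (p' y).l → ∀ i',
      T π (dat w) y (.inr (π.X y e)) i' → F π θ p' fun d => T π d y (.inr (π.X y e)) i' := by
    intro y e1 e2 e j e3 i' e4
    rcases (a6 y e2).2 _ e3 i' with h1 | h1
    · exact h1.up (loc_T π _ _ _) e2.le
    · exact absurd e4 (d9 y (d7 y e1) e i' p' hp' (h1.up (loc_T π _ _ _).not e2.le))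
  have key := notU (d := dat w) (a := .inl m)
    (V := fun y i' => y ∈ Lab π p' ∧ F π θ p' fun d => T π d β (.inr y) i') (π := π) (by
      rintro y i' ⟨e1, e2⟩
      have e3 := d8 y (d7 y (Or.inr e1)) i' p' hp' e2
      by_cases hy : y ∈ N
      · refine Or.inl fun hU => d6 ⟨y, by simpa using ⟨e1, hy⟩⟩ (d2.of_T e3) ⟨i', d2.2 _ _ e3, ?_⟩
        simpa using ((U_inr π _).1 hU).elim (by simp) fun h => h.2
      have e4 := (d2.1.of_T e3).lt
      refine Or.inr ⟨by simp, ent_unique hw e4, _, ent_of_mem hs (c3 y (Or.inr e1) hy),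
        fun _ => ⟨(.inl m, σ y), by simp, rfl⟩, fun z hz => ?_⟩
      rw [List.mem_append, List.mem_singleton] at hz
      rcases hz with hz | rfl
      · obtain ⟨m' | e, j⟩ := z
        · exact Or.inr (Or.inl ⟨m', rfl, hm y m' j hz⟩)
        · exact Or.inr (Or.inr ⟨e, rfl, fun i3 h => ⟨⟨y, Or.inl ⟨e, j, hz, rfl⟩⟩,
            Sem.imp' (Sem.and hβ (Sem.and e2 (dec y (Or.inr e1) e4 e j hz i3 h)))
              fun w h => h.1.sub h.2.1 h.2.2⟩⟩)
      · refine Or.inl ?_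
        simp only [σ, if_neg e3.lt.ne]
        cases i'
        · exact decide_eq_false fun h => by
            simpa using d2.1.func e3 (d8 y (d7 y (Or.inr e1)) true p' hp' h)
        · exact decide_eq_true e2)
  refine d4 m ((le_max_left _ _).trans_lt b6) d5 ⟨i, d3, (sd_iff π _).2 (First.of_list
    (ent_unique hw d2.1.lt) (ent_of_mem hs (c3 β (Or.inl rfl) d1))
    ⟨(.inl m, σ β), by simp, false, rfl, U_self _ _ _ _⟩ fun z hz ⟨i3, e1, e2⟩ => ?_)⟩
  rw [List.mem_append, List.mem_singleton] at hz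
  rcases hz with hz | rfl
  · obtain ⟨m' | e, j⟩ := z
    · exact absurd ((U_inl π _).1 e2) (hm β m' j hz)
    · exact absurd e2 (key _ i3 ⟨⟨β, Or.inl ⟨e, j, hz, rfl⟩⟩,
        dec β (Or.inl rfl) d2.1.lt e j hz i3 e1⟩)
  · simp [σ]

end Pool.Agent.P.MP_c9188c_gt
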