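import Pool.Agent.P.MP_c9188c_gt.IFam

/-!
In a Radon space of a generic extension every countably compact set is closed.
-/

open Set Filter Pool.Agent.Lib.Helper87 Pool.Agent.P.MP_6e1b89_gt

namespace Pool.Agent.P.MP_c9188c_gt.Pos

section det

variable {M : Set ZFSet.{0}} {X : Type} {c : X → ZFSet.{0}} {𝒯 : Set (Set X)}

/-- cluster points of sequences -/
def Clus (𝒯 : Set (Set X)) (s : ℕ → X) (p : X) : Prop :=
  ∀ U ∈ 𝒯, p ∈ U → ∀ k, ∃ n, k ≤ n ∧ s n ∈ U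

/-- open sets whose closure misses `z` -/
def Away (𝒯 : Set (Set X)) (z : X) : Set (Set X) := {W ∈ 𝒯 | ∃ V ∈ 𝒯, z ∈ V ∧ ∀ a ∈ W, a ∉ V}

/-- families which do not cover `Y` near `z` -/
def Adm (𝒯 : Set (Set X)) (Y : Set X) (z : X) (t : Set (Set X)) : Prop :=
  ∀ W ∈ Away 𝒯 z, ∃ p ∈ Y, p ∉ W ∧ ∀ U ∈ t, p ∉ U

/-- small sets -/
def Sm (𝓘 : Set (Set X)) (Y B : Set X) : Prop := ∃ U ∈ 𝓘, ∀ a ∈ B, a ∈ Y → a ∈ U

open Classical in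
/-- the two valued measure -/
noncomputable def mu (𝓘 : Set (Set X)) (Y B : Set X) : ℝ := if Sm 𝓘 Y B then 0 else 1

theorem code_empty (hM : TransModelZFC M) {α : Type} (e : α → ZFSet.{0}) : cSet e ∅ ∈ M := by
  have : cSet e ∅ = ∅ := ZFSet.ext fun z => by simp [mem_cSet]
  rw [this]
  exact hM.trans _ hM.infinity _ ZFSet.omega_zero

theorem open_empty (hM : TransModelZFC M) (hH : HausdorffIn M c 𝒯) : ∅ ∈ 𝒯 := by
  simpa using hH.2.2.1 ∅ (empty_subset _) (code_empty hM _)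

theorem open_code (hM : TransModelZFC M) (hT : cSet (cSet c) 𝒯 ∈ M) {U : Set X} (hU : U ∈ 𝒯) :
    cSet c U ∈ M := hM.trans _ hT _ (mem_cSet.2 ⟨U, hU, rfl⟩)

theorem open_union (hM : TransModelZFC M) (hT : cSet (cSet c) 𝒯 ∈ M) (hH : HausdorffIn M c 𝒯)
    {U V : Set X} (hU : U ∈ 𝒯) (hV : V ∈ 𝒯) : U ∪ V ∈ 𝒯 := by
  have : cSet (cSet c) {U, V} = {cSet c U, cSet c V} := ZFSet.ext fun z => by
    simp [mem_cSet, eq_comm]
  simpa using hH.2.2.1 {U, V} (insert_subset hU (singleton_subset_iff.2 hV))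
    (this ▸ hM.pair _ (open_code hM hT hU) _ (open_code hM hT hV))

theorem det_closed (hM : TransModelZFC M) (hT : cSet (cSet c) 𝒯 ∈ M) (hH : HausdorffIn M c 𝒯)
    (hR : RadonIn M c 𝒯) {Y : Set X} {z : X} {𝓘 : Set (Set X)}
    (hY : ∀ s, cFun cNat c univ s ∈ M → (∀ n, s n ∈ Y) → ∃ p ∈ Y, Clus 𝒯 s p)
    (hz : ∀ U ∈ 𝒯, z ∈ U → ∃ p ∈ Y, p ∈ U) (hB : cSet (cSet c) (Away 𝒯 z) ∈ M)
    (i1 : 𝓘 ⊆ 𝒯) (i2 : Adm 𝒯 Y z ∅ → ∀ t ⊆ 𝓘, t.Finite → Adm 𝒯 Y z t)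
    (i3 : ∀ U ∈ 𝒯, (∀ t ⊆ 𝓘, t.Finite → Adm 𝒯 Y z (insert U t)) → U ∈ 𝓘)
    (hr : ∀ s : ℕ → Set X, cFun cNat (cSet c) univ s ∈ M → cSet (cSet c) (range s) ∈ M)
    (c1 : ∀ G, cSet c G ∈ M → ∀ s : ℕ → Set X, cFun cNat (cSet c) univ s ∈ M →
      (∀ n, ∃ p ∈ Y, p ∉ G ∧ ∀ k ≤ n, p ∉ s k) →
      ∃ p : ℕ → X, cFun cNat c univ p ∈ M ∧ ∀ n, p n ∈ Y ∧ p n ∉ G ∧ ∀ k ≤ n, p n ∉ s k)
    (c2 : ∀ s : ℕ → Set X, cFun cNat (cSet c) univ s ∈ M → (∀ n, Sm 𝓘 Y (s n)) →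
      ∃ U : ℕ → Set X, cFun cNat (cSet c) univ U ∈ M ∧
        ∀ n, U n ∈ 𝓘 ∧ ∀ a ∈ s n, a ∈ Y → a ∈ U n)
    (hA : cSet (cSet c) {B ∈ {T | T ⊆ univ ∧ cSet c T ∈ M} | Sm 𝓘 Y B ∨ Sm 𝓘 Y Bᶜ} ∈ M)
    (hco : ∀ B, cSet c B ∈ M → cSet c Bᶜ ∈ M)
    (hu : ∀ s : ℕ → Set X, cFun cNat (cSet c) univ s ∈ M → cSet c (⋃ n, s n) ∈ M)
    (hg : cFun (cSet c) cReal (BorelIn M c 𝒯) (mu 𝓘 Y) ∈ M) : z ∈ Y := by
  by_contra hzY
  have A0 : ∅ ∈ Away 𝒯 z := ⟨open_empty hM hH, univ, hH.1, trivial, fun _ h => h.elim⟩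
  have Au : ∀ W ∈ Away 𝒯 z, ∀ W' ∈ Away 𝒯 z, W ∪ W' ∈ Away 𝒯 z :=
    fun W ⟨a1, V, a2, a3, a4⟩ W' ⟨b1, V', b2, b3, b4⟩ => ⟨open_union hM hT hH a1 b1, V ∩ V',
      hH.2.1 _ a2 _ b2, ⟨a3, b3⟩, fun a h h' => h.elim (a4 a · h'.1) (b4 a · h'.2)⟩
  have j2 := i2 fun W ⟨_, V, a2, a3, a4⟩ =>
    let ⟨p, b1, b2⟩ := hz V a2 a3; ⟨p, b1, (a4 p · b2), fun _ h => h.elim⟩
  have AI : Away 𝒯 z ⊆ 𝓘 := fun W hW => i3 W hW.1 fun t ht hf W' hW' => by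
    obtain ⟨p, a1, a2, a3⟩ := j2 t ht hf _ (Au W hW W' hW')
    exact ⟨p, a1, fun h => a2 (Or.inr h), forall_mem_insert.2 ⟨fun h => a2 (Or.inl h), a3⟩⟩
  have Iu : ∀ U ∈ 𝓘, ∀ U' ∈ 𝓘, U ∪ U' ∈ 𝓘 := fun U hU U' hU' =>
    i3 _ (open_union hM hT hH (i1 hU) (i1 hU')) fun t ht hf W hW => by
      obtain ⟨p, a1, a2, a3⟩ := j2 (insert U (insert U' t))
        (insert_subset hU (insert_subset hU' ht)) ((hf.insert _).insert _) W hW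
      simp only [forall_mem_insert] at a3
      exact ⟨p, a1, a2, forall_mem_insert.2 ⟨fun h => h.elim a3.1 a3.2.1, a3.2.2⟩⟩
  have If : ∀ t : Set (Set X), t.Finite → t ⊆ 𝓘 → ⋃₀ t ∈ 𝓘 := fun t hf => by
    induction t, hf using Set.Finite.induction_on with
    | empty => exact fun _ => by simpa using AI A0
    | insert _ _ ih =>
      intro h
      rw [sUnion_insert]
      exact Iu _ (h (mem_insert _ _)) _ (ih ((subset_insert _ _).trans h))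
  have I2 : ∀ G ∈ 𝓘, ∃ p ∈ Y, p ∉ G := fun G hG =>
    let ⟨p, a1, _, a3⟩ := j2 {G} (singleton_subset_iff.2 hG) (finite_singleton _) ∅ A0
    ⟨p, a1, a3 G rfl⟩
  have I3 : ∀ U ∈ 𝒯, (∀ G ∈ 𝓘, ∃ p ∈ Y, p ∉ U ∧ p ∉ G) → U ∈ 𝓘 := fun U hU h =>
    i3 U hU fun t ht hf W hW => by
      obtain ⟨p, a1, a2, a3⟩ := h _ (Iu W (AI hW) _ (If t hf ht))
      exact ⟨p, a1, fun h => a3 (Or.inl h),
        forall_mem_insert.2 ⟨a2, fun V hV h => a3 (Or.inr ⟨V, hV, h⟩)⟩⟩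
  have Ic : ∀ s : ℕ → Set X, cFun cNat (cSet c) univ s ∈ M → (∀ n, s n ∈ 𝓘) → ⋃ n, s n ∈ 𝓘 :=
    fun s hs h => by
      refine I3 _ (sUnion_range s ▸ hH.2.2.1 _ (range_subset_iff.2 fun n => i1 (h n)) (hr s hs))
        fun G hG => ?_
      obtain ⟨p, a1, a2⟩ := c1 G (open_code hM hT (i1 hG)) s hs fun n => by
        obtain ⟨p, b1, b2⟩ := I2 _ (Iu G hG _ (If (s '' Iic n) ((finite_Iic n).image s)
          (image_subset_iff.2 fun k _ => h k)))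
        exact ⟨p, b1, fun h => b2 (Or.inl h), fun k hk h => b2 (Or.inr ⟨_, ⟨k, hk, rfl⟩, h⟩)⟩
      obtain ⟨q, b1, b2⟩ := hY p a1 fun n => (a2 n).1
      refine ⟨q, b1, fun hq => ?_, fun hq => ?_⟩
      · obtain ⟨k, hk⟩ := mem_iUnion.1 hq
        obtain ⟨n, d1, d2⟩ := b2 _ (i1 (h k)) hk k
        exact (a2 n).2.2 k d1 d2
      · obtain ⟨n, -, d2⟩ := b2 _ (i1 hG) hq 0
        exact (a2 n).2.1 d2
  have Su : ∀ s : ℕ → Set X, cFun cNat (cSet c) univ s ∈ M → (∀ n, Sm 𝓘 Y (s n)) →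
      Sm 𝓘 Y (⋃ n, s n) := fun s hs h => by
    obtain ⟨U, a1, a2⟩ := c2 s hs h
    refine ⟨_, Ic U a1 fun n => (a2 n).1, fun a ha hY => ?_⟩
    obtain ⟨n, hn⟩ := mem_iUnion.1 ha
    exact mem_iUnion.2 ⟨n, (a2 n).2 a hn hY⟩
  have Smono : ∀ B B', B ⊆ B' → Sm 𝓘 Y B' → Sm 𝓘 Y B :=
    fun B B' h ⟨U, a1, a2⟩ => ⟨U, a1, fun a ha => a2 a (h ha)⟩
  have Bor : ∀ B ∈ BorelIn M c 𝒯, Sm 𝓘 Y B ∨ Sm 𝓘 Y Bᶜ := fun B hB => by
    refine (hB _ hA (fun U hU => ⟨⟨subset_univ _, open_code hM hT hU⟩, ?_⟩)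
      (fun A h => ⟨⟨subset_univ _, hco _ h.1.2⟩, by rw [compl_compl]; exact h.2.symm⟩)
      fun s hs h => ⟨⟨subset_univ _, hu s hs⟩, ?_⟩).2
    · by_cases h : U ∈ 𝓘
      · exact Or.inl ⟨U, h, fun _ h _ => h⟩
      · have := mt (I3 U hU) h
        push Not at this
        obtain ⟨G, a1, a2⟩ := this
        exact Or.inr ⟨G, a1, fun a h1 h2 => a2 a h2 h1⟩
    · by_cases h' : ∀ n, Sm 𝓘 Y (s n)
      · exact Or.inl (Su s hs h')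
      · obtain ⟨n, hn⟩ := not_forall.1 h'
        exact Or.inr (Smono _ _ (compl_subset_compl.2 (subset_iUnion s n))
          ((h n).2.resolve_left hn))
  have hμ : MeasureIn M c 𝒯 (mu 𝓘 Y) := by
    refine ⟨hg, fun B _ => ?_, fun s hs h hd => ?_⟩
    · unfold mu
      split_ifs <;> norm_num
    · by_cases h' : ∀ n, Sm 𝓘 Y (s n)
      · simp only [mu, if_pos (h' _), if_pos (Su s hs h')]
        exact hasSum_zero
      · obtain ⟨n, hn⟩ := not_forall.1 h'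
        have e : mu 𝓘 Y (⋃ n, s n) = mu 𝓘 Y (s n) := by
          rw [mu, mu, if_neg hn, if_neg fun h => hn (Smono _ _ (subset_iUnion s n) h)]
        rw [e]
        exact hasSum_single n fun m hm => if_pos (Smono _ _ (hd hm).subset_compl_right
          ((Bor _ (h n)).resolve_left hn))
  have B0 : ⋃₀ Away 𝒯 z ∈ 𝒯 := hH.2.2.1 _ (sep_subset _ _) hB
  have B1 : ¬ Sm 𝓘 Y (⋃₀ Away 𝒯 z) := fun ⟨U, a1, a2⟩ => by
    obtain ⟨p, b1, b2⟩ := I2 U a1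
    obtain ⟨W, d1, V, d2, d3, d4, d5⟩ := hH.2.2.2 p z fun h => hzY (h ▸ b1)
    exact b2 (a2 p ⟨W, ⟨d1, V, d2, d4, fun a h => disjoint_left.1 d5 h⟩, d3⟩ b1)
  obtain ⟨C, -, a2, a3, a4⟩ := hR _ hμ _ (fun _ _ h _ _ => h B0) 0 (by rw [mu, if_neg B1]; norm_num)
  obtain ⟨𝒱, b1, b2, b3⟩ := a3 _ (sep_subset _ _) hB a2
  rw [mu, if_pos ⟨_, If 𝒱 b2 (b1.trans AI), fun a h _ => b3 h⟩] at a4
  exact lt_irrefl _ a4

end det

variable {P : Type} [Preorder P] {F : Fam P} {𝒯 : ∀ w, Set (Set (F.α w))}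

theorem named_cReal (r : ℝ) : Named fun _ : World P => cReal r :=
  named_cSet (J := ℚ) (c := fun _ => cRat) (g := fun q _ => q)
    (fun _ => (named_cNat _).pair ((named_cNat _).pair (named_cNat _)))
    (Φ := fun q _ => (q : ℝ) < r) (fun _ => measurable_const) (S := fun _ => {q | (q : ℝ) < r})
    ((ev_ctype ℚ).mono fun w h x => by simp [h])

theorem N_setOf (hX : F.set.N fun _ => univ) {Φ : ∀ w, F.α w → Prop}
    (h : ∀ a, F.N a → Measurable fun w => Φ w (a w)) : F.set.N fun w => {a | Φ w a} :=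
  (Fam.N_sep hX h).congr (Eventually.of_forall fun _ => by simp)

theorem N_compl (hX : F.set.N fun _ => univ) {B : ∀ w, Set (F.α w)} (hB : F.set.N B) :
    F.set.N fun w => (B w)ᶜ :=
  N_setOf hX (Φ := fun w a => a ∉ B w) fun _ ha => (ha.meas_mem hB).not

theorem N_iUnion (hX : F.set.N fun _ => univ) {s : ∀ w, ℕ → Set (F.α w)} (hs : F.set.seq.N s) :
    F.set.N fun w => ⋃ n, s w n :=
  (N_setOf hX (Φ := fun w a => ∃ n, a ∈ s w n) fun _ ha =>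
    Measurable.exists fun n => ha.meas_mem (hs.app n)).congr
    (Eventually.of_forall fun _ => by ext; simp)

theorem N_borel (hX : F.set.N fun _ => univ) (hT : F.set.set.N 𝒯) :
    F.set.set.N fun w => BorelIn w.M (F.e w) (𝒯 w) := by
  refine (Fam.N_sep (F := F.set) hX.pow (Φ := fun w B => B ∈ BorelIn w.M (F.e w) (𝒯 w)) fun B hB =>
    Fam.meas_all (F := F.set.set) fun 𝒜 h𝒜 =>
      (Fam.meas_ball (F := F.set) hT (Φ := fun w U => U ∈ 𝒜 w) fun _ h => h.meas_mem h𝒜).imp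
      ((Fam.meas_ball (F := F.set) h𝒜 (Φ := fun w A => Aᶜ ∈ 𝒜 w) fun _ h => (N_compl hX h).meas_mem h𝒜).imp
      ((Fam.meas_all (F := F.set.seq)
        (Φ := fun w s => (∀ n, s n ∈ 𝒜 w) → ⋃ n, s n ∈ 𝒜 w) fun s hs =>
        (Measurable.forall fun n => (hs.app n).meas_mem h𝒜).imp
          ((N_iUnion hX hs).meas_mem h𝒜)).imp (hB.meas_mem h𝒜)))).congr ?_
  filter_upwards [hX.pow.ev_mem, hT.ev_mem, Fam.ev_mem_of_mem (F := F.set),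
    Fam.ev_all (F := F.set) (Φ := fun w B => cSet (F.e w) Bᶜ ∈ w.M)
      fun B hB => (N_compl hX hB).ev_mem,
    Fam.ev_all (F := F.set.seq) (Φ := fun w s => cSet (F.e w) (⋃ n, s n) ∈ w.M)
      fun s hs => (N_iUnion hX hs).ev_mem] with w a1 a2 a3 a4 a5
  refine Set.ext fun B => ⟨fun h => h.2, fun h => ⟨h _ a1 (fun U hU => ⟨subset_univ _, a3 _ a2 U hU⟩)
    (fun A hA => ⟨subset_univ _, a4 A hA.2⟩) fun s hs _ => ⟨subset_univ _, a5 s hs⟩, h⟩⟩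

theorem N_away (hT : F.set.set.N 𝒯) {z : ∀ w, F.α w} (hz : F.N z) :
    F.set.set.N fun w => Away (𝒯 w) (z w) :=
  Fam.N_sep (F := F.set) hT (Φ := fun w W => ∃ V ∈ 𝒯 w, z w ∈ V ∧ ∀ a ∈ W, a ∉ V) fun W hW =>
    Fam.meas_bex (F := F.set) hT (Φ := fun w V => z w ∈ V ∧ ∀ a ∈ W w, a ∉ V) fun V hV =>
      (hz.meas_mem hV).and
        (Fam.meas_ball hW (Φ := fun w a => a ∉ V w) fun _ ha => (ha.meas_mem hV).not)

theorem meas_cov {Y B U : ∀ w, Set (F.α w)} (hY : F.set.N Y) (hB : F.set.N B) (hU : F.set.N U) :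
    Measurable fun w => ∀ a ∈ B w, a ∈ Y w → a ∈ U w :=
  Fam.meas_ball hB (Φ := fun w a => a ∈ Y w → a ∈ U w) fun _ ha =>
    (ha.meas_mem hY).imp (ha.meas_mem hU)

theorem meas_sm {𝓘 : ∀ w, Set (Set (F.α w))} (hI : F.set.set.N 𝓘) {Y B : ∀ w, Set (F.α w)}
    (hY : F.set.N Y) (hB : F.set.N B) : Measurable fun w => Sm (𝓘 w) (Y w) (B w) :=
  Fam.meas_bex (F := F.set) hI (Φ := fun w U => ∀ a ∈ B w, a ∈ Y w → a ∈ U) fun _ hU => meas_cov hY hB hU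

theorem ev_closed (hX : F.set.N fun _ => univ) (hT : F.set.set.N 𝒯) :
    ∀ᶠ w in gen P, ∀ Y : Set (F.α w), cSet (F.e w) Y ∈ w.M → ∀ z, F.e w z ∈ w.M →
      HausdorffIn w.M (F.e w) (𝒯 w) → RadonIn w.M (F.e w) (𝒯 w) →
      (∀ s, cFun cNat (F.e w) univ s ∈ w.M → (∀ n, s n ∈ Y) → ∃ p ∈ Y, Clus (𝒯 w) s p) →
      (∀ U ∈ 𝒯 w, z ∈ U → ∃ p ∈ Y, p ∈ U) → z ∈ Y := by
  refine Fam.ev_all (F := F.set) fun Y hY => Fam.ev_all fun z hz => ?_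
  obtain ⟨𝓘, hI, h1⟩ := Fam.tukey (F := F.set) hT (fun w t => Adm (𝒯 w) (Y w) (z w) t) fun I u hu t ht =>
    Fam.meas_ball (F := F.set) (N_away hT hz)
      (Φ := fun w W => ∃ p ∈ Y w, p ∉ W ∧ ∀ U ∈ (fun i => u i w) '' t, p ∉ U) fun W hW =>
      Fam.meas_bex hY (Φ := fun w p => p ∉ W w ∧ ∀ U ∈ (fun i => u i w) '' t, p ∉ U) fun p hp =>
        (hp.meas_mem hW).not.and (by
          have := ht.to_subtype
          simpa using Measurable.forall fun i : t => (hp.meas_mem (hu i)).not)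
  have g1 : Named fun w => cFun (cSet (F.e w)) cReal (BorelIn w.M (F.e w) (𝒯 w)) (mu (𝓘 w) (Y w)) :=
    (N_borel hX hT).image (g := fun w B => (cSet (F.e w) B).pair (cReal (mu (𝓘 w) (Y w) B)))
      fun B hB => Named.pair hB ((named_ite (named_cReal 0) (named_cReal 1)
        (meas_sm hI hY hB)).congr (Eventually.of_forall fun w => by rw [mu, apply_ite cReal]))
  filter_upwards [h1, ev_zfc, hT.ev_mem, (N_away hT hz).ev_mem,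
    Fam.ev_all (F := F.set.seq) (Φ := fun w s => cSet (cSet (F.e w)) (range s) ∈ w.M)
      fun s hs => hs.range.ev_mem,
    Fam.ev_all (F := F.set) (Φ := fun w G => ∀ s : ℕ → Set (F.α w),
      cFun cNat (cSet (F.e w)) univ s ∈ w.M → (∀ n, ∃ p ∈ Y w, p ∉ G ∧ ∀ k ≤ n, p ∉ s k) →
      ∃ p : ℕ → F.α w, cFun cNat (F.e w) univ p ∈ w.M ∧
        ∀ n, p n ∈ Y w ∧ p n ∉ G ∧ ∀ k ≤ n, p n ∉ s k) fun G hG =>
      Fam.ev_all (F := F.set.seq) (Φ := fun w s =>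
        (∀ n, ∃ p ∈ Y w, p ∉ G w ∧ ∀ k ≤ n, p ∉ s k) →
        ∃ p : ℕ → F.α w, cFun cNat (F.e w) univ p ∈ w.M ∧
          ∀ n, p n ∈ Y w ∧ p n ∉ G w ∧ ∀ k ≤ n, p n ∉ s k) fun s hs =>
      Fam.seq_choice (Ψ := fun n w p => p ∉ G w ∧ ∀ k ≤ n, p ∉ s w k) hY fun n p hp =>
        (hp.meas_mem hG).not.and (Measurable.forall fun k => measurable_const.imp
          (hp.meas_mem (hs.app k)).not),
    Fam.ev_all (F := F.set.seq) (Φ := fun w s => (∀ n, Sm (𝓘 w) (Y w) (s n)) →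
      ∃ U : ℕ → Set (F.α w), cFun cNat (cSet (F.e w)) univ U ∈ w.M ∧
        ∀ n, U n ∈ 𝓘 w ∧ ∀ a ∈ s n, a ∈ Y w → a ∈ U n) fun s hs =>
      Fam.seq_choice (F := F.set) (Ψ := fun n w U => ∀ a ∈ s w n, a ∈ Y w → a ∈ U) hI fun n U hU =>
        meas_cov hY (hs.app n) hU,
    (Fam.N_sep (F := F.set) hX.pow (Φ := fun w B => Sm (𝓘 w) (Y w) B ∨ Sm (𝓘 w) (Y w) Bᶜ) fun B hB =>
      (meas_sm hI hY hB).or (meas_sm hI hY (N_compl hX hB))).ev_mem,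
    Fam.ev_all (F := F.set) (Φ := fun w B => cSet (F.e w) Bᶜ ∈ w.M)
      fun B hB => (N_compl hX hB).ev_mem,
    Fam.ev_all (F := F.set.seq) (Φ := fun w s => cSet (F.e w) (⋃ n, s n) ∈ w.M)
      fun s hs => (N_iUnion hX hs).ev_mem, g1.ev_mem]
    with w a1 a2 a3 a4 a5 a6 a7 a8 a9 a10 a11 hH hR b1 b2
  exact det_closed a2 a3 hH hR b1 b2 a4 a1.1 a1.2.1 a1.2.2 a5 a6 a7 a8 a9 a10 a11

end Pool.Agent.P.MP_c9188c_gt.Pos
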