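import Pool.Agent.P.MP_c9188c_gt.IClosed

/-!
The countably closed collapse, and combinatorial lemmas about recursions and towers.
-/

open Set Filter Pool.Agent.Lib.Helper87 Pool.Agent.P.MP_6e1b89_gt

namespace Pool.Agent.P.MP_c9188c_gt.Pos

theorem exists_omega1 : ∃ (O : Type) (_ : LinearOrder O) (_ : WellFoundedLT O),
    (∀ a : O, (Iio a).Countable) ∧ ∀ S : Set O, S.Countable → ∃ a, ∀ b ∈ S, b < a := by
  let O := (Cardinal.aleph.{0} 1).ord.ToType
  have h1 : ∀ a : O, (Iio a).Countable := fun a => by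
    rw [Cardinal.countable_iff_lt_aleph_one]
    simpa [O] using Cardinal.mk_Iio_lt a (by simp [O])
  refine ⟨O, inferInstance, inferInstance, h1, fun S hS => ?_⟩
  by_contra h
  push Not at h
  have h2 : (univ : Set O).Countable := (hS.biUnion fun b _ => (h1 b).insert b).mono fun a _ => by
    obtain ⟨b, b1, b2⟩ := h a
    exact mem_biUnion b1 (b2.eq_or_lt.imp id id)
  rw [Cardinal.countable_iff_lt_aleph_one] at h2
  simp [O] at h2

theorem exists_rec {O : Type} [LinearOrder O] [WellFoundedLT O] {D : Type*} (d : D)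
    (R : O → (O → D) → D → Prop) (hR : ∀ a f, ∃ x, R a f x)
    (loc : ∀ a f g x, (∀ b < a, f b = g b) → R a f x → R a g x) :
    ∃ f : O → D, ∀ a, R a f (f a) := by
  choose G hG using hR
  let f : O → D := (wellFounded_lt (α := O)).fix fun a r =>
    G a fun b => if h : b < a then r b h else d
  refine ⟨f, fun a => ?_⟩
  have e : f a = G a fun b => if _ : b < a then f b else d := by
    simp only [f]
    rw [WellFounded.fix_eq]
  rw [e]
  exact loc a _ _ _ (fun b hb => dif_pos hb) (hG a _)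

theorem meas_sInf {W : Type*} [MeasurableSpace W] {S : W → Set ℕ}
    (h : ∀ n, Measurable fun w => n ∈ S w) : Measurable fun w => sInf (S w) := by
  refine measurable_to_countable' fun m => ?_
  have : (fun w => sInf (S w)) ⁻¹' {m} =
      {w | (m ∈ S w ∧ ∀ l < m, l ∉ S w) ∨ (m = 0 ∧ ∀ l, l ∉ S w)} := by
    ext w
    simp only [mem_preimage, mem_singleton_iff, mem_ofPred_eq]
    constructor
    · rintro rfl
      rcases (S w).eq_empty_or_nonempty with h | h
      · exact Or.inr (by simp [h])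
      · exact Or.inl ⟨Nat.sInf_mem h, fun l hl => Nat.notMem_of_lt_sInf hl⟩
    · rintro (⟨h1, h2⟩ | ⟨rfl, h2⟩)
      · exact le_antisymm (Nat.sInf_le h1) (not_lt.1 fun h => h2 _ h (Nat.sInf_mem ⟨m, h1⟩))
      · rw [eq_empty_of_forall_notMem h2, Nat.sInf_empty]
  rw [this]
  exact measurableSet_setOfPred.2 (((h m).and (Measurable.forall fun l =>
    measurable_const.imp (h l).not)).or (measurable_const.and (Measurable.forall fun l => (h l).not)))

theorem exists_meas_seq {W : Type*} [MeasurableSpace W] (T : ℕ → W → Set ℕ)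
    (hT : ∀ k n, Measurable fun w => n ∈ T k w) :
    ∃ s : W → ℕ → ℕ, (∀ k, Measurable fun w => s w k) ∧
      ∀ w, (∀ k, (T k w).Infinite) → StrictMono (s w) ∧ ∀ k, s w k ∈ T k w := by
  let s : W → ℕ → ℕ := fun w k =>
    Nat.rec (sInf (T 0 w)) (fun k x => sInf {n | x < n ∧ n ∈ T (k + 1) w}) k
  refine ⟨s, fun k => ?_, fun w hw => ?_⟩
  · induction k with
    | zero => exact meas_sInf (hT 0)
    | succ k ih =>
      exact meas_sInf (S := fun w => {n | s w k < n ∧ n ∈ T (k + 1) w}) fun n =>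
        ((Measurable.of_discrete (f := fun x : ℕ => x < n)).comp ih).and (hT _ n)
  · have h : ∀ k, s w k < s w (k + 1) ∧ s w (k + 1) ∈ T (k + 1) w := fun k =>
      Nat.sInf_mem (s := {n | s w k < n ∧ n ∈ T (k + 1) w})
        (let ⟨n, h1, h2⟩ := (hw (k + 1)).exists_gt (s w k); ⟨n, h2, h1⟩)
    refine ⟨strictMono_nat_of_lt_succ fun k => (h k).1, fun k => ?_⟩
    cases k with
    | zero => exact Nat.sInf_mem (hw 0).nonempty
    | succ k => exact (h k).2

theorem det_tower {O : Type} [LinearOrder O] [WellFoundedLT O] (N : Set O)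
    (hN : ∀ a ∈ N, ∀ b < a, b ∈ N) (T : O → Set ℕ) (Q : O → Prop)
    (h : ∀ a ∈ N, (∀ t : Set O, t.Finite → t ⊆ Iio a → (⋂ b ∈ t, T b).Infinite) →
      (T a).Infinite ∧ (∀ b < a, (T a \ T b).Finite) ∧ Q a) :
    (∀ t : Set O, t.Finite → t ⊆ N → (⋂ b ∈ t, T b).Infinite) ∧ ∀ a ∈ N, Q a := by
  have key : ∀ t : Set O, t.Finite → (∀ a ∈ t, (T a).Infinite ∧ ∀ b < a, (T a \ T b).Finite) →
      (⋂ b ∈ t, T b).Infinite := fun t ht h => by
    rcases t.eq_empty_or_nonempty with rfl | hne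
    · simpa using infinite_univ
    · obtain ⟨a, a1, a2⟩ := exists_max_image t id ht hne
      refine ((h a a1).1.sdiff (ht.biUnion (t := fun b => T a \ T b) fun b hb => ?_)).mono ?_
      · rcases (a2 b hb).eq_or_lt with e | e
        · obtain rfl : b = a := e
          simp
        · exact (h a a1).2 b e
      · intro n hn
        exact mem_iInter₂.2 fun b hb => by_contra fun h' => hn.2 (mem_biUnion hb ⟨hn.1, h'⟩)
  have all : ∀ a ∈ N, (T a).Infinite ∧ (∀ b < a, (T a \ T b).Finite) ∧ Q a := fun a => by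
    induction a using WellFoundedLT.induction with
    | ind a ih =>
      exact fun ha => h a ha fun t h1 h2 => key t h1 fun b hb =>
        let k := ih b (h2 hb) (hN a ha b (h2 hb)); ⟨k.1, k.2.1⟩
  exact ⟨fun t h1 h2 => key t h1 fun b hb => let k := all b (h2 hb); ⟨k.1, k.2.1⟩,
    fun a ha => (all a ha).2.2⟩

theorem det_clus {M : Set ZFSet.{0}} {X : Type} {c : X → ZFSet.{0}} {𝒯 : Set (Set X)}
    (hK : CompactIn M c 𝒯 univ) {ι : Type} (N : ι → Prop) (T : ι → Set ℕ)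
    (hT : ∀ t : Set ι, t.Finite → t ⊆ {a | N a} → (⋂ b ∈ t, T b).Infinite) (s : ℕ → X)
    (h : cSet (cSet c) {U ∈ 𝒯 | ∃ a, N a ∧ ∃ k, ∀ n ∈ T a, k ≤ n → s n ∉ U} ∈ M) :
    ∃ z, ∀ U ∈ 𝒯, z ∈ U → ∀ a, N a → ∀ k, ∃ n ∈ T a, k ≤ n ∧ s n ∈ U := by
  by_contra hc
  push Not at hc
  obtain ⟨𝒱, a1, a2, a3⟩ := hK _ (sep_subset _ _) h fun z _ =>
    let ⟨U, b1, b2, a, b3, k, b4⟩ := hc z; ⟨U, ⟨b1, a, b3, k, b4⟩, b2⟩
  have := a2.to_subtype
  choose a b1 k b2 using fun U : 𝒱 => (a1 U.2).2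
  obtain ⟨K, hK⟩ := (finite_range k).bddAbove
  obtain ⟨n, c1, c2⟩ := (hT (range a) (finite_range a) (range_subset_iff.2 b1)).exists_gt K
  obtain ⟨U, d1, d2⟩ := a3 (mem_univ (s n))
  exact b2 ⟨U, d1⟩ n (mem_iInter₂.1 c1 _ ⟨_, rfl⟩) ((hK ⟨_, rfl⟩).trans c2.le) d2

/-- countable lists of sequences of indices -/
def Col (O : Type) : Type := {p : O → Option (ℕ → ℕ ⊕ O) // {a | p a ≠ none}.Countable}

instance (O : Type) : Preorder (Col O) where
  le q p := ∀ a g, p.1 a = some g → q.1 a = some g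
  le_refl _ _ _ h := h
  le_trans _ _ _ h h' a g k := h a g (h' a g k)

instance (O : Type) : Nonempty (Col O) := ⟨⟨fun _ => none, by simp⟩⟩

variable {O : Type}

theorem Col.closed (q : ℕ → Col O) (h : ∀ n, q (n + 1) ≤ q n) : ∃ r, ∀ n, r ≤ q n := by
  classical
  have anti : Antitone q := antitone_nat_of_succ_le h
  refine ⟨⟨fun a => if h : ∃ n, (q n).1 a ≠ none then (q h.choose).1 a else none,
    (countable_iUnion fun n => (q n).2).mono fun a ha => ?_⟩, fun n a g hg => ?_⟩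
  · by_contra h'
    exact ha (dif_neg fun ⟨n, hn⟩ => h' (mem_iUnion.2 ⟨n, hn⟩))
  · have h' : ∃ n, (q n).1 a ≠ none := ⟨n, by simp [hg]⟩
    refine (dif_pos h').trans ?_
    rcases le_total n h'.choose with k | k
    · exact anti k a g hg
    · obtain ⟨g', e⟩ := Option.ne_none_iff_exists'.1 h'.choose_spec
      rw [← hg, anti k a g' e, e]

/-- the generic list has `g` at the place `a` -/
def Lst (w : World (Col O)) (a : O) (g : ℕ → ℕ ⊕ O) : Prop := w.Frc fun p => p.1 a = some g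

theorem meas_lst (a : O) (g : ℕ → ℕ ⊕ O) : Measurable fun w => Lst w a g :=
  measurable_frc fun _ _ h h' => h a g h'

theorem Lst.unique {w : World (Col O)} (hw : w.Generic) {a : O} {g g' : ℕ → ℕ ⊕ O}
    (h : Lst w a g) (h' : Lst w a g') : g = g' := by
  obtain ⟨p, a1, a2⟩ := h
  obtain ⟨q, b1, b2⟩ := h'
  obtain ⟨r, -, c1, c2⟩ := hw.dir p a1 q b1
  exact Option.some.inj ((c1 a g a2).symm.trans (c2 a g' b2))

theorem ev_listed [LinearOrder O] (hO : ∀ S : Set O, S.Countable → ∃ a, ∀ b ∈ S, b < a)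
    {Ψ : ℕ → ℕ ⊕ O → World (Col O) → Prop} (hΨ : ∀ n j, Measurable (Ψ n j))
    (h : ∀ n, ∀ᶠ w in gen (Col O), ∃ j, w.In j ∧ Ψ n j w) :
    ∀ᶠ w in gen (Col O), ∃ a g, w.In a ∧ w.In g ∧ (∀ n b, g n = .inr b → b < a) ∧ Lst w a g ∧
      ∀ n, Ψ n (g n) w := by
  refine ev_of_dense fun q0 => ?_
  choose f h1 j h2 using fun n p => Sem.ex_in (hΨ n) (sem_of_ev (h n) p)
  let q : ℕ → Col O := fun n => Nat.rec q0 (fun n p => f n p) n
  obtain ⟨r, hr⟩ := Col.closed q fun n => h1 n (q n)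
  let g : ℕ → ℕ ⊕ O := fun n => j n (q n)
  obtain ⟨a, ha⟩ := hO ({a | r.1 a ≠ none} ∪ Sum.inr ⁻¹' range g)
    (r.2.union ((countable_range g).preimage Sum.inr_injective))
  let r' : Col O := ⟨Function.update r.1 a (some g), (r.2.insert a).mono fun b hb =>
    or_iff_not_imp_left.2 fun e => by simpa [e] using hb⟩
  have hr' : r' ≤ r := fun b k hb => by
    have : b ≠ a := (ha b (Or.inl (by simp [hb]))).ne
    simpa [r', this] using hb
  refine ⟨r', hr'.trans (hr 0), ?_⟩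
  filter_upwards [ev_const a, ev_const g,
    ev_call fun n => (h2 n (q n)).mono (hr'.trans (hr (n + 1)))] with w a1 a2 a3 a4
  refine ⟨a, g, a1, a2, fun n b e => ha b (Or.inr ⟨n, e⟩), ?_, fun n => a3 n a4⟩
  obtain ⟨p, b1, b2⟩ := a4
  exact ⟨p, b1, b2 a g (by simp [r'])⟩

end Pool.Agent.P.MP_c9188c_gt.Pos
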