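import Pool.Agent.P.MP_c9188c_gt.Radon

/-!
Families of coded types indexed by worlds, and the calculus of named objects for them.
-/

open Set Filter Pool.Agent.Lib.Helper87 Pool.Agent.P.MP_6e1b89_gt

namespace Pool.Agent.P.MP_c9188c_gt.Pos

variable {P : Type} [Preorder P]

theorem named_cSet' {J : Type} {α : World P → Type} {c : ∀ w, α w → ZFSet.{0}}
    {g : J → ∀ w, α w} (hg : ∀ j, Named fun w => c w (g j w)) {Φ : J → World P → Prop}
    (hΦ : ∀ j, Measurable (Φ j)) {S : ∀ w, Set (α w)}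
    (hS : ∀ᶠ w in gen P, ∀ x, x ∈ S w ↔ ∃ j, w.In j ∧ Φ j w ∧ g j w = x) :
    Named fun w => cSet (c w) (S w) := by
  refine named_of_mem_iff hg hΦ (hS.mono fun w hw z => ?_)
  simp only [mem_cSet, hw]
  constructor
  · rintro ⟨_, ⟨j, a1, a2, rfl⟩, rfl⟩
    exact ⟨j, a1, a2, rfl⟩
  · rintro ⟨j, a1, a2, rfl⟩
    exact ⟨_, ⟨j, a1, a2, rfl⟩, rfl⟩

open Classical in
theorem named_ite {x y : World P → ZFSet.{0}} (hx : Named x) (hy : Named y) {Φ : World P → Prop}
    (hΦ : Measurable Φ) : Named fun w => if Φ w then x w else y w := by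
  refine named_mix (I := Bool) (x := fun b => cond b x y) (fun b => by cases b <;> assumption)
    (Φ := fun b w => cond b (Φ w) (¬ Φ w)) (fun b => ?_) ?_ (Eventually.of_forall fun w b _ h => ?_)
  · cases b
    exacts [hΦ.not, hΦ]
  · filter_upwards [ev_ctype Bool] with w hw
    by_cases h : Φ w
    exacts [⟨true, hw _, h⟩, ⟨false, hw _, h⟩]
  · cases b
    exacts [(if_neg h).symm, (if_pos h).symm]

theorem meas_allM {Φ : ZFSet.{0} → World P → Prop}
    (h : ∀ y, Named y → Measurable fun w => Φ (y w) w) :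
    Measurable fun w => ∀ z ∈ w.M, Φ z w := by
  refine (measurable_all_in fun σ : Name P => h _ (named_val σ)).congr_ev
    (Eventually.of_forall fun w => ⟨fun h σ hσ => h _ ⟨σ, hσ, rfl⟩, ?_⟩)
  rintro h _ ⟨σ, hσ, rfl⟩
  exact h σ hσ

/-- the maximum principle -/
theorem exists_named {Ψ : ZFSet.{0} → World P → Prop}
    (h : ∀ y, Named y → Measurable fun w => Ψ (y w) w) :
    ∃ y, Named y ∧ ∀ᶠ w in gen P, (∃ z ∈ w.M, Ψ z w) → Ψ (y w) w := by
  let good : P → Prop := fun p => ∃ σ : Name P, Sem p fun w => Ψ (w.val σ) w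
  have : ∀ p, ∃ σ : Name P, good p → Sem p fun w => Ψ (w.val σ) w := fun p => by
    by_cases hp : good p
    · exact hp.imp fun _ h _ => h
    · exact ⟨natName 0, fun h => absurd h hp⟩
  choose σ hσ using this
  let r : P → P → Prop := WellOrderingRel
  let Φ : P → World P → Prop := fun p w => (good p ∧ w.Has p) ∧
    ∀ q, w.In q → r q p → ¬ (good q ∧ w.Has q)
  have hΦ : ∀ p, Measurable (Φ p) := fun p => (measurable_const.and (measurable_has p)).and
    (measurable_all_in fun q => measurable_const.imp (measurable_const.and (measurable_has q)).not)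
  refine ⟨fun w => (cSet (fun p => w.val (σ p)) {p | w.In p ∧ Φ p w}).sUnion,
    named_sUnion (named_cSet (c := fun w p => w.val (σ p)) (g := fun p _ => p)
      (fun p => named_val _) hΦ (Eventually.of_forall fun w p => by simp)), ?_⟩
  filter_upwards [ev_generic, ev_all fun τ : Name P => ev_forced (h _ (named_val τ)),
    ev_all fun p => ev_sem fun w => Ψ (w.val (σ p)) w] with w h1 h2 h3
  rintro ⟨_, ⟨τ, a1, rfl⟩, a2⟩
  obtain ⟨p0, b1, b2⟩ := h2 τ a1 a2
  obtain ⟨p, ⟨c1, c2⟩, c3⟩ := (IsWellFounded.wf (r := r)).has_min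
    {p | w.In p ∧ good p ∧ w.Has p} ⟨p0, h1.mem _ b1, ⟨τ, b2⟩, w.has_of_mem b1⟩
  have e : {p | w.In p ∧ Φ p w} = {p} := by
    refine eq_singleton_iff_unique_mem.2 ⟨⟨c1, c2, fun q d1 d2 d3 => c3 q ⟨d1, d3⟩ d2⟩, ?_⟩
    rintro q ⟨d1, d2, d3⟩
    rcases trichotomous_of r q p with d | d | d
    exacts [absurd d (c3 q ⟨d1, d2⟩), d, absurd c2 (d3 p c1 d)]
  have e2 : (cSet (fun p => w.val (σ p)) {p | w.In p ∧ Φ p w}).sUnion = w.val (σ p) := by
    ext z
    simp [e, ZFSet.mem_sUnion, mem_cSet]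
  rw [e2]
  exact h3 p c1 p c2.2 (hσ p c2.1)

/-- coded types depending on the world -/
structure Fam (P : Type) [Preorder P] where
  α : World P → Type
  e : ∀ w, α w → ZFSet.{0}
  inj : ∀ w, Function.Injective (e w)
  d : ∀ w, α w
  nd : Named fun w => e w (d w)
  mr : ∀ z, Named z → Measurable fun w => z w ∈ range (e w)

namespace Fam

variable (F : Fam P)

/-- named objects -/
def N (a : ∀ w, F.α w) : Prop := Named fun w => F.e w (a w)

open Classical in
/-- decoding -/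
noncomputable def dec (z : World P → ZFSet.{0}) (w : World P) : F.α w :=
  if h : z w ∈ range (F.e w) then h.choose else F.d w

theorem N_dec {z : World P → ZFSet.{0}} (hz : Named z) : F.N (F.dec z) := by
  refine (named_ite hz F.nd (F.mr z hz)).congr (Eventually.of_forall fun w => ?_)
  unfold dec
  split_ifs with h
  exacts [h.choose_spec.symm, rfl]

theorem dec_eq {z : World P → ZFSet.{0}} {w : World P} {a : F.α w} (h : F.e w a = z w) :
    F.dec z w = a := by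
  have h' : z w ∈ range (F.e w) := ⟨a, h⟩
  rw [dec, dif_pos h']
  exact F.inj w (h'.choose_spec.trans h.symm)

variable {F}

theorem N.congr {a b : ∀ w, F.α w} (h : F.N a) (h' : ∀ᶠ w in gen P, a w = b w) : F.N b :=
  Named.congr h (h'.mono fun _ h => congrArg _ h)

theorem N.ev_mem {a : ∀ w, F.α w} (h : F.N a) : ∀ᶠ w in gen P, F.e w (a w) ∈ w.M :=
  Named.ev_mem h

theorem N.meas_eq {a b : ∀ w, F.α w} (h : F.N a) (h' : F.N b) : Measurable fun w => a w = b w := by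
  simpa only [(F.inj _).eq_iff] using Named.measurable_eq h h'

variable {Φ : ∀ w, F.α w → Prop}

theorem ev_all (h : ∀ a, F.N a → ∀ᶠ w in gen P, Φ w (a w)) :
    ∀ᶠ w in gen P, ∀ a, F.e w a ∈ w.M → Φ w a := by
  filter_upwards [ev_all_named (Φ := fun z w => ∀ a, F.e w a = z → Φ w a) fun z hz =>
    (h _ (F.N_dec hz)).mono fun w h a ha => F.dec_eq ha ▸ h] with w h a ha using h _ ha a rfl

theorem meas_lift (h : ∀ a, F.N a → Measurable fun w => Φ w (a w)) (z : World P → ZFSet.{0})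
    (hz : Named z) : Measurable fun w => ∃ a, F.e w a = z w ∧ Φ w a :=
  ((F.mr z hz).and (h _ (F.N_dec hz))).congr_ev (Eventually.of_forall fun _ =>
    ⟨fun ⟨a, h1, h2⟩ => ⟨⟨a, h1⟩, (F.dec_eq h1).symm ▸ h2⟩,
      fun ⟨⟨a, h1⟩, h2⟩ => ⟨a, h1, F.dec_eq h1 ▸ h2⟩⟩)

theorem meas_all (h : ∀ a, F.N a → Measurable fun w => Φ w (a w)) :
    Measurable fun w => ∀ a, F.e w a ∈ w.M → Φ w a :=
  (meas_allM (Φ := fun z w => ¬ ∃ a, F.e w a = z ∧ ¬ Φ w a) fun z hz =>
    (meas_lift (Φ := fun w a => ¬ Φ w a) (fun a ha => (h a ha).not) z hz).not).congr_ev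
    (Eventually.of_forall fun _ => ⟨fun h _ hz ⟨a, h1, h2⟩ => h2 (h a (h1 ▸ hz)),
      fun h a ha => by_contra fun h2 => h _ ha ⟨a, rfl, h2⟩⟩)

theorem choice (h : ∀ a, F.N a → Measurable fun w => Φ w (a w)) :
    ∃ a, F.N a ∧ ∀ᶠ w in gen P, (∃ b, F.e w b ∈ w.M ∧ Φ w b) → Φ w (a w) := by
  obtain ⟨y, h1, h2⟩ := exists_named (Ψ := fun z w => ∃ a, F.e w a = z ∧ Φ w a) (meas_lift h)
  refine ⟨_, F.N_dec h1, h2.mono fun w hw ⟨b, a1, a2⟩ => ?_⟩
  obtain ⟨a, b1, b2⟩ := hw ⟨_, a1, b, rfl, a2⟩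
  rwa [F.dec_eq b1]

variable (F) in
/-- sets of objects -/
@[reducible] noncomputable def set : Fam P where
  α w := Set (F.α w)
  e w := cSet (F.e w)
  inj w _ _ h := cSet_injOn (K := univ) (F.inj w).injOn (subset_univ _) (subset_univ _) h
  d _ := ∅
  nd := (named_nat 0).congr (Eventually.of_forall fun w => by
    ext z
    simp only [mem_cSet, mem_empty_iff_false, false_and, exists_false, iff_false]
    exact ZFSet.notMem_empty z)
  mr z hz := (named_bex hz (Φ := fun y w => y ∉ range (F.e w))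
    fun y hy => (F.mr y hy).not).not.congr_ev (Eventually.of_forall fun w => by
      constructor
      · rintro ⟨S, h⟩ ⟨y, h1, h2⟩
        obtain ⟨a, -, h3⟩ := mem_cSet.1 (h ▸ h1)
        exact h2 ⟨a, h3⟩
      · intro h
        push Not at h
        refine ⟨{a | F.e w a ∈ z w}, ZFSet.ext fun y => ?_⟩
        rw [mem_cSet]
        exact ⟨fun ⟨a, h1, h2⟩ => h2 ▸ h1, fun hy => let ⟨a, h1⟩ := h y hy
          ⟨a, show F.e w a ∈ z w from h1.symm ▸ hy, h1⟩⟩)

theorem code_mem {w : World P} {a : F.α w} {S : Set (F.α w)} :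
    F.e w a ∈ cSet (F.e w) S ↔ a ∈ S :=
  mem_cSet_iff (K := univ) (F.inj w).injOn (subset_univ _) trivial

theorem named_seq {s : ∀ w, ℕ → F.α w} (hs : ∀ n, F.N fun w => s w n) :
    Named fun w => cFun cNat (F.e w) univ (s w) :=
  named_cSet (c := fun w n => (cNat n).pair (F.e w (s w n))) (g := fun n _ => n)
    (fun n => (named_cNat n).pair (hs n)) (Φ := fun _ _ => True) (fun _ => measurable_const)
    ((ev_ctype ℕ).mono fun w h x => by simp [h])

theorem app_seq {w : World P} (s : ℕ → F.α w) (n : ℕ) :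
    app (cFun cNat (F.e w) univ s) (cNat n) = F.e w (s n) :=
  app_cFun cNat_inj.injOn trivial

variable (F) in
/-- sequences of objects -/
@[reducible] noncomputable def seq : Fam P where
  α w := ℕ → F.α w
  e w := cFun cNat (F.e w) univ
  inj w s t h := funext fun n => F.inj w (by rw [← app_seq s, h, app_seq])
  d w _ := F.d w
  nd := named_seq fun _ => F.nd
  mr z hz := ((named_seq (s := fun w n => F.dec (fun w => app (z w) (cNat n)) w)
    fun n => F.N_dec (named_app hz (named_cNat n))).measurable_eq hz).congr_ev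
      (Eventually.of_forall fun w => ⟨fun ⟨s, h⟩ => by
        rw [← h]
        congr 1
        funext n
        exact F.dec_eq (by rw [← h, app_seq]), fun h => ⟨_, h⟩⟩)

theorem N_seq {s : ∀ w, ℕ → F.α w} (hs : ∀ n, F.N fun w => s w n) : F.seq.N s := named_seq hs

theorem N.app {s : ∀ w, ℕ → F.α w} (hs : F.seq.N s) (n : ℕ) : F.N fun w => s w n :=
  (named_app hs (named_cNat n)).congr (Eventually.of_forall fun w => app_seq (s w) n)

variable {S : ∀ w, Set (F.α w)}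

theorem N.meas_mem {a : ∀ w, F.α w} (h : F.N a) (hS : F.set.N S) :
    Measurable fun w => a w ∈ S w :=
  (Named.measurable_mem h hS).congr_ev (Eventually.of_forall fun _ => code_mem.symm)

theorem meas_bex (hS : F.set.N S) (h : ∀ a, F.N a → Measurable fun w => Φ w (a w)) :
    Measurable fun w => ∃ a ∈ S w, Φ w a :=
  (named_bex hS (Φ := fun z w => ∃ a, F.e w a = z ∧ Φ w a) (meas_lift h)).congr_ev
    (Eventually.of_forall fun _ => ⟨fun ⟨a, h1, h2⟩ => ⟨_, code_mem.2 h1, a, rfl, h2⟩,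
      fun ⟨_, h1, a, h2, h3⟩ => ⟨a, code_mem.1 (h2 ▸ h1), h3⟩⟩)

theorem meas_ball (hS : F.set.N S) (h : ∀ a, F.N a → Measurable fun w => Φ w (a w)) :
    Measurable fun w => ∀ a ∈ S w, Φ w a := by
  simpa using (meas_bex hS (Φ := fun w a => ¬ Φ w a) fun a ha => (h a ha).not).not

theorem N_sep (hS : F.set.N S) (h : ∀ a, F.N a → Measurable fun w => Φ w (a w)) :
    F.set.N fun w => {a ∈ S w | Φ w a} :=
  (named_sep hS (Φ := fun z w => ∃ a, F.e w a = z ∧ Φ w a) (meas_lift h)).congr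
    (Eventually.of_forall fun w => ZFSet.ext fun z => by
      rw [ZFSet.mem_sep]
      exact ⟨fun ⟨h1, a, h2, h3⟩ => mem_cSet.2 ⟨a, ⟨code_mem.1 (h2 ▸ h1), h3⟩, h2⟩,
        fun h => let ⟨a, ⟨h1, h2⟩, h3⟩ := mem_cSet.1 h; ⟨h3 ▸ code_mem.2 h1, a, h3, h2⟩⟩)

theorem N.index (hS : F.set.N S) : ∃ (I : Type) (u : I → ∀ w, F.α w) (Θ : I → World P → Prop),
    (∀ i, F.N (u i)) ∧ (∀ i, Measurable (Θ i)) ∧
      ∀ᶠ w in gen P, ∀ a, a ∈ S w ↔ ∃ i, w.In i ∧ Θ i w ∧ u i w = a := by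
  obtain ⟨I, x, Θ, h1, h2, h3⟩ := Named.exists_index hS
  refine ⟨I, fun i => F.dec (x i), Θ, fun i => F.N_dec (h1 i), h2, h3.mono fun w hw a => ?_⟩
  constructor
  · intro ha
    obtain ⟨i, a1, a2, a3⟩ := (hw _).1 (code_mem.2 ha)
    exact ⟨i, a1, a2, F.dec_eq a3.symm⟩
  · rintro ⟨i, a1, a2, rfl⟩
    obtain ⟨b, b1, b2⟩ := mem_cSet.1 ((hw _).2 ⟨i, a1, a2, rfl⟩)
    change F.dec (x i) w ∈ S w
    rwa [F.dec_eq b2]

theorem N.image (hS : F.set.N S) {g : ∀ w, F.α w → ZFSet.{0}}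
    (hg : ∀ a, F.N a → Named fun w => g w (a w)) : Named fun w => cSet (g w) (S w) := by
  obtain ⟨I, u, Θ, h1, h2, h3⟩ := hS.index
  exact named_cSet' (fun i => hg _ (h1 i)) h2 h3

theorem N.range {s : ∀ w, ℕ → F.α w} (hs : F.seq.N s) : F.set.N fun w => range (s w) :=
  named_cSet' (g := fun n w => s w n) hs.app (Φ := fun _ _ => True) (fun _ => measurable_const)
    ((ev_ctype ℕ).mono fun w h x => by simp [h])

theorem N.pow (hS : F.set.N S) :
    F.set.set.N fun w => {T | T ⊆ S w ∧ cSet (F.e w) T ∈ w.M} := by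
  obtain ⟨y, h1, h2⟩ := exists_named
    (Ψ := fun y w => ∀ z ∈ w.M, (¬ ∃ a ∈ z, a ∉ cSet (F.e w) (S w)) → z ∈ y) fun y hy =>
      meas_allM (Φ := fun z w => (¬ ∃ a ∈ z, a ∉ cSet (F.e w) (S w)) → z ∈ y w) fun z hz =>
        (named_bex hz (Φ := fun a w => a ∉ cSet (F.e w) (S w))
          fun a ha => (ha.measurable_mem hS).not).not.imp (hz.measurable_mem hy)
  refine (named_sep h1 (Φ := fun z w => ¬ ∃ a ∈ z, a ∉ cSet (F.e w) (S w)) fun z hz =>
    (named_bex hz (Φ := fun a w => a ∉ cSet (F.e w) (S w))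
      fun a ha => (ha.measurable_mem hS).not).not).congr ?_
  filter_upwards [h2, h1.ev_mem, hS.ev_mem, ev_power, ev_trans] with w a1 a2 a3 a4 a5
  obtain ⟨y', b1, b2⟩ := a4 _ a3
  have a6 := a1 ⟨y', b1, fun z hz h => b2 z hz fun a ha => by_contra fun h' => h ⟨a, ha, h'⟩⟩
  ext z
  rw [ZFSet.mem_sep]
  constructor
  · rintro ⟨c1, c2⟩
    push Not at c2
    have e : cSet (F.e w) {a | F.e w a ∈ z} = z := ZFSet.ext fun x => by
      rw [mem_cSet]
      exact ⟨fun ⟨a, h1, h2⟩ => h2 ▸ h1,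
        fun hx => let ⟨a, _, h⟩ := mem_cSet.1 (c2 x hx)
          ⟨a, show F.e w a ∈ z from h.symm ▸ hx, h⟩⟩
    exact mem_cSet.2 ⟨_, ⟨fun a ha => code_mem.1 (c2 _ ha), e.symm ▸ a5 _ a2 _ c1⟩, e⟩
  · intro hz
    obtain ⟨T, ⟨c1, c2⟩, rfl⟩ := mem_cSet.1 hz
    have c3 : ¬ ∃ a ∈ cSet (F.e w) T, a ∉ cSet (F.e w) (S w) := fun ⟨a, d1, d2⟩ =>
      let ⟨b, d3, d4⟩ := mem_cSet.1 d1; d2 (mem_cSet.2 ⟨b, c1 d3, d4⟩)
    exact ⟨a6 _ c2 c3, c3⟩

theorem ev_mem_of_mem : ∀ᶠ w in gen P, ∀ S : Set (F.α w), cSet (F.e w) S ∈ w.M →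
    ∀ a ∈ S, F.e w a ∈ w.M :=
  ev_trans.mono fun _ h _ hS _ ha => h _ hS _ (code_mem.2 ha)

/-- countable choice -/
theorem seq_choice {Ψ : ℕ → ∀ w, F.α w → Prop} (hS : F.set.N S)
    (h : ∀ n a, F.N a → Measurable fun w => Ψ n w (a w)) :
    ∀ᶠ w in gen P, (∀ n, ∃ b ∈ S w, Ψ n w b) →
      ∃ s : ℕ → F.α w, cFun cNat (F.e w) univ s ∈ w.M ∧ ∀ n, s n ∈ S w ∧ Ψ n w (s n) := by
  choose a h1 h2 using fun n => choice (Φ := fun w a => a ∈ S w ∧ Ψ n w a)
    fun a ha => (ha.meas_mem hS).and (h n a ha)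
  filter_upwards [ev_call h2, (N_seq (s := fun w n => a n w) h1).ev_mem, hS.ev_mem,
    ev_mem_of_mem (F := F)] with w a1 a2 a3 a4 hw
  exact ⟨_, a2, fun n => let ⟨b, b1, b2⟩ := hw n; a1 n ⟨b, a4 _ a3 b b1, b1, b2⟩⟩

/-- maximal families for properties of finite character -/
theorem tukey (hS : F.set.N S) (R : ∀ w, Set (F.α w) → Prop)
    (hR : ∀ (I : Type) (u : I → ∀ w, F.α w), (∀ i, F.N (u i)) → ∀ t : Set I, t.Finite →
      Measurable fun w => R w ((fun i => u i w) '' t)) :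
    ∃ m, F.set.N m ∧ ∀ᶠ w in gen P, m w ⊆ S w ∧ (R w ∅ → ∀ t ⊆ m w, t.Finite → R w t) ∧
      ∀ a ∈ S w, (∀ t ⊆ m w, t.Finite → R w (insert a t)) → a ∈ m w := by
  obtain ⟨I, u, Θ, h1, h2, h3⟩ := hS.index
  obtain ⟨_, _⟩ := exists_wellFoundedLT I
  let good : I → World P → Prop := (wellFounded_lt (α := I)).fix fun i f w => Θ i w ∧
    ∀ t : Finset I, w.In t → (∀ j ∈ t, ∃ h : j < i, f j h w) →
      R w ((fun i => u i w) '' insert i (t : Set I))
  have hg : ∀ i w, good i w ↔ Θ i w ∧ ∀ t : Finset I, w.In t →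
      (∀ j ∈ t, ∃ _ : j < i, good j w) → R w ((fun i => u i w) '' insert i (t : Set I)) :=
    fun i w => by simp only [good]; rw [WellFounded.fix_eq]
  have hm : ∀ i, Measurable (good i) := fun i => by
    induction i using WellFoundedLT.induction with
    | ind i ih =>
      refine ((h2 i).and (measurable_all_in fun t : Finset I => Measurable.imp ?_
        (hR I u h1 _ (t.finite_toSet.insert i)))).congr_ev (Eventually.of_forall (hg i))
      exact (Measurable.forall fun j : t => Measurable.exists fun h : j.1 < i => ih j h).congr_ev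
        (Eventually.of_forall fun w => ⟨fun h j => h j j.2, fun h j hj => h ⟨j, hj⟩⟩)
  refine ⟨fun w => {a | ∃ i, w.In i ∧ good i w ∧ u i w = a},
    named_cSet' h1 hm (Eventually.of_forall fun _ _ => Iff.rfl), ?_⟩
  filter_upwards [h3, ev_all_finset fun t : Finset I => ev_const t,
    Pool.Agent.Lib.Helper87.ev_all fun t : Finset I => ev_countable_set t.countable_toSet]
    with w a1 a2 a3
  refine ⟨fun a ⟨i, b1, b2, b3⟩ => (a1 a).2 ⟨i, b1, ((hg i w).1 b2).1, b3⟩, fun h0 t ht hf => ?_,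
    fun a ha h => ?_⟩
  · have ht' : t ⊆ (fun i => u i w) '' {i | w.In i ∧ good i w} :=
      fun a ha => let ⟨i, b1, b2, b3⟩ := ht ha; ⟨i, ⟨b1, b2⟩, b3⟩
    obtain ⟨s, b1, b2, rfl⟩ := Set.Finite.exists_subset_finite_image_eq hf ht'
    lift s to Finset I using b2
    rcases s.eq_empty_or_nonempty with rfl | hs
    · simpa using h0
    · have b3 := s.max'_mem hs
      have := ((hg _ w).1 (b1 b3).2).2 (s.erase (s.max' hs))
        (a2 _ fun i hi => (b1 (Finset.mem_of_mem_erase hi)).1) fun j hj =>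
          ⟨s.lt_max'_of_mem_erase_max' hs hj, (b1 (Finset.mem_of_mem_erase hj)).2⟩
      rwa [← Finset.coe_insert, Finset.insert_erase b3] at this
  · obtain ⟨i, b1, b2, rfl⟩ := (a1 a).1 ha
    refine ⟨i, b1, (hg i w).2 ⟨b2, fun t c1 c2 => ?_⟩, rfl⟩
    rw [image_insert_eq]
    refine h _ ?_ (t.finite_toSet.image _)
    rintro _ ⟨j, d1, rfl⟩
    exact ⟨j, a3 t c1 j d1, (c2 j d1).2, rfl⟩

end Fam

end Pool.Agent.P.MP_c9188c_gt.Pos
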