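import Pool.Agent.P.MP_c9188c_gt.ICol

/-!
After the countably closed collapse every compact Radon space is sequential.
-/

open Set Filter Pool.Agent.Lib.Helper87 Pool.Agent.P.MP_6e1b89_gt

namespace Pool.Agent.P.MP_c9188c_gt.Pos

section general

variable {P : Type} [Preorder P] {F : Fam P} {𝒯 : ∀ w, Set (Set (F.α w))}

theorem meas_clus (hT : F.set.set.N 𝒯) {s : ∀ w, ℕ → F.α w} (hs : ∀ n, F.N fun w => s w n)
    {z : ∀ w, F.α w} (hz : F.N z) : Measurable fun w => Clus (𝒯 w) (s w) (z w) :=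
  Fam.meas_ball (F := F.set) hT (Φ := fun w U => z w ∈ U → ∀ k, ∃ n, k ≤ n ∧ s w n ∈ U)
    fun _ hU => (hz.meas_mem hU).imp (Measurable.forall fun _ => Measurable.exists fun n =>
      measurable_const.and ((hs n).meas_mem hU))

theorem N_fam (hT : F.set.set.N 𝒯) {s : ∀ w, ℕ → F.α w} (hs : F.seq.N s) {ι : Type}
    {T : ι → World P → Set ℕ} (h : ∀ a n, Measurable fun w => n ∈ T a w) :
    F.set.set.N fun w => {U ∈ 𝒯 w | ∃ a, w.In a ∧ ∃ k, ∀ n ∈ T a w, k ≤ n → s w n ∉ U} :=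
  Fam.N_sep (F := F.set) hT
    (Φ := fun w U => ∃ a, w.In a ∧ ∃ k, ∀ n ∈ T a w, k ≤ n → s w n ∉ U) fun _ hU =>
    measurable_ex_in fun a => Measurable.exists fun _ => Measurable.forall fun n =>
      (h a n).imp (measurable_const.imp ((hs.app n).meas_mem hU).not)

theorem ev_clus (hT : F.set.set.N 𝒯) : ∀ᶠ w in gen P, ∀ s : ℕ → F.α w,
    cFun cNat (F.e w) univ s ∈ w.M → CompactIn w.M (F.e w) (𝒯 w) univ → ∃ z, Clus (𝒯 w) s z := by
  refine Fam.ev_all (F := F.seq)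
    (Φ := fun w s => CompactIn w.M (F.e w) (𝒯 w) univ → ∃ z, Clus (𝒯 w) s z) fun s hs => ?_
  filter_upwards [(N_fam hT hs (ι := Unit) (T := fun _ _ => univ)
    fun _ _ => measurable_const).ev_mem, ev_const ()] with w a1 a2 hK
  obtain ⟨z, hz⟩ := det_clus hK (fun a : Unit => w.In a) (fun _ => univ)
    (fun _ _ _ => by simpa using infinite_univ) (s w) a1
  exact ⟨z, fun U h1 h2 k => let ⟨n, _, h⟩ := hz U h1 h2 () a2 k; ⟨n, h⟩⟩

theorem N_sub {d : ∀ w, ℕ → F.α w} (hd : F.seq.N d) {k : World P → ℕ} (hk : Measurable k) :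
    F.N fun w => d w (k w) :=
  named_mix (x := fun m w => F.e w (d w m)) hd.app (Φ := fun m w => k w = m)
    (fun m => hk.eq_const m) ((ev_ctype ℕ).mono fun w h => ⟨k w, h _, rfl⟩)
    (Eventually.of_forall fun _ _ _ h => h ▸ rfl)

/-- no subsequence converges -/
def NoConv (w : World P) (𝒯 : Set (Set (F.α w))) (d : ℕ → F.α w) : Prop :=
  ∀ s : ℕ → ℕ, StrictMono s → cFun cNat (F.e w) univ (fun n => d (s n)) ∈ w.M →
    ∀ z, ∃ U ∈ 𝒯, z ∈ U ∧ ∀ k, ∃ n, k ≤ n ∧ d (s n) ∉ U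

theorem exists_tower {O : Type} [LinearOrder O] [WellFoundedLT O] (hO : ∀ a : O, (Iio a).Countable)
    (hT : F.set.set.N 𝒯) {d : ∀ w, ℕ → F.α w} (hd : F.seq.N d) {y : O → ∀ w, F.α w}
    (hy : ∀ a, F.N (y a)) :
    ∃ T : O → World P → Set ℕ, (∀ a n, Measurable fun w => n ∈ T a w) ∧ ∀ a, ∀ᶠ w in gen P,
      NoConv w (𝒯 w) (d w) → (∀ t : Set O, t.Finite → t ⊆ Iio a → (⋂ b ∈ t, T b w).Infinite) →
        (T a w).Infinite ∧ (∀ b < a, (T a w \ T b w).Finite) ∧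
          ∃ U ∈ 𝒯 w, y a w ∈ U ∧ ∀ n ∈ T a w, d w n ∉ U := by
  refine (exists_rec (O := O)
    (D := {T : World P → Set ℕ // ∀ n, Measurable fun w => n ∈ T w})
    ⟨fun _ => univ, fun _ => measurable_const⟩
    (fun a T x => ∀ᶠ w in gen P, NoConv w (𝒯 w) (d w) →
      (∀ t : Set O, t.Finite → t ⊆ Iio a → (⋂ b ∈ t, (T b).1 w).Infinite) →
        (x.1 w).Infinite ∧ (∀ b < a, (x.1 w \ (T b).1 w).Finite) ∧
          ∃ U ∈ 𝒯 w, y a w ∈ U ∧ ∀ n ∈ x.1 w, d w n ∉ U) (fun a T => ?_)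
    fun a f g x e h => ?_).elim fun T h => ⟨fun a => (T a).1, fun a => (T a).2, h⟩
  · obtain ⟨e, he⟩ := countable_iff_exists_injOn.1 (hO a)
    have ht : ∀ k, {b | b < a ∧ e b ≤ k}.Finite := fun k =>
      ((finite_Iic k).subset (image_subset_iff.2 fun b hb => hb.2)).of_finite_image
        (he.mono fun b hb => hb.1)
    obtain ⟨s, h1, h2⟩ := exists_meas_seq (fun k w => ⋂ b ∈ {b | b < a ∧ e b ≤ k}, (T b).1 w)
      fun k n => by
        have := (ht k).to_subtype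
        simpa using Measurable.forall fun b : {b | b < a ∧ e b ≤ k} => (T b).2 n
    have h3 : ∀ n, F.N fun w => d w (s w n) := fun n => N_sub hd (h1 n)
    obtain ⟨U, h4, h5⟩ := Fam.choice (F := F.set)
      (Φ := fun w U => U ∈ 𝒯 w ∧ y a w ∈ U ∧ ∀ k, ∃ n, k ≤ n ∧ d w (s w n) ∉ U) fun U hU =>
      (hU.meas_mem hT).and (((hy a).meas_mem hU).and (Measurable.forall fun _ =>
        Measurable.exists fun n => measurable_const.and ((h3 n).meas_mem hU).not))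
    refine ⟨⟨fun w => {m | ∃ n, s w n = m ∧ d w (s w n) ∉ U w}, fun m => Measurable.exists fun n =>
      ((h1 n).eq_const m).and ((h3 n).meas_mem h4).not⟩, ?_⟩
    filter_upwards [h5, (Fam.N_seq (s := fun w n => d w (s w n)) h3).ev_mem, hT.ev_mem,
      Fam.ev_mem_of_mem (F := F.set)] with w a1 a2 a3 a4 b1 b2
    obtain ⟨c1, c2⟩ := h2 w fun k => b2 _ (ht k) fun b hb => hb.1
    obtain ⟨V, c3, c4⟩ := b1 _ c1 a2 (y a w)
    obtain ⟨d1, d2, d3⟩ := a1 ⟨V, a4 _ a3 V c3, c3, c4⟩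
    refine ⟨infinite_of_forall_exists_gt fun k => ?_, fun b hb => ?_, _, d1, d2, ?_⟩
    · obtain ⟨n, e1, e2⟩ := d3 (k + 1)
      exact ⟨_, ⟨n, rfl, e2⟩, lt_of_lt_of_le e1 (c1.le_apply)⟩
    · refine ((finite_Iio (e b)).image (s w)).subset ?_
      rintro _ ⟨⟨n, rfl, -⟩, e2⟩
      exact ⟨n, not_le.1 fun h => e2 (mem_iInter₂.1 (c2 n) b ⟨hb, h⟩), rfl⟩
    · rintro _ ⟨n, rfl, h⟩
      exact h
  · filter_upwards [h] with w hw b1 b2
    obtain ⟨c1, c2, c3⟩ := hw b1 fun t h1 h2 => by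
      rw [iInter₂_congr fun b hb => congrArg (fun x => x.1 w) (e b (h2 hb))]
      exact b2 t h1 h2
    exact ⟨c1, fun b hb => e b hb ▸ c2 b hb, c3⟩

end general

variable {O : Type} [LinearOrder O] [WellFoundedLT O] {F : Fam (Col O)}
  {𝒯 : ∀ w, Set (Set (F.α w))}

/-- the points of the construction -/
def pt (d : ∀ w, ℕ → F.α w) (y : O → ∀ w, F.α w) (j : ℕ ⊕ O) (w : World (Col O)) : F.α w :=
  Sum.elim (d w) (fun b => y b w) j

omit [LinearOrder O] [WellFoundedLT O] in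
theorem N_pt {d : ∀ w, ℕ → F.α w} (hd : F.seq.N d) {y : O → ∀ w, F.α w} (hy : ∀ a, F.N (y a))
    (j : ℕ ⊕ O) : F.N (pt d y j) := by
  cases j with
  | inl n => exact hd.app n
  | inr a => exact hy a

theorem exists_points (hX : F.set.N fun _ => univ) (hT : F.set.set.N 𝒯) {d : ∀ w, ℕ → F.α w}
    (hd : F.seq.N d) :
    ∃ y : O → ∀ w, F.α w, (∀ a, F.N (y a)) ∧ ∀ a, ∀ᶠ w in gen (Col O), ∀ g, w.In g →
      (∀ n b, g n = .inr b → b < a) → Lst w a g → (∃ z, Clus (𝒯 w) (fun n => pt d y (g n) w) z) →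
        Clus (𝒯 w) (fun n => pt d y (g n) w) (y a w) := by
  refine (exists_rec (O := O) (D := {y : ∀ w, F.α w // F.N y}) ⟨F.d, F.nd⟩
    (fun a y x => ∀ᶠ w in gen (Col O), ∀ g, w.In g → (∀ n b, g n = .inr b → b < a) → Lst w a g →
      (∃ z, Clus (𝒯 w) (fun n => pt d (fun b => (y b).1) (g n) w) z) →
        Clus (𝒯 w) (fun n => pt d (fun b => (y b).1) (g n) w) (x.1 w))
    (fun a y => ?_) fun a f f' x e h => ?_).elim
    fun y h => ⟨fun a => (y a).1, fun a => (y a).2, h⟩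
  · obtain ⟨x, h1, h2⟩ := Fam.choice (F := F) (Φ := fun w z => ∃ g : ℕ → ℕ ⊕ O, w.In g ∧
      Lst w a g ∧ Clus (𝒯 w) (fun n => pt d (fun b => (y b).1) (g n) w) z) fun z hz =>
      measurable_ex_in fun g => (meas_lst a g).and
        (meas_clus hT (fun n => N_pt hd (fun b => (y b).2) (g n)) hz)
    refine ⟨⟨x, h1⟩, ?_⟩
    filter_upwards [h2, ev_generic, hX.ev_mem, Fam.ev_mem_of_mem (F := F)]
      with w a1 a2 a3 a4 g b1 _ b3 ⟨z, b4⟩
    obtain ⟨g', -, c2, c3⟩ := a1 ⟨z, a4 _ a3 z trivial, g, b1, b3, b4⟩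
    rwa [b3.unique a2 c2]
  · filter_upwards [h] with w hw g b1 b2 b3
    have : (fun n => pt d (fun b => (f' b).1) (g n) w) = fun n => pt d (fun b => (f b).1) (g n) w :=
      funext fun n => by
        cases hg : g n with
        | inl m => rfl
        | inr b => exact congrArg (fun x => x.1 w) (e b (b2 n b hg)).symm
    rw [this]
    exact hw g b1 b2 b3

theorem ev_seq (h1 : ∀ a : O, (Iio a).Countable)
    (h2 : ∀ S : Set O, S.Countable → ∃ a, ∀ b ∈ S, b < a) (hX : F.set.N fun _ => univ)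
    (hT : F.set.set.N 𝒯) {A : ∀ w, Set (F.α w)} (hA : F.set.N A) :
    ∀ᶠ w in gen (Col O), HausdorffIn w.M (F.e w) (𝒯 w) → CompactIn w.M (F.e w) (𝒯 w) univ →
      RadonIn w.M (F.e w) (𝒯 w) →
      (∀ s : ℕ → F.α w, cFun cNat (F.e w) univ s ∈ w.M → (∀ n, s n ∈ A w) →
        ∀ x, (∀ U ∈ 𝒯 w, x ∈ U → ∀ᶠ n in atTop, s n ∈ U) → x ∈ A w) → (A w)ᶜ ∈ 𝒯 w := by
  have key : ∀ᶠ w in gen (Col O), ∀ d : ℕ → F.α w, cFun cNat (F.e w) univ d ∈ w.M →
      HausdorffIn w.M (F.e w) (𝒯 w) → CompactIn w.M (F.e w) (𝒯 w) univ →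
      RadonIn w.M (F.e w) (𝒯 w) →
      (∀ s : ℕ → F.α w, cFun cNat (F.e w) univ s ∈ w.M → (∀ n, s n ∈ A w) →
        ∀ x, (∀ U ∈ 𝒯 w, x ∈ U → ∀ᶠ n in atTop, s n ∈ U) → x ∈ A w) →
      (∀ n, d n ∈ A w) → ∃ p ∈ A w, Clus (𝒯 w) d p := by
    refine Fam.ev_all (F := F.seq) fun d hd => ?_
    obtain ⟨y, y1, y2⟩ := exists_points hX hT hd
    obtain ⟨T, T1, T2⟩ := exists_tower h1 hT hd y1
    obtain ⟨a0, -⟩ := h2 ∅ countable_empty
    let Y : ∀ w, Set (F.α w) := fun w => {p | ∃ j, w.In j ∧ True ∧ pt d y j w = p}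
    have hY : F.set.N Y := named_cSet' (N_pt hd y1) (fun _ => measurable_const)
      (Eventually.of_forall fun _ _ => Iff.rfl)
    have hL : ∀ᶠ w in gen (Col O), ∀ s : ℕ → F.α w, cFun cNat (F.e w) univ s ∈ w.M →
        ∃ a g, w.In a ∧ w.In g ∧ (∀ n b, g n = .inr b → b < a) ∧ Lst w a g ∧
          ∀ n, s n ∈ Y w → pt d y (g n) w = s n :=
      Fam.ev_all (F := F.seq) fun s hs => ev_listed h2
        (Ψ := fun n j w => s w n ∈ Y w → pt d y j w = s w n)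
        (fun n j => ((hs.app n).meas_mem hY).imp ((N_pt hd y1 j).meas_eq (hs.app n))) fun n =>
        (ev_const (.inl 0 : ℕ ⊕ O)).mono fun w hw => by
          by_cases h : s w n ∈ Y w
          · obtain ⟨j, a1, -, a2⟩ := h
            exact ⟨j, a1, fun _ => a2⟩
          · exact ⟨_, hw, fun h' => absurd h' h⟩
    filter_upwards [ev_all y2, ev_all T2, hL, ev_closed hX hT, ev_clus hT, hY.ev_mem, hX.ev_mem,
      Fam.ev_mem_of_mem (F := F), (N_fam hT hd T1).ev_mem, ev_const a0, ev_in_sum ℕ O, ev_ctype ℕ,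
      ev_all fun a : O => ev_countable_set (h1 a)]
      with w a1 a2 a3 a4 a5 a6 a7 a8 a9 a10 a11 a12 a13 hH hK hR hS hd
    by_contra hc
    push Not at hc
    have nc : NoConv w (𝒯 w) (d w) := fun s s1 s2 z => by
      by_contra h
      push Not at h
      refine hc z (hS _ s2 (fun n => hd _) z fun U b1 b2 => eventually_atTop.2 (h U b1 b2))
        fun U b1 b2 k => ?_
      obtain ⟨k', hk⟩ := h U b1 b2
      exact ⟨s (max k k'), (le_max_left _ _).trans s1.le_apply, hk _ (le_max_right _ _)⟩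
    obtain ⟨t1, t2⟩ := det_tower {a | w.In a} (fun a ha b hb => a13 a ha b hb) (fun a => T a w) _
      fun a ha => a2 a ha nc
    obtain ⟨z, hz⟩ := det_clus hK (fun a : O => w.In a) (fun a => T a w) t1 (d w) a9
    obtain ⟨j, b1, -, b2⟩ := a4 (Y w) a6 z (a8 _ a7 z trivial) hH hR (fun s s1 s2 => by
      obtain ⟨a, g, c1, c2, c3, c4, c5⟩ := a3 s s1
      obtain rfl : (fun n => pt d y (g n) w) = s := funext fun n => c5 n (s2 n)
      exact ⟨_, ⟨.inr a, (a11.2 a).2 c1, trivial, rfl⟩, a1 a c1 g c2 c3 c4 (a5 _ s1 hK)⟩)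
      fun U c1 c2 => let ⟨n, _, _, h⟩ := hz U c1 c2 a0 a10 0
        ⟨_, ⟨.inl n, (a11.1 n).2 (a12 n), trivial, rfl⟩, h⟩
    cases j with
    | inl m =>
      exact hc z (b2 ▸ hd m) fun U c1 c2 k => let ⟨n, _, h⟩ := hz U c1 c2 a0 a10 k; ⟨n, h⟩
    | inr a =>
      obtain ⟨U, c1, c2, c3⟩ := t2 a ((a11.2 a).1 b1)
      obtain ⟨n, c4, -, c5⟩ := hz U c1 (b2 ▸ c2) a ((a11.2 a).1 b1) 0
      exact c3 n c4 c5
  filter_upwards [key, ev_closed hX hT, hA.ev_mem, hX.ev_mem, Fam.ev_mem_of_mem (F := F),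
    (Fam.N_sep (F := F.set) hT (Φ := fun w U => ∀ a ∈ U, a ∉ A w) fun U hU =>
      Fam.meas_ball hU (Φ := fun w a => a ∉ A w) fun _ ha => (ha.meas_mem hA).not).ev_mem]
    with w a1 a2 a3 a4 a5 a6 hH hK hR hS
  have e : (A w)ᶜ = ⋃₀ {U ∈ 𝒯 w | ∀ a ∈ U, a ∉ A w} := by
    refine Subset.antisymm (fun z hz => by_contra fun h => hz ?_) fun z ⟨U, h1, h2⟩ => h1.2 z h2
    refine a2 _ a3 z (a5 _ a4 z trivial) hH hR (fun s s1 s2 => a1 s s1 hH hK hR hS s2)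
      fun U b1 b2 => by_contra fun h' => h ⟨U, ⟨b1, fun a b3 b4 => h' ⟨a, b4, b3⟩⟩, b2⟩
  rw [e]
  exact hH.2.2.1 _ (sep_subset _ _) a6

end Pool.Agent.P.MP_c9188c_gt.Pos
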