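import Pool.Agent.P.MP_c9188c_gt.IMain

/-!
A transitive model in which every compact Radon space is sequential.
-/

open Set Filter Pool.Agent.Lib.Helper87 Pool.Agent.P.MP_6e1b89_gt

namespace Pool.Agent.P.MP_c9188c_gt.Pos

theorem named_insert {P : Type} [Preorder P] {x z : World P → ZFSet.{0}} (hz : Named z)
    (hx : Named x) : Named fun w => insert (z w) (x w) := by
  have up : ∀ {a b : World P → ZFSet.{0}}, Named a → Named b → Named fun w => {a w, b w} := by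
    rintro a b ⟨σ, h⟩ ⟨τ, h'⟩
    refine ⟨upair σ τ, ?_⟩
    filter_upwards [h, h', ev_val_upair] with w h1 h2 h3
    rw [h3, h1, h2]
  refine (named_sUnion (up (up hz hz) hx)).congr (Eventually.of_forall fun w => ?_)
  ext y
  simp

theorem N_dec_set {P : Type} [Preorder P] (F : Fam P) {z : World P → ZFSet.{0}} (hz : Named z) :
    F.set.N fun w => {a | F.e w a ∈ z w} :=
  (named_sep hz (Φ := fun y w => y ∈ range (F.e w)) F.mr).congr
    (Eventually.of_forall fun w => ZFSet.ext fun y => by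
      rw [ZFSet.mem_sep]
      exact ⟨fun ⟨h1, a, h2⟩ => mem_cSet.2 ⟨a, show F.e w a ∈ z w from h2.symm ▸ h1, h2⟩,
        fun h => let ⟨a, h1, h2⟩ := mem_cSet.1 h; ⟨h2 ▸ h1, a, h2⟩⟩)

/-- counterexamples with given codes -/
def Bad (M : Set ZFSet.{0}) (x t a z : ZFSet.{0}) (X : Type) (c : X → ZFSet.{0}) : Prop :=
  Function.Injective c ∧ ∃ (𝒯 : Set (Set X)) (A : Set X) (p : X), cSet c univ = x ∧
    cSet (cSet c) 𝒯 = t ∧ cSet c A = a ∧ c p = z ∧ HausdorffIn M c 𝒯 ∧ CompactIn M c 𝒯 univ ∧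
    RadonIn M c 𝒯 ∧ (∀ s : ℕ → X, cFun cNat c univ s ∈ M → (∀ n, s n ∈ A) →
      ∀ x, (∀ U ∈ 𝒯, x ∈ U → ∀ᶠ n in atTop, s n ∈ U) → x ∈ A) ∧ Aᶜ ∉ 𝒯

theorem exists_rep (M : Set ZFSet.{0}) (x t a z : ZFSet.{0}) :
    ∃ (X : Type) (c : X → ZFSet.{0}), Function.Injective c ∧ cSet c univ = insert z x ∧
      ((∃ X c, Bad M x t a z X c) → Bad M x t a z X c) := by
  by_cases h : ∃ X c, Bad M x t a z X c
  · obtain ⟨X, c, h⟩ := h
    refine ⟨X, c, h.1, ?_, fun _ => h⟩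
    obtain ⟨-, _, _, p, rfl, -, -, rfl, -⟩ := h
    ext y
    rw [ZFSet.mem_insert_iff]
    exact ⟨Or.inr, fun h => h.elim (fun e => mem_cSet.2 ⟨p, trivial, e.symm⟩) id⟩
  · refine ⟨Shrink.{0} (insert z x : ZFSet.{0}), fun p => ((equivShrink _).symm p).1,
      Subtype.val_injective.comp (Equiv.injective _), ?_, fun h' => absurd h' h⟩
    ext y
    rw [mem_cSet]
    exact ⟨fun ⟨p, _, e⟩ => e ▸ ((equivShrink _).symm p).2,
      fun hy => ⟨equivShrink _ ⟨y, hy⟩, trivial, by simp⟩⟩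

theorem pos : ∃ M : Set ZFSet.{0}, TransModelZFC M ∧
    ∀ (X : Type) (c : X → ZFSet.{0}) (𝒯 : Set (Set X)), Function.Injective c →
      cSet c univ ∈ M → cSet (cSet c) 𝒯 ∈ M → HausdorffIn M c 𝒯 → CompactIn M c 𝒯 univ →
      RadonIn M c 𝒯 → SequentialIn M c 𝒯 := by
  obtain ⟨O, _, _, h1, h2⟩ := exists_omega1
  have key : ∀ᶠ w in gen (Col O), ∀ x ∈ w.M, ∀ t ∈ w.M, ∀ a ∈ w.M, ∀ z ∈ w.M,
      ¬ ∃ X c, Bad w.M x t a z X c := by
    refine ev_all_named fun x hx => ev_all_named fun t ht => ev_all_named fun a ha =>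
      ev_all_named fun z hz => ?_
    choose X c a1 a2 a3 using fun w : World (Col O) => exists_rep w.M (x w) (t w) (a w) (z w)
    have : ∀ w, ∃ p, c w p = z w := fun w =>
      let ⟨p, _, h⟩ := mem_cSet.1 (a2 w ▸ ZFSet.mem_insert (z w) (x w)); ⟨p, h⟩
    choose d hd using this
    let F : Fam (Col O) := ⟨X, c, a1, d, hz.congr (Eventually.of_forall fun w => (hd w).symm),
      fun y hy => (hy.measurable_mem (named_insert hz hx)).congr_ev
        (Eventually.of_forall fun w => by simp only [← a2, mem_cSet, mem_univ, true_and, mem_range])⟩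
    filter_upwards [ev_seq (F := F) h1 h2
      ((named_insert hz hx).congr (Eventually.of_forall fun w => (a2 w).symm))
      (N_dec_set F.set ht) (N_dec_set F ha)] with w hw hb
    obtain ⟨-, 𝒯, A, p, -, b2, b3, -, b5, b6, b7, b8, b9⟩ := a3 w hb
    have e1 : {U : Set (X w) | F.set.e w U ∈ t w} = 𝒯 :=
      Set.ext fun U => by rw [← b2]; exact Fam.code_mem (F := F.set)
    have e2 : {p : X w | F.e w p ∈ a w} = A :=
      Set.ext fun U => by rw [← b3]; exact Fam.code_mem (F := F)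
    subst e1 e2
    exact b9 (hw b5 b6 b7 b8)
  obtain ⟨w, k1, k2⟩ := ((ev_zfc (P := Col O)).and key).exists
  refine ⟨w.M, k1, fun X c 𝒯 b1 b2 b3 b4 b5 b6 A b7 b8 => by_contra fun b9 => ?_⟩
  rcases isEmpty_or_nonempty X with h | ⟨⟨p⟩⟩
  · exact b9 (by rw [Subsingleton.elim Aᶜ univ]; exact b4.1)
  · exact k2 _ b2 _ b3 _ b7 _ (k1.trans _ b2 _ (mem_cSet.2 ⟨p, trivial, rfl⟩))
      ⟨X, c, b1, 𝒯, A, p, rfl, rfl, rfl, rfl, b4, b5, b6, b8, b9⟩

end Pool.Agent.P.MP_c9188c_gt.Pos
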