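import Pool.Agent.P.MP_c9188c_gt.Top

/-!
The hypotheses of the main lemma hold in the extension.
-/

open Set Filter Pool.Agent.Lib.Helper87 Pool.Agent.P.MP_6e1b89_gt

namespace Pool.Agent.P.MP_c9188c_gt

variable {I : Type} [LinearOrder I] [WellFoundedLT I] {π : Par I} {θ : I}

/-- Borel sets -/
abbrev Bor (w : World (At π θ)) : Set (Set (Pt I)) := BorK w.M (pc w) (KK w) (TT w)

/-- sequences in the extension -/
abbrev QQ (w : World (At π θ)) (s : ℕ → Set (Pt I)) : Prop :=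
  cFun cNat (cSet (pc w)) univ s ∈ w.M

/-- sets in the extension -/
abbrev Cd (w : World (At π θ)) (A : Set (Pt I)) : Prop := cSet (pc w) A ∈ w.M

theorem ev_cd_compl : ∀ᶠ w in gen (At π θ), ∀ A ⊆ KK w, Cd w A → Cd w (KK w \ A) :=
  ev_all_set (Φ := fun A w => Cd w (KK w \ A)) fun _ hA => (ns_K.diff hA).ev_mem

theorem ev_cd_union : ∀ᶠ w in gen (At π θ), ∀ A ⊆ KK w, Cd w A → ∀ B ⊆ KK w, Cd w B →
    Cd w (A ∪ B) :=
  ev_all_set (Φ := fun A w => ∀ B ⊆ KK w, Cd w B → Cd w (A ∪ B)) fun A hA =>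
    ev_all_set (Φ := fun B w => Cd w (A w ∪ B)) fun _ hB => (hA.union hB).ev_mem

theorem ev_bor_cd : ∀ᶠ w in gen (At π θ), ∀ B ∈ Bor w, Cd w B := by
  filter_upwards [named_fam (Φ := fun _ _ => True) fun _ _ => measurable_const, ev_cd_compl,
    ev_all_seq (Φ := fun s w => Cd w (⋃ n, s n)) fun s hs => (ns_iUnion hs).ev_mem]
    with w h1 h2 h3 B hB
  exact (hB.2 _ (fun _ h => h.1) h1 (fun U hU => ⟨hU.1, hU.2.1, trivial⟩)
    (fun A hA => ⟨sdiff_subset, h2 A hA.1 hA.2.1, trivial⟩) fun s a1 a2 =>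
      ⟨iUnion_subset fun n => (a2 n).1, h3 s (fun n => (a2 n).1) a1, trivial⟩).2.1

theorem mem_bor {w : World (At π θ)} {U : Set (Pt I)} (h : U ∈ TT w) : U ∈ Bor w :=
  ⟨h.1, fun _ _ _ a _ _ => a h⟩

theorem ev_alg : ∀ᶠ w in gen (At π θ), Alg (KK w) (Bor w) (QQ w) := by
  filter_upwards [ev_haus, ev_bor_cd,
    ev_all_set (Φ := fun A w => ∀ B ⊆ KK w, Cd w B → QQ w (two A B)) fun A hA =>
      ev_all_set (Φ := fun B w => QQ w (two (A w) B)) fun B hB =>
        named_seq (s := fun w => two (A w) (B w)) fun n => by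
          unfold two
          split_ifs
          exacts [hA, hB, ns_empty],
    ev_all_seq (Φ := fun s w => QQ w (disjointed s)) fun s hs =>
      named_seq (s := fun w => disjointed (s w)) fun n =>
        ⟨fun w => (disjointed_subset _ n).trans ((hs n).1 w), fun x hx => by
          simp only [disjointed_eq_inter_compl, mem_inter_iff, mem_iInter, mem_compl_iff]
          exact ((hs n).2 x hx).and (Measurable.forall fun k =>
            measurable_const.imp ((hs k).2 x hx).not)⟩,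
    ev_all_seq (Φ := fun s w => ∀ n, QQ w fun k => s (k + n)) fun s hs => ev_call fun n =>
      named_seq (s := fun w k => s w (k + n)) fun k => hs _,
    ev_all_seq (Φ := fun s w => ∀ A ⊆ KK w, Cd w A → QQ w fun n => s n ∩ A) fun s hs =>
      ev_all_set (Φ := fun A w => QQ w fun n => s w n ∩ A) fun A hA =>
        named_seq (s := fun w n => s w n ∩ A w) fun n => (hs n).inter hA]
    with w h1 h2 h3 h4 h5 h6
  exact ⟨fun A h => h.1, mem_bor h1.1,
    fun A h => ⟨sdiff_subset, fun 𝒜 a1 a2 a3 a4 a5 => a4 _ (h.2 𝒜 a1 a2 a3 a4 a5)⟩,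
    fun s b1 b2 => ⟨iUnion_subset fun n => (b2 n).1, fun 𝒜 a1 a2 a3 a4 a5 =>
      a5 s b1 fun n => (b2 n).2 𝒜 a1 a2 a3 a4 a5⟩,
    fun A hA B hB => h3 A hA.1 (h2 A hA) B hB.1 (h2 B hB),
    fun s b1 b2 => h4 s (fun n => (b2 n).1) b1, fun s b1 b2 => h5 s (fun n => (b2 n).1) b1,
    fun s b1 b2 A hA => h6 s (fun n => (b2 n).1) b1 A hA.1 (h2 A hA)⟩

theorem ns_cone (γ : I) : NS fun w : World (At π θ) => Cone π (dat w) (KK w) γ :=
  ns_sep (Φ := fun x w => Ext π (dat w) x γ) fun _ hx => meas_ext hx.1 γ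

theorem ns_half (γ : I) (i : Bool) : NS fun w : World (At π θ) => Half π (dat w) (KK w) γ i :=
  ns_sep (Φ := fun x w => Ext π (dat w) x γ ∧ x (.inr γ) = i) fun _ hx =>
    (meas_ext hx.1 γ).and ((hx.1 _).eq_const _)

theorem ns_db (ξ : I) : NS fun w : World (At π θ) => Db π (dat w) (KK w) ξ :=
  ns_sep (Φ := fun x w => Inf x ∧ ∀ y, w.In y → ∀ i, raw π (dat w) ξ y i → x (.inr y) = i)
    fun _ hx => (meas_inf hx.1).and (measurable_all_in fun _ => Measurable.forall fun _ =>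
      (me_raw π _ _ _ _).imp ((hx.1 _).eq_const _))

theorem ns_ex (ξ y : I) (n m : ℕ) : NS fun w : World (At π θ) => Ex π (dat w) (KK w) ξ y n m :=
  ns_sep (Φ := fun x w => ∃ a, w.In a ∧ ∃ i, raw π (dat w) ξ a i ∧ col (dat w) ξ a m ∧
    (∃ e j, ent (dat w) a n (.inr e, j) ∧ π.X a e = y) ∧ Ext π (dat w) x a ∧ x (.inr a) = !i)
    fun _ hx => measurable_ex_in fun _ => Measurable.exists fun _ => (me_raw π _ _ _ _).and
      ((me_col _ _ _ _).and ((Measurable.exists fun _ => Measurable.exists fun _ =>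
        (me_ent _ _ _ _).and measurable_const).and ((meas_ext hx.1 _).and ((hx.1 _).eq_const _))))

theorem ns_exit (γ : I) (e : ℕ) : NS fun w : World (At π θ) => Exit π (dat w) (KK w) γ e :=
  ns_sep (Φ := fun x w => ∃ i, T π (dat w) γ (.inr (π.X γ e)) i ∧ Ext π (dat w) x (π.X γ e) ∧
    x (.inr (π.X γ e)) = !i) fun _ hx => Measurable.exists fun _ => (me_T π _ _ _ _).and
      ((meas_ext hx.1 _).and ((hx.1 _).eq_const _))

theorem Book.ev_base (hb : Book π θ) :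
    ∀ᶠ w in gen (At π θ), Base π θ (dat w) (KK w) (Bor w) (QQ w) (Cd w) := by
  classical
  filter_upwards [ev_t0, ev_const (∅ : Set I), ev_fun₂ fun Y Y' : Set I => Y ∪ Y',
    ev_fun fun γ => insert γ (range (π.X γ)),
    ev_allK (Φ := fun x w => ∀ Y : Set I, w.In Y → Y.Countable → Inf x →
      ¬ {γ | Bx π θ (dat w) x γ} ⊆ Y) fun x hx => ev_all fun Y => ev_imp (hb.t1 hx.1),
    ev_all fun ξ => ev_all fun a => ev_col1 ξ a,
    ev_all fun ξ => ev_imp (A := ξ < θ) fun h => ev_all fun γ => ev_call fun m => ev_col2 h γ m,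
    ev_alg, ev_cd_compl, ev_all fun γ => (ns_cone γ).ev_mem,
    ev_all fun γ => ev_call fun i => (ns_half γ i).ev_mem,
    (ns_sep (Φ := fun x _ => Inf x) fun _ hx => meas_inf hx.1).ev_mem,
    ev_call fun m => (ns_natS m).ev_mem,
    ev_allK (Φ := fun x w => ∀ F, w.In F → Cd w (Nb (KK w) x F))
      fun x hx => ev_all fun F => (ns_nb hx F).ev_mem,
    ev_all fun ξ => (ns_db ξ).ev_mem,
    ev_all fun ξ => ev_all fun y => ev_call fun n => ev_call fun m =>
      ((ns_ex ξ y n m).union (ns_db ξ)).ev_mem,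
    named_seq (s := fun w => NatS (KK w)) ns_natS,
    ev_all fun γ => named_seq (s := fun w => Exit π (dat w) (KK w) γ) (ns_exit γ),
    ev_all fun ξ => ev_all fun y => named_seq
      (s := fun w k => Ex π (dat w) (KK w) ξ y k.unpair.1 k.unpair.2) fun k => ns_ex _ _ _ _,
    ev_nice, ev_in_finset (ℕ ⊕ I)]
    with w h1 h2 h3 h4 h5 h6 h7 h8 h9 h10 h11 h12 h13 h14 h15 h16 h17 h18 h19 h20 h21
  refine ⟨h1, fun x h => h.1, ⟨∅, h2, countable_empty, Subset.rfl⟩,
    fun Z Z' ⟨Y, a1, a2, a3⟩ ⟨Y', b1, b2, b3⟩ =>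
      ⟨_, h3 Y a1 Y' b1, a2.union b2, union_subset_union a3 b3⟩,
    fun γ h => ⟨_, h4 γ h, (countable_range _).insert γ, Subset.rfl⟩,
    fun x a1 a2 ⟨Y, b1, b2, b3⟩ => h5 x a1 Y b1 b2 a2 b3, fun ξ a _ => h6 ξ a, h7,
    fun C a1 a2 a3 => ?_, h10, h11, h12, h13, fun x a F => ?_, h15, h16, h17, h18, h19⟩
  · have := h8.compl _ (mem_bor ⟨sdiff_subset, h9 C a1 a2, a3⟩)
    rwa [sdiff_sdiff_cancel_left a1] at this
  · rw [← h20.nb (fun l => h20.norm a.1) F]
    exact h14 x a _ (h21 _ fun l hl => (Finset.mem_filter.1 hl).2)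

variable {ν : World (At π θ) → Set (Pt I) → ℝ}

theorem Book.ev_nuA (hb : Book π θ) (hν : NM ν) :
    ∀ᶠ w in gen (At π θ), NuA π θ (dat w) (KK w) (ν w) := by
  have h1 : ∀ γ0 k, ∀ᶠ w in gen (At π θ), ∃ ξ, (dat w).In ξ ∧ ξ < θ ∧
      (Chain π θ (dat w) (PhiB π θ (dat w) (KK w) (ν w) γ0 k) → ∀ y, (dat w).In y → ∀ i,
        raw π (dat w) ξ y i ↔ PhiB π θ (dat w) (KK w) (ν w) γ0 k y i) := fun γ0 k => by
    obtain ⟨ξ, a1, a2⟩ := hb.t2 (Φ := fun y i w => PhiB π θ (dat w) (KK w) (ν w) γ0 k y i)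
      fun y i => measurable_ex_in fun γ => ((me_act π θ γ _).and
        ((measurable_const.lt (hν _ (ns_cone γ))).and (measurable_const.or
          (Measurable.exists fun _ => me_T π _ _ _ _)))).and (me_T π _ _ _ _)
    filter_upwards [a2, ev_const ξ] with w b1 b2 using ⟨ξ, b2, a1, b1⟩
  have h2 : ∀ ξ, ∀ᶠ w in gen (At π θ), (∀ n m (k : ℕ),
      {y | (dat w).In y ∧ 1 / ((k : ℝ) + 1) < ν w (Ex π (dat w) (KK w) ξ y n m)}.Finite) →
      Sm (dat w) {y | (dat w).In y ∧ ∃ n m, 0 < ν w (Ex π (dat w) (KK w) ξ y n m)} := fun ξ => by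
    choose Y a1 a2 using fun (n m k : ℕ) => sm_cover
      (Φ := fun y w => 1 / ((k : ℝ) + 1) < ν w (Ex π (dat w) (KK w) ξ y n m))
      fun y => measurable_const.lt (hν _ (ns_ex ξ y n m))
    filter_upwards [ev_call fun n => ev_call fun m => ev_call (a2 n m),
      ev_const (⋃ n, ⋃ m, ⋃ k, Y n m k), ev_all_finset fun S : Finset I => ev_const (S : Set I)]
      with w b1 b2 b3 b4
    refine ⟨_, b2, countable_iUnion fun n => countable_iUnion fun m => countable_iUnion (a1 n m),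
      fun y ⟨c1, n, m, c2⟩ => ?_⟩
    obtain ⟨k, hk⟩ := exists_nat_one_div_lt c2
    simp only [mem_iUnion]
    refine ⟨n, m, k, b1 n m k ⟨_, b3 (b4 n m k).toFinset fun i hi => ?_,
      Finset.countable_toSet _, fun i hi => ?_⟩ y c1 hk⟩
    · exact ((b4 n m k).mem_toFinset.1 hi).1
    · exact (b4 n m k).mem_toFinset.2 hi
  filter_upwards [ev_all fun γ0 => ev_call (h1 γ0), ev_all h2] with w a1 a2 using ⟨a1, a2⟩

theorem Book.ev_nuB (hb : Book π θ) (hν : NM ν) :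
    ∀ᶠ w in gen (At π θ), NuB π θ (dat w) (KK w) (ν w) (QQ w) := by
  choose Y a1 a2 using fun k : ℕ => sm_cover
    (Φ := fun γ w => Act π θ (dat w) γ ∧ 1 / ((k : ℝ) + 1) < ν w (Cone π (dat w) (KK w) γ))
    fun γ => (me_act π θ γ _).and (measurable_const.lt (hν _ (ns_cone γ)))
  obtain ⟨en, hen⟩ := (((countable_iUnion a1).insert θ).prod
    (to_countable (univ : Set Bool))).exists_eq_range ⟨(θ, true), Or.inl rfl, trivial⟩
  have hh := fun e => hν _ (ns_half (en e).1 (en e).2)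
  obtain ⟨ξ0, b1, b2⟩ := hb.g1 en
    (R := fun e w => 0 < ν w (Half π (dat w) (KK w) (en e).1 (en e).2))
    fun e => measurable_const.lt (hh e)
  obtain ⟨ζ, b3, b4⟩ := hb.g2 en
    (R := fun k e w => ν w (Half π (dat w) (KK w) (en e).1 (en e).2) < (1 / 2) ^ k)
    (fun k e => (hh e).lt measurable_const) b1
  filter_upwards [ev_call a2, b2, b4, ev_t0, ev_const (range fun e => (en e).1),
    ev_call fun e => ev_const (en e).1,
    named_seq (s := fun w => N2 π (dat w) (KK w) (ν w) en) fun e =>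
      ns_sep (Φ := fun x w => ν w (Half π (dat w) (KK w) (en e).1 (en e).2) = 0 ∧
        x ∈ Half π (dat w) (KK w) (en e).1 (en e).2) fun x hx =>
          ((hh e).eq_const _).and ((ns_half _ _).2 x hx),
    named_seq (s := fun w => N3 π (dat w) (KK w) (ν w) en
      fun k e => ∃ j, ent (dat w) ζ k (.inl e, j)) fun k =>
      ns_sep (Φ := fun x w => ∃ e, (∃ j, ent (dat w) ζ k (.inl e, j)) ∧
        ν w (Half π (dat w) (KK w) (en e).1 (en e).2) < (1 / 2) ^ k ∧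
        x ∈ Half π (dat w) (KK w) (en e).1 (en e).2) fun x hx => Measurable.exists fun e =>
          (Measurable.exists fun _ => me_ent _ _ _ _).and (((hh e).lt measurable_const).and
            ((ns_half _ _).2 x hx))] with w c1 c2 c3 c4 c5 c6 c7 c8
  refine ⟨en, ξ0, _, fun h γ d1 d2 i => ?_, ⟨_, c5, countable_range _, Subset.rfl⟩, c6, c2, c3,
    fun k e e' ⟨j, d1⟩ ⟨j', d2⟩ => ?_, c7, c8⟩
  · obtain ⟨k, hk⟩ := exists_nat_one_div_lt d2
    rw [← hen]
    exact ⟨Or.inr (mem_iUnion.2 ⟨k, c1 k ((h k).mono fun _ a => a.2) γ d1.mem ⟨d1, hk⟩⟩), trivial⟩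
  · simpa using (Prod.ext_iff.1 (c4.fn ζ b3 k _ _ d1 d2)).1

theorem Book.ev_core (hb : Book π θ) (hν : NM ν) :
    ∀ᶠ w in gen (At π θ), MS (KK w) (Bor w) (QQ w) (ν w) → ∀ Z ∈ Bor w, ν w Z = 0 →
      (∀ x ∈ KK w, x ∉ Z → ∃ F, ν w (Nb (KK w) x F) = 0) → ν w (KK w) = 0 := by
  filter_upwards [hb.ev_base, hb.ev_nuA hν, hb.ev_nuB hν] with w h1 h2 h3 h4 Z
    using h1.core h4 h2 h3

end Pool.Agent.P.MP_c9188c_gt
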