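import Pool.Agent.P.MP_c9188c_gt.Data

/-!
The order of the iteration, and the transfer of forcing between stages.
-/

open Set Filter Pool.Agent.Lib.Helper87

namespace Pool.Agent.P.MP_c9188c_gt

variable {I : Type}

/-- forcing with respect to the relation `L` -/
def Fr (L : Cond I → Cond I → Prop) (q : Cond I) (Ψ : Dat I → Prop) : Prop :=
  Sem (P := Syn L) q fun w => Ψ (dat w)

variable [LinearOrder I] [WellFoundedLT I] (π : Par I)

/-- the order at one coordinate -/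
structure Step (ξ : I) (L : Cond I → Cond I → Prop) (q : Cond I) (c e : Co I) : Prop where
  l : e.l <+: c.l
  f : e.f ⊆ c.f
  H : e.H ⊆ c.H
  pr : ∀ α m, (α, m) ∈ c.f → (α, m) ∉ e.f → ∀ γ, (γ, m) ∈ e.H →
    Fr L q fun d => Prom π d ξ α γ

/-- the order at coordinate `ξ` -/
def LeAt : I → Cond I → Cond I → Prop :=
  wellFounded_lt.fix fun ξ IH q p =>
    Step π ξ (fun b a => ∀ i (h : i < ξ), IH i h b a) q (q ξ) (p ξ)

/-- the order below `θ` -/
def LeB (θ : I) (q p : Cond I) : Prop := ∀ i < θ, LeAt π i q p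

theorem leAt_iff {ξ : I} {q p : Cond I} :
    LeAt π ξ q p ↔ Step π ξ (LeB π ξ) q (q ξ) (p ξ) := by
  unfold LeAt
  rw [WellFounded.fix_eq]
  rfl

/-- the forcing at stage `θ` -/
abbrev At (θ : I) : Type := Syn (LeB π θ)

/-- forcing at stage `θ` -/
abbrev F (θ : I) (q : Cond I) (Ψ : Dat I → Prop) : Prop := Fr (LeB π θ) q Ψ

variable {π} {θ η ξ : I} {p q r : Cond I} {Ψ Θ : Dat I → Prop}

theorem LeB.mono (h : LeB π θ q p) (hi : η ≤ θ) : LeB π η q p := fun j hj => h j (hj.trans_le hi)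

theorem F.mono (h : F π θ q Ψ) (hr : LeB π θ r q) : F π θ r Ψ :=
  Sem.mono (P := At π θ) h (Relation.ReflTransGen.single hr)

theorem F.imp (h : F π θ q Ψ) (h' : ∀ d, Ψ d → Θ d) : F π θ q Θ :=
  Sem.imp' h fun _ => h' _

theorem F.of_all (h : ∀ d, Ψ d) : F π θ q Ψ := sem_of_ev (Eventually.of_forall fun _ => h _) _

theorem F.not_not (h : F π θ q Ψ) (h' : F π θ q fun d => ¬ Ψ d) : False := Sem.not_not h h'

theorem LeAt.of_f (h1 : (p ξ).l <+: (q ξ).l) (h2 : (q ξ).f = (p ξ).f) (h3 : (p ξ).H ⊆ (q ξ).H) :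
    LeAt π ξ q p :=
  (leAt_iff π).2 ⟨h1, h2.ge, h3, fun _ _ a b => absurd (h2 ▸ a) b⟩

theorem LeAt.of_H (h1 : (p ξ).l <+: (q ξ).l) (h2 : (p ξ).f ⊆ (q ξ).f) (h3 : (p ξ).H = ∅) :
    LeAt π ξ q p :=
  (leAt_iff π).2 ⟨h1, h2, by simp [h3], fun _ _ _ _ _ h => by simp [h3] at h⟩

theorem LeAt.of_eq (h : q ξ = p ξ) : LeAt π ξ q p :=
  LeAt.of_f (by rw [h]) (by rw [h]) (by rw [h])

theorem LeAt.of_zero (h : p ξ = 0) : LeAt π ξ q p :=
  LeAt.of_H (by simp [h]) (by simp [h]) (by simp [h])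

theorem LeB.of_eq (h : ∀ i < θ, q i = p i) : LeB π θ q p := fun i hi => LeAt.of_eq (h i hi)

theorem LeB.refl (θ : I) (p : Cond I) : LeB π θ p p := LeB.of_eq fun _ _ => rfl

theorem LeAt.step (h : LeAt π ξ q p) : Step π ξ (LeB π ξ) q (q ξ) (p ξ) := (leAt_iff π).1 h

theorem LeB.trans (h1 : LeB π θ r q) (h2 : LeB π θ q p) : LeB π θ r p := by
  intro i hi
  have a1 := (h1 i hi).step
  have a2 := (h2 i hi).step
  refine (leAt_iff π).2 ⟨a2.l.trans a1.l, a2.f.trans a1.f, a2.H.trans a1.H, ?_⟩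
  intro α m b1 b2 γ b3
  by_cases h : (α, m) ∈ (q i).f
  · exact F.mono (a2.pr α m h b2 γ b3) (h1.mono hi.le)
  · exact a1.pr α m b1 h γ (a2.H b3)

theorem le_iff {q p : At π θ} : q ≤ p ↔ LeB π θ q p := by
  refine ⟨fun h => ?_, Relation.ReflTransGen.single⟩
  induction h with
  | refl => exact LeB.refl _ _
  | tail _ h ih => exact ih.trans h

theorem mem_dat {w : World (At π θ)} : p ∈ (dat w).H ↔ ∃ r ∈ w.G, LeB π θ r p :=
  exists_congr fun _ => and_congr_right fun _ => le_iff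

theorem mem_dat_of_le {w : World (At π θ)} (h : q ∈ (dat w).H) (h' : LeB π θ q p) :
    p ∈ (dat w).H := World.Has.mono h (le_iff.2 h')

theorem mem_dat_of_mem {w : World (At π θ)} (h : q ∈ w.G) : q ∈ (dat w).H := w.has_of_mem h

theorem leB_cut (θ ζ : I) (p : Cond I) : LeB π θ p (cut ζ p) := fun i _ => by
  by_cases h : i < ζ
  · exact LeAt.of_eq (cut_lt p h).symm
  · exact LeAt.of_zero (cut_ge p (not_lt.1 h))

theorem cut_leB (ζ : I) (p : Cond I) : LeB π ζ (cut ζ p) p := LeB.of_eq fun _ h => cut_lt p h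

theorem leB_cut_iff (h : η ≤ θ) : LeB π θ q (cut η p) ↔ LeB π η q p := by
  refine ⟨fun h' => (h'.mono h).trans (cut_leB η p), fun h' i _ => ?_⟩
  by_cases hi : i < η
  · exact h'.trans (leB_cut η η p) i hi
  · exact LeAt.of_zero (cut_ge p (not_lt.1 hi))

/-- a condition is below its restriction to one coordinate -/
theorem leB_single {ζ : I} {c : Co I} (h1 : c.l <+: (p ζ).l) (h2 : c.f ⊆ (p ζ).f)
    (h3 : c.H = ∅) : LeB π θ p (Finsupp.single ζ c) := fun i _ => by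
  by_cases h : i = ζ
  · subst h
    exact LeAt.of_H (by simpa using h1) (by simpa using h2) (by simpa using h3)
  · exact LeAt.of_zero (Finsupp.single_eq_of_ne h)

theorem LeB.single {ζ : I} {c : Co I} (h : LeB π θ p (Finsupp.single ζ c)) (hz : ζ < θ) :
    c.l <+: (p ζ).l ∧ c.f ⊆ (p ζ).f ∧ c.H ⊆ (p ζ).H := by
  have := (h ζ hz).step
  rw [Finsupp.single_eq_same] at this
  exact ⟨this.l, this.f, this.H⟩

/-- gluing -/
noncomputable def gl (ζ : I) (q p : Cond I) : Cond I :=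
  Finsupp.onFinset (q.support ∪ p.support) (fun j => if j < ζ then q j else p j) fun j hj => by
    simp only [Finset.mem_union, Finsupp.mem_support_iff]
    split_ifs at hj
    exacts [Or.inl hj, Or.inr hj]

omit [WellFoundedLT I] in
theorem gl_lt {ζ j : I} (q p : Cond I) (h : j < ζ) : gl ζ q p j = q j := by simp [gl, h]

omit [WellFoundedLT I] in
theorem gl_ge {ζ j : I} (q p : Cond I) (h : ζ ≤ j) : gl ζ q p j = p j := by simp [gl, h.not_gt]

theorem gl_leB (ζ : I) (q p : Cond I) : LeB π ζ (gl ζ q p) q := LeB.of_eq fun _ h => gl_lt q p h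

theorem gl_le {ζ : I} (h : LeB π ζ q p) (θ : I) : LeB π θ (gl ζ q p) p := fun i _ => by
  by_cases hi : i < ζ
  · exact (gl_leB ζ q p).trans h i hi
  · exact LeAt.of_eq (gl_ge q p (not_lt.1 hi))

/-- extension below `ζ` together with an extension of the list at `ζ` -/
theorem exists_ext {ζ : I} (h : LeB π ζ q p) (θ : I) (l : List Ent) :
    ∃ r, LeB π θ r p ∧ LeB π ζ r q ∧ (r ζ).l = (p ζ).l ++ l := by
  refine ⟨gl ζ q (p.update ζ ⟨(p ζ).l ++ l, (p ζ).f, (p ζ).H⟩), fun i _ => ?_, gl_leB _ _ _, ?_⟩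
  · rcases lt_trichotomy i ζ with hi | rfl | hi
    · exact (gl_leB ζ q _).trans h i hi
    · refine LeAt.of_f ?_ ?_ ?_ <;> simp [gl_ge _ _ le_rfl]
    · exact LeAt.of_eq (by rw [gl_ge _ _ hi.le, Finsupp.update_apply, if_neg hi.ne'])
  · simp [gl_ge _ _ le_rfl]

/-- restriction of worlds -/
def res (η : I) (w : World (At π θ)) : World (At π η) :=
  ⟨w.N, {q | w.In (q : Cond I) ∧ ∃ r ∈ w.G, LeB π η r q}⟩

theorem ev_res_generic (h : η ≤ θ) : ∀ᶠ w in gen (At π θ), (res η w).Generic := by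
  filter_upwards [ev_generic,
    ev_fun fun D : Set (At π η) => (show Set (At π θ) from {r | ∃ q ∈ D, LeB π η r q}),
    ev_all fun D : Set (At π η) => ev_skolemG fun (r : At π θ) (q : Cond I) =>
      q ∈ D ∧ LeB π η r q] with w hw h1 h2
  refine ⟨fun p hp => hp.1, ?_, fun D hD hD' => ?_⟩
  · rintro p ⟨-, a, a1, a2⟩ q ⟨-, b, b1, b2⟩
    obtain ⟨c, c1, c2, c3⟩ := hw.dir a a1 b b1
    exact ⟨c, ⟨hw.mem c c1, c, c1, LeB.refl _ _⟩, le_iff.2 (((le_iff.1 c2).mono h).trans a2),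
      le_iff.2 (((le_iff.1 c3).mono h).trans b2)⟩
  · obtain ⟨r, a1, a2⟩ := hw.meet _ (h1 D hD) fun p => by
      obtain ⟨q, b1, b2⟩ := hD' p
      exact ⟨gl η q p, ⟨q, b1, gl_leB _ _ _⟩, le_iff.2 (gl_le (le_iff.1 b2) θ)⟩
    obtain ⟨q, b1, b2, b3⟩ := h2 D hD r a1 a2
    exact ⟨q, ⟨b1, r, a1, b3⟩, b2⟩

theorem ev_res (h : η ≤ θ) {Φ : World (At π η) → Prop} (hΦ : ∀ᶠ w in gen (At π η), Φ w) :
    ∀ᶠ w in gen (At π θ), Φ (res η w) := by
  filter_upwards [ev_res_generic h, ev_of_club (ev_gen_iff.1 hΦ)] with w h1 h2 using h2 _ h1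

theorem dat_res (h : η ≤ θ) {w : World (At π θ)} (hw : w.Generic) :
    dat (res η w) = (dat w).cut η := by
  change Dat.mk _ _ = Dat.mk _ _
  congr 1
  ext p
  change p ∈ (dat (res η w)).H ↔ cut η p ∈ (dat w).H
  rw [mem_dat, mem_dat]
  constructor
  · rintro ⟨q, ⟨-, r, a1, a2⟩, a3⟩
    exact ⟨r, a1, (leB_cut_iff h).2 (a2.trans a3)⟩
  · rintro ⟨r, a1, a2⟩
    exact ⟨r, ⟨hw.mem r a1, r, a1, LeB.refl _ _⟩, (leB_cut_iff h).1 a2⟩

/-- upward transfer -/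
theorem F.up (hq : F π η q Ψ) (hΨ : Loc η Ψ) (h : η ≤ θ) : F π θ q Ψ := by
  filter_upwards [ev_generic, ev_res h hq] with w hw h1 h2
  rw [← hΨ, ← dat_res h hw]
  refine h1 ?_
  change q ∈ (dat (res η w)).H
  rw [dat_res h hw]
  exact mem_dat_of_le h2 (leB_cut _ _ _)

theorem Me.decides (hm : Me Ψ) (θ : I) (p : Cond I) :
    ∃ q, LeB π θ q p ∧ (F π θ q Ψ ∨ F π θ q fun d => ¬ Ψ d) :=
  let ⟨q, h1, h2⟩ := (hm (LeB π θ)).decides p
  ⟨q, le_iff.1 h1, h2⟩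

/-- downward transfer -/
theorem F.down (hq : F π θ q Ψ) (hm : Me Ψ) (hΨ : Loc η Ψ) (h : η ≤ θ) : F π η q Ψ := by
  refine sem_of_dense (P := At π η) fun r hr => ?_
  obtain ⟨s, h1, h2⟩ := hm.decides (π := π) η r
  refine ⟨s, le_iff.2 h1, h2.resolve_right fun h3 => ?_⟩
  have h4 := h1.trans (le_iff.1 hr)
  exact (hq.mono (gl_le h4 θ)).not_not ((h3.mono (gl_leB η s q)).up hΨ.not h)

/-- soundness -/
theorem ev_F (θ : I) (Ψ : Dat I → Prop) :
    ∀ᶠ w in gen (At π θ), ∀ p ∈ (dat w).H, F π θ p Ψ → Ψ (dat w) :=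
  ev_sem (P := At π θ) fun w => Ψ (dat w)

theorem dir_dat {w : World (At π θ)} (hw : w.Generic) (hp : p ∈ (dat w).H) (hq : q ∈ (dat w).H) :
    ∃ r : Cond I, r ∈ w.G ∧ LeB π θ r p ∧ LeB π θ r q :=
  let ⟨r, a, b, c⟩ := hw.has_and hp hq
  ⟨r, a, le_iff.1 b, le_iff.1 c⟩

/-- the generic lists are functions -/
theorem ent_unique {w : World (At π θ)} (hw : w.Generic) {ζ : I} (hz : ζ < θ) (n : ℕ) (x y : Ent)
    (hx : ent (dat w) ζ n x) (hy : ent (dat w) ζ n y) : x = y := by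
  obtain ⟨l, a1, a2⟩ := hx
  obtain ⟨l', b1, b2⟩ := hy
  obtain ⟨r, -, c1, c2⟩ := dir_dat hw a1 b1
  obtain ⟨t, ht⟩ := (c1.single hz).1
  obtain ⟨t', ht'⟩ := (c2.single hz).1
  have e1 : (r ζ).l[n]? = some x := by
    rw [← ht, List.getElem?_append_left (List.getElem?_eq_some_iff.1 a2).1]
    exact a2
  have e2 : (r ζ).l[n]? = some y := by
    rw [← ht', List.getElem?_append_left (List.getElem?_eq_some_iff.1 b2).1]
    exact b2
  exact Option.some.inj (e1.symm.trans e2)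

theorem ent_of_mem {w : World (At π θ)} (hp : p ∈ (dat w).H) {ζ : I} {l : List Ent}
    (hl : l <+: (p ζ).l) (n : ℕ) (x : Ent) (h : l[n]? = some x) : ent (dat w) ζ n x :=
  ⟨l, mem_dat_of_le hp (leB_single hl (by simp) rfl), h⟩

end Pool.Agent.P.MP_c9188c_gt
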