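import Pool.Agent.P.MP_c9188c_gt.Null
import Pool.Agent.P.MP_c9188c_gt.Book

/-!
The space is Radon in the extension.
-/

open Set Filter Pool.Agent.Lib.Helper87 Pool.Agent.P.MP_6e1b89_gt

namespace Pool.Agent.P.MP_c9188c_gt

section pure
variable {X : Type} {K : Set X} {𝓑 : Set (Set X)} {Q : (ℕ → Set X) → Prop} {μ : Set X → ℝ}
  {𝒞 : Set (Set X)}

theorem biUnion_mem_of (h0 : ∅ ∈ 𝒞) (h1 : ∀ A ∈ 𝒞, ∀ B ∈ 𝒞, A ∪ B ∈ 𝒞) {C : ℕ → Set X}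
    (hC : ∀ n, C n ∈ 𝒞) (S : Finset ℕ) : ⋃ n ∈ S, C n ∈ 𝒞 := by
  induction S using Finset.induction_on with
  | empty => simpa using h0
  | insert a S _ ih =>
    rw [Finset.set_biUnion_insert]
    exact h1 _ (hC a) _ ih

theorem ir_null (h : MS K 𝓑 Q μ) (hs : 𝒞 ⊆ 𝓑) (h1 : ∀ A ∈ 𝒞, ∀ B ∈ 𝒞, A ∪ B ∈ 𝒞) {U : Set X}
    (hU : U ∈ 𝓑) {C : ℕ → Set X} (hQ : Q C) (hC : ∀ n, C n ∈ 𝒞 ∧ C n ⊆ U)
    (hq : ∀ q : ℚ, (∃ D ∈ 𝒞, D ⊆ U ∧ (q : ℝ) < μ D) → ∃ n, (q : ℝ) < μ (C n)) {D : Set X}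
    (hD : D ∈ 𝒞) (hD' : D ⊆ U) : μ (D ∩ (U \ ⋃ n, C n)) = 0 := by
  have a1 := h.inter' (hs hD) (h.diff hU (h.iUnion _ hQ fun n => hs (hC n).1))
  by_contra hc
  have a2 := lt_of_le_of_ne (h.nonneg _ a1) (Ne.symm hc)
  have a3 : BddAbove (μ '' {D | D ∈ 𝒞 ∧ D ⊆ U}) := ⟨μ U, by
    rintro _ ⟨E, b, rfl⟩
    exact h.mono (hs b.1) hU b.2⟩
  obtain ⟨_, ⟨E, b1, rfl⟩, b2⟩ := exists_lt_of_lt_csSup (s := μ '' {D | D ∈ 𝒞 ∧ D ⊆ U})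
    ⟨_, D, ⟨hD, hD'⟩, rfl⟩ (sub_lt_self _ a2)
  obtain ⟨q, b3, b4⟩ := exists_rat_btwn b2
  obtain ⟨n, b5⟩ := hq q ⟨E, b1.1, b1.2, b4⟩
  have b6 := le_csSup a3 ⟨C n ∪ D, ⟨h1 _ (hC n).1 _ hD, union_subset (hC n).2 hD'⟩, rfl⟩
  have b7 := h.add2 (hs (hC n).1) a1
    (Set.disjoint_left.2 fun x c1 c2 => c2.2.2 (mem_iUnion.2 ⟨n, c1⟩))
  have b8 := h.mono (h.union (hs (hC n).1) a1) (hs (h1 _ (hC n).1 _ hD))
    (union_subset_union_right _ inter_subset_left)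
  linarith

theorem reg_union (h : MS K 𝓑 Q μ) (hs : 𝒞 ⊆ 𝓑) (h0 : ∅ ∈ 𝒞)
    (h1 : ∀ A ∈ 𝒞, ∀ B ∈ 𝒞, A ∪ B ∈ 𝒞) {s F1 F2 : ℕ → Set X} {n : ℕ} (q1 : Q F1)
    (q2 : Q fun k => K \ (F1 k ∪ F2 k)) (a1 : ∀ k, F1 k ∈ 𝒞 ∧ F2 k ∈ 𝒞 ∧ F1 k ⊆ s k ∧
      F2 k ⊆ K \ s k ∧ μ (K \ (F1 k ∪ F2 k)) < (1 / 2) ^ (n + 2 + k))
    (a2 : K \ ⋃ k, K \ F2 k ∈ 𝒞) : ∃ D1 ∈ 𝒞, ∃ D2 ∈ 𝒞, D1 ⊆ ⋃ k, s k ∧ D2 ⊆ K \ ⋃ k, s k ∧
      μ (K \ (D1 ∪ D2)) < (1 / 2) ^ n := by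
  have b1 : ∀ k, F1 k ∈ 𝓑 := fun k => hs (a1 k).1
  have b2 : ∀ k, K \ (F1 k ∪ F2 k) ∈ 𝓑 := fun k => h.compl _ (h.union (b1 k) (hs (a1 k).2.1))
  obtain ⟨m, hm⟩ := h.cont q1 b1 (δ := (1 / 2) ^ (n + 1)) (by positivity)
  have b3 := biUnion_mem_of h0 h1 (fun k => (a1 k).1) (Finset.range m)
  refine ⟨_, b3, _, a2, iUnion₂_subset fun k _ => (a1 k).2.2.1.trans (subset_iUnion s k),
    fun x hx => ⟨hx.1, fun c => ?_⟩, ?_⟩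
  · obtain ⟨k, hk⟩ := mem_iUnion.1 c
    exact hx.2 (mem_iUnion.2 ⟨k, hx.1, fun c' => ((a1 k).2.2.2.1 c').2 hk⟩)
  have b4 := h.iUnion_le q2 b2 (a := fun k => (1 / 2) ^ (n + 2) * (1 / 2) ^ k)
    (fun k => (a1 k).2.2.2.2.le.trans_eq (pow_add _ _ _)) (hasSum_geometric_two.mul_left _)
  have b5 := h.le_of_cover (h.compl _ (h.union (hs b3) (hs a2)))
    (h.diff (h.iUnion _ q1 b1) (hs b3)) (h.iUnion _ q2 b2) fun x hx => by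
      have c1 : x ∈ ⋃ k, K \ F2 k := by_contra fun c => hx.2 (Or.inr ⟨hx.1, c⟩)
      obtain ⟨k, c2⟩ := mem_iUnion.1 c1
      by_cases c3 : x ∈ F1 k
      · exact Or.inl ⟨mem_iUnion.2 ⟨k, c3⟩, fun c => hx.2 (Or.inl c)⟩
      · exact Or.inr (mem_iUnion.2 ⟨k, hx.1, fun c => c.elim c3 c2.2⟩)
  have e1 : (1 / 2 : ℝ) ^ (n + 2) * 2 = (1 / 2) ^ (n + 1) := by ring
  have e2 : (1 / 2 : ℝ) ^ n = (1 / 2) ^ (n + 1) + (1 / 2) ^ (n + 1) := by ring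
  linarith

end pure

variable {I : Type} [LinearOrder I] [WellFoundedLT I] {π : Par I} {θ : I}

/-- closed sets -/
def CL (w : World (At π θ)) : Set (Set (Pt I)) :=
  {C | C ⊆ KK w ∧ Cd w C ∧ Opn (KK w) (KK w \ C)}

theorem ev_CL : ∀ᶠ w in gen (At π θ), ∅ ∈ CL w ∧ (∀ A ∈ CL w, ∀ B ∈ CL w, A ∪ B ∈ CL w) ∧
    ∀ U ∈ TT w, KK w \ U ∈ CL w := by
  filter_upwards [ev_haus, ev_cd_union, ev_cd_compl, ns_empty.ev_mem] with w h1 h2 h3 h4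
  refine ⟨⟨empty_subset _, h4, by simpa using h1.1.2.2⟩, fun A hA B hB =>
    ⟨union_subset hA.1 hB.1, h2 A hA.1 hA.2.1 B hB.1 hB.2.1, ?_⟩, fun U hU =>
    ⟨sdiff_subset, h3 U hU.1 hU.2.1, by rw [sdiff_sdiff_cancel_left hU.1]; exact hU.2.2⟩⟩
  rw [← sdiff_inter_sdiff]
  exact (h1.2.1 _ ⟨sdiff_subset, h3 A hA.1 hA.2.1, hA.2.2⟩ _
    ⟨sdiff_subset, h3 B hB.1 hB.2.1, hB.2.2⟩).2.2

theorem meas_cl (δ : TN π θ) : Measurable fun w => Opn (KK w) (KK w \ val2 w δ) :=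
  meas_opn (ns_K.diff (ns_val2 δ))

variable {μ : World (At π θ) → Set (Pt I) → ℝ}

/-- inner regularity for open sets -/
theorem Book.ev_ir (hb : Book π θ) (hμ : NM μ) :
    ∀ᶠ w in gen (At π θ), ∀ U ⊆ KK w, Cd w U → MS (KK w) (Bor w) (QQ w) (μ w) → U ∈ TT w →
      ∀ δ, 0 < δ → ∃ D ∈ CL w, D ⊆ U ∧ μ w (U \ D) < δ := by
  refine ev_all_set (Φ := fun U w => MS (KK w) (Bor w) (QQ w) (μ w) → U ∈ TT w →
      ∀ δ, 0 < δ → ∃ D ∈ CL w, D ⊆ U ∧ μ w (U \ D) < δ) fun U hU => ?_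
  obtain ⟨e, he⟩ := exists_surjective_nat ℚ
  choose sel h1 h2 using fun n : ℕ => exists_choice_set
    (Φ := fun (δ : TN π θ) w => Opn (KK w) (KK w \ val2 w δ) ∧ val2 w δ ⊆ U w ∧
      (e n : ℝ) < μ w (val2 w δ)) fun δ => (meas_cl δ).and (((ns_val2 δ).meas_subset hU).and
        (measurable_const.lt (hμ _ (ns_val2 δ))))
  let C : World (At π θ) → ℕ → Set (Pt I) := fun w n => sel n (fun δ w => val2 w δ) w
  have hC : ∀ n, NS fun w => C w n := fun n => h1 n _ ns_val2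
  have hW := hU.diff (ns_iUnion hC)
  filter_upwards [hb.ev_core (ν := fun w A => μ w (A ∩ (U w \ ⋃ n, C w n)))
    fun A hA => hμ _ (hA.inter hW), hb.ev_base, ev_CL, named_seq hC, ev_exists_val2, ev_val2_mem]
    with w a1 a2 a3 a4 a5 a6 hm hop δ hδ
  have hs : CL w ⊆ Bor w := fun C h => a2.closed C h.1 h.2.1 h.2.2
  have b1 : ∀ n, C w n ∈ CL w ∧ C w n ⊆ U w := fun n => by
    by_cases h : ∃ δ, w.In δ ∧ Opn (KK w) (KK w \ val2 w δ) ∧ val2 w δ ⊆ U w ∧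
      (e n : ℝ) < μ w (val2 w δ)
    · obtain ⟨δ, c1, c2, c3⟩ := (h2 n w).1 h
      simp only [C, c3]
      exact ⟨⟨sep_subset _ _, a6 δ c1, c2.1⟩, c2.2.1⟩
    · simp only [C, (h2 n w).2 h]
      exact ⟨a3.1, empty_subset _⟩
  have b2 := mem_bor hop
  have b3 := hm.iUnion _ a4 fun n => hs (b1 n).1
  have b4 := hm.diff b2 b3
  have b5 := a1 (hm.restrict b4) _ (hm.compl _ b4) (by simpa using hm.zero) fun x c1 c2 => by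
    obtain ⟨F, c3⟩ := hop.2.2 x (by_contra fun c => c2 ⟨c1, fun c' => c c'.1⟩)
    refine ⟨F, ir_null hm hs a3.2.1 b2 a4 b1 (fun q ⟨D, d1, d2, d3⟩ => ?_)
      ⟨sep_subset _ _, a2.cd_nb x c1 F, opn_compl fun y d1 d2 => ?_⟩ c3⟩
    · obtain ⟨n, rfl⟩ := he q
      obtain ⟨δ, d4, rfl⟩ := a5 D d1.1 d1.2.1
      obtain ⟨δ', d5, d6, d7⟩ := (h2 n w).1 ⟨δ, d4, d1.2.2, d2, d3⟩
      exact ⟨n, by simpa only [C, d7] using d6.2.2⟩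
    · simp only [Nb, mem_ofPred_eq, d1, true_and, not_forall] at d2
      obtain ⟨l, d3, d4⟩ := d2
      exact ⟨l, fun z h' e => d4 (e ▸ h'.2 l d3)⟩
  rw [inter_eq_self_of_subset_right (hm.sub _ b4)] at b5
  obtain ⟨n, hn⟩ := hm.cont a4 (fun n => hs (b1 n).1) hδ
  have b6 := biUnion_mem_of a3.1 a3.2.1 (fun n => (b1 n).1) (Finset.range n)
  refine ⟨_, b6, iUnion₂_subset fun k _ => (b1 k).2, ?_⟩
  have := hm.le_of_cover (hm.diff b2 (hs b6)) b4 (hm.diff b3 (hs b6)) fun x hx =>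
    (em (x ∈ ⋃ n, C w n)).symm.imp (fun c => ⟨hx.1, c⟩) fun c => ⟨c, hx.2⟩
  linarith

/-- regular sets -/
def Reg (w : World (At π θ)) (μ : Set (Pt I) → ℝ) (B : Set (Pt I)) (n : ℕ) (D D' : Set (Pt I)) :
    Prop :=
  Opn (KK w) (KK w \ D) ∧ Opn (KK w) (KK w \ D') ∧ D ⊆ B ∧ D' ⊆ KK w \ B ∧
    μ (KK w \ (D ∪ D')) < (1 / 2) ^ n

theorem meas_reg (hμ : NM μ) {B : World (At π θ) → Set (Pt I)} (hB : NS B) (n : ℕ)
    (δ : TN π θ × TN π θ) : Measurable fun w => Reg w (μ w) (B w) n (val2 w δ.1) (val2 w δ.2) :=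
  (meas_cl _).and ((meas_cl _).and (((ns_val2 _).meas_subset hB).and
    (((ns_val2 _).meas_subset (ns_K.diff hB)).and
      ((hμ _ (ns_K.diff ((ns_val2 _).union (ns_val2 _)))).lt measurable_const))))

theorem Book.ev_reg (hb : Book π θ) (hμ : NM μ) {Dom : Set (Pt I) → World (At π θ) → Prop}
    (hD : ∀ A, NS A → Measurable fun w => Dom (A w) w) :
    ∀ᶠ w in gen (At π θ), MS (KK w) (Bor w) (QQ w) (μ w) → (∀ A ⊆ KK w, Dom A w ↔ A ∈ Bor w) →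
      ∀ B ∈ Bor w, ∀ r < μ w B, ∃ C ∈ CL w, C ⊆ B ∧ r < μ w C := by
  have key : ∀ᶠ w in gen (At π θ), ∀ s : ℕ → Set (Pt I), (∀ n, s n ⊆ KK w) → QQ w s → ∀ n,
      (∀ k, ∃ δ : TN π θ × TN π θ, w.In δ ∧
        Reg w (μ w) (s k) (n + 2 + k) (val2 w δ.1) (val2 w δ.2)) →
      ∃ F1 F2 : ℕ → Set (Pt I), QQ w F1 ∧ (QQ w fun k => KK w \ (F1 k ∪ F2 k)) ∧
        Cd w (KK w \ ⋃ k, KK w \ F2 k) ∧ ∀ k, ∃ δ : TN π θ × TN π θ, w.In δ ∧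
          Reg w (μ w) (s k) (n + 2 + k) (val2 w δ.1) (val2 w δ.2) ∧
          F1 k = val2 w δ.1 ∧ F2 k = val2 w δ.2 := by
    refine ev_all_seq fun s hs => ev_call fun n => ?_
    choose sel h1 h2 using fun k : ℕ => exists_choice_set (meas_reg hμ (hs k) (n + 2 + k))
    have a1 := fun k => h1 k (fun δ w => val2 w δ.1) fun δ => ns_val2 δ.1
    have a2 := fun k => h1 k (fun δ w => val2 w δ.2) fun δ => ns_val2 δ.2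
    filter_upwards [named_seq (s := fun w k => sel k (fun δ w => val2 w δ.1) w) a1,
      named_seq (s := fun w k => KK w \ (sel k (fun δ w => val2 w δ.1) w ∪
        sel k (fun δ w => val2 w δ.2) w)) fun k => ns_K.diff ((a1 k).union (a2 k)),
      (ns_K.diff (ns_iUnion (s := fun w k => KK w \ sel k (fun δ w => val2 w δ.2) w)
        fun k => ns_K.diff (a2 k))).ev_mem] with w b1 b2 b3 b4
    exact ⟨_, _, b1, b2, b3, fun k => let ⟨δ, c1, c2, c3⟩ := (h2 k w).1 (b4 k)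
      ⟨δ, c1, c2, c3 _, c3 _⟩⟩
  filter_upwards [key, hb.ev_ir hμ, hb.ev_base, ev_CL, ev_exists_val2, ev_val2_mem, ev_bor_cd,
    ev_in_prod (TN π θ) (TN π θ),
    named_fam (Φ := fun A w => Dom A w ∧ ∀ n, ∃ δ : TN π θ × TN π θ, w.In δ ∧
      Reg w (μ w) A n (val2 w δ.1) (val2 w δ.2)) fun A hA => (hD A hA).and
        (Measurable.forall fun n => measurable_ex_in (meas_reg hμ hA n))]
    with w a1 a2 a3 a4 a5 a6 a7 a8 a9 hm hd B hB r hr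
  have hs : CL w ⊆ Bor w := fun C h => a3.closed C h.1 h.2.1 h.2.2
  have conv : ∀ A n, (∃ δ : TN π θ × TN π θ, w.In δ ∧ Reg w (μ w) A n (val2 w δ.1) (val2 w δ.2)) ↔
      ∃ D ∈ CL w, ∃ D' ∈ CL w, D ⊆ A ∧ D' ⊆ KK w \ A ∧
        μ w (KK w \ (D ∪ D')) < (1 / 2) ^ n := fun A n => by
    constructor
    · rintro ⟨δ, b1, b2, b3, b4⟩
      exact ⟨_, ⟨sep_subset _ _, a6 _ ((a8 δ).1 b1).1, b2⟩, _,
        ⟨sep_subset _ _, a6 _ ((a8 δ).1 b1).2, b3⟩, b4⟩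
    · rintro ⟨D, b1, D', b2, b3⟩
      obtain ⟨δ, b4, rfl⟩ := a5 D b1.1 b1.2.1
      obtain ⟨δ', b5, rfl⟩ := a5 D' b2.1 b2.2.1
      exact ⟨(δ, δ'), (a8 _).2 ⟨b4, b5⟩, b1.2.2, b2.2.2, b3⟩
  have mk : ∀ A ∈ Bor w, (∀ n, ∃ D ∈ CL w, ∃ D' ∈ CL w, D ⊆ A ∧ D' ⊆ KK w \ A ∧
      μ w (KK w \ (D ∪ D')) < (1 / 2) ^ n) → A ∈ {A | A ⊆ KK w ∧ cSet (pc w) A ∈ w.M ∧
        Dom A w ∧ ∀ n, ∃ δ : TN π θ × TN π θ, w.In δ ∧
          Reg w (μ w) A n (val2 w δ.1) (val2 w δ.2)} :=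
    fun A h h' => ⟨h.1, a7 A h, (hd A h.1).2 h, fun n => (conv A n).2 (h' n)⟩
  have main := (hB.2 _ (fun _ h => h.1) a9 (fun U hU => mk U (mem_bor hU) fun n => by
      obtain ⟨D, b1, b2, b3⟩ := a2 U hU.1 hU.2.1 hm hU ((1 / 2) ^ n) (by positivity)
      refine ⟨D, b1, _, a4.2.2 U hU, b2, Subset.rfl, lt_of_le_of_lt (hm.mono
        (hm.compl _ (hm.union (hs b1) (hs (a4.2.2 U hU)))) (hm.diff (mem_bor hU) (hs b1))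
        fun x hx => ⟨by_contra fun c => hx.2 (Or.inr ⟨hx.1, c⟩), fun c => hx.2 (Or.inl c)⟩) b3⟩)
    (fun A hA => mk _ (hm.compl _ ((hd A hA.1).1 hA.2.2.1)) fun n => by
      obtain ⟨D, b1, D', b2, b3, b4, b5⟩ := (conv A n).1 (hA.2.2.2 n)
      exact ⟨D', b2, D, b1, b4, by rwa [sdiff_sdiff_cancel_left hA.1], by rwa [union_comm]⟩)
    fun s b1 b2 => mk _ (hm.iUnion s b1 fun n => (hd _ (b2 n).1).1 (b2 n).2.2.1) fun n => by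
      obtain ⟨F1, F2, c1, c2, c3, c4⟩ := a1 s (fun n => (b2 n).1) b1 n fun k => (b2 k).2.2.2 _
      have c5 : ∀ k, F1 k ∈ CL w ∧ F2 k ∈ CL w ∧ F1 k ⊆ s k ∧ F2 k ⊆ KK w \ s k ∧
          μ w (KK w \ (F1 k ∪ F2 k)) < (1 / 2) ^ (n + 2 + k) := fun k => by
        obtain ⟨δ, d1, ⟨d2, d3, d4⟩, d5, d6⟩ := c4 k
        rw [d5, d6]
        exact ⟨⟨sep_subset _ _, a6 _ ((a8 δ).1 d1).1, d2⟩,
          ⟨sep_subset _ _, a6 _ ((a8 δ).1 d1).2, d3⟩, d4⟩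
      refine reg_union hm hs a4.1 a4.2.1 c1 c2 c5 ⟨sdiff_subset, c3, fun x hx => ?_⟩
      obtain ⟨k, hk⟩ := mem_iUnion.1 (by_contra fun c => hx.2 ⟨hx.1, c⟩)
      exact ((c5 k).2.1.2.2 x hk).imp fun F h y hy =>
        ⟨hy.1, fun c => c.2 (mem_iUnion.2 ⟨k, h hy⟩)⟩).2.2.2
  obtain ⟨n, hn⟩ := exists_pow_lt_of_lt_one (sub_pos.2 hr) (by norm_num : (1 / 2 : ℝ) < 1)
  obtain ⟨D, b1, D', b2, b3, b4, b5⟩ := (conv B n).1 (main n)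
  refine ⟨D, b1, b3, ?_⟩
  have := hm.le_of_cover hB (hs b1) (hm.compl _ (hm.union (hs b1) (hs b2))) fun x hx =>
    (em (x ∈ D)).imp id fun c => ⟨hB.1 hx, fun c' => c'.elim c fun c'' => (b4 c'').2 hx⟩
  linarith

theorem Book.ev_rad (hb : Book π θ) : ∀ᶠ w in gen (At π θ), RadK w.M (pc w) (KK w) (TT w) := by
  filter_upwards [ev_nice, ev_alg, ev_compact, hb.ev_base, ev_all_named
    (Φ := fun z w => MS (KK w) (Bor w) (QQ w) (fun A => rdec (app z (cSet (pc w) A))) →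
      (∀ A ⊆ KK w, app z (cSet (pc w) A) ≠ cNat 0 ↔ A ∈ Bor w) → ∀ B ∈ Bor w,
        ∀ r < rdec (app z (cSet (pc w) B)), ∃ C ∈ CL w, C ⊆ B ∧ r < rdec (app z (cSet (pc w) C)))
    fun z hz => hb.ev_reg (μ := fun w A => rdec (app (z w) (cSet (pc w) A)))
      (fun A hA => meas_rdec (named_app hz hA.named))
      (Dom := fun A w => app (z w) (cSet (pc w) A) ≠ cNat 0)
      fun A hA => ((named_app hz hA.named).measurable_eq (named_cNat 0)).not]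
    with w h1 h2 h3 h4 h5 μ hμ B hB r hr
  have hin : InjOn (cSet (pc w)) (𝒫 (KK w)) := cSet_injOn h1.pc_inj
  have a1 : ∀ A ∈ Bor w, app (cFun (cSet (pc w)) cReal (Bor w) μ) (cSet (pc w) A) = cReal (μ A) :=
    fun A hA => app_cFun (hin.mono fun B h => h.1) hA
  obtain ⟨C, b1, b2, b3⟩ := h5 _ hμ.1 (MS.congr ⟨h2, hμ.2.1, hμ.2.2⟩ fun A hA => by
      rw [a1 A hA, rdec_cReal]) (fun A hA => ⟨fun h => by
      obtain ⟨z, hz⟩ : ∃ z, z ∈ app (cFun (cSet (pc w)) cReal (Bor w) μ) (cSet (pc w) A) := by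
        by_contra hc
        exact h ((ZFSet.eq_empty _).2 fun z hz => hc ⟨z, hz⟩)
      obtain ⟨-, y, -, c1, -⟩ := ZFSet.mem_sep.1 hz
      obtain ⟨B, c2, c3⟩ := mem_cFun.1 c1
      exact hin c2.1 hA (ZFSet.pair_inj.1 c3).1 ▸ c2, fun h => by
      obtain ⟨q, hq⟩ := exists_rat_lt (μ A)
      rw [a1 A h]
      exact fun e => ZFSet.notMem_empty (cRat q) ((show cReal (μ A) = ∅ from e) ▸ cRat_mem.2 hq)⟩) B hB r
    (by rwa [a1 B hB, rdec_cReal])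
  have b4 := h4.closed C b1.1 b1.2.1 b1.2.2
  exact ⟨C, b4, b2, h3 C b1.1 b1.2.1 b1.2.2, by rwa [a1 C b4, rdec_cReal] at b3⟩

theorem main : ∃ M : Set ZFSet.{0}, TransModelZFC M ∧
    ∃ (X : Type) (c : X → ZFSet.{0}) (𝒯 : Set (Set X)), Function.Injective c ∧
      cSet c univ ∈ M ∧ cSet (cSet c) 𝒯 ∈ M ∧ HausdorffIn M c 𝒯 ∧ CompactIn M c 𝒯 univ ∧
      RadonIn M c 𝒯 ∧ ¬ SequentialIn M c 𝒯 := by
  obtain ⟨I, _, _, π, θ, hb⟩ := exists_book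
  obtain ⟨w, h1, h2, h3, h4, h5, h6, h7, h8⟩ := ((ev_zfc (P := At π θ)).and (ev_nice.and
    (ns_K.ev_mem.and (ev_TT_mem.and (ev_haus.and (ev_compact.and
      (hb.ev_rad.and hb.ev_not_seq))))))).exists
  exact ⟨w.M, h1, transfer h2.pc_inj (fun U h => h.1) h3 h4 h5
    (h6 _ Subset.rfl h3 fun x hx => absurd hx.1 hx.2) h7 h8⟩

end Pool.Agent.P.MP_c9188c_gt
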