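import Pool.Agent.P.MP_c9188c_gt.Code
import Pool.Agent.P.MP_c9188c_gt.Transfer

/-!
The topology of the space in the extension.
-/

open Set Filter Pool.Agent.Lib.Helper87 Pool.Agent.P.MP_6e1b89_gt

namespace Pool.Agent.P.MP_c9188c_gt

variable {I : Type} [LinearOrder I] [WellFoundedLT I] {π : Par I} {θ : I}

/-- the topology -/
def TT (w : World (At π θ)) : Set (Set (Pt I)) :=
  {U | U ⊆ KK w ∧ cSet (pc w) U ∈ w.M ∧ Opn (KK w) U}

theorem meas_ball {W α : Type*} [MeasurableSpace W] {S : Set α} (hS : S.Countable)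
    {Φ : α → W → Prop} (h : ∀ a ∈ S, Measurable (Φ a)) : Measurable fun w => ∀ a ∈ S, Φ a w := by
  have := hS.to_subtype
  simpa only [Subtype.forall] using Measurable.forall fun a : S => h a a.2

theorem meas_bex {W α : Type*} [MeasurableSpace W] {S : Set α} (hS : S.Countable)
    {Φ : α → W → Prop} (h : ∀ a ∈ S, Measurable (Φ a)) : Measurable fun w => ∃ a ∈ S, Φ a w := by
  have := hS.to_subtype
  simpa only [Subtype.exists, exists_prop] using Measurable.exists fun a : S => h a a.2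

theorem ns_nb {x : World (At π θ) → Pt I} (hx : NP x) (F : Finset (ℕ ⊕ I)) :
    NS fun w => Nb (KK w) (x w) F :=
  ns_sep (Φ := fun y w => ∀ l ∈ F, y l = x w l) fun _ hy =>
    meas_ball F.countable_toSet fun l _ => (hy.1 l).eq (hx.1 l)

open Classical in
theorem Nice.nb {w : World (At π θ)} (h : Nice w) {x : Pt I} (hx : ∀ l, x l = true → w.In l)
    (F : Finset (ℕ ⊕ I)) : Nb (KK w) x (F.filter fun l => w.In l) = Nb (KK w) x F := by
  ext y
  refine and_congr_right fun hy => ⟨fun a l hl => ?_, fun a l hl => a l (Finset.mem_filter.1 hl).1⟩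
  by_cases b : w.In l
  · exact a l (Finset.mem_filter.2 ⟨hl, b⟩)
  · rw [Bool.eq_false_iff.2 fun e => b (hx l e), Bool.eq_false_iff.2 fun e => b (h.norm hy.1 e)]

theorem meas_opn {V : World (At π θ) → Set (Pt I)} (h : NS V) :
    Measurable fun w => Opn (KK w) (V w) := by
  classical
  refine (meas_allK (Φ := fun x w => x ∈ V w → ∃ F, w.In F ∧ Nb (KK w) x F ⊆ V w) fun x hx =>
    (h.2 x hx).imp (measurable_ex_in fun F => (ns_nb hx F).meas_subset h)).congr_ev ?_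
  filter_upwards [ev_nice, ev_in_finset (ℕ ⊕ I)] with w h1 h2
  refine ⟨fun a x b1 b2 => ?_, fun a x b => let ⟨F, _, c⟩ := a x (h.1 w b) b; ⟨F, c⟩⟩
  obtain ⟨F, c⟩ := a x b2
  exact ⟨_, h2 _ fun l hl => (Finset.mem_filter.1 hl).2,
    (h1.nb (fun l => h1.norm b1.1) F).subset.trans c⟩

theorem named_fam {Φ : Set (Pt I) → World (At π θ) → Prop}
    (h : ∀ A, NS A → Measurable fun w => Φ (A w) w) :
    ∀ᶠ w in gen (At π θ),
      cSet (cSet (pc w)) {A | A ⊆ KK w ∧ cSet (pc w) A ∈ w.M ∧ Φ A w} ∈ w.M := by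
  refine (named_cSet (c := fun w => cSet (pc w)) (g := fun δ w => val2 w δ)
    (fun δ => (ns_val2 δ).named) (Φ := fun δ w => Φ (val2 w δ) w) (fun δ => h _ (ns_val2 δ))
    (S := fun w => {A | A ⊆ KK w ∧ cSet (pc w) A ∈ w.M ∧ Φ A w}) ?_).ev_mem
  filter_upwards [ev_exists_val2, ev_val2_mem] with w h1 h2 A
  constructor
  · rintro ⟨a1, a2, a3⟩
    obtain ⟨δ, b1, rfl⟩ := h1 A a1 a2
    exact ⟨δ, b1, a3, rfl⟩
  · rintro ⟨δ, b1, b2, rfl⟩
    exact ⟨sep_subset _ _, h2 δ b1, b2⟩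

theorem ev_TT_mem : ∀ᶠ w in gen (At π θ), cSet (cSet (pc w)) (TT w) ∈ w.M :=
  named_fam (Φ := fun A w => Opn (KK w) A) fun _ => meas_opn

theorem cSet_sUnion {α : Type} (c : α → ZFSet.{0}) (𝒰 : Set (Set α)) :
    cSet c (⋃₀ 𝒰) = (cSet (cSet c) 𝒰).sUnion := by
  ext z
  simp only [mem_cSet, ZFSet.mem_sUnion, mem_sUnion]
  constructor
  · rintro ⟨x, ⟨U, a1, a2⟩, rfl⟩
    exact ⟨_, ⟨U, a1, rfl⟩, mem_cSet.2 ⟨x, a2, rfl⟩⟩
  · rintro ⟨_, ⟨U, a1, rfl⟩, a2⟩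
    obtain ⟨x, a3, rfl⟩ := mem_cSet.1 a2
    exact ⟨x, ⟨U, a1, a3⟩, rfl⟩

theorem ns_coord (l : ℕ ⊕ I) (i : Bool) : NS fun w : World (At π θ) => {x ∈ KK w | x l = i} :=
  ns_sep (Φ := fun x _ => x l = i) fun _ hx => (hx.1 l).eq_const i

theorem ev_coord : ∀ᶠ w in gen (At π θ), ∀ l, w.In l → ∀ i, {x ∈ KK w | x l = i} ∈ TT w :=
  ev_all fun l => ev_call fun i => (ns_coord l i).ev_mem.mono fun _ h => ⟨sep_subset _ _, h,
    fun _ hx => ⟨{l}, fun _ hy => ⟨hy.1, (hy.2 l (by simp)).trans hx.2⟩⟩⟩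

theorem ev_haus : ∀ᶠ w in gen (At π θ), HausK w.M (pc w) (KK w) (TT w) := by
  classical
  filter_upwards [ev_nice, ev_union, ev_coord, ns_K.ev_mem,
    ev_all_set (Φ := fun A w => ∀ B ⊆ KK w, cSet (pc w) B ∈ w.M → cSet (pc w) (A ∩ B) ∈ w.M)
      fun A hA => ev_all_set (Φ := fun B w => cSet (pc w) (A w ∩ B) ∈ w.M)
      fun B hB => (hA.inter hB).ev_mem] with w h1 h2 h3 h4 h5
  refine ⟨⟨Subset.rfl, h4, fun x _ => ⟨∅, sep_subset _ _⟩⟩, fun U hU V hV =>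
    ⟨inter_subset_left.trans hU.1, h5 U hU.1 hU.2.1 V hV.1 hV.2.1, fun x hx => ?_⟩,
    fun 𝒰 a1 a2 => ⟨sUnion_subset fun U hU => (a1 hU).1, cSet_sUnion _ 𝒰 ▸ h2 _ a2,
      fun x ⟨U, b1, b2⟩ => ((a1 b1).2.2 x b2).imp fun F h => h.trans (subset_sUnion_of_mem b1)⟩,
    fun x hx y hy hne => ?_⟩
  · obtain ⟨F, a1⟩ := hU.2.2 x hx.1
    obtain ⟨F', a2⟩ := hV.2.2 x hx.2
    exact ⟨F ∪ F', fun y hy => ⟨a1 ⟨hy.1, fun l hl => hy.2 l (Finset.mem_union_left _ hl)⟩,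
      a2 ⟨hy.1, fun l hl => hy.2 l (Finset.mem_union_right _ hl)⟩⟩⟩
  · obtain ⟨l, hl⟩ := Function.ne_iff.1 hne
    have : w.In l := by
      by_contra b
      rw [Bool.eq_false_iff.2 fun e => b (h1.norm hx.1 e),
        Bool.eq_false_iff.2 fun e => b (h1.norm hy.1 e)] at hl
      exact hl rfl
    exact ⟨_, h3 l this (x l), _, h3 l this (y l), ⟨hx, rfl⟩, ⟨hy, rfl⟩,
      Set.disjoint_left.2 fun z a b => hl (a.2.symm.trans b.2)⟩

theorem con_of_closure {d : Dat I} (h0 : T0 θ d) {x : Pt I}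
    (h : ∀ E : Finset (ℕ ⊕ I), ∃ x', Con π θ d x' ∧ ∀ l ∈ E, x' l = x l) : Con π θ d x := by
  classical
  refine ⟨fun γ a => ?_, fun m m' a b => ?_, fun ζ hz j ⟨n, e, a1, a2, a3⟩ => ?_⟩
  · obtain ⟨x', b1, b2⟩ := h {.inr γ}
    exact b1.act γ ((b2 _ (by simp)).trans a)
  · obtain ⟨x', b1, b2⟩ := h {.inl m, .inl m'}
    exact b1.one m m' ((b2 _ (by simp)).trans a) ((b2 _ (by simp)).trans b)
  · have hE := ((finite_Iic n).biUnion fun k _ => Subsingleton.finite (s := {x | ent d ζ k x})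
      fun x hx y hy => h0.fn ζ hz.lt k x y hx hy).image fun x => lab π ζ x.1
    obtain ⟨x', b1, b2⟩ := h (insert (.inr ζ) hE.toFinset)
    have b3 : ∀ k ≤ n, ∀ e j, ent d ζ k (e, j) → x' (lab π ζ e) = x (lab π ζ e) :=
      fun k hk e j c => b2 _ (Finset.mem_insert_of_mem (hE.mem_toFinset.2
        ⟨(e, j), mem_biUnion hk c, rfl⟩))
    rw [← b2 _ (Finset.mem_insert_self _ _)]
    refine b1.fst ζ hz j ⟨n, e, a1, ?_, fun k hk e' j' c1 c2 => a3 k hk e' j' c1 ?_⟩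
    · beta_reduce
      rwa [b3 n le_rfl e j a1]
    · beta_reduce
      rwa [← b3 k hk.le e' j' c1]

/-- the recursion which finds a point which is not covered -/
def cx {W α : Type*} [DecidableEq α] (In : W → α → Prop) (InS : W → Finset (α × Bool) → Prop)
    (Cov : W → Finset (α × Bool) → Prop) : α → W → Prop :=
  (InvImage.wf embeddingToCardinal wellFounded_lt).fix fun l IH w => In w l ∧ ∃ σ, InS w σ ∧
    (∀ p ∈ σ, ∃ h : embeddingToCardinal p.1 < embeddingToCardinal l, (IH p.1 h w ↔ p.2 = true)) ∧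
    Cov w (insert (l, false) σ)

theorem cx_iff {W α : Type*} [DecidableEq α] {In : W → α → Prop} {InS : W → Finset (α × Bool) → Prop}
    {Cov : W → Finset (α × Bool) → Prop} {l : α} {w : W} :
    cx In InS Cov l w ↔ In w l ∧ ∃ σ, InS w σ ∧
    (∀ p ∈ σ, embeddingToCardinal p.1 < embeddingToCardinal l ∧
      (cx In InS Cov p.1 w ↔ p.2 = true)) ∧ Cov w (insert (l, false) σ) := by
  conv_lhs => unfold cx; rw [WellFounded.fix_eq]
  simp only [exists_prop]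
  rfl

theorem cx_spec {W α : Type*} [DecidableEq α] {In : W → α → Prop} {InS : W → Finset (α × Bool) → Prop}
    {Cov : W → Finset (α × Bool) → Prop} {w : W} (h0 : ¬ Cov w ∅)
    (h1 : ∀ σ, InS w σ ↔ ∀ p ∈ σ, In w p.1)
    (h2 : ∀ l σ σ', Cov w (insert (l, false) σ) → Cov w (insert (l, true) σ') → Cov w (σ ∪ σ'))
    (σ : Finset (α × Bool)) (h : ∀ p ∈ σ, In w p.1 ∧ (cx In InS Cov p.1 w ↔ p.2 = true)) :
    ¬ Cov w σ := by
  have key : ∀ c : Cardinal, ∀ σ : Finset (α × Bool), (∀ p ∈ σ, embeddingToCardinal p.1 < c ∧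
      In w p.1 ∧ (cx In InS Cov p.1 w ↔ p.2 = true)) → ¬ Cov w σ := by
    intro c
    induction c using WellFoundedLT.induction with
    | ind c ih =>
    intro σ h
    rcases σ.eq_empty_or_nonempty with rfl | hne
    · exact h0
    obtain ⟨⟨l, i⟩, a1, a2⟩ := Finset.exists_max_image σ (fun p => embeddingToCardinal p.1) hne
    have a3 : ∀ p ∈ σ.erase (l, i), embeddingToCardinal p.1 < embeddingToCardinal l ∧
        In w p.1 ∧ (cx In InS Cov p.1 w ↔ p.2 = true) := fun p hp => by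
      have b1 := Finset.mem_of_mem_erase hp
      refine ⟨(a2 p b1).lt_of_ne fun e => Finset.ne_of_mem_erase hp ?_, (h p b1).2⟩
      have b2 : p.1 = l := embeddingToCardinal.injective e
      exact Prod.ext b2 (Bool.eq_iff_iff.2 ((h p b1).2.2.symm.trans (b2 ▸ (h _ a1).2.2)))
    rw [← Finset.insert_erase a1]
    intro hc
    cases i
    · simpa using (h _ a1).2.2.1 (cx_iff.2 ⟨(h _ a1).2.1, _, (h1 _).2 fun p hp => (a3 p hp).2.1,
        fun p hp => ⟨(a3 p hp).1, (a3 p hp).2.2⟩, hc⟩)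
    · obtain ⟨-, σ0, b1, b2, b3⟩ := cx_iff.1 ((h _ a1).2.2.2 rfl)
      exact ih _ (h _ a1).1 _ (fun p hp => (Finset.mem_union.1 hp).elim
        (fun hp => ⟨(b2 p hp).1, (h1 _).1 b1 p hp, (b2 p hp).2⟩) (a3 p)) (h2 l _ _ b3 hc)
  obtain ⟨c, hc⟩ := (σ.finite_toSet.image fun p => embeddingToCardinal p.1).bddAbove
  exact key (Order.succ c) σ fun p hp => ⟨Order.lt_succ_of_le (hc ⟨p, hp, rfl⟩), h p hp⟩

theorem meas_cx {α : Type} [DecidableEq α] {Cov : World (At π θ) → Finset (α × Bool) → Prop}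
    (h : ∀ σ, Measurable fun w => Cov w σ) (l : α) :
    Measurable (cx (fun w l => w.In l) (fun w σ => w.In σ) Cov l) := by
  induction l using (InvImage.wf embeddingToCardinal wellFounded_lt).induction with
  | h l ih =>
  refine Measurable.congr_ev ?_ (Eventually.of_forall fun w => cx_iff)
  refine (meas_in l).and (measurable_ex_in fun σ => (meas_ball σ.countable_toSet fun p _ => ?_).and
    (h _))
  by_cases hp : embeddingToCardinal p.1 < embeddingToCardinal l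
  · exact measurable_const.and ((ih _ hp).iff measurable_const)
  · simp only [hp, false_and]
    exact measurable_const

theorem ev_in_finset_iff (T : Type) :
    ∀ᶠ w in gen (At π θ), ∀ s : Finset T, w.In s ↔ ∀ i ∈ s, w.In i := by
  filter_upwards [ev_in_finset T, ev_all fun s : Finset T => ev_countable_set s.countable_toSet]
    with w h1 h2 s using ⟨h2 s, h1 s⟩

/-- closed sets are compact -/
theorem ev_compact : ∀ᶠ w in gen (At π θ), ∀ C ⊆ KK w, cSet (pc w) C ∈ w.M →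
    Opn (KK w) (KK w \ C) → CompactIn w.M (pc w) (TT w) C := by
  classical
  refine ev_all_set fun C hC => ?_
  suffices h : ∀ᶠ w in gen (At π θ), ∀ z ∈ w.M, Opn (KK w) (KK w \ C w) → ∀ 𝒰 ⊆ TT w,
      cSet (cSet (pc w)) 𝒰 = z → C w ⊆ ⋃₀ 𝒰 → ∃ 𝒱 ⊆ 𝒰, 𝒱.Finite ∧ C w ⊆ ⋃₀ 𝒱 from
    h.mono fun w hw a 𝒰 a1 a2 => hw _ a2 a 𝒰 a1 rfl
  refine ev_all_named fun z hz => ?_
  let Cov : World (At π θ) → Finset ((ℕ ⊕ I) × Bool) → Prop := fun w σ =>
    ∃ S : Finset (TN π θ), w.In S ∧ (∀ δ ∈ S, cSet (pc w) (val2 w δ) ∈ z w) ∧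
      ∀ x ∈ KK w, x ∈ C w → (∀ p ∈ σ, x p.1 = p.2) → ∃ δ ∈ S, x ∈ val2 w δ
  have hm : ∀ σ, Measurable fun w => Cov w σ := fun σ => measurable_ex_in fun S =>
    (meas_ball S.countable_toSet fun δ _ => (ns_val2 δ).named.measurable_mem hz).and
      (meas_allK (Φ := fun x w => x ∈ C w → (∀ p ∈ σ, x p.1 = p.2) → ∃ δ ∈ S, x ∈ val2 w δ)
        fun x hx => (hC.2 x hx).imp ((meas_ball σ.countable_toSet fun p _ =>
          (hx.1 _).eq_const _).imp (meas_bex S.countable_toSet fun δ _ => (ns_val2 δ).2 x hx)))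
  let x : World (At π θ) → Pt I := fun w l =>
    decide (cx (fun w l => w.In l) (fun w σ => w.In σ) Cov l w)
  have hx : NP x := ⟨fun l => meas_decide (meas_cx hm l),
    Eventually.of_forall fun w l h => (cx_iff.1 (of_decide_eq_true h)).1⟩
  filter_upwards [ev_nice, ev_t0, hx.named.ev_mem, hx.2, ev_exists_val2,
    ev_in_finset_iff ((ℕ ⊕ I) × Bool), ev_in_finset_iff (TN π θ), ev_in_prod (ℕ ⊕ I) Bool,
    ev_ctype Bool] with w h1 h2 h3 h4 h5 h6 h7 h8 h9 a1 𝒰 a2 a3 a4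
  have hin : InjOn (cSet (pc w)) (𝒫 (KK w)) := cSet_injOn h1.pc_inj
  by_cases h0 : Cov w ∅
  · obtain ⟨S, -, b1, b2⟩ := h0
    refine ⟨val2 w '' S, ?_, S.finite_toSet.image _, fun y hy => ?_⟩
    · rintro _ ⟨δ, c, rfl⟩
      exact (mem_cSet_iff hin (fun U hU => (a2 hU).1) (sep_subset _ _)).1 (a3 ▸ b1 δ c)
    · obtain ⟨δ, c1, c2⟩ := b2 y (hC.1 w hy) hy (by simp)
      exact ⟨_, ⟨δ, c1, rfl⟩, c2⟩
  exfalso
  have key : ∀ F : Finset (ℕ ⊕ I),
      ¬ Cov w ((F.filter fun l => w.In l).image fun l => (l, x w l)) := fun F => by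
    refine cx_spec (In := fun w l => w.In l) (InS := fun w σ => w.In σ) h0
      (fun σ => by simp only [h6, h8, h9, and_true]) ?_ _ fun p hp => ?_
    · rintro l σ σ' ⟨S, b1, b2, b3⟩ ⟨S', b4, b5, b6⟩
      refine ⟨S ∪ S', (h7 _).2 fun δ h => (Finset.mem_union.1 h).elim ((h7 _).1 b1 δ)
        ((h7 _).1 b4 δ), fun δ h => (Finset.mem_union.1 h).elim (b2 δ) (b5 δ),
        fun y c1 c2 c3 => ?_⟩
      cases e : y l
      · obtain ⟨δ, d1, d2⟩ := b3 y c1 c2 fun p hp => (Finset.mem_insert.1 hp).elim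
          (fun h => h ▸ e) fun h => c3 p (Finset.mem_union_left _ h)
        exact ⟨δ, Finset.mem_union_left _ d1, d2⟩
      · obtain ⟨δ, d1, d2⟩ := b6 y c1 c2 fun p hp => (Finset.mem_insert.1 hp).elim
          (fun h => h ▸ e) fun h => c3 p (Finset.mem_union_right _ h)
        exact ⟨δ, Finset.mem_union_right _ d1, d2⟩
    · obtain ⟨l, b1, rfl⟩ := Finset.mem_image.1 hp
      exact ⟨(Finset.mem_filter.1 b1).2, by simp [x]⟩
  have k2 : ∀ F y, y ∈ KK w → (∀ p ∈ (F.filter fun l => w.In l).image fun l => (l, x w l),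
      y p.1 = p.2) → y ∈ Nb (KK w) (x w) F := fun F y b1 b2 =>
    (h1.nb h4 F).subset ⟨b1, fun l hl => b2 _ (Finset.mem_image_of_mem _ hl)⟩
  have k3 : ∀ F, ∃ y ∈ C w, y ∈ Nb (KK w) (x w) F := fun F => by
    by_contra hc
    exact key F ⟨∅, (h7 _).2 (by simp), by simp,
      fun y b1 b2 b3 => absurd ⟨y, b2, k2 F y b1 b3⟩ hc⟩
  have hK : x w ∈ KK w :=
    ⟨con_of_closure h2 fun E => let ⟨y, _, b⟩ := k3 E; ⟨y, b.1.1, b.2⟩, h3⟩
  have hxC : x w ∈ C w := by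
    by_contra hc
    obtain ⟨F, b1⟩ := a1 _ ⟨hK, hc⟩
    obtain ⟨y, b2, b3⟩ := k3 F
    exact (b1 b3).2 b2
  obtain ⟨U, b1, b2⟩ := a4 hxC
  obtain ⟨F, b3⟩ := (a2 b1).2.2 _ b2
  obtain ⟨δ, b4, rfl⟩ := h5 U (a2 b1).1 (a2 b1).2.1
  exact key F ⟨{δ}, (h7 _).2 (by simpa using b4), by
    simpa using a3 ▸ mem_cSet.2 ⟨_, b1, rfl⟩,
    fun y c1 _ c3 => ⟨δ, by simp, b3 (k2 F y c1 c3)⟩⟩

theorem np_natPt (m : ℕ) : NP fun w : World (At π θ) => natPt π θ (dat w) m := by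
  classical
  refine ⟨?_, (ev_nice.and ev_t0).mono fun w h l => h.1.norm (con_natPt h.2 m)⟩
  rintro (m' | γ)
  · exact measurable_const
  · exact meas_decide ((me_act π θ γ _).and (me_sd π _ _ _ _))

theorem ns_natS (m : ℕ) : NS fun w : World (At π θ) => NatS (KK w) m := ns_coord _ _

theorem Book.ev_not_seq (hb : Book π θ) :
    ∀ᶠ w in gen (At π θ), ¬ SeqK w.M (pc w) (KK w) (TT w) := by
  have hA : NS fun w : World (At π θ) => ⋃ m, NatS (KK w) m := ns_iUnion ns_natS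
  have hU : Named fun w : World (At π θ) => cSet (cSet (pc w))
      (insert (KK w \ ⋃ m, NatS (KK w) m) (range (NatS (KK w)))) :=
    named_cSet (c := fun w => cSet (pc w)) (J := Option ℕ)
      (g := fun j w => j.elim (KK w \ ⋃ m, NatS (KK w) m) (NatS (KK w)))
      (fun j => by
        cases j
        exacts [(ns_K.diff hA).named, (ns_natS _).named])
      (Φ := fun _ _ => True) (fun _ => measurable_const) ((ev_ctype (Option ℕ)).mono fun w h x => by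
        simp [h, Option.exists, eq_comm])
  filter_upwards [ev_nice, ev_t0, hA.ev_mem, hU.ev_mem, ev_compact, ns_K.ev_mem, ev_coord,
    ev_call fun m => (np_natPt m).named.ev_mem,
    ev_all_named (Φ := fun z w => ∀ x ∈ KK w, Inf x → (∀ k, ∃ m, k < m ∧ ∃ n, ∃ y ∈ KK w,
        (cNat n).pair (pc w y) ∈ z ∧ y (.inl m) = true) → ∃ β, w.In β ∧ Bx π θ (dat w) x β ∧
        ∀ k, ∃ m, k < m ∧ (∃ n, ∃ y ∈ KK w, (cNat n).pair (pc w y) ∈ z ∧ y (.inl m) = true) ∧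
          ∃ j, x (.inr β) = j ∧ Sd π (dat w) (.inl m) β (!j))
      fun z hz => ev_allK fun x hx => hb.split hx.1 fun m => Measurable.exists fun n =>
        meas_exK (Φ := fun y w => (cNat n).pair (pc w y) ∈ z w ∧ y (.inl m) = true) fun y hy =>
          (((named_cNat n).pair hy.named).measurable_mem hz).and ((hy.1 _).eq_const _)]
    with w h1 h2 h3 h4 h5 h6 h7 h8 h9 hs
  have sub : (⋃ m, NatS (KK w) m) ⊆ KK w := hA.1 w
  have hop := hs _ sub h3 fun s a1 a2 x a3 a4 => by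
    by_contra hc
    have b1 : Inf x := fun m => Bool.eq_false_iff.2 fun e => hc (mem_iUnion.2 ⟨m, a3, e⟩)
    choose f hf using fun n => mem_iUnion.1 (a2 n)
    have b2 : ∀ m, (∃ n, ∃ y ∈ KK w, (cNat n).pair (pc w y) ∈ cFun cNat (pc w) univ s ∧
        y (.inl m) = true) ↔ ∃ n, f n = m := fun m => by
      refine exists_congr fun n => ⟨fun ⟨y, c1, c2, c3⟩ => ?_,
        fun e => ⟨s n, (hf n).1, mem_cFun.2 ⟨n, trivial, rfl⟩, e ▸ (hf n).2⟩⟩
      obtain ⟨n', -, c4⟩ := mem_cFun.1 c2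
      rw [ZFSet.pair_inj, cNat_inj.eq_iff] at c4
      obtain ⟨rfl, c4⟩ := c4
      obtain rfl := h1.pc_inj (hf n').1 c1 c4
      exact c1.1.one _ _ (hf n').2 c3
    obtain ⟨β, c1, c2, c3⟩ := h9 _ a1 x a3 b1 fun k => by
      obtain ⟨n, hn⟩ := ((eventually_all_finite (finite_Iic k)).2 fun m _ =>
        a4 _ (h7 (.inl m) (h1.1 m) false) ⟨a3, b1 m⟩).exists
      refine ⟨f n, not_le.1 fun h => ?_, (b2 _).2 ⟨n, rfl⟩⟩
      simpa [(hf n).2] using (hn _ h).2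
    obtain ⟨n0, c4⟩ := eventually_atTop.1 (a4 _ (h7 (.inr β) ((h1.2 β).2 c1) (x (.inr β))) ⟨a3, rfl⟩)
    obtain ⟨m, d1, d2, j, rfl, d3⟩ := c3 ((Finset.range n0).sup f)
    obtain ⟨n, rfl⟩ := (b2 m).1 d2
    have d4 : n0 ≤ n := not_lt.1 fun h => d1.not_ge (Finset.le_sup (Finset.mem_range.2 h))
    have d5 := (side h2 (hf n).1.1 c2.1 (a := .inl (f n)) (i := false) rfl (hf n).2 (by simp)).2
    rw [(c4 n d4).2] at d5
    simpa using h2.sd_unique c2.1.lt d5 d3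
  obtain ⟨𝒱, a1, a2, a3⟩ := h5 _ Subset.rfl h6 (fun x hx => absurd hx.1 hx.2) _ (by
      rintro _ (rfl | ⟨m, rfl⟩)
      exacts [hop, h7 _ (h1.1 m) true]) h4 fun x hx => by
      by_cases h : x ∈ ⋃ m, NatS (KK w) m
      · obtain ⟨m, hm⟩ := mem_iUnion.1 h
        exact ⟨_, Or.inr ⟨m, rfl⟩, hm⟩
      · exact ⟨_, Or.inl rfl, hx, h⟩
  have hK : ∀ m, natPt π θ (dat w) m ∈ KK w := fun m => ⟨con_natPt h2 m, h8 m⟩
  refine infinite_univ (α := ℕ) ((a2.biUnion (t := fun V => {m | natPt π θ (dat w) m ∈ V})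
    fun V hV => ?_).subset fun m _ => ?_)
  · rcases a1 hV with rfl | ⟨m, rfl⟩
    · exact finite_empty.subset fun m hm => hm.2 (mem_iUnion.2 ⟨m, hK m, by simp [natPt]⟩)
    · exact (finite_singleton m).subset fun m' hm => by simpa [natPt, eq_comm] using hm.2
  · obtain ⟨V, b1, b2⟩ := a3 (hK m)
    exact mem_biUnion b1 b2

end Pool.Agent.P.MP_c9188c_gt
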