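import Pool.Agent.P.MP_c9188c_gt.Data

/-!
The tree of active labels and the points of the space.
-/

open Set Filter Pool.Agent.Lib.Helper87

namespace Pool.Agent.P.MP_c9188c_gt

variable {I : Type} [LinearOrder I] [WellFoundedLT I] (π : Par I) (θ : I) (d : Dat I)

/-- active labels -/
def Act : I → Prop :=
  wellFounded_lt.fix fun γ IH => d.In γ ∧ γ < θ ∧
    (∀ y i, T π d γ (.inr y) i → ¬ T π d γ (.inr y) (!i)) ∧
    (∀ y i, ∀ h : T π d γ (.inr y) i, IH y h.lt) ∧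
    ∀ y (h : y < γ), IH y h →
      ((∃ i, T π d γ (.inr y) i) ↔ ∀ y' i, T π d y (.inr y') i → T π d γ (.inr y') i)

theorem act_iff {γ : I} : Act π θ d γ ↔ d.In γ ∧ γ < θ ∧
    (∀ y i, T π d γ (.inr y) i → ¬ T π d γ (.inr y) (!i)) ∧
    (∀ y i, T π d γ (.inr y) i → Act π θ d y) ∧
    ∀ y, y < γ → Act π θ d y →
      ((∃ i, T π d γ (.inr y) i) ↔ ∀ y' i, T π d y (.inr y') i → T π d γ (.inr y') i) := by
  conv_lhs => unfold Act; rw [WellFounded.fix_eq]
  rfl

omit [WellFoundedLT I] in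
theorem forall_T {γ : I} {Q : I → Bool → Prop} : (∀ y i, T π d γ (.inr y) i → Q y i) ↔
    ∀ e i, T π d γ (.inr (π.X γ e)) i → Q (π.X γ e) i :=
  ⟨fun h _ _ => h _ _, fun h y i hy => by
    obtain ⟨e, rfl⟩ := hy.1
    exact h e i hy⟩

theorem me_act (γ : I) : Me fun d => Act π θ d γ := by
  induction γ using WellFoundedLT.induction with
  | ind γ ih =>
  have key : ∀ y, Me fun d => y < γ ∧ Act π θ d y := fun y => by
    by_cases h : y < γ
    · exact (Me.const _).and (ih y h)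
    · simp only [h, false_and]
      exact Me.const _
  have : ∀ d, Act π θ d γ ↔ d.In γ ∧ γ < θ ∧
      (∀ e i, T π d γ (.inr (π.X γ e)) i → ¬ T π d γ (.inr (π.X γ e)) (!i)) ∧
      (∀ e i, T π d γ (.inr (π.X γ e)) i → π.X γ e < γ ∧ Act π θ d (π.X γ e)) ∧
      ∀ y, d.In y → (y < γ ∧ Act π θ d y) → ((∃ i, T π d γ (.inr y) i) ↔
        ∀ e i, T π d y (.inr (π.X y e)) i → T π d γ (.inr (π.X y e)) i) := fun d => by
    rw [act_iff, forall_T, forall_T]
    refine and_congr_right fun _ => and_congr_right fun _ => and_congr_right fun _ =>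
      and_congr (forall₃_congr fun _ _ h => (and_iff_right h.lt).symm) (forall_congr' fun y => ?_)
    rw [forall_T]
    exact ⟨fun h _ h' => h h'.1 h'.2, fun h h1 h2 => h ((act_iff π θ d).1 h2).1 ⟨h1, h2⟩⟩
  simp only [this]
  exact (me_in γ).and ((Me.const _).and ((Me.all fun _ => Me.all fun _ =>
    (me_T π _ _ _).imp (me_T π _ _ _).not).and ((Me.all fun _ => Me.all fun _ =>
    (me_T π _ _ _).imp (key _)).and (Me.all_in fun y => (key y).imp
      ((Me.ex fun _ => me_T π _ _ _).iff (Me.all fun _ => Me.all fun _ =>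
        (me_T π _ _ _).imp (me_T π _ _ _)))))))

/-- candidates for points -/
abbrev Pt (I : Type) : Type := ℕ ⊕ I → Bool

/-- the point extends the node at `γ` -/
def Ext (x : Pt I) (γ : I) : Prop := ∀ l i, T π d γ l i → x l = i

/-- the branch of a point -/
def Bx (x : Pt I) (γ : I) : Prop := Act π θ d γ ∧ Ext π d x γ

/-- points at infinity -/
def Inf (x : Pt I) : Prop := ∀ m, x (.inl m) = false

/-- the constraints on points -/
structure Con (x : Pt I) : Prop where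
  act : ∀ γ, x (.inr γ) = true → Act π θ d γ
  one : ∀ m m', x (.inl m) = true → x (.inl m') = true → m = m'
  fst : ∀ ζ, Act π θ d ζ → ∀ j,
    First (ent d ζ) (fun e => T π d ζ (lab π ζ e) (!x (lab π ζ e))) j → x (.inr ζ) = j

/-- the generic lists are functions and list everything -/
structure T0 : Prop where
  fn : ∀ ζ < θ, ∀ n x y, ent d ζ n x → ent d ζ n y → x = y
  onto : ∀ ζ, d.In ζ → ζ < θ → ∀ e, ∃ n j, ent d ζ n (e, j)

variable {π θ d} {x x' : Pt I} {γ γ' ζ y y' : I} {i i' j j' : Bool} {a l : ℕ ⊕ I}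

theorem Act.mem (h : Act π θ d γ) : d.In γ := ((act_iff π θ d).1 h).1
theorem Act.lt (h : Act π θ d γ) : γ < θ := ((act_iff π θ d).1 h).2.1

theorem Act.of_T (h : Act π θ d γ) (h' : T π d γ (.inr y) i) : Act π θ d y :=
  ((act_iff π θ d).1 h).2.2.2.1 y i h'

theorem Act.func (h : Act π θ d γ) (h1 : T π d γ l i) (h2 : T π d γ l i') : i = i' := by
  rcases l with m | y
  · exact h1.trans h2.symm
  · by_contra hc
    exact ((act_iff π θ d).1 h).2.2.1 y i h1 (Bool.eq_not_of_ne (Ne.symm hc) ▸ h2)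

theorem Act.sub (h : Act π θ d γ) (h1 : T π d γ (.inr y) i) (h2 : T π d y l i') :
    T π d γ l i' := by
  rcases l with m | y'
  · exact h2
  · exact (((act_iff π θ d).1 h).2.2.2.2 y h1.lt (h.of_T h1)).1 ⟨i, h1⟩ y' i' h2

theorem Bx.of_T (h : Bx π θ d x γ) (h' : T π d γ (.inr y) i) : Bx π θ d x y :=
  ⟨h.1.of_T h', fun l i' h2 => h.2 l i' (h.1.sub h' h2)⟩

omit [WellFoundedLT I] in
theorem Ext.inf (h : Ext π d x γ) : Inf x := fun m => h (.inl m) false rfl

theorem Bx.T_of_lt (h : Bx π θ d x γ) (h' : Bx π θ d x γ') (hlt : γ < γ') :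
    T π d γ' (.inr γ) (x (.inr γ)) := by
  induction γ using WellFoundedLT.induction with
  | ind γ ih =>
  obtain ⟨i, hi⟩ := (((act_iff π θ d).1 h'.1).2.2.2.2 γ hlt h.1).2 fun y i hy => by
    rw [← h.2 _ _ hy]
    exact ih y hy.lt (h.of_T hy) (hy.lt.trans hlt)
  rwa [h'.2 _ _ hi]

theorem Bx.sub (h : Bx π θ d x γ) (h' : Bx π θ d x γ') (hle : γ ≤ γ') (h1 : T π d γ l i) :
    T π d γ' l i := by
  rcases hle.lt_or_eq with h2 | rfl
  exacts [h'.1.sub (h.T_of_lt h' h2) h1, h1]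

theorem Act.chain (h : Act π θ d ζ) (h1 : T π d ζ (.inr y) i) (h2 : T π d ζ (.inr y') i')
    (hlt : y' < y) : T π d y (.inr y') i' := by
  classical
  have hx : Bx π θ d (fun l => decide (T π d ζ l true)) ζ := ⟨h, fun l i hl => by
    cases i
    · exact decide_eq_false fun h' => by simpa using h.func hl h'
    · exact decide_eq_true hl⟩
  exact hx.2 _ _ h2 ▸ (hx.of_T h2).T_of_lt (hx.of_T h1) hlt

theorem T0.sd_unique (h0 : T0 θ d) (hz : ζ < θ) (h : Sd π d a ζ j) (h' : Sd π d a ζ j') : j = j' :=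
  ((sd_iff π d).1 h).unique (h0.fn ζ hz) ((sd_iff π d).1 h')

theorem T0.sd_exists (h0 : T0 θ d) (hz : Act π θ d ζ) (h : T π d ζ a i) : ∃ j, Sd π d a ζ j := by
  obtain ⟨e, rfl⟩ := h.exists_lab
  obtain ⟨n, j, h1⟩ := h0.onto ζ hz.mem hz.lt e
  obtain ⟨-, -, -, j', -, -, h2⟩ := First.exists
    (hit := fun e' => Hit π d (lab π ζ e) ζ (lab π ζ e')) h1 ⟨i, h, U_self _ _ _ _⟩
  exact ⟨j', (sd_iff π d).2 h2⟩

theorem U.le (h : U π d (.inr y) (.inr γ) i) : y ≤ γ := by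
  rcases (U_inr π d).1 h with h | ⟨⟨_, h⟩, -⟩
  exacts [(Sum.inr.inj h).le, h.lt.le]

/-- the side lemma -/
theorem side (h0 : T0 θ d) (hx : Con π θ d x) (hz : Act π θ d ζ) (h1 : T π d ζ a i)
    (h2 : x a = !i) (h3 : ∀ γ, a = .inr γ → Ext π d x γ) :
    (∀ l il, T π d ζ l il → (x l = !il ↔ U π d a l il)) ∧ Sd π d a ζ (x (.inr ζ)) := by
  induction ζ using WellFoundedLT.induction with
  | ind ζ ih =>
  have key : ∀ l il, T π d ζ l il → (x l = !il ↔ U π d a l il) := by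
    intro l il hl
    by_cases ha : a = l
    · subst ha
      rw [hz.func hl h1]
      exact iff_of_true h2 (U_self _ _ _ _)
    rcases l with m | y
    · rw [U_inl]
      refine iff_of_false (fun h => ?_) ha
      rw [(T_inl π d).1 hl] at h
      rcases a with m' | a'
      · rw [(T_inl π d).1 h1] at h2
        exact ha (congrArg _ (hx.one _ _ h2 h))
      · simp [(h3 a' rfl).inf m] at h
    · rw [U_inr, or_iff_right ha]
      by_cases hy : ∃ i', T π d y a i'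
      · obtain ⟨i', hy⟩ := hy
        obtain rfl : i' = i := hz.func (hz.sub hl hy) h1
        have := (ih y hl.lt (hz.of_T hl) hy).2
        exact ⟨fun h => ⟨⟨_, hy⟩, h ▸ this⟩, fun h => h0.sd_unique (hz.of_T hl).lt this h.2⟩
      · refine iff_of_false (fun h => ?_) fun h => hy h.1
        rcases a with m' | a'
        · exact hy ⟨false, rfl⟩
        · rcases lt_trichotomy a' y with h4 | rfl | h4
          · exact hy ⟨i, hz.chain hl h1 h4⟩
          · exact ha rfl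
          · simp [h3 a' rfl _ _ (hz.chain h1 hl h4)] at h
  refine ⟨key, ?_⟩
  obtain ⟨j, hj⟩ := h0.sd_exists hz h1
  rwa [hx.fst ζ hz j ((First.congr fun e => ?_).1 ((sd_iff π d).1 hj))]
  constructor
  · rintro ⟨il, b1, b2⟩
    rw [(key _ _ b1).2 b2, Bool.not_not]
    exact b1
  · exact fun h => ⟨_, h, (key _ _ h).1 (Bool.not_not _).symm⟩

/-- neighbourhoods are determined by the branch -/
theorem nbhd_set {E : Set (ℕ ⊕ I)} (hE : E.Finite)
    (h : ∀ l ∈ E, ∃ F : Finset (ℕ ⊕ I), (∀ γ, .inr γ ∈ F → Bx π θ d x γ) ∧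
      ∀ x', Con π θ d x' → (∀ l' ∈ F, x' l' = x l') → x' l = x l) :
    ∃ F : Finset (ℕ ⊕ I), (∀ γ, .inr γ ∈ F → Bx π θ d x γ) ∧
      ∀ x', Con π θ d x' → (∀ l' ∈ F, x' l' = x l') → ∀ l ∈ E, x' l = x l := by
  classical
  induction E, hE using Set.Finite.induction_on with
  | empty => exact ⟨∅, by simp, by simp⟩
  | @insert l E _ _ ih =>
    obtain ⟨F, a1, a2⟩ := ih fun l hl => h l (mem_insert_of_mem _ hl)
    obtain ⟨F', b1, b2⟩ := h l (mem_insert _ _)
    refine ⟨F ∪ F', fun γ hγ => (Finset.mem_union.1 hγ).elim (a1 γ) (b1 γ), fun x' c1 c2 l' hl' => ?_⟩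
    rcases hl' with rfl | hl'
    · exact b2 x' c1 fun l hl => c2 l (Finset.mem_union_right _ hl)
    · exact a2 x' c1 (fun l hl => c2 l (Finset.mem_union_left _ hl)) l' hl'

theorem nbhd_one (h0 : T0 θ d) (hx : Con π θ d x) (l : ℕ ⊕ I) :
    ∃ F : Finset (ℕ ⊕ I), (∀ γ, .inr γ ∈ F → Bx π θ d x γ) ∧
      ∀ x', Con π θ d x' → (∀ l' ∈ F, x' l' = x l') → x' l = x l := by
  have hn : ∀ m, ∃ F : Finset (ℕ ⊕ I), (∀ γ, .inr γ ∈ F → Bx π θ d x γ) ∧
      ∀ x', Con π θ d x' → (∀ l' ∈ F, x' l' = x l') → x' (.inl m) = x (.inl m) :=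
    fun m => ⟨{.inl m}, by simp, fun x' _ h => h _ (by simp)⟩
  rcases l with m | γ
  · exact hn m
  induction γ using WellFoundedLT.induction with
  | ind γ ih =>
  by_cases h1 : Act π θ d γ
  swap
  · refine ⟨∅, by simp, fun x' h _ => ?_⟩
    rw [Bool.eq_false_iff.2 fun h' => h1 (h.act γ h'), Bool.eq_false_iff.2 fun h' => h1 (hx.act γ h')]
  by_cases h2 : Ext π d x γ
  · exact ⟨{.inr γ}, by simpa using ⟨h1, h2⟩, fun x' _ h => h _ (by simp)⟩
  simp only [Ext, not_forall] at h2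
  obtain ⟨l0, i, a1, a2⟩ := h2
  obtain ⟨e, rfl⟩ := a1.exists_lab
  obtain ⟨n, j, a3⟩ := h0.onto γ h1.mem h1.lt e
  obtain ⟨-, -, -, j', -, -, a4⟩ := First.exists
    (hit := fun e => T π d γ (lab π γ e) (!x (lab π γ e))) a3
    (Bool.eq_not_of_ne (Ne.symm a2) ▸ a1)
  have a5 := hx.fst γ h1 j' a4
  obtain ⟨n', e', b1, b2, b3⟩ := a4
  have hE : {l | ∃ k ≤ n', ∃ e j, ent d γ k (e, j) ∧ lab π γ e = l ∧ ∃ i, T π d γ l i}.Finite := by
    refine (((finite_Iic n').biUnion fun k _ => Subsingleton.finite (s := {x | ent d γ k x})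
      fun x hx y hy => h0.fn γ h1.lt k x y hx hy).image fun x => lab π γ x.1).subset ?_
    rintro _ ⟨k, c1, e, j, c2, rfl, -⟩
    exact ⟨(e, j), mem_biUnion c1 c2, rfl⟩
  obtain ⟨F, c1, c2⟩ := nbhd_set (x := x) hE (by
    rintro (m | y) ⟨k, -, e, j, -, -, i, h⟩
    exacts [hn m, ih y h.lt])
  refine ⟨F, c1, fun x' d1 d2 => ?_⟩
  rw [a5]
  refine d1.fst γ h1 j' ⟨n', e', b1, ?_, fun k hk e2 j2 d3 d4 => b3 k hk e2 j2 d3 ?_⟩
  · beta_reduce
    rw [c2 x' d1 d2 _ ⟨n', le_rfl, e', j', b1, rfl, _, b2⟩]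
    exact b2
  · beta_reduce
    rw [← c2 x' d1 d2 _ ⟨k, hk.le, e2, j2, d3, rfl, _, d4⟩]
    exact d4

theorem nbhd (h0 : T0 θ d) (hx : Con π θ d x) (E : Finset (ℕ ⊕ I)) :
    ∃ F : Finset (ℕ ⊕ I), (∀ γ, .inr γ ∈ F → Bx π θ d x γ) ∧
      ∀ x', Con π θ d x' → (∀ l' ∈ F, x' l' = x l') → ∀ l ∈ E, x' l = x l :=
  nbhd_set E.finite_toSet fun l _ => nbhd_one h0 hx l

open Classical in
variable (π θ d) in
/-- the isolated points -/
noncomputable def natPt (m : ℕ) : Pt I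
  | .inl m' => decide (m' = m)
  | .inr γ => decide (Act π θ d γ ∧ Sd π d (.inl m) γ true)

theorem natPt_eq (h0 : T0 θ d) {m : ℕ} (hz : Act π θ d ζ) (h : Sd π d (.inl m) ζ j) :
    natPt π θ d m (.inr ζ) = j := by
  cases j
  · simp only [natPt, decide_eq_false_iff_not]
    exact fun h' => by simpa using h0.sd_unique hz.lt h h'.2
  · simp [natPt, hz, h]

theorem con_natPt (h0 : T0 θ d) (m : ℕ) : Con π θ d (natPt π θ d m) := by
  refine ⟨fun γ h => ?_, fun a b h1 h2 => ?_, fun ζ hz j h => ?_⟩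
  · simp only [natPt, decide_eq_true_eq] at h
    exact h.1
  · simp only [natPt, decide_eq_true_eq] at h1 h2
    rw [h1, h2]
  refine natPt_eq h0 hz ((sd_iff π d).2 ((First.congr fun e => ?_).1 h))
  rcases lab π ζ e with m' | y
  · simp only [Hit, natPt, T_inl, U_inl, exists_eq_left, Sum.inl.injEq, Bool.not_eq_false',
      decide_eq_true_eq]
    exact eq_comm
  · simp only [Hit, U_inr, reduceCtorEq, false_or, T_inl, exists_eq, true_and]
    constructor
    · intro h1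
      obtain ⟨j', h2⟩ := h0.sd_exists (a := .inl m) (i := false) (hz.of_T h1) rfl
      refine ⟨_, h1, ?_⟩
      rwa [Bool.not_not, natPt_eq h0 (hz.of_T h1) h2]
    · rintro ⟨i, h1, h2⟩
      rwa [natPt_eq h0 (hz.of_T h1) h2, Bool.not_not]

end Pool.Agent.P.MP_c9188c_gt
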